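import Mathlib

/-! Cochains on the cubical grid. -/

namespace Pool.Agent.P.MP_07c576_gt

open Function

/-- A cell of the grid: for each coordinate a position and a flag for the active directions. -/
abbrev Cell : Type := List (ℤ × Bool)

/-- The dimension of a cell. -/
def dim (c : Cell) : ℕ := c.countP (·.2)

@[simp] theorem dim_nil : dim [] = 0 := rfl

@[simp] theorem dim_false (z : ℤ) (c : Cell) : dim ((z, false) :: c) = dim c := by simp [dim]

@[simp] theorem dim_true (z : ℤ) (c : Cell) : dim ((z, true) :: c) = dim c + 1 := by simp [dim]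

@[simp] theorem dim_append (c c' : Cell) : dim (c ++ c') = dim c + dim c' := by simp [dim]

theorem dim_le (c : Cell) : dim c ≤ c.length := List.countP_le_length

/-- Faces of an interval or a point. -/
def F1 (a b : ℤ × Bool) : Prop := a = b ∨ b.2 = true ∧ (a = (b.1, false) ∨ a = (b.1 + 1, false))

/-- Faces of a cell. -/
abbrev Face (f c : Cell) : Prop := List.Forall₂ F1 f c

theorem Face.keep {f c : Cell} (h : Face f c) (a : ℤ × Bool) : Face (a :: f) (a :: c) :=
  .cons (Or.inl rfl) h

theorem Face.lo {f c : Cell} (h : Face f c) (z : ℤ) : Face ((z, false) :: f) ((z, true) :: c) :=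
  .cons (Or.inr ⟨rfl, Or.inl rfl⟩) h

theorem Face.hi {f c : Cell} (h : Face f c) (z : ℤ) : Face ((z + 1, false) :: f) ((z, true) :: c) :=
  .cons (Or.inr ⟨rfl, Or.inr rfl⟩) h

theorem Face.rfl {c : Cell} : Face c c := by
  induction c with
  | nil => exact .nil
  | cons a c ih => exact ih.keep a

theorem Face.trans {a b c : Cell} (h : Face a b) (h' : Face b c) : Face a c := by
  induction h generalizing c with
  | nil => exact h'
  | cons h1 _ ih =>
    cases h' with
    | cons h2 h3 =>
      refine .cons ?_ (ih h3)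
      rcases h1 with rfl | ⟨h1, h4⟩
      · exact h2
      · rcases h2 with rfl | ⟨_, rfl | rfl⟩
        · exact Or.inr ⟨h1, h4⟩
        · simp at h1
        · simp at h1

theorem Face.dim_le {f c : Cell} (h : Face f c) : dim f ≤ dim c ∧ (dim f = dim c → f = c) := by
  induction h with
  | nil => simp
  | @cons a b f c h1 _ ih =>
    obtain ⟨z, b⟩ := b
    rcases h1 with rfl | ⟨rfl, rfl | rfl⟩
    · cases b
      · simpa using ih
      · simpa using ih
    · simp only [dim_false, dim_true]; omega
    · simp only [dim_false, dim_true]; omega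

theorem Face.append {f c f' c' : Cell} (h : Face f c) (h' : Face f' c') :
    Face (f ++ f') (c ++ c') := List.rel_append h h'

theorem Face.split {f e κ : Cell} (h : Face f (e ++ κ)) :
    ∃ f₁ f₂, f = f₁ ++ f₂ ∧ Face f₁ e ∧ Face f₂ κ :=
  ⟨_, _, (List.take_append_drop e.length f).symm, List.forall₂_take_append _ _ _ h,
    List.forall₂_drop_append _ _ _ h⟩

variable {H H' A : Type} [AddCommGroup H] [AddCommGroup H'] [CommRing A] [Module A H]

/-- The coboundary. -/
def dl : (Cell → H) → Cell → H
  | _, [] => 0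
  | u, (z, false) :: c => dl (fun c => u ((z, false) :: c)) c
  | u, (z, true) :: c =>
    u ((z + 1, false) :: c) - u ((z, false) :: c) - dl (fun c => u ((z, true) :: c)) c

theorem dl_hom (f : H →+ H') (u : Cell → H) (c : Cell) : dl (fun c => f (u c)) c = f (dl u c) := by
  induction c generalizing u with
  | nil => simp [dl]
  | cons a c ih =>
    obtain ⟨z, _ | _⟩ := a
    · exact ih _
    · simp only [dl, map_sub, ← ih]

theorem dl_add (u v : Cell → H) (c : Cell) : dl (fun c => u c + v c) c = dl u c + dl v c := by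
  induction c generalizing u v with
  | nil => simp [dl]
  | cons a c ih =>
    obtain ⟨z, _ | _⟩ := a
    · exact ih _ _
    · simp only [dl, ih]
      abel

theorem dl_neg (u : Cell → H) (c : Cell) : dl (fun c => -u c) c = -dl u c :=
  dl_hom (negAddMonoidHom : H →+ H) u c

theorem dl_sub (u v : Cell → H) (c : Cell) : dl (fun c => u c - v c) c = dl u c - dl v c := by
  simp only [sub_eq_add_neg, dl_add, dl_neg]

theorem dl_congr {u v : Cell → H} {c : Cell}
    (h : ∀ f, Face f c → dim f + 1 = dim c → u f = v f) : dl u c = dl v c := by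
  induction c generalizing u v with
  | nil => rfl
  | cons a c ih =>
    obtain ⟨z, _ | _⟩ := a
    · exact ih fun f hf e => h _ (hf.keep _) (by simpa using e)
    · simp only [dl]
      rw [h _ (Face.rfl.hi z) (by simp), h _ (Face.rfl.lo z) (by simp),
        ih (v := fun c => v ((z, true) :: c)) fun f hf e => h _ (hf.keep _) (by simpa using e)]

theorem dl_zero (c : Cell) : dl (fun _ => (0 : H)) c = 0 := dl_hom (0 : H →+ H) (fun _ => 0) c

theorem dl_dl (u : Cell → H) (c : Cell) : dl (dl u) c = 0 := by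
  induction c generalizing u with
  | nil => rfl
  | cons a c ih =>
    obtain ⟨z, _ | _⟩ := a
    · exact ih _
    · simp only [dl, dl_sub]
      rw [ih]
      abel

theorem dl_append (u : Cell → H) (e κ : Cell) : dl u (e ++ κ) =
    dl (fun e => u (e ++ κ)) e + (-1 : ℤ) ^ dim e • dl (fun κ => u (e ++ κ)) κ := by
  induction e generalizing u with
  | nil => simp [dl]
  | cons a e ih =>
    obtain ⟨z, _ | _⟩ := a
    · simpa [dl] using ih _
    · simp only [List.cons_append, dl, ih, dim_true, pow_succ, mul_neg, mul_one, neg_smul]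
      abel

theorem dl_of_dim {e : Cell} (h : dim e = 0) (u : Cell → H) : dl u e = 0 :=
  (dl_congr (v := fun _ => 0) fun _ _ e => by omega).trans (dl_zero e)

/-- The sign involution. -/
def eps (u : Cell → H) (c : Cell) : H := (-1 : ℤ) ^ dim c • u c

theorem eps_eps (u : Cell → H) : eps (eps u) = u := by
  funext c
  rw [eps, eps, smul_smul, ← mul_pow]
  simp

theorem eps_false (u : Cell → H) (z : ℤ) :
    (fun c => eps u ((z, false) :: c)) = eps fun c => u ((z, false) :: c) := by
  funext c
  simp [eps]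

theorem eps_true (u : Cell → H) (z : ℤ) :
    (fun c => eps u ((z, true) :: c)) = fun c => -eps (fun c => u ((z, true) :: c)) c := by
  funext c
  simp [eps, pow_succ]

theorem dl_eps (u : Cell → H) : dl (eps u) = fun c => -eps (dl u) c := by
  funext c
  rcases eq_or_ne (dim c) 0 with h | h
  · simp [eps, dl_of_dim h]
  · rw [dl_congr (v := fun f => -((-1 : ℤ) ^ dim c • u f)) fun f _ e => by
      simp [eps, ← e, pow_succ], dl_neg]
    exact congrArg _ (dl_hom (DistribSMul.toAddMonoidHom H ((-1 : ℤ) ^ dim c)) u c)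

/-- The cup product. -/
def cup : (Cell → H) → (Cell → A) → Cell → H
  | u, v, [] => v [] • u []
  | u, v, (z, false) :: c => cup (fun c => u ((z, false) :: c)) (fun c => v ((z, false) :: c)) c
  | u, v, (z, true) :: c => cup (fun c => u ((z, true) :: c)) (fun c => v ((z + 1, false) :: c)) c +
      cup (eps fun c => u ((z, false) :: c)) (fun c => v ((z, true) :: c)) c

theorem eps_sub (u u' : Cell → H) : (eps fun c => u c - u' c) = fun c => eps u c - eps u' c := by
  funext c
  simp [eps, smul_sub]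

theorem cup_sub_left (u u' : Cell → H) (v : Cell → A) (c : Cell) :
    cup (fun c => u c - u' c) v c = cup u v c - cup u' v c := by
  induction c generalizing u u' v with
  | nil => simp [cup, smul_sub]
  | cons a c ih =>
    obtain ⟨z, _ | _⟩ := a
    · exact ih _ _ _
    · simp only [cup, ih, eps_sub]
      abel

theorem cup_sub_right (u : Cell → H) (v v' : Cell → A) (c : Cell) :
    cup u (fun c => v c - v' c) c = cup u v c - cup u v' c := by
  induction c generalizing u v v' with
  | nil => simp [cup, sub_smul]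
  | cons a c ih =>
    obtain ⟨z, _ | _⟩ := a
    · exact ih _ _ _
    · simp only [cup, ih]
      abel

theorem cup_congr {u u' : Cell → H} {v v' : Cell → A} {c : Cell} (h : ∀ f, Face f c → u f = u' f)
    (h' : ∀ f, Face f c → v f = v' f) : cup u v c = cup u' v' c := by
  induction c generalizing u u' v v' with
  | nil => simp [cup, h _ .nil, h' _ .nil]
  | cons a c ih =>
    obtain ⟨z, _ | _⟩ := a
    · exact ih (fun f hf => h _ (hf.keep _)) fun f hf => h' _ (hf.keep _)
    · simp only [cup]
      congr 1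
      · exact ih (fun f hf => h _ (hf.keep _)) fun f hf => h' _ (hf.hi _)
      · exact ih (fun f hf => congrArg _ (h _ (hf.lo _))) fun f hf => h' _ (hf.keep _)

theorem cup_zero_left {u : Cell → H} (v : Cell → A) {c : Cell} (h : ∀ f, Face f c → u f = 0) :
    cup u v c = 0 := by
  rw [cup_congr (u' := fun c => u c - u c) (by simpa using h) fun _ _ => rfl, cup_sub_left, sub_self]

theorem cup_zero_right (u : Cell → H) {v : Cell → A} {c : Cell} (h : ∀ f, Face f c → v f = 0) :
    cup u v c = 0 := by
  rw [cup_congr (v' := fun c => v c - v c) (fun _ _ => rfl) (by simpa using h), cup_sub_right,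
    sub_self]

theorem cup_neg_left (u : Cell → H) (v : Cell → A) (c : Cell) :
    cup (fun c => -u c) v c = -cup u v c := by
  have := cup_sub_left (fun _ => 0) u v c
  simpa [cup_zero_left (u := fun _ => (0 : H)) v fun _ _ => rfl] using this

theorem dl_cup (u : Cell → H) (v : Cell → A) (c : Cell) :
    dl (cup u v) c = cup (dl u) v c + cup (eps u) (dl v) c := by
  induction c generalizing u v with
  | nil => simp [dl, cup]
  | cons a c ih =>
    obtain ⟨z, _ | _⟩ := a
    · simp only [dl, cup, eps_false]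
      exact ih _ _
    · simp only [dl, cup, dl_add, eps_false, eps_true, eps_eps, cup_sub_left, cup_sub_right,
        cup_neg_left]
      rw [ih, ih, dl_eps, eps_eps, cup_neg_left]
      abel

/-- The last vertex of a cell. -/
def lastv (e : Cell) : Cell := e.map fun a => (if a.2 then a.1 + 1 else a.1, false)

theorem dim_lastv (e : Cell) : dim (lastv e) = 0 := by simp [dim, lastv]

theorem cup_eval1 {u : Cell → H} (v : Cell → A) {e κ : Cell}
    (h : ∀ f κ', Face f e → dim f < dim e → Face κ' κ → u (f ++ κ') = 0) :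
    cup u v (e ++ κ) = cup (fun κ => u (e ++ κ)) (fun κ => v (lastv e ++ κ)) κ := by
  induction e generalizing u v with
  | nil => rfl
  | cons a e ih =>
    obtain ⟨z, _ | _⟩ := a
    · exact ih _ fun f κ' h1 h2 h3 => h _ κ' (h1.keep (z, false)) (by simpa using h2) h3
    · simp only [List.cons_append, cup]
      rw [ih (u := fun c => u ((z, true) :: c)) _
        fun f κ' h1 h2 h3 => h _ κ' (h1.keep (z, true)) (by simpa using h2) h3,
        cup_zero_left (u := eps _), add_zero]
      · rfl
      · intro f hf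
        obtain ⟨f₁, f₂, rfl, h1, h2⟩ := hf.split
        have := h _ f₂ (h1.lo z) (by simpa [Nat.lt_succ_iff] using h1.dim_le.1) h2
        rw [List.cons_append] at this
        simp [eps, this]

theorem cup_eval2 {u : Cell → H} (v : Cell → A) {κ : Cell} {z₀ : H}
    (h : ∀ f, Face f κ → u f = if dim f = 0 then z₀ else 0) : cup u v κ = v κ • z₀ := by
  induction κ generalizing u v with
  | nil => simp [cup, h _ .nil]
  | cons a κ ih =>
    obtain ⟨z, _ | _⟩ := a
    · exact ih _ fun f hf => by simpa using h _ (hf.keep (z, false))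
    · simp only [cup]
      rw [cup_zero_left _ fun f hf => by simpa using h _ (hf.keep (z, true)), zero_add]
      refine ih _ fun f hf => ?_
      have := h _ (hf.lo z)
      rw [eps, this, dim_false]
      split_ifs with e <;> simp [e]

/-- The sum over the top cells of a box. -/
def bsum : List ℕ → (Cell → H) → H
  | [], u => u []
  | M :: Ms, u => ∑ z ∈ Finset.range M, bsum Ms fun κ => u ((z, true) :: κ)

/-- Top cells of a box. -/
abbrev InB (Ms : List ℕ) (κ : Cell) : Prop :=
  List.Forall₂ (fun (a : ℤ × Bool) (M : ℕ) => a.2 = true ∧ 0 ≤ a.1 ∧ a.1 < M) κ Ms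

/-- Cells in the hyperplanes that bound a box. -/
def OnB (Ms : List ℕ) (κ : Cell) : Prop := κ.length = Ms.length ∧ ∃ i < Ms.length,
  κ.getD i (0, false) = (0, false) ∨ κ.getD i (0, false) = ((Ms.getD i 0 : ℤ), false)

theorem OnB.cons {Ms : List ℕ} {κ : Cell} (h : OnB Ms κ) (M : ℕ) (a : ℤ × Bool) :
    OnB (M :: Ms) (a :: κ) :=
  let ⟨h1, i, h2, h3⟩ := h
  ⟨by simp [h1], i + 1, by simpa using h2, h3⟩

theorem Face.getD {f c : Cell} (h : Face f c) (i : ℕ) :
    F1 (f.getD i (0, false)) (c.getD i (0, false)) := by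
  induction h generalizing i with
  | nil => exact Or.inl (Eq.refl _)
  | cons h1 _ ih =>
    cases i with
    | zero => exact h1
    | succ i => exact ih i

theorem OnB.face {Ms : List ℕ} {κ f : Cell} (h : OnB Ms κ) (hf : Face f κ) : OnB Ms f := by
  obtain ⟨h1, i, h2, h3⟩ := h
  refine ⟨hf.length_eq.trans h1, i, h2, ?_⟩
  rcases hf.getD i with e | ⟨e, -⟩
  · rwa [e]
  · rcases h3 with h3 | h3 <;> rw [h3] at e <;> simp at e

theorem InB.dim {Ms : List ℕ} {κ : Cell} (h : InB Ms κ) : dim κ = Ms.length := by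
  induction h with
  | nil => rfl
  | @cons a _ _ _ h1 _ ih =>
    obtain ⟨z, b⟩ := a
    obtain rfl : b = true := h1.1
    simp [ih]

theorem bsum_congr {Ms : List ℕ} {u v : Cell → H} (h : ∀ κ, InB Ms κ → u κ = v κ) :
    bsum Ms u = bsum Ms v := by
  induction Ms generalizing u v with
  | nil => exact h _ .nil
  | cons M Ms ih =>
    exact Finset.sum_congr rfl fun z hz => ih fun κ hκ =>
      h _ (.cons ⟨rfl, by simp, by simpa using hz⟩ hκ)

theorem bsum_hom (f : H →+ H') (Ms : List ℕ) (u : Cell → H) :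
    bsum Ms (fun c => f (u c)) = f (bsum Ms u) := by
  induction Ms generalizing u with
  | nil => rfl
  | cons M Ms ih => simp only [bsum, map_sum, ← ih]

theorem bsum_zsmul (n : ℤ) (Ms : List ℕ) (u : Cell → H) :
    bsum Ms (fun c => n • u c) = n • bsum Ms u := bsum_hom (DistribSMul.toAddMonoidHom H n) Ms u

theorem bsum_sub (Ms : List ℕ) (u v : Cell → H) :
    bsum Ms (fun c => u c - v c) = bsum Ms u - bsum Ms v := by
  induction Ms generalizing u v with
  | nil => rfl
  | cons M Ms ih => simp only [bsum, ih, Finset.sum_sub_distrib]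

theorem bsum_zero {Ms : List ℕ} {u : Cell → H} (h : ∀ κ, InB Ms κ → u κ = 0) : bsum Ms u = 0 :=
  (bsum_congr h).trans (bsum_hom (0 : H →+ H) Ms u)

theorem bsum_add (Ms : List ℕ) (u v : Cell → H) :
    bsum Ms (fun c => u c + v c) = bsum Ms u + bsum Ms v := by
  induction Ms generalizing u v with
  | nil => rfl
  | cons M Ms ih => simp only [bsum, ih, Finset.sum_add_distrib]

theorem bsum_mem {S : AddSubgroup H} {Ms : List ℕ} {u : Cell → H} (h : ∀ κ, InB Ms κ → u κ ∈ S) :
    bsum Ms u ∈ S := by
  induction Ms generalizing u with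
  | nil => exact h _ .nil
  | cons M Ms ih =>
    exact S.sum_mem fun z hz => ih fun κ hκ => h _ (.cons ⟨rfl, by simp, by simpa using hz⟩ hκ)

theorem bsum_append (Ms Ns : List ℕ) (u : Cell → H) :
    bsum (Ms ++ Ns) u = bsum Ms fun κ => bsum Ns fun κ' => u (κ ++ κ') := by
  induction Ms generalizing u with
  | nil => rfl
  | cons M Ms ih => simp only [List.cons_append, bsum, ih]

theorem dl_bsum (Ms : List ℕ) (U : Cell → Cell → H) (e : Cell) :
    dl (fun e => bsum Ms (U e)) e = bsum Ms fun κ => dl (fun e => U e κ) e :=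
  (dl_hom (AddMonoidHom.mk' (bsum Ms) (bsum_add Ms)) U e).trans
    (congrArg (bsum Ms) (funext fun κ => (dl_hom (Pi.evalAddMonoidHom (fun _ => H) κ) U e).symm))

theorem stokes_aux (M : ℕ) (Ms : List ℕ) (u : Cell → H)
    (h : ∀ z : ℤ, bsum Ms (dl fun κ => u ((z, true) :: κ)) = 0) : bsum (M :: Ms) (dl u) =
      (bsum Ms fun κ => u ((M, false) :: κ)) - bsum Ms fun κ => u ((0, false) :: κ) := by
  simp only [bsum, dl, bsum_sub]
  rw [Finset.sum_congr rfl fun z _ => by rw [h, sub_zero]]
  exact Finset.sum_range_sub (fun z : ℕ => bsum Ms fun κ => u (((z : ℤ), false) :: κ)) M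

theorem stokes {Ms : List ℕ} {u : Cell → H} (h : ∀ κ, OnB Ms κ → u κ = 0) : bsum Ms (dl u) = 0 := by
  induction Ms generalizing u with
  | nil => rfl
  | cons M Ms ih =>
    rw [stokes_aux M Ms u fun z => ih fun κ hκ => h _ (hκ.cons _ _),
      bsum_zero fun κ hκ => h _ ⟨by simp [hκ.length_eq], 0, by simp, Or.inr rfl⟩,
      bsum_zero fun κ hκ => h _ ⟨by simp [hκ.length_eq], 0, by simp, Or.inl rfl⟩, sub_zero]

theorem stokes_first (M : ℕ) {Ms : List ℕ} {u : Cell → H}
    (h : ∀ z κ, OnB Ms κ → u ((z, true) :: κ) = 0) : bsum (M :: Ms) (dl u) =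
      (bsum Ms fun κ => u ((M, false) :: κ)) - bsum Ms fun κ => u ((0, false) :: κ) :=
  stokes_aux M Ms u fun z => stokes (h z)

theorem stokes_last (M : ℕ) {Ms : List ℕ} {u : Cell → H}
    (h : ∀ z κ, OnB Ms κ → u (κ ++ [(z, true)]) = 0) : bsum (Ms ++ [M]) (dl u) =
      (-1 : ℤ) ^ Ms.length • ((bsum Ms fun κ => u (κ ++ [((M : ℤ), false)])) -
        bsum Ms fun κ => u (κ ++ [(0, false)])) := by
  rw [bsum_append, ← bsum_sub, ← bsum_zsmul]
  rw [bsum_congr (v := fun κ => dl (fun κ => ∑ z ∈ Finset.range M, u (κ ++ [((z : ℤ), true)])) κ +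
    (-1 : ℤ) ^ Ms.length • (u (κ ++ [((M : ℤ), false)]) - u (κ ++ [(0, false)]))) fun κ hκ => ?_,
    bsum_add, stokes fun κ hκ => Finset.sum_eq_zero fun (z : ℕ) _ => h z κ hκ, zero_add]
  · have e := dl_bsum [M] (fun κ κ' => u (κ ++ κ')) κ
    have e' := stokes_aux M [] (fun κ' => u (κ ++ κ')) fun _ => rfl
    simp only [bsum] at e e' ⊢
    simp only [dl_append, Finset.sum_add_distrib, hκ.dim, ← Finset.smul_sum, e, e']

theorem prism {Ms : List ℕ} {u : Cell → H} (h : ∀ z κ, OnB Ms κ → u (κ ++ [(z, true)]) = 0)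
    (h' : ∀ κ, InB Ms κ → dl u (κ ++ [(0, true)]) = 0) :
    (bsum Ms fun κ => u (κ ++ [(1, false)])) = bsum Ms fun κ => u (κ ++ [(0, false)]) := by
  have := stokes_last 1 h
  rw [bsum_append, bsum_zero fun κ hκ => by simpa [bsum] using h' κ hκ] at this
  rcases neg_one_pow_eq_or ℤ Ms.length with e | e
  · rw [e, one_smul, eq_comm, sub_eq_zero] at this
    exact this
  · rw [e, neg_one_smul, eq_comm, neg_eq_zero, sub_eq_zero] at this
    exact this

theorem bsum_single {Ms : List ℕ} (hM : ∀ M ∈ Ms, 0 < M) {u : Cell → H}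
    (h : ∀ κ, InB Ms κ → (∃ i, 1 ≤ (κ.getD i (0, false)).1) → u κ = 0) :
    bsum Ms u = u (List.replicate Ms.length (0, true)) := by
  induction Ms generalizing u with
  | nil => rfl
  | cons M Ms ih =>
    rw [bsum, Finset.sum_eq_single 0]
    · exact ih (fun M' h' => hM M' (by simp [h'])) fun κ hκ ⟨i, hi⟩ =>
        h _ (.cons ⟨rfl, by simp, by simpa using hM M (by simp)⟩ hκ) ⟨i + 1, hi⟩
    · exact fun z hz h0 => bsum_zero fun κ hκ =>
        h _ (.cons ⟨rfl, by simp, by simpa using hz⟩ hκ) ⟨0, by simp; omega⟩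
    · exact fun h0 => absurd (Finset.mem_range.2 (hM M (by simp))) h0

theorem sum_periodic (f : ℕ → H) (M N : ℕ) (h : ∀ z, z + M < N * M → f (z + M) = f z) :
    ∑ z ∈ Finset.range (N * M), f z = N • ∑ z ∈ Finset.range M, f z := by
  induction N with
  | zero => simp
  | succ N ih =>
    rw [succ_nsmul, ← ih fun z hz => h z (by nlinarith), Nat.succ_mul, add_comm (N * M),
      Finset.sum_range_add, add_comm]
    congr 1
    refine Finset.sum_congr rfl fun z hz => ?_
    rw [add_comm, h z (by rw [Nat.succ_mul]; simpa using hz)]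

/-- The primitive given by the Thom class. -/
def thc (Z : Cell → H) (τ : Cell → A) (Ms : List ℕ) (e : Cell) : H :=
  bsum Ms fun κ => cup (fun c => -eps (fun c => Z (c ++ [(0, true)])) c) τ (e ++ κ)

theorem thc_zero {Z : Cell → H} {τ : Cell → A} {Ms : List ℕ} {e : Cell}
    (h : ∀ κ, InB Ms κ → (∀ f, Face f (e ++ κ) → Z (f ++ [(0, true)]) = 0) ∨
      ∀ f, Face f (e ++ κ) → τ f = 0) : thc Z τ Ms e = 0 :=
  bsum_zero fun κ hκ => (h κ hκ).elim
    (fun h => cup_zero_left _ fun f hf => by simp [eps, h f hf]) (cup_zero_right _)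

theorem thc_shift {Z : Cell → H} {τ : Cell → A} (Ms : List ℕ) {z z' : ℤ} (a : ℤ × Bool) (e : Cell)
    (h1 : ∀ b c, Z (a :: (z, b) :: c) = Z (a :: (z', b) :: c))
    (h2 : ∀ c, τ (a :: (z, true) :: c) = τ (a :: (z', true) :: c))
    (h3 : ∀ c, τ (a :: (z + 1, false) :: c) = τ (a :: (z' + 1, false) :: c)) (ha : a.2 = false) :
    thc Z τ Ms (a :: (z, true) :: e) = thc Z τ Ms (a :: (z', true) :: e) := by
  obtain ⟨w, _ | _⟩ := a
  · simp only [thc, List.cons_append, cup, eps, dim_false, dim_true, h1, h2, h3]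
  · simp at ha

theorem thomA {Z z : Cell → H} {τ : Cell → A} {Ms : List ℕ} {N n : ℕ} (hZ : ∀ c, dl Z c = 0)
    (hτ : ∀ c, dl τ c = 0) (hb : ∀ e κ, e.length = N → OnB Ms κ → τ (e ++ κ) = 0)
    (h1 : ∀ e κ, e.length = N → κ.length = Ms.length → Z (e ++ κ ++ [(1, false)]) = 0)
    (h0 : ∀ e κ, e.length = N → κ.length = Ms.length →
      Z (e ++ κ ++ [(0, false)]) = if dim κ = 0 then z e else 0)
    (hz : ∀ e, dim e < n → z e = 0)
    (ht : ∀ e, e.length = N → dim e = 0 → (bsum Ms fun κ => τ (e ++ κ)) = 1)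
    {e : Cell} (he : e.length = N) (hn : dim e = n) : dl (thc Z τ Ms) e = z e := by
  have hw : ∀ c, dl (fun c => -eps (fun c => Z (c ++ [(0, true)])) c) c =
      Z (c ++ [(0, false)]) - Z (c ++ [(1, false)]) := by
    intro c
    have := hZ (c ++ [(0, true)])
    rw [dl_append, add_eq_zero_iff_eq_neg] at this
    rw [dl_neg, dl_eps, neg_neg, eps, this]
    simp [dl, smul_smul, ← mul_pow]
  unfold thc
  generalize (fun c => -eps (fun c => Z (c ++ [(0, true)])) c) = w at hw ⊢
  rw [dl_bsum Ms (fun e κ => cup w τ (e ++ κ)),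
    bsum_congr (v := fun κ => τ (lastv e ++ κ) • z e -
      (-1 : ℤ) ^ dim e • dl (fun κ => cup w τ (e ++ κ)) κ) fun κ hκ => ?_,
    bsum_sub, bsum_zsmul, stokes fun κ hκ => cup_zero_right _ fun f hf => ?_, smul_zero, sub_zero]
  · refine (bsum_hom ((smulAddHom A H).flip (z e)) Ms _).trans ?_
    rw [ht _ (by simp [lastv, he]) (dim_lastv e)]
    simp
  · obtain ⟨f₁, f₂, rfl, h1, h2⟩ := hf.split
    exact hb _ _ (h1.length_eq.trans he) (hκ.face h2)
  · rw [eq_sub_iff_add_eq, ← dl_append (cup w τ), dl_cup, cup_zero_right _ fun f _ => hτ f, add_zero,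
      cup_eval1 _ fun f κ' e1 e2 e3 => ?_]
    · refine cup_eval2 _ fun f hf => ?_
      rw [hw, h0 _ _ he (hf.length_eq.trans hκ.length_eq),
        h1 _ _ he (hf.length_eq.trans hκ.length_eq), sub_zero]
    · rw [hw, h0 _ _ (e1.length_eq.trans he) (e3.length_eq.trans hκ.length_eq),
        h1 _ _ (e1.length_eq.trans he) (e3.length_eq.trans hκ.length_eq), hz f (by omega)]
      simp

end Pool.Agent.P.MP_07c576_gt
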