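import Pool.Agent.P.MP_07c576_gt.Tools

/-! A path contains an arc with the same end points. -/

namespace Pool.Agent.P.MP_07c576_gt

open Set Metric Topology Filter unitInterval

variable {X : Type} [MetricSpace X]

theorem exists_monotone_path {γ : ℝ → X} (hγ : Continuous γ) :
    ∃ β : ℝ → X, Continuous β ∧ β 0 = γ 0 ∧ β 1 = γ 1 ∧ (∀ t, β t ∈ γ '' Icc 0 1) ∧
      ∀ u ∈ Icc (0 : ℝ) 1, ∀ u' ∈ Icc (0 : ℝ) 1, β u = β u' → ∀ w, u ≤ w → w ≤ u' → β w = β u := by
  let gap : Set ℝ → Set (ℝ × ℝ) := fun C => {q | ∀ w ∈ C, ¬ (q.1 < w ∧ w < q.2)}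
  have hgap : ∀ C, IsClosed (gap C) := by
    intro C
    have : gap C = ⋂ w ∈ C, {q : ℝ × ℝ | q.1 < w ∧ w < q.2}ᶜ := by
      ext q; simp only [gap, mem_ofPred_eq, mem_iInter, mem_compl_iff]
    rw [this]
    exact isClosed_biInter fun w _ => IsOpen.isClosed_compl
      ((isOpen_lt continuous_fst continuous_const).inter (isOpen_lt continuous_const continuous_snd))
  let K : Set ℝ → Set ℝ → ℝ → Set (ℝ × ℝ) := fun C D u =>
    {q | q.1 ∈ C ∧ q.2 ∈ C ∧ q.1 ≤ u ∧ u ≤ q.2 ∧ γ q.1 = γ q.2 ∧ q ∈ gap D}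
  let S : Set (Set ℝ) := {C | IsClosed C ∧ C ⊆ Icc 0 1 ∧ ∀ u ∈ Icc (0 : ℝ) 1, (K C C u).Nonempty}
  obtain ⟨C, -, hC⟩ := zorn_superset_nonempty S (by
    intro c hc hch hne
    refine ⟨⋂₀ c, ⟨isClosed_sInter fun C hC => (hc hC).1,
      (sInter_subset_of_mem hne.some_mem).trans (hc hne.some_mem).2.1, fun u hu => ?_⟩,
      fun s hs => sInter_subset_of_mem hs⟩
    have : Nonempty c := hne.to_subtype
    have hcl : ∀ C : c, IsClosed (K C (⋂₀ c) u) := fun C =>
      ((hc C.2).1.preimage continuous_fst).inter (((hc C.2).1.preimage continuous_snd).inter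
        ((isClosed_le continuous_fst continuous_const).inter
        ((isClosed_le continuous_const continuous_snd).inter
        ((isClosed_eq (hγ.comp continuous_fst) (hγ.comp continuous_snd)).inter (hgap _)))))
    obtain ⟨q, hq⟩ := IsCompact.nonempty_iInter_of_directed_nonempty_isCompact_isClosed
      (fun C : c => K C (⋂₀ c) u) (fun C D => by
        rcases hch.total C.2 D.2 with h | h
        · exact ⟨C, subset_rfl, fun q hq => ⟨h hq.1, h hq.2.1, hq.2.2⟩⟩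
        · exact ⟨D, fun q hq => ⟨h hq.1, h hq.2.1, hq.2.2⟩, subset_rfl⟩)
      (fun C => by
        obtain ⟨q, h1, h2, h3, h4, h5, h6⟩ := (hc C.2).2.2 u hu
        exact ⟨q, h1, h2, h3, h4, h5, fun w hw => h6 w (hw C C.2)⟩)
      (fun C => (isCompact_Icc.prod isCompact_Icc).of_isClosed_subset (hcl C)
        fun q hq => ⟨(hc C.2).2.1 hq.1, (hc C.2).2.1 hq.2.1⟩) hcl
    rw [mem_iInter] at hq
    exact ⟨q, fun C hC => (hq ⟨C, hC⟩).1, fun C hC => (hq ⟨C, hC⟩).2.1, (hq this.some).2.2⟩)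
    (Icc 0 1) ⟨isClosed_Icc, subset_rfl, fun u hu =>
      ⟨(u, u), hu, hu, le_rfl, le_rfl, rfl, fun w _ h => lt_asymm h.1 h.2⟩⟩
  obtain ⟨hcl, hsub, hne⟩ := hC.prop
  have hmin : ∀ s ∈ C, ∀ t ∈ C, γ s = γ t → (s, t) ∈ gap C := by
    intro s hs t ht hst w hw hw'
    have hlt : s < t := hw'.1.trans hw'.2
    have hmem : C \ Ioo s t ∈ S := by
      refine ⟨hcl.sdiff isOpen_Ioo, sdiff_subset.trans hsub, fun u hu => ?_⟩
      by_cases h : s ≤ u ∧ u ≤ t
      · exact ⟨(s, t), ⟨hs, fun h => lt_irrefl _ h.1⟩, ⟨ht, fun h => lt_irrefl _ h.2⟩, h.1, h.2,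
          hst, fun w hw h => hw.2 h⟩
      · obtain ⟨q, h1, h2, h3, h4, h5, h6⟩ := hne u hu
        refine ⟨q, ⟨h1, fun h7 => ?_⟩, ⟨h2, fun h7 => ?_⟩, h3, h4, h5, fun w hw => h6 w hw.1⟩
        · have h8 : t < u := not_le.1 fun h' => h ⟨by linarith [h7.1], h'⟩
          exact h6 t ht ⟨h7.2, by linarith⟩
        · have h8 : u < s := not_le.1 fun h' => h ⟨h', by linarith [h7.2]⟩
          exact h6 s hs ⟨by linarith, h7.1⟩
    exact (hC.le_of_le hmem sdiff_subset hw).2 hw'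
  have huniq : ∀ u, ∀ q ∈ K C C u, ∀ q' ∈ K C C u, γ q.1 = γ q'.1 := by
    have key : ∀ u, ∀ q ∈ K C C u, ∀ q' ∈ K C C u, q.1 < q'.1 → γ q.1 = γ q'.1 := by
      rintro u q ⟨h1, h2, h3, h4, h5, h6⟩ q' ⟨h1', -, h3', -, -, -⟩ hlt
      have : q.2 ≤ q'.1 := not_lt.1 fun h => h6 _ h1' ⟨hlt, h⟩
      rw [h5, le_antisymm this (h3'.trans h4)]
    intro u q hq q' hq'
    rcases lt_trichotomy q.1 q'.1 with h | h | h
    · exact key u q hq q' hq' h
    · rw [h]
    · exact (key u q' hq' q hq h).symm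
  choose! p hp using hne
  have hcomp : IsCompact C := isCompact_Icc.of_isClosed_subset hcl hsub
  have hR : IsCompact {x : (ℝ × ℝ) × ℝ | x.1 ∈ K C C x.2} := by
    refine ((hcomp.prod hcomp).prod (isCompact_Icc (a := (0 : ℝ)) (b := 1))).of_isClosed_subset
      ?_ fun x hx => ⟨⟨hx.1, hx.2.1⟩, (hsub hx.1).1.trans hx.2.2.1,
        hx.2.2.2.1.trans (hsub hx.2.1).2⟩
    have c1 : Continuous fun x : (ℝ × ℝ) × ℝ => x.1.1 := by fun_prop
    have c2 : Continuous fun x : (ℝ × ℝ) × ℝ => x.1.2 := by fun_prop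
    exact (hcl.preimage c1).inter ((hcl.preimage c2).inter
      ((isClosed_le c1 continuous_snd).inter ((isClosed_le continuous_snd c2).inter
      ((isClosed_eq (hγ.comp c1) (hγ.comp c2)).inter ((hgap _).preimage continuous_fst)))))
  have hβ : ContinuousOn (fun u => γ (p u).1) (Icc 0 1) := by
    refine continuousOn_of_closed (hcomp.image hγ)
      (hR.image (f := fun x => (x.2, γ x.1.1)) (by fun_prop)).isClosed
      (fun u hu => ⟨⟨_, (hp u hu).1, rfl⟩, (p u, u), hp u hu, rfl⟩) ?_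
    rintro u hu x ⟨⟨q, u'⟩, hq, h⟩
    obtain ⟨rfl, rfl⟩ := Prod.mk.inj h
    exact huniq _ _ hq _ (hp _ hu)
  refine ⟨fun u => γ (p (cl u)).1, hβ.comp_continuous continuous_cl cl_mem, ?_, ?_,
    fun t => ⟨_, hsub (hp _ (cl_mem t)).1, rfl⟩, fun u hu u' hu' h w h1 h2 => ?_⟩
  · have h := hp _ (cl_mem 0)
    rw [cl_of_le le_rfl] at h
    simp only [cl_of_le le_rfl]
    rw [le_antisymm h.2.2.1 (hsub h.1).1]
  · have h := hp _ (cl_mem 1)
    rw [cl_of_ge le_rfl] at h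
    simp only [cl_of_ge le_rfl]
    rw [h.2.2.2.2.1, le_antisymm (hsub h.2.1).2 h.2.2.2.1]
  · have hw : w ∈ Icc (0 : ℝ) 1 := ⟨hu.1.trans h1, h2.trans hu'.2⟩
    simp only [cl_of_mem hu.1 hu.2, cl_of_mem hu'.1 hu'.2, cl_of_mem hw.1 hw.2] at h ⊢
    have h3 := hp u hu
    have h4 := hp u' hu'
    have h5 : γ (p u).1 = γ (p u').2 := h.trans h4.2.2.2.2.1
    exact huniq w _ (hp w hw) ((p u).1, (p u').2) ⟨h3.1, h4.2.1, h3.2.2.1.trans h1,
      h2.trans h4.2.2.2.1, h5, hmin _ h3.1 _ h4.2.1 h5⟩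

theorem exists_param {β : ℝ → X} (hβ : Continuous β)
    (hm : ∀ u ∈ Icc (0 : ℝ) 1, ∀ u' ∈ Icc (0 : ℝ) 1, β u = β u' →
      ∀ w, u ≤ w → w ≤ u' → β w = β u) :
    ∃ m : ℝ → ℝ, Continuous m ∧ ∀ t ∈ Icc (0 : ℝ) 1, ∀ t' ∈ Icc (0 : ℝ) 1, t ≤ t' →
      (β t = β t' → m t = m t') ∧ (β t ≠ β t' → m t < m t') := by
  let f : ℝ × ℝ → ℝ → ℝ := fun x s => dist (β x.2) (β (max x.2 (min s x.1)))
  let M : ℝ → ℝ → ℝ := fun t q => sSup (f (t, q) '' Icc 0 1)
  have hf : Continuous ↿f := by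
    change Continuous fun y : (ℝ × ℝ) × ℝ => dist (β y.1.2) (β (max y.1.2 (min y.2 y.1.1)))
    fun_prop
  have hM : Continuous (Function.uncurry M) := isCompact_Icc.continuous_sSup hf
  have hle : ∀ t q, ∀ s ∈ Icc (0 : ℝ) 1, f (t, q) s ≤ M t q := fun t q s hs =>
    le_csSup (isCompact_Icc.bddAbove_image (by fun_prop)) ⟨s, hs, rfl⟩
  have hM0 : ∀ t q, 0 ≤ M t q := fun t q => dist_nonneg.trans (hle t q 0 ⟨le_rfl, zero_le_one⟩)
  have hsup : ∀ t q c, (∀ s ∈ Icc (0 : ℝ) 1, f (t, q) s ≤ c) → M t q ≤ c := fun t q c h =>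
    csSup_le ⟨_, 0, ⟨le_rfl, zero_le_one⟩, rfl⟩ (by rintro _ ⟨s, hs, rfl⟩; exact h s hs)
  have hmono : ∀ t ∈ Icc (0 : ℝ) 1, ∀ t', t ≤ t' → ∀ q, M t q ≤ M t' q := by
    intro t ht t' h q
    refine hsup _ _ _ fun s hs => le_trans (le_of_eq ?_)
      (hle t' q (min s t) ⟨le_min hs.1 ht.1, (min_le_left _ _).trans hs.2⟩)
    simp only [f]
    rw [min_eq_left ((min_le_right s t).trans h)]
  refine ⟨fun t => ∫ q in (0 : ℝ)..1, M t q,
    intervalIntegral.continuous_parametric_intervalIntegral_of_continuous' hM 0 1,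
    fun t ht t' ht' h => ⟨fun he => ?_, fun hne => ?_⟩⟩
  · refine intervalIntegral.integral_congr fun q _ => ?_
    refine le_antisymm (hmono t ht t' h q) (hsup _ _ _ fun s hs => ?_)
    simp only [f]
    by_cases h1 : s ≤ t
    · refine le_trans (le_of_eq ?_) (hle t q s hs)
      simp only [f]
      rw [min_eq_left h1, min_eq_left (h1.trans h)]
    · have h2 : t ≤ min s t' := le_min (not_le.1 h1).le h
      by_cases h3 : min s t' ≤ q
      · rw [max_eq_left h3, dist_self]; exact hM0 _ _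
      · rw [max_eq_right (not_le.1 h3).le, hm t ht t' ht' he _ h2 (min_le_right _ _)]
        by_cases h4 : q ≤ t
        · refine le_trans (le_of_eq ?_) (hle t q 1 ⟨zero_le_one, le_rfl⟩)
          simp only [f]
          rw [min_eq_right ht.2, max_eq_right h4]
        · rw [hm t ht t' ht' he q (not_le.1 h4).le ((not_le.1 h3).le.trans (min_le_right _ _)),
            dist_self]
          exact hM0 _ _
  · refine intervalIntegral.integral_lt_integral_of_continuousOn_of_le_of_exists_lt one_pos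
      (hM.comp (f := fun q => (t, q)) (by fun_prop)).continuousOn
      (hM.comp (f := fun q => (t', q)) (by fun_prop)).continuousOn
      (fun q _ => hmono t ht t' h q) ⟨t, ht, ?_⟩
    refine lt_of_le_of_lt (hsup _ _ 0 fun s hs => ?_)
      (lt_of_lt_of_le ?_ (hle t' t 1 ⟨zero_le_one, le_rfl⟩))
    · simp only [f]
      rw [max_eq_left (min_le_right _ _), dist_self]
    · simp only [f]
      rw [min_eq_right ht'.2, max_eq_right h]
      exact dist_pos.2 hne

/-- An arc `α` inside a path, with a coordinate `τ` along it. -/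
theorem exists_arc {γ : ℝ → X} (hγ : Continuous γ) :
    ∃ (α : ℝ → X) (τ : X → ℝ), Continuous α ∧ Continuous τ ∧ α 0 = γ 0 ∧ α 1 = γ 1 ∧
      (∀ t, α t ∈ γ '' Icc 0 1) ∧ IsCompact (range α) ∧ ∀ t, α (τ (α t)) = α t := by
  by_cases h01 : γ 0 = γ 1
  · exact ⟨fun _ => γ 0, fun _ => 0, continuous_const, continuous_const, rfl, h01,
      fun _ => ⟨0, ⟨le_rfl, zero_le_one⟩, rfl⟩, by simp, fun _ => rfl⟩
  obtain ⟨β, hβ, h0, h1, hr, hm⟩ := exists_monotone_path hγ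
  obtain ⟨m, hmc, hm'⟩ := exists_param hβ hm
  have z0 : (0 : ℝ) ∈ Icc (0 : ℝ) 1 := ⟨le_rfl, zero_le_one⟩
  have z1 : (1 : ℝ) ∈ Icc (0 : ℝ) 1 := ⟨zero_le_one, le_rfl⟩
  have hlt : m 0 < m 1 := (hm' 0 z0 1 z1 zero_le_one).2 (by rwa [h0, h1])
  have hle : ∀ t ∈ Icc (0 : ℝ) 1, ∀ t' ∈ Icc (0 : ℝ) 1, t ≤ t' → m t ≤ m t' := by
    intro t ht t' ht' h
    by_cases he : β t = β t'
    · exact ((hm' t ht t' ht' h).1 he).le
    · exact ((hm' t ht t' ht' h).2 he).le
  have hiff : ∀ t t' : I, m t = m t' ↔ β t = β t' := by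
    intro t t'
    rcases le_total (t : ℝ) t' with h | h
    · exact ⟨fun he => by_contra fun hn => ((hm' t t.2 t' t'.2 h).2 hn).ne he,
        (hm' t t.2 t' t'.2 h).1⟩
    · exact ⟨fun he => by_contra fun hn => ((hm' t' t'.2 t t.2 h).2 (Ne.symm hn)).ne he.symm,
        fun he => ((hm' t' t'.2 t t.2 h).1 he.symm).symm⟩
  let n : I → Icc (m 0) (m 1) := fun t => ⟨m t, hle 0 z0 t t.2 t.2.1, hle t t.2 1 z1 t.2.2⟩
  have hn : Continuous n := (hmc.comp continuous_subtype_val).subtype_mk _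
  have hsurj : Function.Surjective n := by
    intro y
    obtain ⟨t, ht, h⟩ := intermediate_value_Icc zero_le_one hmc.continuousOn y.2
    exact ⟨⟨t, ht⟩, Subtype.ext h⟩
  have hq : IsQuotientMap n := hn.isClosedMap.isQuotientMap hn hsurj
  let ni : Icc (m 0) (m 1) → I := Function.surjInv hsurj
  let e : Icc (m 0) (m 1) → X := fun y => β (ni y).1
  have hen : ∀ t, e (n t) = β t := fun t =>
    (hiff _ _).1 (congrArg Subtype.val (Function.surjInv_eq hsurj (n t)))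
  have he : Continuous e := by
    rw [hq.continuous_iff, show e ∘ n = fun t : I => β t from funext hen]
    fun_prop
  have hinj : Function.Injective e := by
    intro y y' h
    obtain ⟨t, rfl⟩ := hsurj y
    obtain ⟨t', rfl⟩ := hsurj y'
    rw [hen, hen] at h
    exact Subtype.ext ((hiff _ _).2 h)
  obtain ⟨τ, hτ⟩ := ContinuousMap.exists_extension' (Y := ℝ) (he.isClosedEmbedding hinj)
    ⟨fun y => (y.1 - m 0) / (m 1 - m 0), by fun_prop⟩
  let j : ℝ → Icc (m 0) (m 1) := fun t => projIcc _ _ hlt.le (m 0 + t * (m 1 - m 0))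
  have hj : Continuous j := continuous_projIcc.comp (by fun_prop)
  have hjτ : ∀ y, j (τ (e y)) = y := by
    intro y
    have : τ (e y) = (y.1 - m 0) / (m 1 - m 0) := congrFun hτ y
    simp only [j, this]
    rw [div_mul_cancel₀ _ (sub_pos.2 hlt).ne', add_sub_cancel, projIcc_val]
  refine ⟨e ∘ j, τ, he.comp hj, τ.continuous, ?_, ?_, fun t => hr _, ?_, fun t => ?_⟩
  · rw [← h0]
    refine Eq.trans (congrArg e (Subtype.ext ?_)) (hen 0)
    simp [j, n]
  · rw [← h1]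
    refine Eq.trans (congrArg e (Subtype.ext ?_)) (hen 1)
    simp [j, n]
  · have : range (e ∘ j) = range e := Function.Surjective.range_comp (fun y => ⟨_, hjτ y⟩) e
    rw [this]
    exact isCompact_range he
  · simp only [Function.comp_apply, hjτ]

end Pool.Agent.P.MP_07c576_gt
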