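import Pool.Agent.P.MP_07c576_gt.Geo

/-! Removal of coincidences and the connectivity lemma. -/

set_option linter.unusedSectionVars false

namespace Pool.Agent.P.MP_07c576_gt

open Set Metric Topology Filter unitInterval

variable {X : Type} [MetricSpace X]

/-- Maps from the four-cube can be pushed off the point `o`. -/
def HS (o : X) : Prop := ∀ f : Q4 → X, Continuous f → ∀ ξ > 0,
  ∃ f' : Q4 → X, Continuous f' ∧ ∀ z, dist (f' z) (f z) < ξ ∧ f' z ≠ o

namespace Loc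

variable [ProperSpace X] {o : X} {R : ℝ} (L : Loc o R)
include L

theorem coin (hS : HS o) {H c : Q4 → X} (hH : Continuous H) (hc : Continuous c)
    (hH' : ∀ z, H z ∈ ball o (R / 4)) (hc' : ∀ z, c z ∈ ball o (R / 4)) {ξ : ℝ} (hξ : 0 < ξ) :
    ∃ H' : Q4 → X, Continuous H' ∧ ∀ z, dist (H' z) (H z) < ξ ∧ H' z ≠ c z := by
  have hR := L.pos
  have ho : o ∈ ball o R := mem_ball_self hR
  have hb : ∀ {x}, x ∈ ball o (R / 4) → x ∈ ball o R := fun h => ball_subset_ball (by linarith) h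
  let m : Q4 → X := fun z => geo (c z) o (1 / 2)
  have hm1 : ∀ z, Geo (c z) o (1 / 2) (m z) := fun z =>
    L.geo_spec2 (hb (hc' z)) ho (by norm_num) (by norm_num)
  have hm2 : ∀ z, dist o (m z) = 1 / 2 * dist (c z) o := fun z => by
    rw [(hm1 z).2]; norm_num
  have hm3 : ∀ z, m z ∈ ball o (R / 4) := fun z => by
    rw [mem_ball', hm2]; linarith [mem_ball.1 (hc' z)]
  have hm : Continuous m := continuousOn_univ.1 (L.continuous_geo hc.continuousOn
    continuousOn_const continuousOn_const fun z _ => ⟨hb (hc' z), ho, by norm_num, by norm_num⟩)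
  have hsym : ∀ x y z : X, Geo x y 2 z → Geo z y 2 x := by
    rintro x y z ⟨h1, h2⟩
    norm_num at h2
    constructor
    · rw [dist_comm z x, dist_comm z y, h1, h2]
    · rw [dist_comm y x, dist_comm z y, h2]; norm_num
  let Φ : Q4 × X → X := fun q => geo q.2 (m q.1) 2
  have hΦ : ContinuousOn Φ (univ ×ˢ ball o R) := L.continuous_geo continuousOn_snd
    (hm.comp continuous_fst).continuousOn continuousOn_const
    fun q hq => ⟨hq.2, hb (hm3 _), by norm_num, le_rfl⟩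
  have hΦ' : ∀ z x, x ∈ ball o R → Geo x (m z) 2 (Φ (z, x)) := fun z x hx =>
    L.geo_spec2 hx (hb (hm3 _)) (by norm_num) le_rfl
  let f : Q4 → X := fun z => Φ (z, H z)
  have hf : Continuous f := hΦ.comp_continuous (by fun_prop) fun z => ⟨trivial, hb (hH' z)⟩
  have hf1 : ∀ z, f z ∈ ball o (3 * R / 4) := fun z => by
    have h1 := (hΦ' z _ (hb (hH' z))).2
    norm_num at h1
    have h2 := mem_ball.1 (hH' z)
    have h3 := mem_ball.1 (hm3 z)
    rw [mem_ball]
    linarith [dist_triangle_left (f z) o (m z), dist_triangle_right (H z) (m z) o]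
  have hf2 : ∀ z, f z ∈ ball o R := fun z => ball_subset_ball (by linarith) (hf1 z)
  obtain ⟨ζ, hζ, h⟩ := tube_dist hf (Φ := Φ) (fun z => hΦ.continuousAt
    ((isOpen_univ.prod isOpen_ball).mem_nhds ⟨trivial, hf2 z⟩)) hξ
  obtain ⟨f', hf', h'⟩ := hS f hf _ (lt_min hζ (by linarith : 0 < R / 4))
  have hf3 : ∀ z, f' z ∈ ball o R := fun z => by
    have h1 := (h' z).1.trans_le (min_le_right _ _)
    have h2 := mem_ball.1 (hf1 z)
    rw [mem_ball]
    linarith [dist_triangle (f' z) (f z) o]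
  refine ⟨fun z => Φ (z, f' z), hΦ.comp_continuous (by fun_prop) fun z => ⟨trivial, hf3 z⟩,
    fun z => ⟨?_, fun he => (h' z).2 ?_⟩⟩
  · have h1 : Φ (z, f z) = H z := L.geo_unique (hf2 z) (hb (hm3 z)) (hΦ' z _ (hf2 z))
      (hsym _ _ _ (hΦ' z _ (hb (hH' z))))
    rw [← h1]
    exact h z _ ((h' z).1.trans_le (min_le_left _ _))
  · have h1 := hsym _ _ _ (hΦ' z _ (hf3 z))
    simp only at he
    rw [he] at h1
    refine L.geo_unique (hb (hc' z)) (hb (hm3 z)) h1 ⟨?_, ?_⟩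
    · rw [(hm1 z).1]; ring
    · rw [dist_comm, hm2, (hm1 z).1]; norm_num

theorem joinedIn_geo {x y : X} (hx : x ∈ ball o R) (hy : y ∈ ball o R) {O : Set X}
    (h : ∀ s ∈ Icc (0 : ℝ) 1, geo x y s ∈ O) : JoinedIn O x y :=
  JoinedIn.ofLine (f := geo x y) (L.continuous_geo continuousOn_const continuousOn_const
    continuousOn_id fun s hs => ⟨hx, hy, hs.1, by linarith [hs.2]⟩) (geo_zero x y) (geo_one x y)
    (by rintro _ ⟨s, hs, rfl⟩; exact h s hs)

theorem joinedIn_of_dist {x y : X} (hx : x ∈ ball o R) (hy : y ∈ ball o R) {O : Set X}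
    (h : closedBall x (dist x y) ⊆ O) : JoinedIn O x y :=
  L.joinedIn_geo hx hy fun _ hs => h (L.dist_geo_le hx hy hs)

theorem eventually_joinedIn {x : X} (hx : x ∈ ball o R) {O : Set X} (hO : O ∈ 𝓝 x) :
    ∀ᶠ y in 𝓝 x, JoinedIn O x y := by
  obtain ⟨ε, hε, h⟩ := Metric.mem_nhds_iff.1 hO
  filter_upwards [ball_mem_nhds x hε, isOpen_ball.mem_nhds hx] with y h1 h2
  exact L.joinedIn_of_dist hx h2 ((closedBall_subset_ball (mem_ball'.1 h1)).trans h)

theorem pm (hS : HS o) {T W O : Set X} {τ : X → ℝ × ℝ} {α : ℝ × ℝ → X} (hW : IsOpen W)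
    (hWR : W ⊆ ball o (R / 4)) (hτ : ContinuousOn τ W) (hα : Continuous α)
    (hα' : ∀ s, α s ∈ ball o (R / 4)) (hT : ∀ x ∈ T, x ∈ W → α (τ x) = x) {H : Q4 → X}
    (hH : Continuous H) (hHW : ∀ z, H z ∈ W) {G : Q4 × X → ℝ} (hG : ContinuousOn G (univ ×ˢ W))
    (hp : ∀ z, z.1 1 = 1 → 0 < G (z, H z)) (hm : ∀ z, z.1 1 = -1 → G (z, H z) < 0)
    (hO : IsOpen O) {ξ : ℝ} (hξ : 0 < ξ)
    (hsub : ∀ z x, dist x (H z) < ξ → x ∈ W → G (z, x) = 0 → x ∉ T → x ∈ O) :
    ∃ (z₀ z₁ : Q4) (x₀ x₁ : X), z₀.1 3 = -1 ∧ z₁.1 3 = 1 ∧ dist x₀ (H z₀) < ξ ∧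
      dist x₁ (H z₁) < ξ ∧ G (z₀, x₀) = 0 ∧ G (z₁, x₁) = 0 ∧ x₀ ∉ T ∧ JoinedIn O x₀ x₁ := by
  have hR := L.pos
  have hco : ∀ i, Continuous fun z : Q4 => z.1 i := fun i =>
    (continuous_apply i).comp continuous_subtype_val
  have hGa : ∀ z, ContinuousAt G (z, H z) := fun z =>
    hG.continuousAt ((isOpen_univ.prod hW).mem_nhds ⟨trivial, hHW z⟩)
  have hτH : Continuous fun z => τ (H z) := hτ.comp_continuous hH hHW
  obtain ⟨ζ, hζ, hN⟩ := tube hH (N := {q | q.2 ∈ W ∧ (q.1.1 1 = 1 → 0 < G q) ∧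
      (q.1.1 1 = -1 → G q < 0) ∧ dist (τ q.2) (τ (H q.1)) < 1}) fun z => by
    refine Filter.Eventually.and (continuousAt_snd.eventually (hW.mem_nhds (hHW z)))
      (Filter.Eventually.and ?_ (Filter.Eventually.and ?_ ?_))
    · by_cases h : z.1 1 = 1
      · exact ((hGa z).eventually (lt_mem_nhds (hp z h))).mono fun q hq _ => hq
      · exact (((hco 1).comp continuous_fst).continuousAt.eventually_ne (x := (z, H z)) h).mono
          fun q hq h' => absurd h' hq
    · by_cases h : z.1 1 = -1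
      · exact ((hGa z).eventually (gt_mem_nhds (hm z h))).mono fun q hq _ => hq
      · exact (((hco 1).comp continuous_fst).continuousAt.eventually_ne (x := (z, H z)) h).mono
          fun q hq h' => absurd h' hq
    · have h1 : ContinuousAt (fun q : Q4 × X => τ q.2) (z, H z) :=
        ContinuousAt.comp (f := Prod.snd) (hτ.continuousAt (hW.mem_nhds (hHW z))) continuousAt_snd
      exact (h1.dist (hτH.comp continuous_fst).continuousAt).eventually
        (gt_mem_nhds (by simp))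
  obtain ⟨H', hH', h'⟩ := L.coin hS hH (c := fun z => α (τ (H z) + (z.1 0, z.1 2)))
    (hα.comp (hτH.add ((hco 0).prodMk (hco 2)))) (fun z => hWR (hHW z)) (fun z => hα' _)
    (lt_min hζ hξ)
  have hN' := fun z => hN z (H' z) ((h' z).1.trans_le (min_le_left _ _))
  have hξ' : ∀ z, dist (H' z) (H z) < ξ := fun z => (h' z).1.trans_le (min_le_right _ _)
  have hτH' : Continuous fun z => τ (H' z) := hτ.comp_continuous hH' fun z => (hN' z).1
  have hGH' : Continuous fun z => G (z, H' z) :=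
    hG.comp_continuous (by fun_prop) fun z => ⟨trivial, (hN' z).1⟩
  let Z : Set Q4 := {z | τ (H z) + (z.1 0, z.1 2) = τ (H' z) ∧ G (z, H' z) = 0}
  have hZ : IsClosed Z := (isClosed_eq (hτH.add ((hco 0).prodMk (hco 2))) hτH').inter
    (isClosed_eq hGH' continuous_const)
  have hZT : ∀ z ∈ Z, H' z ∉ T := fun z hz hT' =>
    (h' z).2 (by rw [hz.1, hT _ hT' (hN' z).1])
  have hZO : ∀ z ∈ Z, H' z ∈ O := fun z hz => hsub z _ (hξ' z) (hN' z).1 hz.2 (hZT z hz)
  have hloc : ∀ z ∈ Z, ∀ᶠ z' in 𝓝 z, JoinedIn O (H' z) (H' z') := fun z hz =>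
    hH'.continuousAt.eventually (L.eventually_joinedIn
      (ball_subset_ball (by linarith) (hWR (hN' z).1)) (hO.mem_nhds (hZO z hz)))
  let Z₀ : Set Q4 := {z | z ∈ Z ∧ ∃ z₀ ∈ Z, z₀.1 3 = -1 ∧ JoinedIn O (H' z₀) (H' z)}
  have hZ₀ : IsClosed Z₀ := by
    refine isClosed_of_closure_subset fun z hz => ?_
    have hzZ : z ∈ Z := hZ.closure_subset (closure_mono (fun _ h => h.1) hz)
    obtain ⟨z', h1, -, z₀, h2, h3, h4⟩ := mem_closure_iff_nhds.1 hz _ (hloc z hzZ)
    exact ⟨hzZ, z₀, h2, h3, h4.trans (JoinedIn.symm h1)⟩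
  have hZ₁ : IsClosed (Z \ Z₀) := by
    refine isClosed_of_closure_subset fun z hz => ?_
    have hzZ : z ∈ Z := hZ.closure_subset (closure_mono sdiff_subset hz)
    obtain ⟨z', h1, h2, h3⟩ := mem_closure_iff_nhds.1 hz _ (hloc z hzZ)
    exact ⟨hzZ, fun ⟨_, z₀, h4, h5, h6⟩ => h3 ⟨h2, z₀, h4, h5, h6.trans h1⟩⟩
  by_contra hcon
  obtain ⟨u, hu0, hu1, -⟩ := exists_continuous_zero_one_of_isClosed
    (s := Z₀ ∪ {z | z.1 3 = -1}) (t := (Z \ Z₀) ∪ {z | z.1 3 = 1})
    (hZ₀.union (isClosed_eq (hco 3) continuous_const))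
    (hZ₁.union (isClosed_eq (hco 3) continuous_const)) (by
      rw [Set.disjoint_left]
      rintro z (h1 | h1) (h2 | h2)
      · exact h2.2 h1
      · obtain ⟨h3, z₀, h4, h5, h6⟩ := h1
        exact hcon ⟨z₀, z, _, _, h5, h2, hξ' _, hξ' _, h4.2, h3.2, hZT _ h4, h6⟩
      · exact h2.2 ⟨h2.1, z, h2.1, h1, JoinedIn.refl (hZO z h2.1)⟩
      · have h3 : z.1 3 = -1 := h1
        have h4 : z.1 3 = 1 := h2
        linarith)
  have hd : ∀ z, |(τ (H' z)).1 - (τ (H z)).1| < 1 ∧ |(τ (H' z)).2 - (τ (H z)).2| < 1 := fun z => by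
    have := (hN' z).2.2.2
    rwa [Prod.dist_eq, max_lt_iff, Real.dist_eq, Real.dist_eq] at this
  obtain ⟨z, hz⟩ := miranda (F := fun z => ![(τ (H z)).1 + z.1 0 - (τ (H' z)).1, G (z, H' z),
      (τ (H z)).2 + z.1 2 - (τ (H' z)).2, 2 * u z - 1]) (by
      refine continuous_pi fun i => ?_
      fin_cases i
      · exact (hτH.fst.add (hco 0)).sub hτH'.fst
      · exact hGH'
      · exact (hτH.snd.add (hco 2)).sub hτH'.snd
      · exact (continuous_const.mul u.continuous).sub continuous_const) (by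
      intro z i hi
      fin_cases i
      · have := abs_lt.1 (hd z).1
        change z.1 0 = 1 at hi
        change 0 < (τ (H z)).1 + z.1 0 - (τ (H' z)).1
        linarith
      · exact (hN' z).2.1 hi
      · have := abs_lt.1 (hd z).2
        change z.1 2 = 1 at hi
        change 0 < (τ (H z)).2 + z.1 2 - (τ (H' z)).2
        linarith
      · have : u z = 1 := hu1 (Or.inr hi)
        change 0 < 2 * u z - 1
        linarith) (by
      intro z i hi
      fin_cases i
      · have := abs_lt.1 (hd z).1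
        change z.1 0 = -1 at hi
        change (τ (H z)).1 + z.1 0 - (τ (H' z)).1 < 0
        linarith
      · exact (hN' z).2.2.1 hi
      · have := abs_lt.1 (hd z).2
        change z.1 2 = -1 at hi
        change (τ (H z)).2 + z.1 2 - (τ (H' z)).2 < 0
        linarith
      · have : u z = 0 := hu0 (Or.inr hi)
        change 2 * u z - 1 < 0
        linarith)
  have e0 : (τ (H z)).1 + z.1 0 - (τ (H' z)).1 = 0 := congrFun hz 0
  have e1 : G (z, H' z) = 0 := congrFun hz 1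
  have e2 : (τ (H z)).2 + z.1 2 - (τ (H' z)).2 = 0 := congrFun hz 2
  have e3 : 2 * u z - 1 = 0 := congrFun hz 3
  have hzZ : z ∈ Z := ⟨Prod.ext (sub_eq_zero.1 e0) (sub_eq_zero.1 e2), e1⟩
  by_cases h : z ∈ Z₀
  · have : u z = 0 := hu0 (Or.inl h)
    linarith
  · have : u z = 1 := hu1 (Or.inl ⟨hzZ, h⟩)
    linarith

end Loc

end Pool.Agent.P.MP_07c576_gt
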