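import Pool.Agent.P.MP_07c576_gt.Level

/-! Cubes: gluing, homotopy extension and the homotopy addition lemma. -/

set_option linter.unusedSectionVars false

namespace Pool.Agent.P.MP_07c576_gt

open Set Metric Topology Filter unitInterval Function

theorem exists_glue {P Z ι : Type*} [TopologicalSpace P] [TopologicalSpace Z] [Finite ι]
    (z₀ : Z) (S : ι → Set P) (hS : ∀ i, IsClosed (S i)) (f : ι → P → Z)
    (hf : ∀ i, ContinuousOn (f i) (S i)) (h : ∀ i j, ∀ x ∈ S i, x ∈ S j → f i x = f j x) :
    ∃ F : P → Z, ContinuousOn F (⋃ i, S i) ∧ ∀ i, ∀ x ∈ S i, F x = f i x := by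
  classical
  have key : ∀ i, ∀ x ∈ S i, (if h : ∃ i, x ∈ S i then f h.choose x else z₀) = f i x := by
    intro i x hx
    have h1 : ∃ i, x ∈ S i := ⟨i, hx⟩
    rw [dif_pos h1]
    exact h _ _ x h1.choose_spec hx
  exact ⟨_, (locallyFinite_of_finite S).continuousOn_iUnion hS fun i => (hf i).congr (key i), key⟩

/-- The two end points of the interval. -/
def bI (b : Bool) : I := if b then 1 else 0

@[simp] theorem bI_true : bI true = 1 := rfl

@[simp] theorem bI_false : bI false = 0 := rfl

theorem bI_inj {a b : Bool} (h : bI a = bI b) : a = b := by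
  cases a <;> cases b <;> simp_all

theorem bI_or (b : Bool) : bI b = 0 ∨ bI b = 1 := by cases b <;> simp

/-- The boundary of the cube in the directions of `J`. -/
def bd {ι : Type*} (J : Finset ι) : Set (ι → I) := {x | ∃ i ∈ J, ∃ b, x i = bI b}

theorem bd_univ {ι : Type*} [Fintype ι] : bd (Finset.univ : Finset ι) = Cube.boundary ι := by
  ext x
  simp [bd, Cube.boundary]

theorem pI_of_le {t : ℝ} (h : t ≤ 0) : pI t = 0 := projIcc_of_le_left _ h

theorem pI_of_ge {t : ℝ} (h : 1 ≤ t) : pI t = 1 := projIcc_of_right_le _ h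

@[fun_prop] theorem continuous_pI : Continuous pI := uc_pI.continuous

theorem exists_hep {ι : Type*} [DecidableEq ι] (J : Finset ι) :
    ∃ R : (ι → I) × I → (ι → I) × I, Continuous R ∧ (∀ x, R (x, 0) = (x, 0)) ∧
      (∀ p, p.1 ∈ bd J → R p = p) ∧ ∀ p, (R p).1 ∈ bd J ∨ (R p).2 = 0 := by
  let ρ : (ι → I) → ℝ := fun x => ‖fun i : J => 2 * (x i : ℝ) - 1‖
  have hρ : Continuous ρ := by fun_prop
  have hρ1 : ∀ x, ρ x ≤ 1 := fun x => (pi_norm_le_iff_of_nonneg zero_le_one).2 fun i => by
    rw [Real.norm_eq_abs, abs_le]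
    constructor <;> linarith [(x i).2.1, (x i).2.2]
  have hμ : ∀ p : (ι → I) × I, 0 < max (ρ p.1) (1 - p.2 / 2) := fun p =>
    lt_max_of_lt_right (by linarith [p.2.2.2])
  refine ⟨fun p => (fun i => if i ∈ J then
    pI (1 / 2 + (p.1 i - 1 / 2) / max (ρ p.1) (1 - p.2 / 2)) else p.1 i,
    pI (2 * (ρ p.1 - 1) + p.2)), ?_, fun x => ?_, fun p hp => ?_, fun p => ?_⟩
  · refine (continuous_pi fun i => ?_).prodMk (by fun_prop)
    split_ifs
    · exact continuous_pI.comp (continuous_const.add (Continuous.div (by fun_prop) (by fun_prop)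
        fun p => (hμ p).ne'))
    · fun_prop
  · refine Prod.ext (funext fun i => ?_) (pI_of_le (by simp; linarith [hρ1 x]))
    simp [max_eq_right (hρ1 x)]
  · obtain ⟨i, hi, b, hb⟩ := hp
    have h1 : ρ p.1 = 1 := le_antisymm (hρ1 _) (by
      refine le_trans ?_ (norm_le_pi_norm (fun i : J => 2 * (p.1 i : ℝ) - 1) ⟨i, hi⟩)
      cases b <;> norm_num [hb])
    have h2 : max (1 : ℝ) (1 - (p.2 : ℝ) / 2) = 1 := max_eq_left (by linarith [p.2.2.1])
    refine Prod.ext (funext fun i => ?_) (by simp [h1])
    simp [h1, h2]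
  · rcases le_or_gt (1 - (p.2 : ℝ) / 2) (ρ p.1) with h | h
    · left
      have h0 : 0 < ρ p.1 := by linarith [p.2.2.2]
      have : Nonempty J := by
        by_contra h'
        rw [not_nonempty_iff] at h'
        simp [ρ, Subsingleton.elim (fun i : J => 2 * (p.1 i : ℝ) - 1) 0] at h0
      obtain ⟨i, hi'⟩ := Finite.exists_max fun i : J => ‖2 * (p.1 i : ℝ) - 1‖
      have hi : ‖2 * (p.1 i : ℝ) - 1‖ = ρ p.1 :=
        le_antisymm (norm_le_pi_norm (fun i : J => 2 * (p.1 i : ℝ) - 1) i)
          ((pi_norm_le_iff_of_nonneg (norm_nonneg _)).2 hi')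
      refine ⟨i, i.2, ?_⟩
      simp only [if_pos i.2, max_eq_left h]
      rw [Real.norm_eq_abs] at hi
      rcases abs_eq h0.le |>.1 hi with h1 | h1
      · exact ⟨true, pI_of_ge (by
          rw [show (p.1 i : ℝ) - 1 / 2 = ρ p.1 / 2 by linarith]; field_simp; norm_num)⟩
      · exact ⟨false, pI_of_le (by
          rw [show (p.1 i : ℝ) - 1 / 2 = -ρ p.1 / 2 by linarith]; field_simp; norm_num)⟩
    · exact Or.inr (pI_of_le (by linarith))

theorem isClosed_bd {ι : Type*} (J : Finset ι) : IsClosed (bd J) := by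
  have : bd J = ⋃ i ∈ J, ⋃ b, {x | x i = bI b} := by ext x; simp [bd]
  rw [this]
  exact isClosed_biUnion_finset fun i _ => isClosed_iUnion_of_finite fun b =>
    isClosed_eq (by fun_prop) continuous_const

theorem hep {ι Z : Type*} [DecidableEq ι] [TopologicalSpace Z] (J : Finset ι) {Y : Set Z}
    {T : (ι → I) → Z} (hT : Continuous T) (hTY : ∀ x, T x ∈ Y) {H : (ι → I) × I → Z}
    (hH : ContinuousOn H {p | p.1 ∈ bd J}) (hHY : ∀ p, p.1 ∈ bd J → H p ∈ Y)
    (h0 : ∀ x ∈ bd J, H (x, 0) = T x) :
    ∃ K : (ι → I) × I → Z, Continuous K ∧ (∀ p, K p ∈ Y) ∧ (∀ x, K (x, 0) = T x) ∧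
      ∀ p, p.1 ∈ bd J → K p = H p := by
  obtain ⟨R, hR, r0, r1, r2⟩ := exists_hep J
  obtain ⟨F, hF, hF'⟩ := exists_glue (T 0)
    (fun b : Bool => if b then {p : (ι → I) × I | p.1 ∈ bd J} else {p | p.2 = 0})
    (fun b => by
      cases b
      · exact isClosed_eq continuous_snd continuous_const
      · exact (isClosed_bd J).preimage continuous_fst)
    (fun b p => if b then H p else T p.1)
    (fun b => by
      cases b
      · exact (hT.comp continuous_fst).continuousOn
      · exact hH)
    (by
      rintro (_ | _) (_ | _) ⟨x, t⟩ h1 h2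
      · rfl
      · obtain rfl : t = 0 := h1
        exact (h0 x h2).symm
      · obtain rfl : t = 0 := h2
        exact h0 x h1
      · rfl)
  refine ⟨F ∘ R, hF.comp_continuous hR fun p => ?_, fun p => ?_, fun x => ?_, fun p hp => ?_⟩
  · rcases r2 p with h | h
    · exact mem_iUnion.2 ⟨true, h⟩
    · exact mem_iUnion.2 ⟨false, h⟩
  · rcases r2 p with h | h
    · rw [comp_apply, hF' true _ h]; exact hHY _ h
    · rw [comp_apply, hF' false _ h]; exact hTY _
  · rw [comp_apply, r0, hF' false _ rfl]; rfl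
  · rw [comp_apply, r1 p hp, hF' true _ hp]; rfl

section HAL

open scoped Topology.Homotopy

variable {Y : Type} [TopologicalSpace Y] {y : Y} {k : ℕ}

/-- The homotopy group in additive form. -/
abbrev PG (k : ℕ) (Y : Type) [TopologicalSpace Y] (y : Y) : Type :=
  Additive (HomotopyGroup (Fin (k + 2)) Y y)

/-- The class of a loop. -/
def cls (α : Ω^ (Fin (k + 2)) Y y) : PG k Y y := Additive.ofMul (⟦α⟧ : HomotopyGroup _ Y y)

theorem cls_surj (a : PG k Y y) : ∃ α, cls α = a := Quotient.exists_rep a

theorem cls_eq {α β : Ω^ (Fin (k + 2)) Y y} : cls α = cls β ↔ GenLoop.Homotopic α β :=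
  Quotient.eq

theorem cls_const : cls (GenLoop.const : Ω^ (Fin (k + 2)) Y y) = 0 := rfl

theorem cls_trans (i : Fin (k + 2)) (α β : Ω^ (Fin (k + 2)) Y y) :
    cls (GenLoop.transAt i α β) = cls α + cls β := by
  exact (congrArg Additive.ofMul (HomotopyGroup.mul_spec (i := i) (p := β) (q := α))).symm.trans
    (add_comm (cls β) (cls α))

theorem cls_symm (i : Fin (k + 2)) (α : Ω^ (Fin (k + 2)) Y y) :
    cls (GenLoop.symmAt i α) = -cls α :=
  (congrArg Additive.ofMul (HomotopyGroup.inv_spec (i := i) (p := α))).symm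

/-- Deleting a coordinate. -/
def rm {n : ℕ} (p : Fin (n + 1)) (x : Fin (n + 1) → I) : Fin n → I := fun j => x (p.succAbove j)

@[fun_prop] theorem continuous_rm {n : ℕ} (p : Fin (n + 1)) : Continuous (rm p) := by
  unfold rm; fun_prop

theorem rm_update {n : ℕ} (p : Fin (n + 1)) (x : Fin (n + 1) → I) (s : I) :
    rm p (update x p s) = rm p x := Fin.removeNth_update (α := fun _ => I) p s x

theorem rm_update' {n : ℕ} (p : Fin (n + 1)) (j : Fin n) (x : Fin (n + 1) → I) (s : I) :
    rm p (update x (p.succAbove j) s) = update (rm p x) j s :=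
  Fin.removeNth_update_succAbove (α := fun _ => I) p j s x

theorem rm_bd {n : ℕ} {p q : Fin (n + 1)} (h : q ≠ p) {x : Fin (n + 1) → I} {b : Bool}
    (hx : x q = bI b) : rm p x ∈ Cube.boundary (Fin n) := by
  obtain ⟨j, rfl⟩ := Fin.exists_succAbove_eq h
  exact ⟨j, by rw [rm, hx]; exact bI_or b⟩

/-- The cube `Φ` has the loops `α` as its faces. -/
def HasF (Φ : (Fin (k + 3) → I) → Y) (α : Fin (k + 3) → Bool → Ω^ (Fin (k + 2)) Y y) : Prop :=
  Continuous Φ ∧ ∀ p b x, x p = bI b → Φ x = α p b (rm p x)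

/-- The classes `e` are the classes of the faces of a cube. -/
def HE (e : Fin (k + 3) → Bool → PG k Y y) : Prop :=
  ∃ Φ α, HasF Φ α ∧ ∀ p b, cls (α p b) = e p b

theorem HE.repl {e : Fin (k + 3) → Bool → PG k Y y} (h : HE e)
    (β : Fin (k + 3) → Bool → Ω^ (Fin (k + 2)) Y y) (hβ : ∀ p b, cls (β p b) = e p b) :
    ∃ Φ, HasF Φ β := by
  obtain ⟨Φ, α, ⟨hΦ, hf⟩, hα⟩ := h
  have H := fun p b => (cls_eq.1 ((hα p b).trans (hβ p b).symm)).some
  obtain ⟨F, hF, hF'⟩ := exists_glue y
    (fun i : Fin (k + 3) × Bool => {q : (Fin (k + 3) → I) × I | q.1 i.1 = bI i.2})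
    (fun i => isClosed_eq (by fun_prop) continuous_const)
    (fun i q => H i.1 i.2 (q.2, rm i.1 q.1)) (fun i => by fun_prop) (by
      rintro ⟨p, b⟩ ⟨p', b'⟩ x h1 h2
      by_cases h : p = p'
      · subst h
        obtain rfl : b = b' := bI_inj (h1.symm.trans h2)
        rfl
      · have e1 := rm_bd (Ne.symm h) h2
        have e2 := rm_bd h h1
        rw [(H p b).eq_fst _ e1, (H p' b').eq_fst _ e2]
        exact ((α p b).2 _ e1).trans ((α p' b').2 _ e2).symm)
  obtain ⟨K, hK, -, -, h2⟩ := hep Finset.univ (Y := univ) hΦ (fun _ => trivial)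
    (hF.mono fun q ⟨p, _, b, hb⟩ => mem_iUnion.2 ⟨(p, b), hb⟩) (fun _ _ => trivial) (by
      rintro x ⟨p, -, b, hb⟩
      rw [hF' (p, b) _ hb, hf p b x hb]
      exact (H p b).apply_zero _)
  refine ⟨fun x => K (x, 1), by fun_prop, fun p b x hx => ?_⟩
  beta_reduce
  rw [h2 (x, 1) ⟨p, Finset.mem_univ _, b, hx⟩, hF' (p, b) _ hx]
  exact (H p b).apply_one _

theorem HE.glue {e e' : Fin (k + 3) → Bool → PG k Y y} (h : HE e) (h' : HE e') (p : Fin (k + 3))
    (hp : e p true = e' p false) :
    HE fun j b => if j = p then (if b then e' p true else e p false) else e j b + e' j b := by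
  obtain ⟨Φ, α, ⟨hΦ, hf⟩, hα⟩ := h
  obtain ⟨β, hβ, hβ'⟩ : ∃ β : Fin (k + 3) → Bool → Ω^ (Fin (k + 2)) Y y,
      (∀ j b, cls (β j b) = e' j b) ∧ β p false = α p true := by
    choose β hβ using fun j b => cls_surj (e' j b)
    refine ⟨fun j b => if j = p ∧ b = false then α p true else β j b, fun j b => ?_, by simp⟩
    beta_reduce
    split_ifs with h
    · rw [h.1, h.2, hα, hp]
    · exact hβ j b
  obtain ⟨Ψ, hΨ, hg⟩ := h'.repl β hβ
  choose q hq using fun (j : Fin (k + 3)) (h : p ≠ j) => Fin.exists_succAbove_eq h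
  refine ⟨fun x => if (x p : ℝ) ≤ 1 / 2 then Φ (update x p (pI (2 * x p)))
    else Ψ (update x p (pI (2 * x p - 1))), fun j b => if h : p = j then
      (if b then β p true else α p false) else GenLoop.transAt (q j h) (α j b) (β j b),
    ⟨Continuous.if_le (by fun_prop) (by fun_prop) (by fun_prop) continuous_const fun x hx => ?_,
      fun j b x hx => ?_⟩, fun j b => ?_⟩
  · rw [hf p true _ (by simp [hx, pI_of_ge]), hg p false _ (by simp [hx, pI_of_le]), hβ',
      rm_update, rm_update]
  · by_cases h : p = j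
    · subst h
      cases b
      · simp only [hx, bI_false, Icc.coe_zero, mul_zero, dif_pos, Bool.false_eq_true, if_false]
        rw [if_pos (by norm_num), hf p false _ (by simp [pI_of_le]), rm_update]
      · simp only [hx, bI_true, Icc.coe_one, mul_one, dif_pos, if_true]
        rw [if_neg (by norm_num), hg p true _ (by simp [pI_of_ge, one_add_one_eq_two.symm]),
          rm_update]
    · simp only [dif_neg h, GenLoop.transAt, GenLoop.coe_copy]
      have e1 : rm j x (q j h) = x p := by rw [rm, hq]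
      have e2 : ∀ s, rm j (update x p s) = update (rm j x) (q j h) s := fun s => by
        rw [← rm_update', hq]
      rw [hf j b _ (by rwa [update_of_ne (Ne.symm h)]),
        hg j b _ (by rwa [update_of_ne (Ne.symm h)]), e2, e2, e1]
      rfl
  · by_cases h : p = j
    · subst h
      cases b <;> simp [hα, hβ]
    · simp only [dif_neg h, if_neg (Ne.symm h), cls_trans, hα, hβ]

theorem he_deg (p : Fin (k + 3)) (a : PG k Y y) : HE fun j _ => if j = p then a else 0 := by
  obtain ⟨α, rfl⟩ := cls_surj a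
  refine ⟨fun x => α (rm p x), fun j _ => if j = p then α else GenLoop.const,
    ⟨by fun_prop, fun j b x hx => ?_⟩, fun j b => by beta_reduce; split_ifs <;> rfl⟩
  beta_reduce
  split_ifs with h
  · rw [h]
  · exact α.2 _ (rm_bd h hx)

theorem he_corner (p : Fin (k + 2)) (a : PG k Y y) : HE fun j b =>
    if j = p.castSucc ∧ b = false then a else if j = p.succ ∧ b = true then -a else 0 := by
  obtain ⟨α, rfl⟩ := cls_surj a
  have h0 : ∀ t : Fin (k + 2) → I, α (update t p 0) = y := fun t => α.2 _ ⟨p, by simp⟩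
  have hne : p.succ ≠ p.castSucc := (Fin.castSucc_lt_succ (i := p)).ne'
  refine ⟨fun x => α (update (rm p.castSucc x) p (pI (x p.succ - x p.castSucc))),
    fun j b => if j = p.castSucc ∧ b = false then α else if j = p.succ ∧ b = true
      then GenLoop.symmAt p α else GenLoop.const, ⟨by fun_prop, fun j b x hx => ?_⟩,
    fun j b => ?_⟩
  · beta_reduce
    by_cases h1 : j = p.castSucc
    · subst h1
      cases b
      · simp only [hx, bI_false, Icc.coe_zero, sub_zero, pI_val, and_self, if_true]
        congr 1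
        exact update_eq_self_iff.2 (by simp [rm])
      · rw [pI_of_le (by rw [hx]; exact sub_nonpos.2 (x p.succ).2.2), h0]
        simp [hne.symm]
    by_cases h2 : j = p.succ
    · subst h2
      cases b
      · rw [pI_of_le (by rw [hx]; exact sub_nonpos.2 (x p.castSucc).2.1), h0]
        simp [hne]
      · simp only [hne, false_and, if_false, and_self, if_true, GenLoop.symmAt, GenLoop.coe_copy]
        congr 1
        funext l
        by_cases h : l = p
        · subst h
          simp only [update_self, if_true, hx, rm, Fin.succAbove_succ_self]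
          exact pI_val (symm _)
        · simp only [update_of_ne h, if_neg h, rm]
          congr 1
          rcases lt_or_gt_of_ne h with h | h
          · rw [Fin.succAbove_castSucc_of_lt _ _ h, Fin.succAbove_succ_of_le _ _ h.le]
          · rw [Fin.succAbove_castSucc_of_le _ _ h.le, Fin.succAbove_succ_of_lt _ _ h]
    · obtain ⟨l, rfl⟩ := Fin.exists_succAbove_eq h1
      have h3 : l ≠ p := fun h => h2 (by simp [h])
      simp only [h1, h2, false_and, if_false]
      exact α.2 _ ⟨l, by rw [update_of_ne h3, rm, hx]; exact bI_or b⟩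
  · beta_reduce
    split_ifs
    · rfl
    · exact cls_symm _ _
    · rfl

theorem HE.top {e : Fin (k + 3) → Bool → PG k Y y} (h : HE e)
    (h0 : ∀ p b, p ≠ 0 → e p b = 0) : e 0 false = e 0 true := by
  choose β hβ using fun b => cls_surj (e 0 b)
  obtain ⟨Φ, hΦ, hf⟩ := h.repl (fun p b => if p = 0 then β b else GenLoop.const) fun p b => by
    split_ifs with h
    · rw [h, hβ]
    · exact (h0 p b h).symm
  rw [← hβ, ← hβ, cls_eq]
  have e1 : ∀ s (t : Fin (k + 2) → I), rm 0 (Fin.cons s t) = t := fun s t => rfl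
  refine ⟨⟨⟨⟨fun q => Φ (Fin.cons q.1 q.2), by fun_prop⟩, fun t => ?_, fun t => ?_⟩,
    fun s t ht => ?_⟩⟩
  · exact (hf 0 false _ rfl).trans (by simp [e1])
  · exact (hf 0 true _ rfl).trans (by simp [e1])
  · obtain ⟨i, -, b, hb⟩ := (bd_univ (ι := Fin (k + 2))).ge ht
    exact (hf i.succ b _ (by simpa using hb)).trans
      (by simp only [Fin.succ_ne_zero, if_false]; exact ((β false).2 _ ht).symm)

theorem HE.add_deg {e : Fin (k + 3) → Bool → PG k Y y} (h : HE e) (p : Fin (k + 3))
    (a : PG k Y y) : HE fun j b => e j b + if j = p then a else 0 := by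
  obtain ⟨q, r, h1, h2, h3⟩ : ∃ q r : Fin (k + 3), q ≠ p ∧ r ≠ p ∧ r ≠ q :=
    ⟨p.succAbove 0, p.succAbove 1, Fin.succAbove_ne _ _, Fin.succAbove_ne _ _, by simp⟩
  have h4 := (he_deg p a).glue (he_deg q (e q true)) r (by simp [h2, h3])
  convert h.glue h4 q (by simp [h1, h3.symm]) using 3 with j b
  by_cases h5 : j = q
  · subst h5
    cases b <;> simp [h1, h3.symm]
  · by_cases h6 : j = r
    · subst h6
      cases b <;> simp [h2, h3]
    · simp [h5, h6]

theorem HE.add {e e' : Fin (k + 3) → Bool → PG k Y y} (h : HE e) (h' : HE e') :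
    HE fun j b => e j b + e' j b := by
  convert (h.glue (h'.add_deg 0 (e 0 true - e' 0 false)) 0 (by simp)).add_deg 0 (e' 0 false)
    using 3 with j b
  by_cases h1 : j = 0
  · subst h1
    cases b
    · simp
    · simp only [if_true]; abel
  · simp [h1]

/-- The alternating sum of the faces. -/
def alt {n : ℕ} {A : Type*} [AddCommGroup A] (e : Fin n → Bool → A) : A :=
  ∑ p : Fin n, (-1 : ℤ) ^ (p : ℕ) • (e p true - e p false)

theorem alt_add {n : ℕ} {A : Type*} [AddCommGroup A] (e e' : Fin n → Bool → A) :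
    alt (fun j b => e j b + e' j b) = alt e + alt e' := by
  simp only [alt, ← Finset.sum_add_distrib, ← smul_add]
  exact Finset.sum_congr rfl fun _ _ => by congr 1; abel

theorem he_of_alt (r : ℕ) : ∀ e : Fin (k + 3) → Bool → PG k Y y,
    (∀ (p : Fin (k + 3)) b, r < p → e p b = 0) → alt e = 0 → HE e := by
  induction r with
  | zero =>
    intro e h0 h1
    rw [alt, Finset.sum_eq_single 0 (fun p _ hp => by
      simp [h0 p _ (Fin.pos_iff_ne_zero.2 hp)]) (by simp)] at h1
    convert he_deg 0 (e 0 false) using 3 with j b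
    split_ifs with h
    · subst h
      cases b
      · rfl
      · simpa [sub_eq_zero] using h1
    · exact h0 j b (Fin.pos_iff_ne_zero.2 h)
  | succ r ih =>
    intro e h0 h1
    by_cases hr : r < k + 2
    swap
    · exact ih e (fun p b hp => by omega) h1
    let p : Fin (k + 2) := ⟨r, hr⟩
    have hne : p.succ ≠ p.castSucc := (Fin.castSucc_lt_succ (i := p)).ne'
    let c : PG k Y y → Fin (k + 3) → Bool → PG k Y y := fun a j b =>
      (if j = p.castSucc ∧ b = false then a else if j = p.succ ∧ b = true then -a else 0)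
    have hc : ∀ a, alt (c a) = 0 := fun a => by
      rw [alt, Finset.sum_eq_add p.castSucc p.succ hne.symm (fun j _ hj => by simp [c, hj.1, hj.2])
        (by simp) (by simp)]
      simp [c, hne, hne.symm, pow_succ]
    have hd : ∀ a : PG k Y y, alt (fun (j : Fin (k + 3)) _ => if j = p.succ then a else 0) = 0 :=
      fun a => by simp [alt]
    have h2 := ih (fun j b => (e j b + c (e p.succ true - e p.succ false) j b) +
      if j = p.succ then -e p.succ false else 0) (fun j b hj => by
        by_cases h : j = p.succ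
        · subst h
          cases b
          · simp [c, hne]
          · simp [c, hne]
        · have h3 : j ≠ p.castSucc := fun h => by simp [h, p] at hj
          have h4 : (j : ℕ) ≠ r + 1 := fun h' => h (Fin.ext h')
          simp [c, h, h3, h0 j b (by omega)]) (by rw [alt_add, alt_add, h1, hc, hd]; simp)
    convert (h2.add (he_corner p (-(e p.succ true - e p.succ false)))).add_deg p.succ
      (e p.succ false) using 3 with j b
    simp only [c]
    split_ifs <;> abel

theorem hal {e : Fin (k + 3) → Bool → PG k Y y} : HE e ↔ alt e = 0 := by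
  refine ⟨fun h => ?_, he_of_alt (k + 3) e fun p b hp => by omega⟩
  let u : Fin (k + 3) → Bool → PG k Y y := fun j b => if j = 0 ∧ b = true then alt e else 0
  have hu : alt u = alt e := by
    rw [alt, Finset.sum_eq_single 0 (fun p _ hp => by simp [u, hp]) (by simp)]
    simp [u]
  have h1 : alt (fun j b => u j b - e j b) = 0 := by
    have := alt_add (fun j b => u j b - e j b) e
    simp only [sub_add_cancel] at this
    rw [hu] at this
    simpa using this.symm
  have h2 := h.add (he_of_alt (k + 3) _ (fun p b hp => by omega) h1)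
  simp only [add_sub_cancel] at h2
  simpa [u] using (h2.top fun p b hp => by simp [u, hp]).symm

end HAL

end Pool.Agent.P.MP_07c576_gt
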