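import Pool.Agent.P.MP_07c576_gt.Grid

/-! Covering dimension and unstable values. -/

set_option linter.unusedSectionVars false

namespace Pool.Agent.P.MP_07c576_gt

open Set Metric Topology Filter unitInterval Function BoundedContinuousFunction

theorem avoid {F : Type} [NormedAddCommGroup F] [NormedSpace ℝ F] [FiniteDimensional ℝ F] {n : ℕ}
    (h : Module.finrank ℝ F < n) {Ψ : F → Fin n → ℝ} (hΨ : Continuous Ψ) {ε : ℝ} (hε : 0 < ε) :
    ∃ G : F → Fin n → ℝ, Continuous G ∧ ∀ z, G z ≠ 0 ∧ dist (G z) (Ψ z) < ε ∧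
      (3 * ε ≤ ‖Ψ z‖ → G z = Ψ z) := by
  obtain ⟨P, hP, hP', -⟩ := hΨ.exists_contDiff_approx 1 (ε := fun _ => ε / 2)
    continuous_const fun _ => by positivity
  obtain ⟨w, hw, hw'⟩ := (hP.dense_compl_range_of_finrank_lt_finrank
    (by simpa using h)).exists_dist_lt 0 (by positivity : 0 < ε / 2)
  have hd : ∀ z, dist (Ψ z + (1 - cl (‖Ψ z‖ / ε - 2)) • (P z - w - Ψ z)) (Ψ z) < ε := fun z => by
    have h2 := hP' z
    rw [dist_eq_norm] at h2
    rw [dist_comm, dist_zero_right] at hw'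
    have h3 : ‖P z - w - Ψ z‖ < ε := by
      rw [sub_right_comm]
      linarith [norm_sub_le (P z - Ψ z) w]
    rw [dist_self_add_left, norm_smul, Real.norm_eq_abs, abs_of_nonneg (sub_nonneg.2 (cl_le_one _))]
    nlinarith [cl_nonneg (‖Ψ z‖ / ε - 2), norm_nonneg (P z - w - Ψ z)]
  refine ⟨fun z => Ψ z + (1 - cl (‖Ψ z‖ / ε - 2)) • (P z - w - Ψ z), by
    have := hP.continuous; fun_prop, fun z => ⟨fun h0 => ?_, hd z, fun h1 => ?_⟩⟩
  · beta_reduce at h0
    by_cases h : ‖Ψ z‖ ≤ 2 * ε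
    · rw [cl_of_le (by rw [sub_nonpos, div_le_iff₀ hε]; exact h), sub_zero, one_smul,
        add_sub_cancel] at h0
      exact hw ⟨z, sub_eq_zero.1 h0⟩
    · have := hd z
      rw [h0, dist_zero_left] at this
      linarith
  · beta_reduce
    rw [cl_of_ge (by rw [le_sub_iff_add_le, le_div_iff₀ hε]; linarith)]
    simp

theorem tietze {P : Type} [TopologicalSpace P] [NormalSpace P] {ι : Type} {C : Set P}
    (hC : IsClosed C) {φ : P → ι → ℝ} (h : ContinuousOn φ C) :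
    ∃ g : P → ι → ℝ, Continuous g ∧ ∀ x ∈ C, g x = φ x := by
  obtain ⟨g, hg⟩ := ContinuousMap.exists_restrict_eq hC
    ⟨C.domRestrict φ, continuousOn_iff_continuous_domRestrict.1 h⟩
  exact ⟨g, g.continuous, fun x hx => DFunLike.congr_fun hg ⟨x, hx⟩⟩

theorem isClosed_boundary (j : ℕ) : IsClosed (Cube.boundary (Fin j)) := bd_univ (ι := Fin j) ▸ isClosed_bd _

theorem fill_punct {j n : ℕ} (h : j < n) : Fill ({0}ᶜ : Set (Fin n → ℝ)) j := by
  intro F hF hY
  obtain ⟨m, hm, hm'⟩ := (isClosed_boundary j).isCompact.exists_forall_le' hF.norm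
    fun t ht => norm_pos_iff.2 (hY t ht)
  obtain ⟨g, hg, hg'⟩ := tietze (isClosed_boundary j) hF
  obtain ⟨G, h1, h2⟩ := avoid (F := Fin j → ℝ) (by simpa using h) (Ψ := fun z => g fun i => pI (z i))
    (by fun_prop) (by positivity : 0 < m / 3)
  refine ⟨fun t => G fun i => t i, by fun_prop, fun t => (h2 _).1, fun t ht => ?_⟩
  have := (h2 fun i => t i).2.2
  simp only [pI_val, hg' t ht] at this
  exact this (by linarith [hm' t ht])

variable {X : Type} [MetricSpace X]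

/-- Zero is an unstable value of all maps from `C` to `ℝ ^ j`. -/
def Uns (j : ℕ) (C : Set X) : Prop := ∀ φ : X → Fin j → ℝ, Continuous φ → ∀ δ > 0,
  ∃ ψ : X → Fin j → ℝ, ContinuousOn ψ C ∧ ∀ x ∈ C, ψ x ≠ 0 ∧ dist (ψ x) (φ x) < δ

theorem Uns.mono {j : ℕ} {C C' : Set X} (h : Uns j C) (hC : C' ⊆ C) : Uns j C' := fun φ hφ δ hδ =>
  let ⟨ψ, h1, h2⟩ := h φ hφ δ hδ
  ⟨ψ, h1.mono hC, fun x hx => h2 x (hC hx)⟩

theorem Uns.transfer {j : ℕ} {C C' : Set X} (h : Uns j C') (hC : IsClosed C') {s s' : X → X}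
    (h1 : ContinuousOn s C) (h2 : ContinuousOn s' C') (h3 : MapsTo s C C')
    (h4 : ∀ x ∈ C, s' (s x) = x) : Uns j C := by
  intro φ hφ δ hδ
  obtain ⟨g, g1, g2⟩ := tietze hC (hφ.comp_continuousOn h2)
  obtain ⟨ψ, p1, p2⟩ := h g g1 δ hδ
  refine ⟨ψ ∘ s, p1.comp h1 h3, fun x hx => ?_⟩
  have := p2 _ (h3 hx)
  rwa [g2 _ (h3 hx), comp_apply, h4 x hx] at this

theorem uns_param {F : Type} [NormedAddCommGroup F] [NormedSpace ℝ F] [FiniteDimensional ℝ F]
    {j : ℕ} (h : Module.finrank ℝ F < j) {C : Set X} {Θ : F → X} (hΘ : Continuous Θ) {t : X → F}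
    (ht : ContinuousOn t C) (h1 : ∀ x ∈ C, Θ (t x) = x) : Uns j C := by
  intro φ hφ δ hδ
  obtain ⟨G, g1, g2⟩ := avoid h (hφ.comp hΘ) hδ
  refine ⟨G ∘ t, g1.comp_continuousOn ht, fun x hx => ⟨(g2 _).1, ?_⟩⟩
  have := (g2 (t x)).2.1
  rwa [comp_apply, h1 x hx] at this

/-- Covering dimension at most `n`. -/
def Cd (X : Type) [TopologicalSpace X] (n : ℕ) : Prop :=
  ∀ 𝒰 : Finset (Set X), (∀ U ∈ 𝒰, IsOpen U) → ⋃₀ (↑𝒰 : Set (Set X)) = Set.univ →
    ∃ 𝒱 : Finset (Set X), (∀ V ∈ 𝒱, IsOpen V) ∧ ⋃₀ (↑𝒱 : Set (Set X)) = Set.univ ∧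
      (∀ V ∈ 𝒱, ∃ U ∈ 𝒰, V ⊆ U) ∧
      ∀ x : X, ∀ 𝒲 : Finset (Set X), 𝒲 ⊆ 𝒱 → (∀ V ∈ 𝒲, x ∈ V) → 𝒲.card ≤ n + 1

theorem exists_pou {𝒱 : Finset (Set X)} (h1 : ∀ V ∈ 𝒱, IsOpen V)
    (h2 : ⋃₀ (↑𝒱 : Set (Set X)) = Set.univ) : ∃ ρ : 𝒱 → X → ℝ, (∀ V, Continuous (ρ V)) ∧
      (∀ V x, 0 ≤ ρ V x) ∧ (∀ x, ∑ V, ρ V x = 1) ∧ ∀ V x, ρ V x ≠ 0 → x ∈ V.1 := by
  obtain ⟨ρ, hρ⟩ := PartitionOfUnity.exists_isSubordinate isClosed_univ (fun V : 𝒱 => V.1)
    (fun V => h1 V V.2) fun x _ => by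
      obtain ⟨V, hV, hx⟩ := mem_sUnion.1 (h2.ge (mem_univ x))
      exact mem_iUnion.2 ⟨⟨V, hV⟩, hx⟩
  exact ⟨fun V => ρ V, fun V => (ρ V).continuous, ρ.nonneg, fun x => by
    rw [← finsum_eq_sum_of_fintype, ρ.sum_eq_one (mem_univ x)],
    fun V x hx => hρ V (subset_tsupport _ hx)⟩

theorem Cd.uns {n j : ℕ} (h : Cd X n) (hj : n < j) {C : Set X} (hC : IsCompact C) : Uns j C := by
  classical
  intro φ hφ δ hδ
  obtain ⟨t, ht⟩ := hC.elim_finite_subcover (fun a => φ ⁻¹' ball (φ a) (δ / 2))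
    (fun a => isOpen_ball.preimage hφ) fun x _ => mem_iUnion.2 ⟨x, mem_ball_self (by positivity)⟩
  obtain ⟨𝒱, v1, v2, v3, v4⟩ := h (insert Cᶜ (t.image fun a => φ ⁻¹' ball (φ a) (δ / 2)))
    (by
      simp only [Finset.mem_insert, Finset.mem_image]
      rintro U (rfl | ⟨a, -, rfl⟩)
      exacts [hC.isClosed.isOpen_compl, isOpen_ball.preimage hφ])
    (eq_univ_of_forall fun x => by
      by_cases hx : x ∈ C
      · obtain ⟨a, ha, hx'⟩ := mem_iUnion₂.1 (ht hx)
        exact ⟨_, by simpa using Or.inr ⟨a, ha, rfl⟩, hx'⟩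
      · exact ⟨Cᶜ, by simp, hx⟩)
  have key : ∀ V : 𝒱, ∃ y, ∀ x ∈ V.1, x ∈ C → y ∈ ball (φ x) (δ / 2) := by
    intro V
    obtain ⟨U, hU, hVU⟩ := v3 V V.2
    simp only [Finset.mem_insert, Finset.mem_image] at hU
    rcases hU with rfl | ⟨a, -, rfl⟩
    · exact ⟨0, fun x hx hx' => absurd hx' (hVU hx)⟩
    · exact ⟨φ a, fun x hx _ => mem_ball_comm.1 (hVU hx)⟩
  choose y hy using key
  obtain ⟨ρ, r1, r2, r3, r4⟩ := exists_pou v1 v2
  have hae : ∀ᵐ s ∂(MeasureTheory.volume : MeasureTheory.Measure (Fin j → ℝ)),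
      ∀ τ : Finset 𝒱, ∀ m, τ.card = m + 1 → m ≤ n → s ∉ affineSpan ℝ (↑(τ.image y) : Set _) := by
    simp only [MeasureTheory.ae_all_iff]
    intro τ m h1 h2
    refine MeasureTheory.measure_eq_zero_iff_ae_notMem.1
      (MeasureTheory.Measure.addHaar_affineSubspace _ _ fun e => ?_)
    have := finrank_vectorSpan_image_finset_le ℝ y τ h1
    rw [← direction_affineSpan, e, AffineSubspace.direction_top] at this
    simp at this
    omega
  obtain ⟨s, hs, hs'⟩ := (MeasureTheory.Measure.dense_of_ae hae).exists_dist_lt 0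
    (by positivity : 0 < δ / 2)
  refine ⟨fun x => ∑ V, ρ V x • y V - s, by fun_prop, fun x hx => ?_⟩
  have e1 : ∑ V with ρ V x ≠ 0, ρ V x = 1 := by rw [Finset.sum_filter_ne_zero, r3]
  have e2 : ∑ V with ρ V x ≠ 0, ρ V x • y V = ∑ V, ρ V x • y V :=
    Finset.sum_filter_of_ne fun V _ h h' => h (by rw [h', zero_smul])
  refine ⟨fun h0 => ?_, ?_⟩
  · obtain ⟨m, hm⟩ := Nat.exists_eq_succ_of_ne_zero (Finset.card_ne_zero.2
      (Finset.nonempty_of_sum_ne_zero (e1.trans_ne one_ne_zero)))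
    have := v4 x ((Finset.univ.filter fun V => ρ V x ≠ 0).map (Embedding.subtype _))
      (by intro V; simp only [Finset.mem_map]; rintro ⟨V, -, rfl⟩; exact V.2)
      (by simp only [Finset.mem_map]; rintro _ ⟨V, hV, rfl⟩; exact r4 V x (by simpa using hV))
    rw [Finset.card_map] at this
    refine hs _ m hm (by omega) ?_
    rw [← sub_eq_zero.1 h0, ← e2]
    exact (AffineSubspace.convex _).sum_mem (fun V _ => r2 V x) e1 fun V hV =>
      mem_affineSpan _ (Finset.mem_image_of_mem y hV)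
  · have := (convex_ball (φ x) (δ / 2)).sum_mem (fun V _ => r2 V x) e1 fun V hV =>
      hy V x (r4 V x (by simpa using hV)) hx
    rw [e2, mem_ball] at this
    rw [dist_comm, dist_zero_right] at hs'
    linarith [dist_triangle (∑ V, ρ V x • y V - s) (∑ V, ρ V x • y V) (φ x),
      dist_self_sub_left (∑ V, ρ V x • y V) s]

theorem baire_uns {ι κ : Type} [Fintype ι] [Countable κ] {j : ℕ} (C : κ → Set X)
    (hC : ∀ m, IsCompact (C m)) (hU : ∀ m, Uns j (C m)) (s : κ → Fin j → ι)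
    (hs : ∀ m, Injective (s m)) (c : κ → (ι → ℝ) → Fin j → ℝ) (hc : ∀ m, Continuous (c m))
    (hcs : ∀ m u u', (∀ i ∉ range (s m), u i = u' i) → c m u = c m u') {u₀ : X → ι → ℝ}
    (h₀ : Continuous u₀) {ε : ℝ} (hε : 0 < ε) : ∃ u : X → ι → ℝ, Continuous u ∧
      (∀ x, dist (u x) (u₀ x) < ε) ∧ ∀ m, ∀ x ∈ C m, u x ∘ s m ≠ c m (u x) := by
  classical
  let O : κ → Set (X →ᵇ (ι → ℝ)) := fun m =>
    {v | ∀ x ∈ C m, (u₀ x + v x) ∘ s m ≠ c m (u₀ x + v x)}
  have h1 : ∀ m, IsOpen (O m) := fun m => isOpen_iff_mem_nhds.2 fun v hv =>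
    (hC m).eventually_forall_of_forall_eventually (x₀ := v)
      (P := fun (v : X →ᵇ (ι → ℝ)) x => (u₀ x + v x) ∘ s m ≠ c m (u₀ x + v x)) fun x hx => by
      have e : Continuous fun q : (X →ᵇ (ι → ℝ)) × X => u₀ q.2 + q.1 q.2 :=
        (h₀.comp continuous_snd).add continuous_eval
      exact (isOpen_ne_fun (continuous_pi fun i => (continuous_apply _).comp e)
        ((hc m).comp e)).mem_nhds (hv x hx)
  have h2 : ∀ m, Dense (O m) := fun m => Metric.dense_iff.2 fun v r hr => by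
    have e : Continuous fun x => u₀ x + v x := h₀.add v.continuous
    have e' : Continuous fun x => (u₀ x + v x) ∘ s m - c m (u₀ x + v x) :=
      (continuous_pi fun i => (continuous_apply _).comp e).sub ((hc m).comp e)
    obtain ⟨ψ, p1, p2⟩ := hU m _ e' (r / 2) (by positivity)
    obtain ⟨g, g1, g2⟩ := tietze (hC m).isClosed (p1.sub e'.continuousOn)
    let w : X → ι → ℝ := fun x => Function.extend (s m) (fun i => max (-(r / 2)) (min (r / 2) (g x i))) 0
    have w1 : Continuous w := continuous_pi fun i => by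
      simp only [w, Function.extend_def]
      split_ifs <;> fun_prop
    have w2 : ∀ x, ‖w x‖ ≤ r / 2 := fun x => (pi_norm_le_iff_of_nonneg (by positivity)).2 fun i => by
      simp only [w, Function.extend_def]
      split_ifs
      · exact abs_le.2 ⟨le_max_left _ _, max_le (by linarith) (min_le_left _ _)⟩
      · simpa using (half_pos hr).le
    refine ⟨v + ofNormedAddCommGroup w w1 _ w2, ?_, fun x hx h => (p2 x hx).1 (funext fun i => ?_)⟩
    · rw [mem_ball, dist_self_add_left]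
      exact ((norm_le (by positivity)).2 w2).trans_lt (by linarith)
    · have a1 := abs_lt.1 ((dist_le_pi_dist _ _ i).trans_lt (p2 x hx).2)
      have a2 := congrFun (g2 x hx) i
      have a3 := congrFun h i
      rw [hcs m _ (u₀ x + v x) fun k hk => by
        simp [w, extend_apply' _ _ _ fun ⟨l, hl⟩ => hk ⟨l, hl⟩]] at a3
      simp only [Pi.sub_apply, Function.comp_apply, Pi.add_apply, coe_add, coe_ofNormedAddCommGroup, w,
        (hs m).extend_apply] at a1 a2 a3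
      rw [a2, min_eq_right a1.2.le, max_eq_right a1.1.le] at a3
      simp only [Pi.zero_apply]
      linarith
  obtain ⟨v, hv, hv'⟩ := (dense_iInter_of_isOpen h1 h2).exists_dist_lt 0 hε
  refine ⟨fun x => u₀ x + v x, h₀.add v.continuous, fun x => ?_, fun m => mem_iInter.1 hv m⟩
  rw [dist_self_add_left]
  rw [dist_comm, dist_zero_right] at hv'
  exact (v.norm_coe_le_norm x).trans_lt hv'

theorem cd_of_uns [ProperSpace X] {n : ℕ} (h : ∀ o : X, ∃ ρ > 0, Uns (n + 1) (closedBall o ρ)) :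
    Cd X n := by
  classical
  intro 𝒰 u1 u2
  choose r hr hU using h
  obtain ⟨S, hS, hS'⟩ := TopologicalSpace.countable_cover_nhds fun o => closedBall_mem_nhds o (hr o)
  have := hS.to_subtype
  obtain ⟨ρ, r1, r2, r3, r4⟩ := exists_pou u1 u2
  obtain ⟨u, h1, h2, h3⟩ := baire_uns
    (κ := S × {q : 𝒰 × (Fin (n + 1) → 𝒰) // Injective q.2 ∧ q.1 ∉ range q.2})
    (fun m => closedBall m.1.1 (r m.1.1)) (fun _ => isCompact_closedBall _ _) (fun _ => hU _)
    (fun m => m.2.1.2) (fun m => m.2.2.1) (fun m u _ => u m.2.1.1) (fun _ => by fun_prop)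
    (fun m u u' e => funext fun _ => e _ m.2.2.2) (u₀ := fun x V => ρ V x) (by fun_prop)
    (by positivity : (0 : ℝ) < 1 / (2 * Fintype.card 𝒰 + 1))
  let W : 𝒰 → Set X := fun i => i.1 ∩ ⋃ τ : Finset 𝒰, ⋃ _ : τ.card ≤ n + 1,
    ⋂ k, ⋂ _ : k ∉ τ, {x | u x k < u x i}
  refine ⟨Finset.univ.image W, ?_, eq_univ_of_forall fun x => ?_, ?_, fun x 𝒲 w1 w2 => ?_⟩
  · simp only [Finset.mem_image]
    rintro _ ⟨i, -, rfl⟩
    exact (u1 i i.2).inter (isOpen_iUnion fun τ => isOpen_iUnion fun _ =>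
      isOpen_iInter_of_finite fun k => isOpen_iInter_of_finite fun _ =>
        isOpen_lt (by fun_prop) (by fun_prop))
  · obtain ⟨i, -, hi⟩ := Finset.exists_max_image Finset.univ (u x)
      (Finset.nonempty_of_sum_ne_zero ((r3 x).trans_ne one_ne_zero))
    have hd := fun k => abs_lt.1 ((dist_le_pi_dist _ _ k).trans_lt (h2 x))
    refine ⟨W i, by simp, r4 i x fun h0 => ?_, mem_iUnion₂.2
      ⟨Finset.univ.filter fun k => u x k = u x i, ?_, mem_iInter₂.2 fun k hk =>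
        lt_of_le_of_ne (hi k (by simp)) (by simpa using hk)⟩⟩
    · have : ∑ V, ρ V x ≤ ∑ _V : 𝒰, 2 * (1 / (2 * Fintype.card 𝒰 + 1) : ℝ) :=
        Finset.sum_le_sum fun V _ => by linarith [hi V (by simp), (hd V).1, (hd i).2]
      rw [r3, Finset.sum_const, Finset.card_univ, nsmul_eq_mul, ← mul_assoc, mul_one_div,
        one_le_div (by positivity)] at this
      linarith
    · by_contra hc
      obtain ⟨s, hs⟩ := Embedding.exists_of_card_le_finset (α := Fin (n + 1))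
        (s := (Finset.univ.filter fun k => u x k = u x i).erase i) (by
          rw [Finset.card_erase_of_mem (by simp), Fintype.card_fin]; omega)
      obtain ⟨o, ho, hx⟩ := mem_iUnion₂.1 (hS'.ge (mem_univ x))
      exact h3 (⟨o, ho⟩, ⟨(i, s), s.injective, fun h => by simpa using hs h⟩) x hx
        (funext fun l => by simpa using (Finset.mem_erase.1 (hs ⟨l, rfl⟩)).2)
  · simp only [Finset.mem_image]
    rintro _ ⟨i, -, rfl⟩
    exact ⟨i, i.2, inter_subset_left⟩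
  · let T := Finset.univ.filter fun i => x ∈ W i
    have e : 𝒲 ⊆ T.image W := fun V hV => by
      obtain ⟨i, -, rfl⟩ := Finset.mem_image.1 (w1 hV)
      exact Finset.mem_image_of_mem W (by simpa [T] using w2 _ hV)
    refine (Finset.card_le_card e).trans (Finset.card_image_le.trans ?_)
    rcases T.eq_empty_or_nonempty with h | h
    · simp [h]
    obtain ⟨i, hi, hm⟩ := T.exists_min_image (u x) h
    obtain ⟨τ, h4, h5⟩ := mem_iUnion₂.1 (Finset.mem_filter.1 hi).2.2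
    refine (Finset.card_le_card fun k hk => ?_).trans h4
    by_contra hk'
    exact (hm k hk).not_gt (mem_iInter₂.1 h5 k hk')

theorem Uns.emap {n : ℕ} {C : Set X} (hU : Uns (n + 1) C) (hC : IsCompact C) {o : X} (ho : o ∈ C)
    {η : ℝ} (hη : 0 < η) : ∃ (N : ℕ) (p : X → ℕ → ℝ) (v : (ℕ → ℤ) → X), Continuous p ∧
      (∀ x i, N ≤ i → p x i = 0) ∧ (∀ x ∈ C, dim (cellOf N (p x)) ≤ n) ∧ (∀ w, v w ∈ C) ∧
      ∀ x ∈ C, ∀ w : ℕ → ℤ, (∀ i < N, |w i - p x i| < 2) → dist (v w) x ≤ η := by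
  classical
  obtain ⟨t, -, t1, t2⟩ := finite_cover_balls_of_compact hC (by positivity : 0 < η / 10)
  obtain ⟨N, a, -, ha⟩ := t1.fin_param
  obtain ⟨u, h1, h2, h3⟩ := baire_uns
    (κ := {s : Fin (n + 1) → Fin N // Injective s} × (Fin (n + 1) → ℤ)) (fun _ => C) (fun _ => hC)
    (fun _ => hU) (fun m => m.1.1) (fun m => m.1.2) (fun m _ i => m.2 i + 1 / 2)
    (fun _ => continuous_const) (fun _ _ _ _ => rfl) (u₀ := fun x i => dist x (a i) / (η / 10))
    (by fun_prop) one_pos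
  have hh : Continuous fun t : ℝ => |Int.fract t - 1 / 2| :=
    (continuous_glue (P := Unit) (F := fun _ _ s => |s - 1 / 2|) (fun _ => by fun_prop)
      fun _ _ => by norm_num [abs_of_pos]).comp (f := fun t => ((), t)) (by fun_prop)
  choose g g1 g2 using fun s : {s : Fin (n + 1) → Fin N // Injective s} =>
    hC.exists_forall_le' (a := 0) (f := fun x => ‖fun i => |Int.fract (u x (s.1 i)) - 1 / 2|‖)
      (continuous_pi fun i => hh.comp (by fun_prop)).norm.continuousOn fun x hx =>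
      norm_pos_iff.2 fun h0 => h3 (s, fun i => ⌊u x (s.1 i)⌋) x hx (funext fun i => by
        have := sub_eq_zero.1 (abs_eq_zero.1 (congrFun h0 i))
        rw [← this, Int.floor_add_fract, Function.comp_apply])
  obtain ⟨γ, g3, g4, g5⟩ := ((Filter.eventually_all.2 fun s => (Ioo_mem_nhdsGT (g1 s) :
    ∀ᶠ γ in 𝓝[>] (0 : ℝ), γ ∈ Ioo 0 (g s))).and
    (Ioo_mem_nhdsGT (by norm_num : (0 : ℝ) < 1 / 2))).exists
  let r : ℝ → ℝ := fun t => ⌊t⌋ + cl ((Int.fract t - 1 / 2) / (2 * γ) + 1 / 2)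
  have c0 : ∀ s : ℝ, s - 1 / 2 ≤ -γ → cl ((s - 1 / 2) / (2 * γ) + 1 / 2) = 0 := fun s hs =>
    cl_of_le (by rw [← le_sub_iff_add_le, div_le_iff₀ (by positivity)]; linarith)
  have c1 : ∀ s : ℝ, γ ≤ s - 1 / 2 → cl ((s - 1 / 2) / (2 * γ) + 1 / 2) = 1 := fun s hs =>
    cl_of_ge (by rw [← sub_le_iff_le_add, le_div_iff₀ (by positivity)]; linarith)
  have hr : Continuous r := (continuous_glue (P := Unit)
    (F := fun i _ s => (i : ℝ) + cl ((s - 1 / 2) / (2 * γ) + 1 / 2)) (fun _ => by fun_prop)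
      fun _ _ => by rw [c1 _ (by linarith), c0 _ (by linarith)]; simp).comp
      (f := fun t => ((), t)) (by fun_prop)
  have hr' : ∀ t, |r t - t| ≤ 1 := fun t => by
    have := cl_mem ((Int.fract t - 1 / 2) / (2 * γ) + 1 / 2)
    simp only [r]
    exact abs_le.2 ⟨by linarith [this.1, Int.lt_floor_add_one t], by linarith [this.2, Int.floor_le t]⟩
  have key : ∀ x ∈ C, ∀ w : ℕ → ℤ, ∃ y ∈ C, ∀ x ∈ C,
      (∀ i : Fin N, |w i - dist x (a i) / (η / 10)| < 4) → dist y x ≤ η := by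
    intro _ _ w
    by_cases h : ∃ y ∈ C, ∀ i : Fin N, |w i - dist y (a i) / (η / 10)| < 4
    · obtain ⟨y, hy, h⟩ := h
      refine ⟨y, hy, fun x hx h' => ?_⟩
      obtain ⟨_, h4, h5⟩ := mem_iUnion₂.1 (t2 hx)
      obtain ⟨i, rfl⟩ := ha.ge h4
      have h6 : dist y (a i) / (η / 10) - dist x (a i) / (η / 10) < 8 := by
        linarith [(abs_lt.1 (h i)).1, (abs_lt.1 (h' i)).2]
      rw [← sub_div, div_lt_iff₀ (by positivity)] at h6
      linarith [dist_triangle_right y x (a i), mem_ball.1 h5]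
    · exact ⟨o, ho, fun x hx h' => absurd ⟨x, hx, h'⟩ h⟩
  choose v v1 v2 using key o ho
  refine ⟨N, fun x i => if h : i < N then r (u x ⟨i, h⟩) else 0, v, continuous_pi fun i => ?_,
    fun x i hi => dif_neg hi.not_gt, fun x hx => ?_, v1, fun x hx w hw => v2 w x hx fun i => ?_⟩
  · split_ifs
    exacts [hr.comp (by fun_prop), continuous_const]
  · by_contra hc
    rw [← card_act] at hc
    obtain ⟨s, hs⟩ := Embedding.exists_of_card_le_finset (α := Fin (n + 1))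
      (by rw [Fintype.card_fin]; exact not_le.1 hc)
    have hs1 : ∀ i, s i < N := fun i => by simpa using lt_of_act (hs ⟨i, rfl⟩)
    let s' : {s : Fin (n + 1) → Fin N // Injective s} :=
      ⟨fun i => ⟨s i, hs1 i⟩, fun i j e => s.injective (congrArg Fin.val e)⟩
    refine ((g3 s').2.trans_le (g2 s' x hx)).not_ge ((pi_norm_le_iff_of_nonneg g4.le).2 fun i => ?_)
    have := mem_act.1 (hs ⟨i, rfl⟩)
    simp only [gd_cellOf (hs1 i), dif_pos (hs1 i)] at this
    rw [Real.norm_eq_abs, abs_abs]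
    by_contra h4
    rcases lt_abs.1 (not_le.1 h4) with h5 | h5
    · have e := c1 _ h5.le
      simp only [s'] at e
      simp only [r, e] at this
      simp at this
    · have e := c0 _ (le_neg.1 h5.le)
      simp only [s'] at e
      simp only [r, e] at this
      simp at this
  · have a1 := hw i i.2
    simp only [dif_pos i.2] at a1
    have a2 := abs_lt.1 ((dist_le_pi_dist _ _ i).trans_lt (h2 x))
    have a3 := abs_le.1 (hr' (u x i))
    exact abs_lt.2 ⟨by linarith [(abs_lt.1 a1).1], by linarith [(abs_lt.1 a1).2]⟩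

end Pool.Agent.P.MP_07c576_gt
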