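import Pool.Agent.P.MP_07c576_gt.Setup

/-! The disjoint discs property. -/

set_option linter.unusedSectionVars false

namespace Pool.Agent.P.MP_07c576_gt

open Set Metric Topology Filter unitInterval

variable {X : Type} [MetricSpace X]

theorem isOpen_forall {M K : Type*} [TopologicalSpace M] [TopologicalSpace K] [CompactSpace K]
    {p : M → K → Prop} (h : IsOpen {q : M × K | p q.1 q.2}) : IsOpen {x | ∀ k, p x k} :=
  isOpen_iff_mem_nhds.2 fun x hx =>
    (isCompact_univ.eventually_forall_of_forall_eventually (x₀ := x) (P := p)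
      fun k _ => h.mem_nhds (hx k)).mono fun _ hy k => hy k trivial

theorem isOpen_maps {P : Type*} [TopologicalSpace P] [CompactSpace P] [LocallyCompactSpace P]
    {U : Set X} (hU : IsOpen U) : IsOpen {f : C(P, X) | ∀ z, f z ∈ U} :=
  isOpen_forall (p := fun (f : C(P, X)) z => f z ∈ U) (hU.preimage continuous_eval)

theorem continuousAt_floor' {x : ℝ} (h : ∀ j : ℤ, x ≠ j) : ContinuousAt (fun t : ℝ => ⌊t⌋) x := by
  have h1 : Ioo (⌊x⌋ : ℝ) (⌊x⌋ + 1) ∈ 𝓝 x :=
    Ioo_mem_nhds (lt_of_le_of_ne (Int.floor_le x) (h _).symm) (Int.lt_floor_add_one x)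
  refine (continuousAt_const (y := ⌊x⌋)).congr ?_
  filter_upwards [h1] with t ht
  exact (Int.floor_eq_iff.2 ⟨ht.1.le, ht.2⟩).symm

theorem dist_pI (s : ℝ) (t : I) : dist (pI s) t ≤ dist s t := by
  have := (LipschitzWith.projIcc (zero_le_one (α := ℝ))).dist_le_mul s t
  rw [projIcc_val, NNReal.coe_one, one_mul] at this
  exact this

theorem Loc.exists_ext [ProperSpace X] {o : X} {R : ℝ} (L : Loc o R) {P : Type*} [MetricSpace P]
    (f f₁ : C(P, X)) {E : Set P} (hE : IsClosed E) {ξ : ℝ} (hξ : 0 < ξ)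
    (h : ∀ z ∈ E, f z ∈ ball o R ∧ f₁ z ∈ ball o R ∧ dist (f₁ z) (f z) < ξ) :
    ∃ f' : C(P, X), (∀ z ∈ E, f' z = f₁ z) ∧ ∀ z, dist (f' z) (f z) < ξ := by
  let U : Set P := {z | f z ∈ ball o R ∧ f₁ z ∈ ball o R ∧ dist (f₁ z) (f z) < ξ}
  have hU : IsOpen U := (isOpen_ball.preimage f.continuous).inter
    ((isOpen_ball.preimage f₁.continuous).inter (isOpen_lt (f₁.continuous.dist f.continuous) continuous_const))
  obtain ⟨V, hV, hEV, hVU⟩ := normal_exists_closure_subset hE hU h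
  obtain ⟨l, l0, l1, hl⟩ := exists_continuous_zero_one_of_isClosed hV.isClosed_compl hE
    (disjoint_compl_left_iff_subset.2 hEV)
  have h0 : ∀ z, z ∉ closure V → geo (f z) (f₁ z) (l z) = f z := fun z hz => by
    rw [l0 fun h' => hz (subset_closure h'), Pi.zero_apply, geo_zero]
  refine ⟨⟨fun z => geo (f z) (f₁ z) (l z), continuous_iff_continuousAt.2 fun z => ?_⟩,
    fun z hz => ?_, fun z => ?_⟩
  · by_cases hz : z ∈ U
    · exact (L.continuous_geo (D := U) f.continuous.continuousOn f₁.continuous.continuousOn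
        l.continuous.continuousOn fun p hp => ⟨hp.1, hp.2.1, (hl p).1,
          by linarith [(hl p).2]⟩).continuousAt (hU.mem_nhds hz)
    · refine f.continuous.continuousAt.congr ?_
      filter_upwards [isClosed_closure.isOpen_compl.mem_nhds fun h' => hz (hVU h')] with y hy
      exact (h0 y hy).symm
  · change geo (f z) (f₁ z) (l z) = f₁ z
    rw [l1 hz, Pi.one_apply, geo_one]
  · change dist (geo (f z) (f₁ z) (l z)) (f z) < ξ
    by_cases hz : z ∈ U
    · exact (L.dist_geo_le hz.1 hz.2.1 (hl z)).trans_lt (by rw [dist_comm]; exact hz.2.2)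
    · rw [h0 z fun h' => hz (hVU h'), dist_self]; exact hξ

namespace Box

variable {o : X} {μ : ℝ} {π : X → X} {w : X → ℝ} {ψ : X → ℝ → X} (B : Box o μ π w ψ)
include B

theorem sub4 {y : X} (hy : y ∈ ball o μ) : y ∈ ball o (4 * μ) :=
  ball_subset_ball (by linarith [B.pos]) hy

theorem w_mem {y : X} (hy : y ∈ ball o μ) {t : ℝ} (ht : |t| ≤ 3 * μ) :
    w y + t ∈ ball (w o) (4 * μ) := by
  have h1 := B.w_lip y o
  rw [mem_ball, Real.dist_eq] at *
  have := abs_add_le (w y - w o) t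
  rw [show w y + t - w o = w y - w o + t by ring]
  linarith

theorem continuous_psi {P : Type*} [TopologicalSpace P] {f : P → X} {t : P → ℝ}
    (hf : Continuous f) (ht : Continuous t)
    (h : ∀ z, f z ∈ ball o (4 * μ) ∧ t z ∈ ball (w o) (4 * μ)) :
    Continuous fun z => ψ (f z) (t z) :=
  B.psi_cont.comp_continuous (hf.prodMk ht) h

theorem height (f f' : C(I × I, X)) {n : ℕ} (hn : 0 < n) {η : ℝ} (hη : 0 < η) (hη' : η ≤ μ)
    (hf : ∀ s t, dist s t ≤ 1 / n → dist (f s) (f t) < η) (hff : ∀ z, dist (f' z) (f z) < η)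
    (hf' : ∀ z, f' z ∈ ball o μ) {Z : Set (I × I)} (hZ : IsClosed Z)
    (hZ' : ∀ z ∈ Z, ∀ j : ℤ, (n : ℝ) * z.1 ≠ j ∧ (n : ℝ) * z.2 ≠ j) {c : ℝ} (hc : c ∈ Icc 0 1) :
    ∃ f'' : C(I × I, X), (∀ z, dist (f'' z) (f' z) ≤ 3 * η ∧ π (f'' z) = π (f' z)) ∧
      ∀ z ∈ Z, ∃ k : ℤ, w (f'' z) = η * (k + c) := by
  have hn' : (0 : ℝ) < n := by exact_mod_cast hn
  let cor : ℤ × ℤ → I × I := fun k => (pI (k.1 / n), pI (k.2 / n))
  let idx : I × I → ℤ × ℤ := fun z => (⌊(n : ℝ) * z.1⌋, ⌊(n : ℝ) * z.2⌋)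
  let F : ℤ × ℤ → ℝ := fun k => η * (⌊w (f (cor k)) / η⌋ + c)
  have hidx : ContinuousOn idx Z := fun z hz =>
    (ContinuousAt.prodMk
      (ContinuousAt.comp (f := fun z : I × I => (n : ℝ) * z.1)
        (continuousAt_floor' fun j => (hZ' z hz j).1) (by fun_prop))
      (ContinuousAt.comp (f := fun z : I × I => (n : ℝ) * z.2)
        (continuousAt_floor' fun j => (hZ' z hz j).2) (by fun_prop))).continuousWithinAt
  have hcont : ContinuousOn (fun z => F (idx z) - w (f' z)) Z :=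
    ((continuous_of_discreteTopology (f := F)).comp_continuousOn hidx).sub
      (B.w_cont.comp f'.continuous).continuousOn
  have hbd : ∀ z, F (idx z) - w (f' z) ∈ Icc (-(3 * η)) (3 * η) := fun z => by
    have h1 := hf (cor (idx z)) z (max_le ((dist_pI _ _).trans (dist_floor hn' _))
      ((dist_pI _ _).trans (dist_floor hn' _)))
    have h2 := B.w_lip (f (cor (idx z))) (f z)
    have h3 := B.w_lip (f' z) (f z)
    have h4 := hff z
    rw [Real.dist_eq, abs_le] at h2 h3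
    have h5 := Int.floor_le (w (f (cor (idx z))) / η)
    have h6 := Int.lt_floor_add_one (w (f (cor (idx z))) / η)
    rw [le_div_iff₀ hη] at h5
    rw [div_lt_iff₀ hη] at h6
    simp only [F]
    constructor <;> nlinarith [hc.1, hc.2]
  obtain ⟨d, hd, hd'⟩ := ContinuousMap.exists_restrict_eq_forall_mem_of_closed
    (⟨_, hcont.domRestrict⟩ : C(Z, ℝ)) (t := Icc (-(3 * η)) (3 * η)) (fun z => hbd z)
    ⟨0, by constructor <;> linarith⟩ hZ
  have hd3 : ∀ z, |d z| ≤ 3 * η := fun z => abs_le.2 (hd z)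
  have hm : ∀ z, f' z ∈ ball o (4 * μ) ∧ w (f' z) + d z ∈ ball (w o) (4 * μ) := fun z =>
    ⟨B.sub4 (hf' z), B.w_mem (hf' z) (by linarith [hd3 z])⟩
  refine ⟨⟨fun z => ψ (f' z) (w (f' z) + d z), B.continuous_psi f'.continuous
    ((B.w_cont.comp f'.continuous).add d.continuous) hm⟩, fun z => ?_, fun z hz => ?_⟩
  · have := B.psi_spec _ (hm z).1 _ (hm z).2
    refine ⟨?_, this.2.1⟩
    change dist (ψ _ _) _ ≤ _
    rw [this.1, sub_add_cancel_left, abs_neg]
    exact hd3 z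
  · have h1 : d z = F (idx z) - w (f' z) := congrArg (fun u : C(Z, ℝ) => u ⟨z, hz⟩) hd'
    refine ⟨⌊w (f (cor (idx z))) / η⌋, ?_⟩
    change w (ψ _ _) = _
    rw [(B.psi_spec _ (hm z).1 _ (hm z).2).2.2, h1, add_sub_cancel]

theorem isOpen_line {e : I → I × I} (he : Continuous e) :
    IsOpen {q : C(I × I, X) × C(I × I, X) | ∀ k : I × I × I, q.1 (e k.1) ∈ ball o (4 * μ) ∧
      q.2 k.2 ∈ ball o (4 * μ) ∧ π (q.1 (e k.1)) ≠ π (q.2 k.2)} := by
  refine isOpen_forall (p := fun (q : C(I × I, X) × C(I × I, X)) (k : I × I × I) =>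
    q.1 (e k.1) ∈ ball o (4 * μ) ∧ q.2 k.2 ∈ ball o (4 * μ) ∧ π (q.1 (e k.1)) ≠ π (q.2 k.2)) ?_
  have h1 : IsOpen {p : X × X | p.1 ∈ ball o (4 * μ) ∧ p.2 ∈ ball o (4 * μ) ∧ π p.1 ≠ π p.2} := by
    have h2 : ContinuousOn (fun p : X × X => (π p.1, π p.2)) (ball o (4 * μ) ×ˢ ball o (4 * μ)) :=
      (B.pi_cont.comp continuousOn_fst fun p hp => hp.1).prodMk
        (B.pi_cont.comp continuousOn_snd fun p hp => hp.2)
    convert h2.isOpen_inter_preimage (isOpen_ball.prod isOpen_ball)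
      (isClosed_diagonal (X := X)).isOpen_compl using 1
    ext p
    simp only [mem_ofPred_eq, mem_inter_iff, mem_prod, mem_preimage, mem_compl_iff,
      mem_diagonal_iff, and_assoc]
  exact h1.preimage (f := fun x : (C(I × I, X) × C(I × I, X)) × I × I × I =>
    (x.1.1 (e x.2.1), x.1.2 x.2.2)) (by fun_prop)

variable [ProperSpace X] {R : ℝ} (L : Loc o R) (hμ : 100 * μ ≤ R)
include L hμ

theorem dense_line {e : I → I × I} (he : Continuous e) {r : I × I → I} (hr : Continuous r)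
    (hre : ∀ t, r (e t) = t) (f g : C(I × I, X)) (hf : ∀ z, f z ∈ ball o μ)
    (hg : ∀ z, g z ∈ ball o μ) : (f, g) ∈ closure
      {q : C(I × I, X) × C(I × I, X) | ∀ k : I × I × I, q.1 (e k.1) ∈ ball o (4 * μ) ∧
        q.2 k.2 ∈ ball o (4 * μ) ∧ π (q.1 (e k.1)) ≠ π (q.2 k.2)} := by
  classical
  have hμ0 := B.pos
  refine Metric.mem_closure_iff.2 fun ξ hξ => ?_
  have hR : ∀ {y}, y ∈ ball o (4 * μ) → y ∈ ball o R := fun h => ball_subset_ball (by linarith) h
  have hw : ∀ z, w (f z) ∈ ball (w o) (4 * μ) := fun z => by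
    simpa using B.w_mem (hf z) (t := 0) (by simp; positivity)
  have hπ : ∀ z, π (f z) ∈ ball o (4 * μ) := fun z =>
    ball_subset_ball (by linarith) (B.pi_mem _ (hf z))
  have hπc : Continuous fun t => π (f (e t)) :=
    B.pi_cont.comp_continuous (f.continuous.comp he) fun t => B.sub4 (hf _)
  obtain ⟨ζ, hζ, h1⟩ := tube_dist hπc (Φ := fun q : I × X => ψ q.2 (w (f (e q.1))))
    (fun t => ContinuousAt.comp (g := fun q : X × ℝ => ψ q.1 q.2)
      (f := fun q : I × X => (q.2, w (f (e q.1))))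
      (B.psi_cont.continuousAt ((isOpen_ball.prod isOpen_ball).mem_nhds ⟨hπ _, hw _⟩))
      (continuous_snd.prodMk (B.w_cont.comp (f.continuous.comp
        (he.comp continuous_fst)))).continuousAt) (lt_min hξ hμ0)
  obtain ⟨δ, hδ, h2⟩ := B.arc (min ζ μ / 2) (by positivity)
  obtain ⟨n, hn, h3⟩ := exists_mesh (X := X × X) (f := fun t => (f (e (pI t)), π (f (e (pI t)))))
    ((CompactSpace.uniformContinuous_of_continuous ((f.continuous.comp he).prodMk hπc)).comp uc_pI)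
    (lt_min hδ (show 0 < min ζ μ / 2 by positivity))
  have hn' : (0 : ℝ) < n := by exact_mod_cast hn
  choose A hA hAj hAπ hAD using fun j : ℤ => h2 _ (hf (e (pI (j / n)))) _
    (hf (e (pI ((j + 1 : ℤ) / n))))
    ((le_max_left _ _).trans_lt ((h3 _ _ (dist_succ hn' j)).trans_le (min_le_left _ _)))
  obtain ⟨γ, hγ, -, hγ'⟩ := glue_paths hn' (p := fun j => π (f (e (pI (j / n))))) hAj
  have hγ1 : ∀ t : I, dist (γ t) (π (f (e t))) < min ζ μ := fun t => by
    have h4 := mem_ball.1 (hγ' t).2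
    have h5 := (le_max_right _ _).trans_lt ((h3 _ _ (dist_floor hn' t)).trans_le (min_le_right _ _))
    simp only [pI_val] at h5
    linarith [dist_triangle (γ t) (π (f (e (pI (⌊(n : ℝ) * t⌋ / n))))) (π (f (e t)))]
  have hγ4 : ∀ t : I, γ t ∈ ball o (4 * μ) := fun t =>
    mem_b (ball_subset_closedBall (B.pi_mem _ (hf (e t))))
      ((hγ1 t).le.trans (min_le_right _ _)) (by linarith)
  let f₁ : C(I × I, X) := ⟨fun z => ψ (γ (r z)) (w (f (e (r z)))), B.continuous_psi
    (hγ.comp (continuous_subtype_val.comp hr)) (B.w_cont.comp (f.continuous.comp (he.comp hr)))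
    fun z => ⟨hγ4 _, hw _⟩⟩
  have hf₁ : ∀ t, f₁ (e t) = ψ (γ t) (w (f (e t))) := fun t => by
    change ψ (γ (r (e t))) (w (f (e (r (e t))))) = _
    rw [hre]
  have hf₁' : ∀ t, dist (f₁ (e t)) (f (e t)) < min ξ μ := fun t => by
    have := h1 t _ ((hγ1 t).trans_le (min_le_left _ _))
    rwa [B.psi_pi _ (hf _), ← hf₁] at this
  have hf4 : ∀ t, f₁ (e t) ∈ ball o (4 * μ) := fun t =>
    mem_b (ball_subset_closedBall (hf (e t))) ((hf₁' t).le.trans (min_le_right _ _)) (by linarith)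
  obtain ⟨f', hf', hf''⟩ := L.exists_ext f f₁ (isCompact_range he).isClosed (lt_min hξ hμ0) (by
    rintro _ ⟨t, rfl⟩
    exact ⟨hR (B.sub4 (hf _)), hR (hf4 t), hf₁' t⟩)
  obtain ⟨g', ⟨hg1, -⟩, hg2⟩ := exists_mem_all (Finset.Icc (0 : ℤ) n)
    (fun j => {g' : C(I × I, X) | ∀ z, g' z ∈ ball o (4 * μ) ∩ π ⁻¹' (A j)ᶜ})
    (fun j _ => isOpen_maps (B.pi_cont.isOpen_inter_preimage isOpen_ball
      (hA j).isClosed.isOpen_compl))
    (N := ball g ξ ∩ {g' | ∀ z, g' z ∈ ball o μ}) (isOpen_ball.inter (isOpen_maps isOpen_ball))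
    ⟨g, mem_ball_self hξ, hg⟩ (fun j _ g₀ hg₀ => Metric.mem_closure_iff.2 fun ξ' hξ' => by
      obtain ⟨D, hD, hD'⟩ := hAD j (fun s => g₀ (pI s.1, pI s.2))
        ((CompactSpace.uniformContinuous_of_continuous g₀.continuous).comp
          ((uc_pI.comp uniformContinuous_fst).prodMk (uc_pI.comp uniformContinuous_snd)))
        (fun s => ball_subset_closedBall (hg₀.2 _)) _ (lt_min hξ' hμ0)
      have h4 : ∀ z : I × I, dist (D (z.1, z.2)) (g₀ z) < min ξ' μ := fun z => by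
        simpa only [pI_val] using (hD' (z.1, z.2)).1
      refine ⟨⟨fun z => D (z.1, z.2), by fun_prop⟩, fun z => ⟨mem_b (ball_subset_closedBall
        (hg₀.2 z)) ((h4 z).le.trans (min_le_right _ _)) (by linarith), (hD' _).2⟩, ?_⟩
      rw [dist_comm, ContinuousMap.dist_lt_iff hξ']
      exact fun z => (h4 z).trans_le (min_le_left _ _))
  refine ⟨(f', g'), fun k => ?_, max_lt ?_ (mem_ball'.1 hg1)⟩
  · have h4 := hg2 ⌊(n : ℝ) * k.1⌋ (Finset.mem_Icc.2 ⟨Int.floor_nonneg.2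
      (mul_nonneg hn'.le k.1.2.1), Int.floor_le_iff.2 (by
        push_cast; nlinarith [k.1.2.2])⟩) k.2
    simp only
    rw [hf' _ ⟨k.1, rfl⟩]
    refine ⟨hf4 _, h4.1, fun h => h4.2 ?_⟩
    rw [← h, hf₁, (B.psi_spec _ (hγ4 _) _ (hw _)).2.1, hAπ _ _ (hγ' _).1]
    exact (hγ' _).1
  · rw [dist_comm, ContinuousMap.dist_lt_iff hξ]
    exact fun z => (hf'' z).trans_le (min_le_left _ _)

theorem local_ddp (f g : C(I × I, X)) (hf : ∀ z, f z ∈ ball o μ) (hg : ∀ z, g z ∈ ball o μ)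
    {ξ : ℝ} (hξ : 0 < ξ) : ∃ f' g' : C(I × I, X), (∀ z, dist (f' z) (f z) < ξ) ∧
      (∀ z, dist (g' z) (g z) < ξ) ∧ ∀ z z', f' z ≠ g' z' := by
  classical
  have hμ0 := B.pos
  obtain ⟨η, hη, hη1, hη2⟩ : ∃ η > 0, η ≤ μ ∧ 4 * η ≤ ξ :=
    ⟨min μ (ξ / 4), by positivity, min_le_left _ _, by linarith [min_le_right μ (ξ / 4)]⟩
  obtain ⟨n, hn, h1⟩ := exists_mesh (X := X × X) (f := fun z => (f z, g z))
    (CompactSpace.uniformContinuous_of_continuous (by fun_prop)) hη
  have hn' : (0 : ℝ) < n := by exact_mod_cast hn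
  let e : Bool × ℤ → I → I × I := fun i t => if i.1 then (pI (i.2 / n), t) else (t, pI (i.2 / n))
  let r : Bool × ℤ → I × I → I := fun i z => if i.1 then z.2 else z.1
  have he : ∀ i, Continuous (e i) := fun i => by
    simp only [e]; split_ifs <;> fun_prop
  have hr : ∀ i, Continuous (r i) := fun i => by
    simp only [r]; split_ifs <;> fun_prop
  have hre : ∀ i t, r i (e i t) = t := fun i t => by
    simp only [r, e]; split_ifs <;> rfl
  let O : Bool × ℤ → Set (C(I × I, X) × C(I × I, X)) := fun i =>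
    {q | ∀ k : I × I × I, q.1 (e i k.1) ∈ ball o (4 * μ) ∧
      q.2 k.2 ∈ ball o (4 * μ) ∧ π (q.1 (e i k.1)) ≠ π (q.2 k.2)}
  obtain ⟨q, ⟨hq1, hq2, hq3⟩, hq4⟩ := exists_mem_all
    (Finset.univ ×ˢ (Finset.univ ×ˢ Finset.Icc (0 : ℤ) n))
    (fun i : Bool × Bool × ℤ => if i.1 then O i.2 else Prod.swap ⁻¹' O i.2)
    (fun i _ => by
      split_ifs
      · exact B.isOpen_line (he _)
      · exact (B.isOpen_line (he _)).preimage continuous_swap)
    (N := ball (f, g) η ∩ {q | (∀ z, q.1 z ∈ ball o μ) ∧ ∀ z, q.2 z ∈ ball o μ})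
    (isOpen_ball.inter (((isOpen_maps isOpen_ball).preimage continuous_fst).inter
      ((isOpen_maps isOpen_ball).preimage continuous_snd)))
    ⟨(f, g), mem_ball_self hη, hf, hg⟩ (fun i _ q hq => by
      split_ifs
      · exact B.dense_line L hμ (he _) (hr _) (hre _) q.1 q.2 hq.2.1 hq.2.2
      · exact map_mem_closure continuous_swap
          (B.dense_line L hμ (he _) (hr _) (hre _) q.2 q.1 hq.2.2 hq.2.1) fun x hx => hx)
  have hgrid : ∀ (z : I × I), (∀ i : Bool × ℤ, i.2 ∈ Finset.Icc (0 : ℤ) n → ∀ t, e i t ≠ z) →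
      ∀ j : ℤ, (n : ℝ) * z.1 ≠ j ∧ (n : ℝ) * z.2 ≠ j := by
    have key : ∀ (t : I) (j : ℤ), (n : ℝ) * t = j → j ∈ Finset.Icc (0 : ℤ) n ∧ pI (j / n) = t := by
      intro t j h
      refine ⟨Finset.mem_Icc.2 ⟨?_, ?_⟩, by rw [← h, mul_div_cancel_left₀ _ hn'.ne', pI_val]⟩
      · exact_mod_cast h ▸ mul_nonneg hn'.le t.2.1
      · exact_mod_cast h ▸ mul_le_of_le_one_right hn'.le t.2.2
    intro z hz j
    exact ⟨fun h => hz (true, j) (key _ _ h).1 z.2 (by simp [e, (key _ _ h).2]),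
      fun h => hz (false, j) (key _ _ h).1 z.1 (by simp [e, (key _ _ h).2])⟩
  have hπ1 : Continuous fun z => π (q.1 z) :=
    B.pi_cont.comp_continuous q.1.continuous fun z => B.sub4 (hq2 z)
  have hπ2 : Continuous fun z => π (q.2 z) :=
    B.pi_cont.comp_continuous q.2.continuous fun z => B.sub4 (hq3 z)
  have hd1 : ∀ z, dist (q.1 z) (f z) < η := fun z =>
    (ContinuousMap.dist_apply_le_dist z).trans_lt ((le_max_left _ _).trans_lt hq1)
  have hd2 : ∀ z, dist (q.2 z) (g z) < η := fun z =>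
    (ContinuousMap.dist_apply_le_dist z).trans_lt ((le_max_right _ _).trans_lt hq1)
  obtain ⟨f', hf1, hf2⟩ := B.height f q.1 hn hη hη1
    (fun s t h => (le_max_left _ _).trans_lt (h1 s t h)) hd1 hq2
    ((isCompact_range hπ2).isClosed.preimage hπ1) (c := 0) (fun z hz => hgrid z fun i hi t ht => by
      obtain ⟨z', hz'⟩ := hz
      have := (hq4 (true, i) (by simpa using hi) (t, z')).2.2
      simp only [ht] at this
      exact this hz'.symm) (by simp)
  obtain ⟨g', hg1, hg2⟩ := B.height g q.2 hn hη hη1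
    (fun s t h => (le_max_right _ _).trans_lt (h1 s t h)) hd2 hq3
    ((isCompact_range hπ1).isClosed.preimage hπ2) (c := 1 / 2)
    (fun z hz => hgrid z fun i hi t ht => by
      obtain ⟨z', hz'⟩ := hz
      have := (hq4 (false, i) (by simpa using hi) (t, z')).2.2
      simp only [ht] at this
      exact this hz'.symm) (by constructor <;> norm_num)
  refine ⟨f', g', fun z => by linarith [dist_triangle (f' z) (q.1 z) (f z), (hf1 z).1, hd1 z],
    fun z => by linarith [dist_triangle (g' z) (q.2 z) (g z), (hg1 z).1, hd2 z], fun z z' h => ?_⟩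
  have h2 : π (q.1 z) = π (q.2 z') := by rw [← (hf1 z).2, ← (hg1 z').2, h]
  obtain ⟨k, hk⟩ := hf2 z ⟨z', h2.symm⟩
  obtain ⟨k', hk'⟩ := hg2 z' ⟨z, h2⟩
  rw [h, hk'] at hk
  have h3 : (2 * k' + 1 : ℤ) = 2 * k := by
    have := mul_left_cancel₀ hη.ne' hk
    exact_mod_cast (by linarith : 2 * (k' : ℝ) + 1 = 2 * k)
  omega

end Box

theorem ddp [ProperSpace X] (hL : ∀ o : X, ∃ R, Loc o R) (hS : ∀ o : X, HS o)
    (f g : C(I × I, X)) {ε : ℝ} (hε : 0 < ε) :
    ∃ f' g' : C(I × I, X), dist f f' < ε ∧ dist g g' < ε ∧ Disjoint (range f') (range g') := by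
  choose R L using hL
  choose μ π w ψ hμ B using fun o => (L o).exists_box (hS o)
  obtain ⟨δ, hδ, h1⟩ := lebesgue_number_lemma_of_metric (isCompact_range f.continuous)
    (c := fun o => ball o (μ o)) (fun o => isOpen_ball)
    fun x _ => mem_iUnion.2 ⟨x, mem_ball_self (B x).pos⟩
  obtain ⟨n, hn, h2⟩ := exists_mesh (X := X × X) (f := fun z => (f z, g z))
    (CompactSpace.uniformContinuous_of_continuous (by fun_prop)) (show 0 < δ / 6 by positivity)
  have hn' : (0 : ℝ) < 1 / n := by positivity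
  generalize (1 / n : ℝ) = ρ at h2 hn'
  obtain ⟨s, -, hs, hs'⟩ := finite_cover_balls_of_compact (isCompact_univ (X := I × I)) hn'
  let r : I × I → C(I × I, I × I) := fun c =>
    ⟨fun z => (pI (c.1 + ct ρ (z.1 - c.1)), pI (c.2 + ct ρ (z.2 - c.2))),
      (uc_pI.continuous.comp (by fun_prop)).prodMk (uc_pI.continuous.comp (by fun_prop))⟩
  have hr1 : ∀ c z, dist (r c z) c ≤ ρ := fun c z => max_le
    ((dist_pI _ _).trans (by rw [Real.dist_eq, add_sub_cancel_left]; exact abs_ct hn'.le _))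
    ((dist_pI _ _).trans (by rw [Real.dist_eq, add_sub_cancel_left]; exact abs_ct hn'.le _))
  have hr2 : ∀ c z, dist z c ≤ ρ → r c z = z := fun c z h => by
    change (pI _, pI _) = z
    rw [ct_of_le ((le_max_left _ _).trans h), ct_of_le ((le_max_right _ _).trans h),
      add_sub_cancel, add_sub_cancel, pI_val, pI_val]
  obtain ⟨q, hq1, hq2⟩ := exists_mem_all (hs.toFinset ×ˢ hs.toFinset)
    (fun c => {q : C(I × I, X) × C(I × I, X) | ∀ k : (I × I) × I × I,
      q.1 (r c.1 k.1) ≠ q.2 (r c.2 k.2)})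
    (fun c _ => isOpen_forall (p := fun (q : C(I × I, X) × C(I × I, X)) (k : (I × I) × I × I) =>
      q.1 (r c.1 k.1) ≠ q.2 (r c.2 k.2)) (isOpen_ne_fun (by fun_prop) (by fun_prop)))
    (N := ball (f, g) (min ε (δ / 6))) isOpen_ball ⟨_, mem_ball_self (by positivity)⟩
    (fun c _ q hq => by
      by_cases h : ∀ k : (I × I) × I × I, q.1 (r c.1 k.1) ≠ q.2 (r c.2 k.2)
      · exact subset_closure h
      push Not at h
      obtain ⟨k, hk⟩ := h
      have hq' : dist q (f, g) < δ / 6 := (mem_ball.1 hq).trans_le (min_le_right _ _)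
      have d1 : ∀ z, dist (q.1 (r c.1 z)) (f c.1) < δ / 3 := fun z => by
        have e1 := (ContinuousMap.dist_apply_le_dist (r c.1 z)).trans_lt
          ((le_max_left _ _).trans_lt hq')
        have e2 := (le_max_left _ _).trans_lt (h2 _ _ (hr1 c.1 z))
        linarith [dist_triangle (q.1 (r c.1 z)) (f (r c.1 z)) (f c.1)]
      have d2 : ∀ z, dist (q.2 (r c.2 z)) (g c.2) < δ / 3 := fun z => by
        have e1 := (ContinuousMap.dist_apply_le_dist (r c.2 z)).trans_lt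
          ((le_max_right _ _).trans_lt hq')
        have e2 := (le_max_right _ _).trans_lt (h2 _ _ (hr1 c.2 z))
        linarith [dist_triangle (q.2 (r c.2 z)) (g (r c.2 z)) (g c.2)]
      obtain ⟨o, ho⟩ := h1 (f c.1) ⟨_, rfl⟩
      have m1 : ∀ z, q.1 (r c.1 z) ∈ ball o (μ o) := fun z =>
        ho (mem_ball.2 (by linarith [d1 z]))
      have m2 : ∀ z, q.2 (r c.2 z) ∈ ball o (μ o) := fun z => ho (mem_ball.2 (by
        have e1 := d1 k.1
        rw [hk] at e1
        linarith [dist_triangle (q.2 (r c.2 z)) (g c.2) (f c.1), d2 z, d2 k.2,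
          dist_triangle_left (g c.2) (f c.1) (q.2 (r c.2 k.2))]))
      refine Metric.mem_closure_iff.2 fun ξ hξ => ?_
      have hμ0 := (B o).pos
      obtain ⟨f₁, g₁, e1, e2, e3⟩ := (B o).local_ddp (L o) (hμ o) (q.1.comp (r c.1))
        (q.2.comp (r c.2)) m1 m2 (lt_min hξ hμ0)
      have ext : ∀ (u u₁ : C(I × I, X)) (c : I × I), (∀ z, u (r c z) ∈ ball o (μ o)) →
          (∀ z, dist (u₁ z) (u (r c z)) < min ξ (μ o)) →
          ∃ u' : C(I × I, X), (∀ z, u' (r c z) = u₁ (r c z)) ∧ dist u u' < ξ := by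
        intro u u₁ c a1 a2
        obtain ⟨u', a3, a4⟩ := (L o).exists_ext u u₁ (isClosed_closedBall (x := c) (ε := ρ))
          (lt_min hξ hμ0) fun z hz => by
            have a5 := a1 z
            have a6 := a2 z
            rw [hr2 c z hz] at a5 a6
            exact ⟨ball_subset_ball (by linarith [hμ o]) a5, mem_b (ball_subset_closedBall a5)
              (a6.le.trans (min_le_right _ _)) (by linarith [hμ o]), a6⟩
        refine ⟨u', fun z => a3 _ (hr1 c z), ?_⟩
        rw [dist_comm, ContinuousMap.dist_lt_iff hξ]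
        exact fun z => (a4 z).trans_le (min_le_left _ _)
      obtain ⟨f', a1, a2⟩ := ext q.1 f₁ c.1 m1 e1
      obtain ⟨g', a3, a4⟩ := ext q.2 g₁ c.2 m2 e2
      exact ⟨(f', g'), fun k => by simp only [a1, a3]; exact e3 _ _, max_lt a2 a4⟩)
  have hq : dist (f, g) q < ε := (mem_ball'.1 hq1).trans_le (min_le_left _ _)
  refine ⟨q.1, q.2, (le_max_left _ _).trans_lt hq, (le_max_right _ _).trans_lt hq,
    disjoint_range_iff.2 fun z z' => ?_⟩
  obtain ⟨c, hc, hz⟩ := mem_iUnion₂.1 (hs' (mem_univ z))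
  obtain ⟨c', hc', hz'⟩ := mem_iUnion₂.1 (hs' (mem_univ z'))
  have := hq2 (c, c') (by simp [hc, hc']) (z, z')
  rwa [hr2 c z (mem_ball.1 hz).le, hr2 c' z' (mem_ball.1 hz').le] at this

end Pool.Agent.P.MP_07c576_gt
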