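import Pool.Agent.P.MP_07c576_gt.Norm
import Pool.Agent.P.MP_07c576_gt.Alg

/-! Maps on the skeleta of the grid. -/

set_option linter.unusedSectionVars false

namespace Pool.Agent.P.MP_07c576_gt

open Set Metric Topology Filter unitInterval Function

/-- An entry of a cell. -/
def gd (c : Cell) (i : ℕ) : ℤ × Bool := c.getD i (0, false)

@[simp] theorem gd_nil (i : ℕ) : gd [] i = (0, false) := rfl

@[simp] theorem gd_zero (a : ℤ × Bool) (c : Cell) : gd (a :: c) 0 = a := rfl

@[simp] theorem gd_succ (a : ℤ × Bool) (c : Cell) (i : ℕ) : gd (a :: c) (i + 1) = gd c i := rfl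

theorem gd_of_le {c : Cell} {i : ℕ} (h : c.length ≤ i) : gd c i = (0, false) :=
  List.getD_eq_default _ _ h

theorem gd_left {e : Cell} (κ : Cell) {i : ℕ} (h : i < e.length) : gd (e ++ κ) i = gd e i :=
  List.getD_append _ _ _ _ h

theorem gd_right (e κ : Cell) (i : ℕ) : gd (e ++ κ) (e.length + i) = gd κ i := by
  rw [gd, List.getD_append_right _ _ _ _ (by omega), Nat.add_sub_cancel_left, gd]

theorem face_of_gd {f c : Cell} (h : f.length = c.length) (h' : ∀ i, F1 (gd f i) (gd c i)) :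
    Face f c := by
  induction f generalizing c with
  | nil =>
    obtain rfl : c = [] := List.length_eq_zero_iff.1 h.symm
    exact .nil
  | cons a f ih =>
    cases c with
    | nil => simp at h
    | cons b c => exact .cons (h' 0) (ih (by simpa using h) fun i => h' (i + 1))

theorem cell_ext {f c : Cell} (h : f.length = c.length) (h' : ∀ i, gd f i = gd c i) : f = c := by
  refine List.ext_getElem h fun i h1 h2 => ?_
  have := h' i
  rwa [gd, gd, List.getD_eq_getElem _ _ h1, List.getD_eq_getElem _ _ h2] at this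

/-- The active directions. -/
def act (c : Cell) : Finset ℕ := (Finset.range c.length).filter fun i => (gd c i).2

theorem mem_act {c : Cell} {i : ℕ} : i ∈ act c ↔ (gd c i).2 = true := by
  rw [act, Finset.mem_filter, Finset.mem_range]
  refine ⟨fun h => h.2, fun h => ⟨?_, h⟩⟩
  by_contra h'
  rw [gd_of_le (not_lt.1 h')] at h
  simp at h

theorem lt_of_act {c : Cell} {i : ℕ} (h : i ∈ act c) : i < c.length :=
  Finset.mem_range.1 (Finset.mem_filter.1 h).1

theorem card_act (c : Cell) : (act c).card = dim c := by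
  rw [act, Finset.card_filter]
  induction c with
  | nil => rfl
  | cons a c ih =>
    rw [List.length_cons, Finset.sum_range_succ']
    obtain ⟨z, _ | _⟩ := a
    · rw [dim_false, ← ih]
      rfl
    · rw [dim_true, ← ih]
      rfl

/-- The parametrisation of a cell. -/
noncomputable def par (c : Cell) (t : ℕ → I) : ℕ → ℝ :=
  fun i => (gd c i).1 + if (gd c i).2 then (t i : ℝ) else 0

@[fun_prop] theorem continuous_par (c : Cell) : Continuous (par c) :=
  continuous_pi fun i => by unfold par; split_ifs <;> fun_prop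

theorem par_congr {c : Cell} {t t' : ℕ → I} (h : ∀ i ∈ act c, t i = t' i) : par c t = par c t' :=
  funext fun i => by
    unfold par
    split_ifs with e
    · rw [h i (mem_act.2 e)]
    · rfl

theorem par_of_le {c : Cell} {i : ℕ} (h : c.length ≤ i) (t : ℕ → I) : par c t i = 0 := by
  simp [par, gd_of_le h]

theorem par_mem (c : Cell) (t : ℕ → I) (i : ℕ) :
    par c t i ∈ Icc ((gd c i).1 : ℝ) ((gd c i).1 + 1) := by
  unfold par
  split_ifs
  · exact ⟨by linarith [(t i).2.1], by linarith [(t i).2.2]⟩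
  · simp

theorem par_left {e : Cell} (κ : Cell) (t : ℕ → I) {i : ℕ} (h : i < e.length) :
    par (e ++ κ) t i = par e t i := by simp only [par, gd_left κ h]

theorem Face.par {f c : Cell} (h : Face f c) (t : ℕ → I) : ∃ t', par f t = par c t' := by
  refine ⟨fun i => if gd f i = gd c i then t i else if (gd f i).1 = (gd c i).1 then 0 else 1,
    funext fun i => ?_⟩
  unfold Pool.Agent.P.MP_07c576_gt.par
  have : F1 (gd f i) (gd c i) := h.getD i
  rcases this with e | ⟨e, e' | e'⟩
  · simp [e]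
  · simp [e, e', Prod.ext_iff]
  · simp [e, e', Prod.ext_iff]

/-- A facet of a cell. -/
def fc (c : Cell) (i : ℕ) (b : Bool) : Cell := c.set i ((gd c i).1 + if b then 1 else 0, false)

theorem gd_fc {c : Cell} {i : ℕ} (h : i ∈ act c) (b : Bool) (j : ℕ) : gd (fc c i b) j =
    if j = i then ((gd c i).1 + if b then 1 else 0, false) else gd c j := by
  have := lt_of_act h
  simp only [gd, fc, List.getD_eq_getElem?_getD, List.getElem?_set]
  by_cases e : j = i
  · simp [e, this]
  · simp [e, Ne.symm e]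

theorem par_fc {c : Cell} {i : ℕ} (h : i ∈ act c) (b : Bool) : par (fc c i b) = par c ∘ up i b := by
  funext t j
  simp only [par, comp_apply, gd_fc h]
  split_ifs with h1 h2 h3 h4 <;> simp_all [mem_act, up_of_ne]

theorem act_fc {c : Cell} {i : ℕ} (h : i ∈ act c) (b : Bool) : act (fc c i b) = (act c).erase i := by
  ext j
  simp only [mem_act, gd_fc h, Finset.mem_erase]
  split_ifs with h1 <;> simp [h1]

theorem face_fc {c : Cell} {i : ℕ} (h : i ∈ act c) (b : Bool) : Face (fc c i b) c :=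
  face_of_gd (by simp [fc]) fun j => by
    rw [gd_fc h]
    split_ifs with h1 h2
    · exact Or.inr ⟨h1 ▸ mem_act.1 h, Or.inr (by rw [h1])⟩
    · exact Or.inr ⟨h1 ▸ mem_act.1 h, Or.inl (by simp [h1])⟩
    · exact Or.inl rfl

theorem dim_fc {c : Cell} {i : ℕ} (h : i ∈ act c) (b : Bool) : dim (fc c i b) + 1 = dim c := by
  rw [← card_act, ← card_act, act_fc h, Finset.card_erase_add_one h]

variable {A : Type} [AddCommGroup A] {Z : Type} [TopologicalSpace Z] {Y : Set Z}

theorem dl_eq (u : Cell → A) (c : Cell) : dl u c = ∑ i ∈ act c,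
    (-1 : ℤ) ^ ((act c).filter (· < i)).card • (u (fc c i true) - u (fc c i false)) := by
  have e : ∀ i, ((act c).filter (· < i)).card = dim (c.take i) := fun i => by
    rw [← card_act]
    congr 1
    ext j
    simp only [Finset.mem_filter, mem_act, gd, List.getD_eq_getElem?_getD, List.getElem?_take]
    split_ifs with h <;> simp [h]
  simp only [e]
  rw [act, Finset.sum_filter]
  clear e
  induction c generalizing u with
  | nil => rfl
  | cons a c ih =>
    rw [List.length_cons, Finset.sum_range_succ']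
    obtain ⟨z, _ | _⟩ := a
    · simp [dl, ih, fc]
    · simp only [dl, ih, fc, gd_succ, List.take_succ_cons, dim_true, List.set_cons_succ, gd_zero,
        List.take_zero, dim_nil, pow_zero, one_smul, List.set_cons_zero, if_true, pow_succ,
        mul_neg, mul_one, neg_smul, Bool.false_eq_true, if_false, add_zero]
      rw [sub_eq_neg_add, ← Finset.sum_neg_distrib]
      congr 1
      exact Finset.sum_congr rfl fun i _ => by split_ifs <;> simp

/-- The pull back of a singular cochain. -/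
noncomputable def pb (a : ((ℕ → I) → Z) → Finset ℕ → A) (Φ : (ℕ → ℝ) → Z) (c : Cell) : A :=
  a (Φ ∘ par c) (act c)

theorem dl_pb (a : ((ℕ → I) → Z) → Finset ℕ → A) (Φ : (ℕ → ℝ) → Z) :
    dl (pb a Φ) = pb (dS a) Φ := by
  funext c
  rw [dl_eq, pb, dS]
  exact Finset.sum_congr rfl fun i hi => by simp only [pb, par_fc hi, act_fc hi, comp_assoc]

theorem good_par {Φ : (ℕ → ℝ) → Z} {c : Cell} (h : Continuous (Φ ∘ par c))
    (h' : ∀ t, Φ (par c t) ∈ Y) : Good Y (act c) (Φ ∘ par c) :=
  ⟨h, h', fun _ _ e => congrArg Φ (par_congr e)⟩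

theorem comp_face {Φ Ψ : (ℕ → ℝ) → Z} {f c : Cell} (h : Face f c) (e : Φ ∘ par c = Ψ ∘ par c) :
    Φ ∘ par f = Ψ ∘ par f := funext fun t => by
  obtain ⟨t', ht⟩ := h.par t
  rw [comp_apply, comp_apply, ht]
  exact congrFun e t'

/-- The open cell that contains a point. -/
noncomputable def cellOf (L : ℕ) (x : ℕ → ℝ) : Cell :=
  (List.range L).map fun i => (⌊x i⌋, decide (Int.fract (x i) ≠ 0))

@[simp] theorem length_cellOf (L : ℕ) (x : ℕ → ℝ) : (cellOf L x).length = L := by simp [cellOf]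

theorem gd_cellOf {L i : ℕ} (h : i < L) (x : ℕ → ℝ) :
    gd (cellOf L x) i = (⌊x i⌋, decide (Int.fract (x i) ≠ 0)) := by
  simp [gd, cellOf, h]

theorem pI_coe {t : ℝ} (h0 : 0 ≤ t) (h1 : t ≤ 1) : (pI t : ℝ) = t :=
  congrArg Subtype.val (pI_val ⟨t, h0, h1⟩)

theorem par_cellOf {L : ℕ} {x : ℕ → ℝ} (h : ∀ i, L ≤ i → x i = 0) :
    par (cellOf L x) (fun i => pI (Int.fract (x i))) = x := by
  funext i
  rcases lt_or_ge i L with hi | hi
  · rw [par, gd_cellOf hi, pI_coe (Int.fract_nonneg _) (Int.fract_lt_one _).le]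
    have := Int.floor_add_fract (x i)
    by_cases e : Int.fract (x i) = 0 <;> simp_all
  · rw [par_of_le (by simpa using hi), h i hi]

theorem gd_cellOf_par {c : Cell} (t : ℕ → I) (i : ℕ) :
    gd (cellOf c.length (par c t)) i = gd c i ∨ (gd c i).2 = true ∧
      (t i = 0 ∧ gd (cellOf c.length (par c t)) i = ((gd c i).1, false) ∨
        t i = 1 ∧ gd (cellOf c.length (par c t)) i = ((gd c i).1 + 1, false)) := by
  rcases lt_or_ge i c.length with hi | hi
  swap
  · exact Or.inl (by rw [gd_of_le hi, gd_of_le (by simpa using hi)])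
  rw [gd_cellOf hi, par]
  rcases e : gd c i with ⟨z, _ | _⟩
  · simp
  · by_cases h0 : t i = 0
    · simp [h0]
    by_cases h1 : t i = 1
    · simp [h1]
    have h2 : ((t i : ℝ)) < 1 := lt_of_le_of_ne (t i).2.2 fun e => h1 (Subtype.ext e)
    left
    simp [Int.floor_eq_zero_iff.2 ⟨(t i).2.1, h2⟩, Int.fract_eq_self.2 ⟨(t i).2.1, h2⟩, h0]

theorem cellOf_face (c : Cell) (t : ℕ → I) : Face (cellOf c.length (par c t)) c :=
  face_of_gd (by simp) fun i => (gd_cellOf_par t i).elim Or.inl fun h =>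
    Or.inr ⟨h.1, h.2.imp And.right And.right⟩

theorem step {L d : ℕ} (Ψ : (ℕ → ℝ) → Z) (S : Set Cell) (T : Cell → (ℕ → I) → Z)
    (h : ∀ c ∈ S, c.length = L ∧ dim c = d ∧ (∀ t t', (∀ i ∈ act c, t i = t' i) → T c t = T c t') ∧
      ∀ t ∈ bd (act c), T c t = Ψ (par c t)) :
    ∃ Ψ' : (ℕ → ℝ) → Z, (∀ c ∈ S, Ψ' ∘ par c = T c) ∧
      ∀ c : Cell, c.length = L → (∀ f, Face f c → f ∉ S) → Ψ' ∘ par c = Ψ ∘ par c := by
  classical
  refine ⟨fun x => if cellOf L x ∈ S then T (cellOf L x) (fun i => pI (Int.fract (x i))) else Ψ x,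
    fun c hc => funext fun t => ?_, fun c hc hf => funext fun t => ?_⟩
  · obtain ⟨rfl, h2, h3, h4⟩ := h c hc
    by_cases e : cellOf c.length (par c t) = c
    · rw [comp_apply, e, if_pos hc]
      refine h3 _ _ fun i hi => ?_
      have e1 := gd_cellOf (lt_of_act hi) (par c t)
      rw [e] at e1
      have e2 := Int.floor_add_fract (par c t i)
      rw [← (show (gd c i).1 = ⌊par c t i⌋ from congrArg Prod.fst e1), par, if_pos (mem_act.1 hi), add_right_inj] at e2
      rw [par, if_pos (mem_act.1 hi), e2, pI_val]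
    · rw [comp_apply, if_neg fun h' => e ((cellOf_face c t).dim_le.2 ((h _ h').2.1.trans h2.symm))]
      refine (h4 t ?_).symm
      by_contra hb
      refine e (cell_ext (by simp) fun i => (gd_cellOf_par t i).resolve_right ?_)
      rintro ⟨h5, h6 | h6⟩
      · exact hb ⟨i, mem_act.2 h5, false, h6.1⟩
      · exact hb ⟨i, mem_act.2 h5, true, h6.1⟩
  · subst hc
    exact if_neg (hf _ (cellOf_face c t))

theorem gb_par {Ψ : (ℕ → ℝ) → Z} {c : Cell}
    (h : ∀ f, Face f c → dim f + 1 = dim c → Good Y (act f) (Ψ ∘ par f)) :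
    GB Y (act c) (Ψ ∘ par c) := fun i hi b => by
  have := h _ (face_fc hi b) (dim_fc hi b)
  rwa [act_fc hi, par_fc hi] at this

theorem ext_grid {L : ℕ} (Yc : Cell → Set Z) (hm : ∀ f c, Face f c → Yc f ⊆ Yc c)
    (Γ : (ℕ → ℝ) → Z) (d : ℕ) (hF : ∀ c : Cell, c.length = L → dim c < d → Fill (Yc c) (dim c)) :
    ∃ Ψ : (ℕ → ℝ) → Z, (∀ c : Cell, c.length = L → dim c < d → Good (Yc c) (act c) (Ψ ∘ par c)) ∧
      ∀ c : Cell, c.length = L →
        (∀ f, Face f c → dim f < d → Good (Yc f) (act f) (Γ ∘ par f)) → Ψ ∘ par c = Γ ∘ par c := by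
  induction d with
  | zero => exact ⟨Γ, fun _ _ h => absurd h (by simp), fun _ _ _ => rfl⟩
  | succ d ih =>
    obtain ⟨Ψ, h1, h2⟩ := ih fun c hc h => hF c hc (by omega)
    let S := {c : Cell | c.length = L ∧ dim c = d ∧ ¬Good (Yc c) (act c) (Ψ ∘ par c)}
    have key : ∀ c ∈ S, Fl (Yc c) (act c) (Ψ ∘ par c) := fun c hc =>
      Fill.fl (by rw [card_act]; exact hF c hc.1 (by rw [hc.2.1]; simp)) (gb_par fun f hf e =>
        (h1 f (hf.length_eq.trans hc.1) (by have := hc.2.1; omega)).mono (hm f c hf) subset_rfl)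
    have : Nonempty Z := ⟨Γ 0⟩
    choose! T hT hT' using key
    obtain ⟨Ψ', k1, k2⟩ := step (L := L) (d := d) Ψ S T fun c hc =>
      ⟨hc.1, hc.2.1, (hT c hc).dep, hT' c hc⟩
    refine ⟨Ψ', fun c hc h => ?_, fun c hc h => ?_⟩
    · by_cases e : c ∈ S
      · rw [k1 c e]
        exact hT c e
      · rw [k2 c hc fun f hf hS => e (by
          rwa [← hf.dim_le.2 (by have := hf.dim_le.1; have := hS.2.1; omega)])]
        by_contra g
        exact e ⟨hc, by_contra fun e' => g (h1 c hc (by omega)), g⟩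
    · have e := h2 c hc fun f hf h' => h f hf (by omega)
      rw [k2 c hc fun f hf hS => hS.2.2 (by
        rw [comp_face hf e]
        exact h f hf (by rw [hS.2.1]; simp)), e]

theorem glue_grid {P : Type} [TopologicalSpace P] {L : ℕ} {Ψ : (ℕ → ℝ) → Z} {S : Set Cell}
    (hS : ∀ c ∈ S, c.length = L → Continuous (Ψ ∘ par c)) {p : P → ℕ → ℝ} {D : Set P}
    (hp : ContinuousOn p D) (h0 : ∀ x ∈ D, ∀ i, L ≤ i → p x i = 0)
    (hD : ∀ x ∈ D, cellOf L (p x) ∈ S) : ContinuousOn (Ψ ∘ p) D := by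
  let car : {c : Cell // c ∈ S ∧ c.length = L} → Set (ℕ → ℝ) := fun c =>
    {x | ∀ i, par c.1 0 i ≤ x i ∧ x i ≤ par c.1 1 i}
  have hl : LocallyFinite car := by
    intro x
    refine ⟨⋂ i : Fin L, {y | y i ∈ Ioo (x i - 1) (x i + 1)}, Filter.iInter_mem.2 fun i =>
      (isOpen_Ioo.preimage (continuous_apply _)).mem_nhds ⟨by linarith, by linarith⟩, ?_⟩
    refine Set.Finite.of_finite_image (f := fun c (i : Fin L) => gd c.1 i)
      ((Set.Finite.pi' fun i : Fin L => (Set.finite_Icc (⌊x i⌋ - 2) (⌊x i⌋ + 2)).prod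
        (Set.finite_univ (α := Bool))).subset ?_) fun c _ c' _ e => Subtype.ext
      (cell_ext (c.2.2.trans c'.2.2.symm) fun i => ?_)
    · rintro _ ⟨c, ⟨y, h1, h2⟩, rfl⟩ i
      have h3 := mem_iInter.1 h2 i
      have h4 := Int.floor_le (x i)
      have h5 := Int.lt_floor_add_one (x i)
      refine ⟨⟨?_, ?_⟩, trivial⟩
      · have : ((⌊x i⌋ - 2 : ℤ) : ℝ) ≤ (gd c.1 i).1 := by
          push_cast
          linarith [(h1 i).2, (par_mem c.1 1 i).2, h3.1]
        exact_mod_cast this
      · have : ((gd c.1 i).1 : ℝ) ≤ ((⌊x i⌋ + 2 : ℤ) : ℝ) := by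
          push_cast
          linarith [(h1 i).1, (par_mem c.1 0 i).1, h3.2]
        exact_mod_cast this
    · rcases lt_or_ge i L with hi | hi
      · exact congrFun e ⟨i, hi⟩
      · rw [gd_of_le (c.2.2.le.trans hi), gd_of_le (c'.2.2.le.trans hi)]
  refine (hl.continuousOn_iUnion (g := Ψ) (fun c => ?_) fun c => ?_).comp hp fun x hx => ?_
  · simp only [car, Set.ofPred_forall]
    exact isClosed_iInter fun i => (isClosed_le continuous_const (continuous_apply i)).inter
      (isClosed_le (continuous_apply i) continuous_const)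
  · refine ((hS c c.2.1 c.2.2).comp (f := fun (x : ℕ → ℝ) i => pI (x i - (gd c.1 i).1))
      (by fun_prop)).continuousOn.congr fun x hx => congrArg Ψ (funext fun i => ?_)
    have := hx i
    simp only [par] at this ⊢
    split_ifs at this ⊢
    · simp only [Pi.zero_apply, Pi.one_apply, Icc.coe_zero, Icc.coe_one] at this
      rw [pI_coe (by linarith) (by linarith)]
      ring
    · linarith
  · refine mem_iUnion.2 ⟨⟨_, hD x hx, by simp⟩, fun i => ?_⟩
    rw [← congrFun (par_cellOf (h0 x hx)) i]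
    simp only [par]
    split_ifs
    · exact ⟨by simpa using (pI _).2.1, by simpa using (pI _).2.2⟩
    · simp

/-- The map on the prism that belongs to a homotopy. -/
noncomputable def pr (L : ℕ) (Δ : I → (ℕ → ℝ) → Z) (p : ℕ → ℝ) : Z := Δ (pI (p L)) (update p L 0)

theorem update_par (c : Cell) (a : ℤ × Bool) (t : ℕ → I) :
    update (par (c ++ [a]) t) c.length 0 = par c t := by
  funext i
  rcases lt_trichotomy i c.length with h | rfl | h
  · rw [update_of_ne h.ne, par_left _ _ h]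
  · rw [update_self, par_of_le le_rfl]
  · rw [update_of_ne h.ne', par_of_le h.le, par_of_le (by simpa using h)]

theorem pr_par {L : ℕ} (Δ : I → (ℕ → ℝ) → Z) {c : Cell} (h : c.length = L) (a : ℤ × Bool)
    (t : ℕ → I) : pr L Δ (par (c ++ [a]) t) = Δ (pI (a.1 + if a.2 then (t L : ℝ) else 0)) (par c t) := by
  subst h
  rw [pr, update_par, par, show gd (c ++ [a]) c.length = a from gd_right c [a] 0]

theorem act_vertex (c : Cell) {κ : Cell} (h : dim κ = 0) : act (c ++ κ) = act c := by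
  ext i
  rw [mem_act, mem_act]
  rcases lt_or_ge i c.length with hi | hi
  · rw [gd_left _ hi]
  · obtain ⟨j, rfl⟩ := Nat.exists_eq_add_of_le hi
    rw [gd_right, gd_of_le hi, ← mem_act, Finset.card_eq_zero.1 ((card_act κ).trans h)]
    simp

theorem pr_zero {L : ℕ} (Δ : I → (ℕ → ℝ) → Z) {c : Cell} (h : c.length = L) :
    pr L Δ ∘ par (c ++ [(0, false)]) = Δ 0 ∘ par c :=
  funext fun t => by simp [pr_par Δ h, pI_of_le]

theorem pr_one {L : ℕ} (Δ : I → (ℕ → ℝ) → Z) {c : Cell} (h : c.length = L) :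
    pr L Δ ∘ par (c ++ [(1, false)]) = Δ 1 ∘ par c :=
  funext fun t => by simp [pr_par Δ h, pI_of_ge]

theorem pb_prism {a : ((ℕ → I) → Z) → Finset ℕ → A} {Ms : List ℕ} {e : Cell} (he : dim e = 0)
    {Δ : I → (ℕ → ℝ) → Z} (h1 : ∀ z κ, OnB Ms κ →
      pb a (pr (e.length + Ms.length) Δ) (e ++ κ ++ [(z, true)]) = 0)
    (h2 : ∀ κ, InB Ms κ → pb (dS a) (pr (e.length + Ms.length) Δ) (e ++ κ ++ [(0, true)]) = 0) :
    (bsum Ms fun κ => pb a (Δ 1) (e ++ κ)) = bsum Ms fun κ => pb a (Δ 0) (e ++ κ) := by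
  have := prism (Ms := Ms) (u := fun κ => pb a (pr (e.length + Ms.length) Δ) (e ++ κ))
    (fun z κ h => by rw [← List.append_assoc]; exact h1 z κ h) fun κ h => by
      have := h2 κ h
      rwa [← dl_pb, List.append_assoc, dl_append, dl_of_dim he, he, pow_zero, one_smul,
        zero_add] at this
  refine (bsum_congr fun κ h => ?_).trans (this.trans (bsum_congr fun κ h => ?_))
  · rw [← List.append_assoc, pb, pb, pr_one _ (by simp [h.length_eq]),
      act_vertex (κ := [(1, false)]) _ rfl]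
  · rw [← List.append_assoc, pb, pb, pr_zero _ (by simp [h.length_eq]),
      act_vertex (κ := [(0, false)]) _ rfl]

/-- Rescaled coordinates of a box. -/
noncomputable def sc (N : ℕ) (Ms : List ℕ) (d : ℕ) (p : ℕ → ℝ) : Fin d → I :=
  fun i => pI (p (N + i) / Ms.getD i 0)

@[fun_prop] theorem continuous_sc (N : ℕ) (Ms : List ℕ) (d : ℕ) : Continuous (sc N Ms d) := by
  unfold sc; fun_prop

theorem getD_pos {Ms : List ℕ} (hM : ∀ M ∈ Ms, 0 < M) {i : ℕ} (hi : i < Ms.length) :
    (1 : ℝ) ≤ Ms.getD i 0 := by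
  rw [List.getD_eq_getElem _ _ hi]
  exact_mod_cast hM _ (List.getElem_mem hi)

theorem OnB.par {Ms : List ℕ} {κ : Cell} (h : OnB Ms κ) (e : Cell) (t : ℕ → I) : ∃ i < Ms.length,
    par (e ++ κ) t (e.length + i) = 0 ∨ par (e ++ κ) t (e.length + i) = Ms.getD i 0 := by
  obtain ⟨-, i, h2, h3⟩ := h
  refine ⟨i, h2, h3.imp (fun h => ?_) fun h => ?_⟩ <;>
    simp only [Pool.Agent.P.MP_07c576_gt.par, gd_right] <;> rw [gd, h] <;> simp

theorem OnB.sc {Ms : List ℕ} (hM : ∀ M ∈ Ms, 0 < M) {κ : Cell} (h : OnB Ms κ) (e : Cell) {d : ℕ}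
    (hd : Ms.length = d) (t : ℕ → I) :
    sc e.length Ms d (Pool.Agent.P.MP_07c576_gt.par (e ++ κ) t) ∈ Cube.boundary (Fin d) := by
  obtain ⟨i, hi, h⟩ := h.par e t
  refine ⟨⟨i, hd ▸ hi⟩, h.imp (fun h => pI_of_le ?_) fun h => pI_of_ge ?_⟩
  · rw [h, zero_div]
  · rw [h, div_self (by linarith [getD_pos hM hi])]

theorem dist_sc {N M d : ℕ} {Ms : List ℕ} (hM : ∀ M' ∈ Ms, M ≤ M') (h0 : 0 < M)
    (hd : Ms.length = d) (c : Cell) (t t' : ℕ → I) :
    dist (sc N Ms d (par c t)) (sc N Ms d (par c t')) ≤ 1 / M := by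
  refine (dist_pi_le_iff (by positivity)).2 fun i => ?_
  have h1 := (LipschitzWith.projIcc (zero_le_one (α := ℝ))).dist_le_mul
    (par c t (N + i) / Ms.getD i 0) (par c t' (N + i) / Ms.getD i 0)
  rw [NNReal.coe_one, one_mul, Real.dist_eq, ← sub_div, abs_div, Nat.abs_cast] at h1
  have h2 : (M : ℝ) ≤ Ms.getD i 0 := by
    rw [List.getD_eq_getElem _ _ (hd ▸ i.2)]
    exact_mod_cast hM _ (List.getElem_mem _)
  have h3 := par_mem c t (N + i)
  have h4 := par_mem c t' (N + i)
  exact h1.trans (div_le_div₀ zero_le_one (abs_le.2 ⟨by linarith [h3.1, h4.2],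
    by linarith [h3.2, h4.1]⟩) (by exact_mod_cast h0) h2)

theorem Obs.const {y : Y} {k : ℕ} {a : ((ℕ → I) → Z) → Finset ℕ → PG k Y y} (h : Obs Y y k a)
    {T : (ℕ → I) → Z} (hT : ∀ t, T t = y) (J : Finset ℕ) : a T J = 0 := by
  obtain rfl : T = fun _ => y.1 := funext hT
  rcases J.eq_empty_or_nonempty with rfl | ⟨i, hi⟩
  · exact h.card _ _ (by simp)
  · exact h.deg _ _ i hi (good_const y.2)

open scoped Topology.Homotopy in
theorem Obs.subdiv {y : Y} {k : ℕ} {a : ((ℕ → I) → Z) → Finset ℕ → PG k Y y} (h : Obs Y y k a)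
    (α : Ω^ (Fin (k + 2)) Y y) {e : Cell} (he : dim e = 0) {Ms : List ℕ} (hM : ∀ M ∈ Ms, 0 < M)
    (hd : Ms.length = k + 2) :
    (bsum Ms fun κ => pb a (fun p => α (sc e.length Ms (k + 2) p)) (e ++ κ)) = cls α := by
  let Δ : I → (ℕ → ℝ) → Z := fun s p =>
    α fun i => pI (p (e.length + i) / (1 + s * (Ms.getD i 0 - 1)))
  have hp : ∀ (s : I) (i : Fin (k + 2)), (0 : ℝ) < 1 + s * (Ms.getD i 0 - 1) := fun s i => by
    nlinarith [getD_pos hM (i := i) (by rw [hd]; exact i.2), s.2.1]
  have hb : ∀ t ∈ Cube.boundary (Fin (k + 2)), (α t : Z) = y := fun t ht =>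
    congrArg Subtype.val (α.2 t ht)
  have e1 : (fun p => (α (sc e.length Ms (k + 2) p) : Z)) = Δ 1 := by
    funext p
    simp only [Δ, Icc.coe_one, one_mul, add_sub_cancel]
    rfl
  rw [e1, pb_prism he (fun z κ hκ => h.const (fun t => ?_) _) fun κ _ => h.cyc _ _
    (good_par (Continuous.comp ?_ (continuous_par _)) fun _ => Subtype.property _),
    bsum_single (u := fun κ => pb a (Δ 0) (e ++ κ)) hM fun κ hκ ⟨i, hi⟩ =>
      h.const (fun t => ?_) _]
  · have hl : ∀ i : Fin (k + 2), gd (e ++ List.replicate Ms.length (0, true)) (e.length + i) =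
        (0, true) := fun i => by
      rw [gd_right, gd, List.getD_replicate _ (by rw [hd]; exact i.2)]
    have hc : (act (e ++ List.replicate Ms.length (0, true))).card = k + 2 := by
      rw [card_act, dim_append, he, ← hd]
      simp [dim, List.countP_replicate]
    rw [pb, ← h.loop α _ hc]
    congr 1
    funext t
    simp only [comp_apply, Δ]
    congr 2
    funext i
    rw [← Finset.orderEmbOfFin_unique hc (f := fun i => e.length + i)
      (fun i => mem_act.2 (by rw [hl])) fun i j hij => Nat.add_lt_add_left hij _]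
    simp [par, hl]
  · have hi' : i < Ms.length := by
      by_contra h'
      rw [List.getD_eq_default _ _ (by rw [hκ.length_eq]; omega)] at hi
      simp at hi
    refine hb _ ⟨⟨i, hd ▸ hi'⟩, Or.inr (pI_of_ge ?_)⟩
    have := (par_mem (e ++ κ) t (e.length + i)).1
    rw [gd_right] at this
    have h2 : (1 : ℝ) ≤ (gd κ i).1 := by exact_mod_cast hi
    simpa using h2.trans this
  · obtain ⟨i, hi, h1⟩ := hκ.par e t
    rw [comp_apply, pr_par _ (by simp [hκ.1])]
    refine hb _ ⟨⟨i, hd ▸ hi⟩, h1.imp (fun h => pI_of_le ?_) fun h => pI_of_ge ?_⟩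
    · rw [h, zero_div]
    · rw [h, one_le_div (hp _ _)]
      generalize pI _ = s
      nlinarith [getD_pos hM hi, s.2.2]
  · exact continuous_subtype_val.comp (α.1.continuous.comp (continuous_pi fun i =>
      continuous_pI.comp (Continuous.div (by fun_prop) (by fun_prop) fun _ => (hp _ _).ne')))

end Pool.Agent.P.MP_07c576_gt
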