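import Pool.Agent.P.MP_07c576_gt.Coin

/-! Level sets of regular functions. -/

set_option linter.unusedSectionVars false

namespace Pool.Agent.P.MP_07c576_gt

open Set Metric Topology Filter unitInterval

variable {X : Type} [MetricSpace X]

/-- A family of functions `v i` with homotopies `h i` that increase and decrease them. -/
structure Reg (o : X) (μ t₀ : ℝ) {ι : Type} (h : ι → ℝ → X → X) (v : ι → X → ℝ) : Prop where
  pos : 0 < μ
  h_cont : ∀ i, ContinuousOn (fun q : ℝ × X => h i q.1 q.2) (univ ×ˢ ball o (4 * μ))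
  v_cont : ∀ i, ContinuousOn (v i) (ball o (4 * μ))
  h_zero : ∀ i, ∀ y ∈ ball o (4 * μ), h i 0 y = y
  up : ∀ i sg, sg = 1 ∨ sg = -1 → ∀ y ∈ ball o (4 * μ), ∀ t, 0 < t → t ≤ t₀ →
    sg * v i y < sg * v i (h i (sg * t) y)
  m1 : ∀ ε > 0, ∃ η, 0 < η ∧ η ≤ t₀ ∧ ∀ i, ∀ y ∈ closedBall o (3 * μ), ∀ t, |t| ≤ η →
    dist (h i t y) y < ε
  m2 : ∀ η, 0 < η → η ≤ t₀ → ∃ c > 0, ∀ i sg, sg = 1 ∨ sg = -1 → ∀ y ∈ closedBall o (3 * μ),
    sg * v i y + c ≤ sg * v i (h i (sg * η) y)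
  m3 : ∀ c > 0, ∃ ε > 0, ∀ i, ∀ y ∈ closedBall o (3 * μ), ∀ y' ∈ closedBall o (3 * μ),
    dist y y' < ε → |v i y - v i y'| < c

/-- A closed set with two coordinates. -/
def Thin (o : X) (R μ : ℝ) (T : Set X) : Prop :=
  IsClosed T ∧ ∃ (τ : X → ℝ × ℝ) (α : ℝ × ℝ → X), ContinuousOn τ (ball o (4 * μ)) ∧
    Continuous α ∧ (∀ s, α s ∈ ball o (R / 4)) ∧ ∀ x ∈ T, x ∈ ball o (4 * μ) → α (τ x) = x

theorem glue_paths {N : ℝ} (hN : 0 < N) {p : ℤ → X} {O : ℤ → Set X}
    (h : ∀ j, JoinedIn (O j) (p j) (p (j + 1))) :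
    ∃ γ : ℝ → X, Continuous γ ∧ (∀ j : ℤ, γ (j / N) = p j) ∧ ∀ t, γ t ∈ O ⌊N * t⌋ := by
  have hc := continuous_glue (P := Unit) (F := fun j _ t => (h j).somePath.extend t)
    (fun j => (h j).somePath.continuous_extend.comp continuous_snd) (fun j _ => by simp)
  refine ⟨fun t => (h ⌊N * t⌋).somePath.extend (Int.fract (N * t)),
    hc.comp (f := fun t : ℝ => ((), N * t)) (by fun_prop), fun j => ?_, fun t => ?_⟩
  · have : N * (j / N) = j := by field_simp
    simp only [this, Int.fract_intCast, Path.extend_zero, Int.floor_intCast]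
  · exact (h _).somePath_mem _

theorem exists_mesh {P : Type*} [PseudoMetricSpace P] {f : P → X} (hf : UniformContinuous f)
    {δ : ℝ} (hδ : 0 < δ) :
    ∃ N : ℕ, 0 < N ∧ ∀ s t, dist s t ≤ 1 / N → dist (f s) (f t) < δ := by
  obtain ⟨ζ, hζ, h⟩ := Metric.uniformContinuous_iff.1 hf δ hδ
  obtain ⟨n, hn⟩ := exists_nat_one_div_lt hζ
  exact ⟨n + 1, n.succ_pos, fun s t hst => h (hst.trans_lt (by exact_mod_cast hn))⟩

theorem dist_floor {N : ℝ} (hN : 0 < N) (t : ℝ) : dist ((⌊N * t⌋ : ℝ) / N) t ≤ 1 / N := by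
  have h1 := Int.floor_le (N * t)
  have h2 := Int.lt_floor_add_one (N * t)
  have : (⌊N * t⌋ : ℝ) / N - t = (⌊N * t⌋ - N * t) / N := by field_simp
  rw [Real.dist_eq, this, abs_div, abs_of_pos hN]
  exact div_le_div_of_nonneg_right (abs_le.2 ⟨by linarith, by linarith⟩) hN.le

theorem dist_succ {N : ℝ} (hN : 0 < N) (j : ℤ) :
    dist ((j : ℝ) / N) (((j + 1 : ℤ) : ℝ) / N) ≤ 1 / N := by
  have : (j : ℝ) / N - ((j + 1 : ℤ) : ℝ) / N = -(1 / N) := by push_cast; ring
  rw [Real.dist_eq, this, abs_neg, abs_of_pos (one_div_pos.2 hN)]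

/-- Projection to the unit interval. -/
noncomputable def pI (t : ℝ) : I := projIcc 0 1 zero_le_one t

theorem uc_pI : UniformContinuous pI := (LipschitzWith.projIcc zero_le_one).uniformContinuous

@[simp] theorem pI_val (t : I) : pI t = t := projIcc_val _ _

theorem mem_cb {o x y : X} {a b c : ℝ} (hy : y ∈ closedBall o a) (h : dist x y ≤ b)
    (hc : a + b ≤ c) : x ∈ closedBall o c := by
  rw [mem_closedBall] at hy ⊢
  linarith [dist_triangle x y o]

theorem mem_b {o x y : X} {a b c : ℝ} (hy : y ∈ closedBall o a) (h : dist x y ≤ b)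
    (hc : a + b < c) : x ∈ ball o c := by
  rw [mem_closedBall] at hy
  rw [mem_ball]
  linarith [dist_triangle x y o]

namespace Reg

variable [ProperSpace X] {o : X} {R μ t₀ : ℝ} {ι : Type} {h : ι → ℝ → X → X} {v : ι → X → ℝ}
  (G : Reg o μ t₀ h v) (L : Loc o R) (hS : HS o) (hμ : 16 * μ ≤ R)
include G L hS hμ

omit L hS hμ in
theorem continuous_h {P : Type*} [TopologicalSpace P] (i : ι) {t : P → ℝ} {f : P → X} {D : Set P}
    (ht : ContinuousOn t D) (hf : ContinuousOn f D) (hD : ∀ p ∈ D, f p ∈ ball o (4 * μ)) :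
    ContinuousOn (fun p => h i (t p) (f p)) D :=
  (G.h_cont i).comp (ht.prodMk hf) fun p hp => ⟨trivial, hD p hp⟩

theorem level {ε : ℝ} (hε : 0 < ε) : ∃ δ > 0, ∀ i T, Thin o R μ T →
    ∀ y ∈ closedBall o (2 * μ), ∀ y' ∈ closedBall o (2 * μ), v i y = 0 → v i y' = 0 →
    dist y y' < δ → ∀ O, IsOpen O → (∀ x ∈ ball y ε, v i x = 0 → x ∉ T → x ∈ O) → ∀ ξ > 0,
    ∃ x₀ x₁, dist x₀ y < ξ ∧ dist x₁ y' < ξ ∧ v i x₀ = 0 ∧ x₀ ∉ T ∧ JoinedIn O x₀ x₁ := by
  have hμ0 := G.pos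
  wlog hεμ : ε ≤ μ generalizing ε
  · obtain ⟨δ, hδ, H⟩ := this hμ0 le_rfl
    exact ⟨δ, hδ, fun i T hT y hy y' hy' h1 h2 h3 O hO h4 => H i T hT y hy y' hy' h1 h2 h3 O hO
      fun x hx => h4 x (ball_subset_ball (not_le.1 hεμ).le hx)⟩
  obtain ⟨η, hη, hη', h1⟩ := G.m1 (ε / 4) (by linarith)
  obtain ⟨c, hc, h2⟩ := G.m2 η hη hη'
  obtain ⟨ε', hε', h3⟩ := G.m3 c hc
  refine ⟨min ε' (ε / 4), lt_min hε' (by linarith), ?_⟩
  rintro i T ⟨-, τ, α, hτ, hα, hα', hT⟩ y hy y' hy' hv hv' hd O hO hsub ξ hξ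
  have hco : ∀ j, Continuous fun z : Q4 => z.1 j := fun j =>
    (continuous_apply j).comp continuous_subtype_val
  have hyR : y ∈ ball o R := closedBall_subset_ball (by linarith) hy
  have hyR' : y' ∈ ball o R := closedBall_subset_ball (by linarith) hy'
  have hs : ∀ z : Q4, (z.1 3 + 1) / 2 ∈ Icc (0 : ℝ) 1 := fun z => by
    have := abs_le.1 (Q4_abs z 3)
    constructor <;> linarith
  let p : Q4 → X := fun z => geo y y' ((z.1 3 + 1) / 2)
  have hp : Continuous p := continuousOn_univ.1 (L.continuous_geo continuousOn_const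
    continuousOn_const (((hco 3).add continuous_const).div_const 2).continuousOn
    fun z _ => ⟨hyR, hyR', (hs z).1, by linarith [(hs z).2]⟩)
  have hp1 : ∀ z, dist (p z) y < min ε' (ε / 4) := fun z =>
    (L.dist_geo_le hyR hyR' (hs z)).trans_lt hd
  have hp2 : ∀ z, p z ∈ closedBall o (3 * μ) := fun z =>
    mem_cb hy ((hp1 z).le.trans (min_le_right _ _)) (by linarith)
  have hp3 : ∀ z, |v i (p z)| < c := fun z => by
    have := h3 i _ (hp2 z) y (closedBall_subset_closedBall (by linarith) hy)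
      ((hp1 z).trans_le (min_le_left _ _))
    rwa [hv, sub_zero] at this
  let H : Q4 → X := fun z => h i (z.1 1 * η) (p z)
  have hH : Continuous H := continuousOn_univ.1 (G.continuous_h i
    ((hco 1).mul continuous_const).continuousOn hp.continuousOn
    fun z _ => closedBall_subset_ball (by linarith) (hp2 z))
  have hH1 : ∀ z, dist (H z) y < ε / 2 := fun z => by
    have := h1 i _ (hp2 z) (z.1 1 * η) (by
      rw [abs_mul, abs_of_pos hη]; exact mul_le_of_le_one_left hη.le (Q4_abs z 1))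
    linarith [dist_triangle (H z) (p z) y, (hp1 z).trans_le (min_le_right _ _)]
  have hHW : ∀ z, H z ∈ ball o (4 * μ) := fun z => mem_b hy (hH1 z).le (by linarith)
  have key : ∀ (s : ℝ) (w : X), w ∈ closedBall o (2 * μ) → v i w = 0 →
      (∀ z : Q4, z.1 3 = s → p z = w) → ∀ z,
      ∀ᶠ q in 𝓝 (z, H z), q.1.1 3 = s → v i q.2 = 0 → dist q.2 w < ξ := by
    intro s w hw hw0 hpw z
    have hwV : w ∈ ball o (4 * μ) := closedBall_subset_ball (by linarith) hw
    by_cases h4 : z.1 3 = s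
    · by_cases h5 : z.1 1 = 0
      · have : H z = w := by simp only [H, h5, zero_mul, hpw z h4, G.h_zero i w hwV]
        exact ((continuousAt_snd.dist continuousAt_const).eventually
          (gt_mem_nhds (show dist (H z) w < ξ by rwa [this, dist_self]))).mono fun q hq _ _ => hq
      · have h6 : v i (H z) ≠ 0 := by
          have h7 := abs_le.1 (Q4_abs z 1)
          simp only [H, hpw z h4]
          rcases lt_or_gt_of_ne h5 with h8 | h8
          · have := G.up i (-1) (Or.inr rfl) w hwV (-(z.1 1 * η)) (by nlinarith) (by nlinarith)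
            rw [hw0, neg_one_mul, neg_one_mul, neg_one_mul, neg_neg] at this
            linarith
          · have := G.up i 1 (Or.inl rfl) w hwV (z.1 1 * η) (by nlinarith) (by nlinarith)
            rw [hw0, one_mul, one_mul, one_mul] at this
            linarith
        have h9 : ContinuousAt (fun q : Q4 × X => v i q.2) (z, H z) :=
          ContinuousAt.comp (f := Prod.snd)
            ((G.v_cont i).continuousAt (isOpen_ball.mem_nhds (hHW z))) continuousAt_snd
        exact (h9.eventually_ne h6).mono fun q hq _ h' => absurd h' hq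
    · exact (((hco 3).comp continuous_fst).continuousAt.eventually_ne (x := (z, H z)) h4).mono
        fun q hq h' => absurd h' hq
  obtain ⟨ζ, hζ, hN⟩ := tube hH fun z =>
    (key (-1) y hy hv (fun z hz => by simp only [p, hz]; norm_num [geo_zero]) z).and
    (key 1 y' hy' hv' (fun z hz => by simp only [p, hz]; norm_num [geo_one]) z)
  obtain ⟨z₀, z₁, x₀, x₁, e0, e1, d0, d1, g0, g1, hx, hj⟩ := L.pm hS isOpen_ball
    (ball_subset_ball (by linarith)) hτ hα hα' hT hH hHW (G := fun q => v i q.2)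
    ((G.v_cont i).comp continuousOn_snd fun q hq => hq.2)
    (fun z hz => by
      have := h2 i 1 (Or.inl rfl) _ (hp2 z)
      simp only [H, hz]
      linarith [abs_lt.1 (hp3 z)])
    (fun z hz => by
      have := h2 i (-1) (Or.inr rfl) _ (hp2 z)
      simp only [H, hz]
      linarith [abs_lt.1 (hp3 z)])
    hO (lt_min hζ (by linarith : 0 < ε / 2)) fun z x hx _ => hsub x (by
      rw [mem_ball]
      linarith [dist_triangle x (H z) y, hH1 z, hx.trans_le (min_le_right _ _)])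
  exact ⟨x₀, x₁, (hN z₀ x₀ (d0.trans_le (min_le_left _ _))).1 e0 g0,
    (hN z₁ x₁ (d1.trans_le (min_le_left _ _))).2 e1 g1, g0, hx, hj⟩

theorem level_dense {i : ι} {T : Set X} (hT : Thin o R μ T) {y : X}
    (hy : y ∈ closedBall o (2 * μ)) (hv : v i y = 0) {ξ : ℝ} (hξ : 0 < ξ) :
    ∃ x, dist x y < ξ ∧ v i x = 0 ∧ x ∉ T := by
  obtain ⟨δ, hδ, H⟩ := G.level L hS hμ one_pos
  obtain ⟨x, -, h1, -, h2, h3, -⟩ := H i T hT y hy y hy hv hv (by simpa using hδ) univ isOpen_univ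
    (fun _ _ _ _ => trivial) ξ hξ
  exact ⟨x, h1, h2, h3⟩

theorem level_join {ε : ℝ} (hε : 0 < ε) : ∃ δ > 0, δ ≤ ε ∧ ∀ i T, Thin o R μ T →
    ∀ y ∈ closedBall o (2 * μ), ∀ y' ∈ closedBall o (2 * μ), v i y = 0 → v i y' = 0 →
    y ∉ T → y' ∉ T → dist y y' < δ → ∀ O, IsOpen O →
    (∀ x ∈ ball y ε, v i x = 0 → x ∉ T → x ∈ O) → JoinedIn (O ∩ ball y ε) y y' := by
  have hμ0 := G.pos
  obtain ⟨δ, hδ, H⟩ := G.level L hS hμ hε
  refine ⟨min δ ε, lt_min hδ hε, min_le_right _ _,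
    fun i T hT y hy y' hy' hv hv' hyT hyT' hd O hO hsub => ?_⟩
  have hO' : IsOpen (O ∩ ball y ε) := hO.inter isOpen_ball
  have hb : y' ∈ ball y ε := mem_ball'.2 (hd.trans_le (min_le_right _ _))
  obtain ⟨ξ, hξ, h1⟩ := Metric.eventually_nhds_iff.1 (L.eventually_joinedIn
    (closedBall_subset_ball (by linarith) hy)
    (hO'.mem_nhds ⟨hsub y (mem_ball_self hε) hv hyT, mem_ball_self hε⟩))
  obtain ⟨ξ', hξ', h2⟩ := Metric.eventually_nhds_iff.1 (L.eventually_joinedIn
    (closedBall_subset_ball (by linarith) hy') (hO'.mem_nhds ⟨hsub y' hb hv' hyT', hb⟩))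
  obtain ⟨x₀, x₁, h3, h4, -, -, h5⟩ := H i T hT y hy y' hy' hv hv' (hd.trans_le (min_le_left _ _))
    _ hO' (fun x hx h6 h7 => ⟨hsub x hx h6 h7, hx⟩) _ (lt_min hξ hξ')
  exact ((h1 (h3.trans_le (min_le_left _ _))).trans h5).trans
    (h2 (h4.trans_le (min_le_right _ _))).symm

theorem level_path {ε : ℝ} (hε : 0 < ε) : ∃ δ > 0, ∀ i, ∀ y ∈ closedBall o μ,
    ∀ y' ∈ closedBall o μ, v i y = 0 → v i y' = 0 → dist y y' < δ →
    ∃ γ : C(I, X), γ 0 = y ∧ γ 1 = y' ∧ ∀ t, v i (γ t) = 0 ∧ γ t ∈ ball y ε := by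
  classical
  have hμ0 := G.pos
  wlog hεμ : ε ≤ μ generalizing ε
  · obtain ⟨δ, hδ, H⟩ := this hμ0 le_rfl
    refine ⟨δ, hδ, fun i y hy y' hy' h1 h2 h3 => ?_⟩
    obtain ⟨γ, h4, h5, h6⟩ := H i y hy y' hy' h1 h2 h3
    exact ⟨γ, h4, h5, fun t => ⟨(h6 t).1, ball_subset_ball (not_le.1 hεμ).le (h6 t).2⟩⟩
  let e : ℕ → ℝ := fun k => ε / 8 * (1 / 2) ^ k
  have he : ∀ k, 0 < e k := fun k => by positivity
  have he' : ∀ k, e (k + 1) = e k / 2 := fun k => by simp only [e]; ring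
  have he1 : ∀ k, e k ≤ ε / 8 := fun k =>
    mul_le_of_le_one_right (by linarith) (pow_le_one₀ (by norm_num) (by norm_num))
  choose δ hδ hδ' H using fun k => G.level_join L hS hμ (he k)
  have hE : Thin o R μ ∅ := ⟨isClosed_empty, fun _ => 0, fun _ => o, continuousOn_const,
    continuous_const, fun _ => mem_ball_self (by linarith), fun _ h => h.elim⟩
  refine ⟨δ 0, hδ 0, fun i y hy y' hy' hv hv' hd => ?_⟩
  let O : ℕ → Set X := fun k => ⋃ x ∈ {x | v i x = 0}, ball x (δ k / 3)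
  have hO : ∀ k, IsOpen (O k) := fun k => isOpen_biUnion fun _ _ => isOpen_ball
  have hO' : ∀ k x, v i x = 0 → x ∈ O k := fun k x hx =>
    mem_biUnion hx (mem_ball_self (by linarith [hδ k]))
  let P : ℕ → C(I, X) → Prop := fun k γ => γ 0 = y ∧ γ 1 = y' ∧
    ∀ t, γ t ∈ O k ∧ dist (γ t) y ≤ 5 * ε / 8 - 4 * e k
  have hy2 : ∀ {w}, w ∈ closedBall o μ → w ∈ closedBall o (2 * μ) := fun h =>
    closedBall_subset_closedBall (by linarith) h
  obtain ⟨γ₀, hγ₀⟩ : ∃ γ, P 0 γ := by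
    have hj := H 0 i ∅ hE y (hy2 hy) y' (hy2 hy') hv hv' id id hd _ (hO 0)
      fun x _ hx _ => hO' 0 x hx
    refine ⟨hj.somePath.toContinuousMap, by simp, by simp, fun t => ⟨(hj.somePath_mem t).1, ?_⟩⟩
    have := mem_ball.1 (hj.somePath_mem t).2
    simp only [e, pow_zero, mul_one] at this ⊢
    exact this.le.trans (by linarith)
  have step : ∀ k γ, P k γ → ∃ γ', P (k + 1) γ' ∧ dist γ γ' ≤ 2 * e k := by
    rintro k γ ⟨h0, h1, h2⟩
    obtain ⟨N, hN, hm⟩ := exists_mesh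
      ((CompactSpace.uniformContinuous_of_continuous γ.continuous).comp uc_pI)
      (by linarith [hδ k] : 0 < δ k / 3)
    have hN' : (0 : ℝ) < N := by exact_mod_cast hN
    have hp : ∀ t, ∃ x, v i x = 0 ∧ dist (γ t) x < δ k / 3 ∧ (v i (γ t) = 0 → x = γ t) := by
      intro t
      by_cases h3 : v i (γ t) = 0
      · exact ⟨γ t, h3, by simpa using hδ k, fun _ => rfl⟩
      · obtain ⟨x, hx, h4⟩ := mem_iUnion₂.1 (h2 t).1
        exact ⟨x, hx, h4, fun h => absurd h h3⟩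
    choose p hp1 hp2 hp3 using hp
    have hp4 : ∀ t, p t ∈ closedBall o (2 * μ) := fun t => mem_cb hy (b := μ) (by
      linarith [dist_triangle_left (p t) y (γ t), hp2 t, (h2 t).2, hδ' k, he k]) (by linarith)
    obtain ⟨β, hβ, hβ1, hβ2⟩ := glue_paths hN' (p := fun j => p (pI (j / N)))
      (O := fun j => O (k + 1) ∩ ball (p (pI (j / N))) (e k)) fun j =>
      H k i ∅ hE _ (hp4 _) _ (hp4 _) (hp1 _) (hp1 _) id id (by
        have := hm _ _ (dist_succ hN' j)
        simp only [Function.comp_apply] at this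
        linarith [dist_triangle4 (p (pI (j / N))) (γ (pI (j / N))) (γ (pI ((j + 1 : ℤ) / N)))
          (p (pI ((j + 1 : ℤ) / N))), hp2 (pI (j / N)), hp2 (pI ((j + 1 : ℤ) / N)),
          dist_comm (p (pI (j / N))) (γ (pI (j / N)))]) _ (hO _) fun x _ hx _ => hO' _ x hx
    have hd' : ∀ t : I, dist (γ t) (β t) ≤ 2 * e k := fun t => by
      have h3 := hm _ _ (dist_floor hN' t)
      simp only [Function.comp_apply, pI_val] at h3
      have h4 := mem_ball.1 (hβ2 t).2
      linarith [dist_triangle4 (β t) (p (pI (⌊(N : ℝ) * t⌋ / N))) (γ (pI (⌊(N : ℝ) * t⌋ / N)))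
        (γ t), hp2 (pI (⌊(N : ℝ) * t⌋ / N)), dist_comm (γ t) (β t), hδ' k, he k,
        dist_comm (p (pI (⌊(N : ℝ) * t⌋ / N))) (γ (pI (⌊(N : ℝ) * t⌋ / N)))]
    refine ⟨⟨fun t => β t, by fun_prop⟩, ⟨?_, ?_, fun t => ⟨(hβ2 t).1, ?_⟩⟩,
      (ContinuousMap.dist_le (by linarith [he k])).2 hd'⟩
    · have h3 := hβ1 0
      have h4 : pI 0 = 0 := pI_val 0
      simp only [Int.cast_zero, zero_div, h4] at h3
      change β 0 = y
      rw [h3, hp3 0 (by rwa [h0]), h0]
    · have h3 := hβ1 N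
      have h4 : pI 1 = 1 := pI_val 1
      simp only [Int.cast_natCast, div_self hN'.ne', h4] at h3
      change β 1 = y'
      rw [h3, hp3 1 (by rwa [h1]), h1]
    · change dist (β t) y ≤ _
      linarith [dist_triangle_left (β t) y (γ t), hd' t, (h2 t).2, he' k]
  choose! nx hnx hnx' using step
  let s : ℕ → C(I, X) := fun k => Nat.rec γ₀ nx k
  have hs : ∀ k, P k (s k) := fun k => by
    induction k with
    | zero => exact hγ₀
    | succ k ih => exact hnx k _ ih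
  obtain ⟨γ, hγ⟩ := cauchySeq_tendsto_of_complete (cauchySeq_of_le_geometric (1 / 2) (ε / 4)
    (by norm_num) (f := s) fun k => (hnx' k _ (hs k)).trans (le_of_eq (by simp only [e]; ring)))
  have hγt : ∀ t, Tendsto (fun k => s k t) atTop (𝓝 (γ t)) := fun t =>
    ((continuous_eval_const t).tendsto γ).comp hγ
  have hγd : ∀ t, dist (γ t) y ≤ 5 * ε / 8 := fun t =>
    le_of_tendsto' ((hγt t).dist tendsto_const_nhds) fun k => by linarith [((hs k).2.2 t).2, he k]
  refine ⟨γ, tendsto_nhds_unique (hγt 0) (by simp only [(hs _).1]; exact tendsto_const_nhds),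
    tendsto_nhds_unique (hγt 1) (by simp only [(hs _).2.1]; exact tendsto_const_nhds),
    fun t => ⟨?_, mem_ball.2 (by linarith [hγd t])⟩⟩
  choose x hx hx' using fun k => mem_iUnion₂.1 ((hs k).2.2 t).1
  have he0 : Tendsto e atTop (𝓝 0) := by
    simpa using (tendsto_pow_atTop_nhds_zero_of_lt_one (r := 1 / 2) (by norm_num)
      (by norm_num)).const_mul (ε / 8)
  have hxt : Tendsto x atTop (𝓝 (γ t)) := (hγt t).congr_dist (squeeze_zero (fun _ => dist_nonneg)
    (fun k => by linarith [mem_ball.1 (hx' k), hδ' k, hδ k]) he0)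
  have := (((G.v_cont i).continuousAt
    (isOpen_ball.mem_nhds (mem_b hy (hγd t) (by linarith)))).tendsto).comp hxt
  refine tendsto_nhds_unique this ?_
  have h0 : v i ∘ x = fun _ => 0 := funext hx
  rw [h0]
  exact tendsto_const_nhds

end Reg

end Pool.Agent.P.MP_07c576_gt
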