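import Pool.Agent.P.MP_07c576_gt.Tors

/-! Punctured balls of spaces of dimension at least five are three-connected. -/

set_option linter.unusedSectionVars false

namespace Pool.Agent.P.MP_07c576_gt

open Set Metric Topology Filter unitInterval Function
open scoped Topology.Homotopy

variable {X : Type} [MetricSpace X]

theorem Geo.inv {x y z : X} {s : ℝ} (h : Geo x y s z) (hs : 0 < s) : Geo x z s⁻¹ y := by
  obtain ⟨h1, h2⟩ := h
  refine ⟨by rw [h1]; field_simp, ?_⟩
  rw [dist_comm, h2, h1, ← mul_assoc, show 1 - s⁻¹ = (s - 1) * s⁻¹ by field_simp, abs_mul,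
    abs_sub_comm, abs_of_pos (inv_pos.2 hs), mul_assoc _ s⁻¹, inv_mul_cancel₀ hs.ne', mul_one]

theorem Geo.two {x y z : X} (h : Geo x y 2 z) : Geo z y 2 x := by
  obtain ⟨h1, h2⟩ := h
  norm_num at h2
  constructor
  · rw [dist_comm z x, dist_comm z y, h1, h2]
  · rw [dist_comm y x, dist_comm z y, h2]; norm_num

theorem Geo.half {x y z : X} (h : Geo x y 2⁻¹ z) : dist y z = dist x y / 2 ∧ Geo y z 2 x := by
  obtain ⟨h1, h2⟩ := h
  norm_num at h2
  exact ⟨by linarith, by rw [dist_comm]; linarith, by norm_num; rw [dist_comm]; linarith⟩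

/-- The radial retraction. -/
noncomputable def kap (o : X) (r : ℝ) (y : X) : X := geo o y (r / max r (dist o y))

theorem kap_of_le {o y : X} {r : ℝ} (hr : 0 < r) (h : y ∈ closedBall o r) : kap o r y = y := by
  rw [kap, max_eq_left (mem_closedBall'.1 h), div_self hr.ne', geo_one]

theorem fill_zero {Z : Type} [TopologicalSpace Z] {W : Set Z} (h : W.Nonempty) : Fill W 0 :=
  fun _ _ _ => ⟨fun _ => h.some, continuous_const, fun _ => h.some_mem, fun _ ⟨i, _⟩ => i.elim0⟩

theorem Cv.fill {B U : Set X} {cv : X → X → I → X} (c : Cv B cv) (hU : U ⊆ B) {a : X} (ha : a ∈ U)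
    (h : ∀ x ∈ U, ∀ s, cv a x s ∈ U) (j : ℕ) : Fill U j := by
  intro F hF hY
  rw [← bd_univ] at hF hY ⊢
  obtain ⟨K, k1, k2, -, k4⟩ := hep Finset.univ (T := fun _ : Fin j → I => a) continuous_const
    (fun _ => ha) (H := fun p => cv a (F p.1) p.2) (c.cont.comp (continuousOn_const.prodMk
      ((hF.comp continuousOn_fst fun _ hp => hp).prodMk continuousOn_snd))
      fun p hp => ⟨hU ha, hU (hY _ hp), trivial⟩) (fun p hp => h _ (hY _ hp) _)
    fun x hx => c.zero _ (hU ha) _ (hU (hY x hx))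
  exact ⟨fun t => K (t, 1), by fun_prop, fun _ => k2 _, fun t ht =>
    (k4 (t, 1) ht).trans (c.one _ (hU ha) _ (hU (hY t ht)))⟩

theorem group_cases {G : Type} [AddCommGroup G] [AddGroup.FG G] [Nontrivial G] :
    (∃ (χ : G →+ ℤ) (g : G), χ g = 1) ∨
      ∃ N > 1, ∃ (χ : G →+ ZMod N) (g : G), χ g = 1 ∧ N • g = 0 := by
  classical
  obtain ⟨n, ι, _, p, hp, e, ⟨f⟩⟩ := AddCommGroup.equiv_free_prod_directSum_zmod G
  rcases n with _ | n
  swap
  · exact Or.inl ⟨(Finsupp.applyAddHom 0).comp ((AddMonoidHom.fst _ _).comp f.toAddMonoidHom),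
      f.symm (Finsupp.single 0 1, 0), by simp⟩
  by_cases h : ∀ i, e i = 0
  · have : ∀ i, Subsingleton (ZMod (p i ^ e i)) := fun i => by
      rw [h i, pow_zero]
      infer_instance
    exact absurd f.toEquiv.subsingleton (not_subsingleton G)
  obtain ⟨i, hi⟩ := not_forall.1 h
  refine Or.inr ⟨p i ^ e i, Nat.one_lt_pow hi (hp i).one_lt,
    (DFinsupp.evalAddMonoidHom i).comp ((AddMonoidHom.snd _ _).comp f.toAddMonoidHom),
    f.symm (0, DirectSum.of (fun i => ZMod (p i ^ e i)) i 1), ?_, ?_⟩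
  · simp only [AddMonoidHom.comp_apply, AddEquiv.coe_toAddMonoidHom, AddEquiv.apply_symm_apply,
      AddMonoidHom.coe_snd]
    exact DirectSum.of_eq_same i 1
  · rw [← map_nsmul, Prod.smul_mk, ← map_nsmul]
    simp

namespace Loc

variable [ProperSpace X] {o : X} {R : ℝ} (L : Loc o R) {r : ℝ}
include L

theorem kap_spec (hr : 0 < r) {y : X} (hy : y ∈ ball o R) : dist o (kap o r y) = min r (dist o y) ∧
    dist o (kap o r y) + dist (kap o r y) y = dist o y := by
  have hm : 0 < max r (dist o y) := lt_max_of_lt_left hr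
  have h1 : r / max r (dist o y) ≤ 1 := (div_le_one hm).2 (le_max_left _ _)
  obtain ⟨g1, g2⟩ := L.geo_spec2 (mem_ball_self L.pos) hy (by positivity) (h1.trans one_le_two)
  rw [abs_of_nonneg (sub_nonneg.2 h1)] at g2
  refine ⟨g1.trans ?_, by rw [dist_comm (kap o r y), kap, g1, g2]; ring⟩
  rcases le_total r (dist o y) with h | h
  · rw [max_eq_right h, min_eq_left h, div_mul_cancel₀ _ (by linarith)]
  · rw [max_eq_left h, min_eq_right h, div_self hr.ne', one_mul]

theorem kap_mem (hr : 0 < r) {y : X} (hy : y ∈ ball o R) : kap o r y ∈ closedBall o r :=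
  mem_closedBall'.2 ((L.kap_spec hr hy).1.trans_le (min_le_left _ _))

theorem kap_cont (hr : 0 < r) : ContinuousOn (kap o r) (ball o R) :=
  L.continuous_geo continuousOn_const continuousOn_id
    (continuousOn_const.div (by fun_prop) fun _ _ => (lt_max_of_lt_left hr).ne') fun _ hy =>
    ⟨mem_ball_self L.pos, hy, by positivity,
      ((div_le_one (lt_max_of_lt_left hr)).2 (le_max_left _ _)).trans one_le_two⟩

omit L in
theorem cb {a b : ℝ} {x : X} (h : x ∈ closedBall o a) (hab : a < b) : x ∈ ball o b :=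
  closedBall_subset_ball hab h

theorem geo_cb (hr : 0 < r) (hR : 8 * r ≤ R) {x y : X} (hx : x ∈ closedBall o r)
    (hy : y ∈ closedBall o r) (s : I) : geo x y s ∈ closedBall o (2 * r) := by
  obtain ⟨g1, g2⟩ := L.geo_spec2 (cb hx (by linarith)) (cb hy (by linarith)) s.2.1
    (s.2.2.trans one_le_two)
  rw [abs_of_nonneg (sub_nonneg.2 s.2.2)] at g2
  rw [mem_closedBall] at hx hy ⊢
  linarith [dist_triangle_left (geo x y s) o x, dist_triangle_left (geo x y s) o y,
    dist_triangle_right x y o]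

theorem cv (hr : 0 < r) (hR : 8 * r ≤ R) :
    Cv (closedBall o r) fun x y s => kap o r (geo x y s) := by
  have hb : ∀ {x y : X}, x ∈ closedBall o r → y ∈ closedBall o r → ∀ s : I, geo x y s ∈ ball o R :=
    fun hx hy s => cb (L.geo_cb hr hR hx hy s) (by linarith)
  refine ⟨(L.kap_cont hr).comp (L.continuous_geo continuousOn_fst (by fun_prop) (by fun_prop)
    fun q hq => ⟨cb hq.1 (by linarith), cb hq.2.1 (by linarith), q.2.2.2.1,
      q.2.2.2.2.trans one_le_two⟩) fun q hq => hb hq.1 hq.2.1 _,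
    fun x hx y hy s => L.kap_mem hr (hb hx hy s), fun x hx y _ => ?_, fun x _ y hy => ?_,
    fun x hx y hy s => ?_⟩
  · rw [Icc.coe_zero, geo_zero, kap_of_le hr hx]
  · rw [Icc.coe_one, geo_one, kap_of_le hr hy]
  · obtain ⟨h1, h2⟩ := L.kap_spec hr (hb hx hy s)
    have h3 := L.dist_geo_le (cb hx (by linarith)) (cb hy (by linarith)) s.2
    have h4 := dist_triangle_left o (geo x y s) x
    have h5 := dist_triangle (kap o r (geo x y s)) (geo x y s) x
    rw [mem_closedBall] at hx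
    rw [dist_comm x (geo x y s)] at h4
    rcases min_choice r (dist o (geo x y s)) with h | h <;> rw [h] at h1 <;>
      linarith [dist_nonneg (x := x) (y := y)]

theorem exists_td (hr : 0 < r) (hR : 8 * r ≤ R) {C : Set X} (hC : IsClosed C) {d : ℕ}
    {F : (Fin d → I) → X} (f1 : Continuous F) (f2 : ∀ κ, F κ ∈ closedBall o r)
    (f3 : ∀ κ ∈ Cube.boundary (Fin d), F κ ∉ C) : ∃ ρ > 0, ρ ≤ r ∧ ∃ D : X × (Fin d → I) → X,
      ∃ Θ : (Fin d → I) × X → X, ContinuousOn D (closedBall o r ×ˢ univ) ∧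
      ContinuousOn Θ (univ ×ˢ closedBall o (2 * r)) ∧ (∀ κ, D (o, κ) = F κ) ∧
      (∀ x ∈ closedBall o r, ∀ κ, D (x, κ) ∈ closedBall o (2 * r) ∧ Θ (κ, D (x, κ)) = x) ∧
      (∀ κ, Θ (κ, o) ∈ ball o R) ∧
      ∀ x ∈ closedBall o ρ, ∀ κ ∈ Cube.boundary (Fin d), kap o r (D (x, κ)) ∉ C := by
  have ho : o ∈ ball o R := mem_ball_self L.pos
  have g1 := fun κ => L.geo_spec2 (cb (f2 κ) (by linarith)) ho zero_le_two le_rfl
  have g2 : ∀ κ, geo (F κ) o 2 ∈ closedBall o r := fun κ => by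
    have := (g1 κ).2
    norm_num at this
    rw [mem_closedBall', this]
    exact f2 κ
  have g3 : Continuous fun κ => geo (F κ) o 2 := continuousOn_univ.1 (L.continuous_geo
    f1.continuousOn continuousOn_const continuousOn_const fun κ _ =>
      ⟨cb (f2 κ) (by linarith), ho, zero_le_two, le_rfl⟩)
  have m1 := fun {x y : X} (hx : x ∈ ball o R) (hy : y ∈ ball o R) =>
    (L.geo_spec2 hx hy (s := 2⁻¹) (by norm_num) (by norm_num)).half
  have m2 : ∀ x ∈ closedBall o r, geo x o 2⁻¹ ∈ closedBall o (r / 2) := fun x hx => by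
    rw [mem_closedBall', (m1 (cb hx (by linarith)) ho).1]
    linarith [mem_closedBall.1 hx]
  have m3 : ∀ κ, ∀ w ∈ closedBall o (2 * r), geo (geo (F κ) o 2) w 2⁻¹ ∈ ball o R := fun κ w hw => by
    have := (m1 (cb (g2 κ) (by linarith)) (cb hw (by linarith))).1
    have := mem_closedBall.1 (g2 κ)
    rw [mem_closedBall] at hw
    rw [mem_ball]
    linarith [dist_triangle_left (geo (geo (F κ) o 2) w 2⁻¹) o w,
      dist_triangle_right (geo (F κ) o 2) w o]
  have d1 : ContinuousOn (fun q : X × (Fin d → I) => geo (geo (F q.2) o 2) (geo q.1 o 2⁻¹) 2)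
      (closedBall o r ×ˢ univ) := L.continuous_geo (g3.comp continuous_snd).continuousOn
    (L.continuous_geo continuousOn_fst continuousOn_const continuousOn_const fun q hq =>
      ⟨cb hq.1 (by linarith), ho, by norm_num, by norm_num⟩) continuousOn_const fun q hq =>
      ⟨cb (g2 _) (by linarith), cb (m2 _ hq.1) (by linarith), zero_le_two, le_rfl⟩
  have d2 : ∀ κ, geo (geo (F κ) o 2) (geo o o 2⁻¹) 2 = F κ := fun κ => by
    rw [geo_self]
    exact L.geo_unique (cb (g2 κ) (by linarith)) ho (geo_of_exists ⟨_, (g1 κ).two⟩) (g1 κ).two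
  have d3 : ∀ x ∈ closedBall o r, ∀ κ,
      geo (geo (F κ) o 2) (geo x o 2⁻¹) 2 ∈ closedBall o (2 * r) ∧
      geo (geo (F κ) o 2) (geo (geo (F κ) o 2) (geo x o 2⁻¹) 2) 2⁻¹ = geo x o 2⁻¹ := fun x hx κ => by
    have a1 := L.geo_spec2 (cb (g2 κ) (by linarith)) (cb (m2 x hx) (by linarith)) zero_le_two le_rfl
    have a2 : geo (geo (F κ) o 2) (geo x o 2⁻¹) 2 ∈ closedBall o (2 * r) := by
      have := a1.2
      norm_num at this
      have := mem_closedBall.1 (g2 κ)
      have := mem_closedBall.1 (m2 x hx)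
      rw [mem_closedBall]
      norm_num at *
      linarith [dist_triangle_left (geo (geo (F κ) o 2) (geo x o (1 / 2)) 2) o (geo x o (1 / 2)),
        dist_triangle_right (geo (F κ) o 2) (geo x o (1 / 2)) o]
    exact ⟨a2, L.geo_unique (cb (g2 κ) (by linarith)) (cb a2 (by linarith))
      (geo_of_exists ⟨_, a1.inv two_pos⟩) (a1.inv two_pos)⟩
  obtain ⟨u, v, u1, -, u2, u3, u4⟩ := generalized_tube_lemma (isCompact_singleton (x := o))
    (isClosed_boundary d).isCompact ((((L.kap_cont hr).comp d1 fun q hq =>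
      cb (d3 _ hq.1 _).1 (by linarith)).mono (prod_mono ball_subset_closedBall subset_rfl)
      ).isOpen_inter_preimage (isOpen_ball.prod isOpen_univ) hC.isOpen_compl) (by
      rintro ⟨_, κ⟩ ⟨rfl, hκ⟩
      refine ⟨⟨mem_ball_self hr, trivial⟩, ?_⟩
      rw [mem_preimage, comp_apply, d2, kap_of_le hr (f2 κ)]
      exact f3 κ hκ)
  obtain ⟨ρ, h1, h2⟩ := nhds_basis_closedBall.mem_iff.1 (u1.mem_nhds (u2 rfl))
  refine ⟨min ρ r, lt_min h1 hr, min_le_right _ _, _,
    fun q => geo o (geo (geo (F q.1) o 2) q.2 2⁻¹) 2, d1, L.continuous_geo continuousOn_const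
      (L.continuous_geo (g3.comp continuous_fst).continuousOn continuousOn_snd continuousOn_const
        fun q hq => ⟨cb (g2 _) (by linarith), cb hq.2 (by linarith), by norm_num, by norm_num⟩)
      continuousOn_const fun q hq => ⟨ho, m3 _ _ hq.2, zero_le_two, le_rfl⟩, d2,
    fun x hx κ => ⟨(d3 x hx κ).1, ?_⟩, fun κ => ?_, fun x hx κ hκ =>
      (u4 (a := (x, κ)) ⟨h2 (closedBall_subset_closedBall (min_le_left _ _) hx), u3 hκ⟩).2⟩
  · have := (m1 (cb hx (by linarith)) ho).2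
    simp only [(d3 x hx κ).2]
    exact L.geo_unique ho (cb (m2 x hx) (by linarith)) (geo_of_exists ⟨_, this⟩) this
  · have := (m1 (cb (g2 κ) (by linarith)) ho).2
    simp only
    rw [L.geo_unique ho (cb (m2 _ (g2 κ)) (by linarith)) (geo_of_exists ⟨_, this⟩) this]
    exact cb (g2 κ) (by linarith)

omit L in
/-- The closed set `C` has a parametrisation by at most `e` parameters. -/
def Par (o : X) (r : ℝ) (C : Set X) (e : ℕ) : Prop := IsClosed C ∧
  ∃ (l : (Fin e → ℝ) → X) (t : X → Fin e → ℝ), Continuous l ∧ Continuous t ∧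
    (∀ u, l u ∈ closedBall o (2 * r)) ∧ ∀ w ∈ closedBall o (2 * r), kap o r w ∈ C → l (t w) = w

theorem par_point (hr : 0 < r) (hR : 8 * r ≤ R) : Par o r {o} 0 :=
  ⟨isClosed_singleton, fun _ => o, fun _ => 0, continuous_const, continuous_const,
    fun _ => mem_closedBall_self (by linarith), fun w hw h => by
      have := (L.kap_spec hr (cb hw (by linarith))).1
      rw [h, dist_self] at this
      exact dist_eq_zero.1 ((min_eq_iff.1 this.symm).elim (fun h => absurd h.1 hr.ne') And.left)⟩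

variable (hr : 0 < r) (hR : 8 * r ≤ R) {n : ℕ} (hn : Cd X n) (hu : ∀ ρ > 0, ¬Uns 5 (closedBall o ρ))
include hr hR hn hu

theorem no_thom {C : Set X} {d e : ℕ} (P : Par o r C e) (hd : d + e < 5) {F : (Fin d → I) → X}
    (f1 : Continuous F) (f2 : ∀ κ, F κ ∈ closedBall o r) (f3 : ∀ κ ∈ Cube.boundary (Fin d), F κ ∉ C)
    {a : ((ℕ → I) → X) → Finset ℕ → ℤ} (a1 : ∀ T J, Good (closedBall o r \ C) J T → dS a T J = 0)
    (a2 : ∀ (c : Cell) (M : ℕ), dim c = 0 → 0 < M → (bsum (List.replicate d M) fun κ =>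
      pb (dS a) (fun p => F (sc c.length (List.replicate d M) d p)) (c ++ κ)) = 1) : False := by
  obtain ⟨hC, l, t, l1, t1, l2, l3⟩ := P
  obtain ⟨ρ, h1, h2, D, Θ, d1, d2, d3, d4, -, d5⟩ := L.exists_td hr hR hC f1 f2 f3
  have hs := closedBall_subset_closedBall (x := o) h2
  have hk : ∀ x ∈ closedBall o ρ, ∀ κ, D (x, κ) ∈ ball o R := fun x hx κ =>
    cb (d4 x (hs hx) κ).1 (by linarith)
  have d1' := d1.mono (prod_mono hs (subset_refl univ))
  have T : TD (closedBall o ρ) (closedBall o r \ C) o d (fun x κ => kap o r (D (x, κ))) a :=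
    ⟨(L.kap_cont hr).comp d1' fun q hq => hk _ hq.1 _,
      fun x hx κ hκ => ⟨L.kap_mem hr (hk x hx κ), d5 x hx κ hκ⟩, a1,
      by simpa only [d3, kap_of_le hr (f2 _)] using a2⟩
  have key : ∀ k, 2 ≤ k → Uns (k + 4) (closedBall o ρ) → Uns (k + 3) (closedBall o ρ) :=
    fun k hk' => T.uns (L.cv h1 (by linarith)) (mem_closedBall_self h1.le) (isCompact_closedBall _ _)
      fun φ hφ δ hδ => by
      obtain ⟨G, g1, g2⟩ := avoid (F := (Fin d → ℝ) × (Fin e → ℝ)) (n := k + 3) (by simp; omega)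
        (Ψ := fun q => φ (Θ (fun i => pI (q.1 i), l q.2))) (hφ.comp (d2.comp_continuous
          (by fun_prop) fun q => ⟨trivial, l2 _⟩)) hδ
      refine ⟨fun q => G (fun i => q.2 i, t (D q)), g1.comp_continuousOn ((by fun_prop :
        Continuous fun (q : X × (Fin d → I)) i => (q.2 i : ℝ)).continuousOn.prodMk
          (t1.comp_continuousOn d1')), fun x hx κ => ⟨(g2 _).1, fun h => ?_⟩⟩
      have := (g2 (fun i => κ i, t (D (x, κ)))).2.1
      simp only [pI_val] at this
      rwa [l3 _ (d4 x (hs hx) κ).1 (not_not.1 fun h' => h ⟨L.kap_mem hr (hk x hx κ), h'⟩),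
        (d4 x (hs hx) κ).2] at this
  have : ∀ j, Uns (5 + j) (closedBall o ρ) → Uns 5 (closedBall o ρ) := fun j => by
    induction j with
    | zero => exact id
    | succ j ih => exact fun h => ih (by
        simpa only [show j + 2 + 3 = 5 + j by ring] using key (j + 2) (by omega)
          (by simpa only [show j + 2 + 4 = 5 + (j + 1) by ring] using h))
  exact hu ρ h1 (this n (hn.uns (by omega) (isCompact_closedBall _ _)))

theorem nonempty {C : Set X} {e : ℕ} (P : Par o r C e) (he : e < 5) :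
    (closedBall o r \ C).Nonempty := by
  obtain ⟨-, l, t, l1, t1, -, l3⟩ := P
  by_contra h
  refine hu r hr (uns_param (by simpa using he) l1 t1.continuousOn fun x hx =>
    l3 x (closedBall_subset_closedBall (by linarith) hx) ?_)
  rw [kap_of_le hr hx]
  exact not_not.1 fun h' => h ⟨x, hx, h'⟩

theorem fill_one {C : Set X} {e : ℕ} (P : Par o r C e) (he : e < 4) :
    Fill (closedBall o r \ C) 1 := by
  classical
  intro F _ hY
  have h0 := hY 0 ⟨0, Or.inl rfl⟩
  have h1 := hY 1 ⟨0, Or.inr rfl⟩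
  have hb : ∀ t ∈ Cube.boundary (Fin 1), t = 0 ∧ t 0 = 0 ∨ t = 1 ∧ t 0 = 1 := by
    rintro t ⟨i, hi⟩
    obtain rfl := Subsingleton.elim i 0
    exact hi.imp (fun h => ⟨funext fun j => by rwa [Subsingleton.elim j 0], h⟩)
      fun h => ⟨funext fun j => by rwa [Subsingleton.elim j 0], h⟩
  by_cases hj : JoinedIn (closedBall o r \ C) (F 0) (F 1)
  · obtain ⟨γ, hγ⟩ := hj
    refine ⟨fun t => γ (t 0), by fun_prop, fun _ => hγ _, fun t ht => ?_⟩
    rcases hb t ht with ⟨rfl, -⟩ | ⟨rfl, -⟩ <;> simp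
  have c := L.cv hr hR
  refine (L.no_thom hr hR hn hu P (d := 1) (by omega) (F := fun κ => kap o r (geo (F 0) (F 1) (κ 0)))
    (c.comp continuous_const continuous_const (by fun_prop) (fun _ => h0.1) fun _ => h1.1)
    (fun _ => c.mem _ h0.1 _ h1.1 _) (fun κ hκ => ?_)
    (a := fun T _ => if JoinedIn (closedBall o r \ C) (F 0) (T 0) then 0 else 1)
    (fun T J g => Finset.sum_eq_zero fun i _ => ?_) fun e M he hM => ?_).elim
  · rcases hb κ hκ with ⟨-, h⟩ | ⟨-, h⟩ <;> rw [h]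
    exacts [(c.zero _ h0.1 _ h1.1).symm ▸ h0.2, (c.one _ h0.1 _ h1.1).symm ▸ h1.2]
  · have : JoinedIn (closedBall o r \ C) ((T ∘ up i false) 0) ((T ∘ up i true) 0) :=
      ⟨⟨⟨fun s => T (update 0 i s), g.cont.comp (by fun_prop)⟩, rfl, rfl⟩, fun _ => g.mem _⟩
    beta_reduce
    rw [if_congr (Q := JoinedIn (closedBall o r \ C) (F 0) ((T ∘ up i false) 0))
      ⟨fun h => h.trans this.symm, fun h => h.trans this⟩ rfl rfl, sub_self, smul_zero]
  · simp only [← dl_pb, dl_vertex _ he]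
    rw [List.replicate_one, stokes_aux M [] _ fun _ => rfl]
    have e1 : ∀ z : ℤ, sc e.length [M] 1 (par (e ++ [(z, false)]) 0) 0 = pI (z / M) := fun z => by
      simp [sc, par_last]
    simp only [bsum, pb, comp_apply, e1]
    rw [pI_of_ge (by rw [Int.cast_natCast, div_self (by exact_mod_cast hM.ne')]), pI_of_le (by simp),
      c.zero _ h0.1 _ h1.1, c.one _ h0.1 _ h1.1, if_neg hj, if_pos (JoinedIn.refl h0), sub_zero]

theorem exists_sphere : ∃ y, dist o y = r := by
  obtain ⟨x, h1, h2⟩ := L.nonempty hr hR hn hu (L.par_point hr hR) (by simp)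
  exact ⟨ray o x r, (L.ray_spec (mem_ball_self L.pos) (cb h1 (by linarith)) (Ne.symm h2) hr.le
    (by linarith)).1⟩

theorem fill_succ {k : ℕ} (hk : k < 2) (h : ∀ j ≤ k + 2, Fill (closedBall o r \ {o}) j) :
    Fill (closedBall o r \ {o}) (k + 3) := by
  have ho : o ∈ ball o R := mem_ball_self L.pos
  obtain ⟨y, hy⟩ := L.exists_sphere hr hR hn hu
  have hs : sphere o r ⊆ closedBall o r \ {o} := fun x hx =>
    ⟨sphere_subset_closedBall hx, dist_pos.1 (by rw [mem_sphere.1 hx]; exact hr)⟩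
  obtain ⟨a, ha⟩ := exists_obs ⟨y, hs (mem_sphere'.2 hy)⟩ h
  have c := L.cv hr hR
  rcases subsingleton_or_nontrivial (PG k (closedBall o r \ {o} : Set X) ⟨y, hs (mem_sphere'.2 hy)⟩)
    with h0 | h0
  · exact ha.fill_succ
  have hb : ∀ x ∈ closedBall o r \ {o}, x ∈ ball o R ∧ o ≠ x ∧ 0 < dist o x ∧ dist o x ≤ r :=
    fun x hx => ⟨cb hx.1 (by linarith), Ne.symm hx.2, dist_pos.2 (Ne.symm hx.2),
      mem_closedBall'.1 hx.1⟩
  have := ha.fg c sdiff_subset (isCompact_sphere o r) hs (mem_sphere'.2 hy) (half_pos hr)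
    (fun x hx w hw h => ⟨hw, fun e => by
      rw [e, dist_comm, mem_sphere.1 hx] at h
      linarith⟩) fun g => by
    obtain ⟨α, rfl⟩ := cls_surj g
    have h1 : ∀ (s : I) t, 0 < dist o (α t).1 + s * (r - dist o (α t).1) ∧
        dist o (α t).1 + s * (r - dist o (α t).1) ≤ r := fun s t => by
      obtain ⟨-, -, b1, b2⟩ := hb _ (α t).2
      constructor <;> nlinarith [s.2.1, s.2.2]
    have h2 := fun (s : I) t => (L.ray_spec ho (hb _ (α t).2).1 (hb _ (α t).2).2.1 (h1 s t).1.le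
      (by linarith [(h1 s t).2])).1
    have hc : Continuous fun t => (α t).1 := continuous_subtype_val.comp α.1.continuous
    let H : C(I × (Fin (k + 2) → I), (closedBall o r \ {o} : Set X)) := ⟨fun q =>
      ⟨ray o (α q.2) (dist o (α q.2).1 + q.1 * (r - dist o (α q.2).1)),
        mem_closedBall'.2 (by rw [h2]; exact (h1 _ _).2),
        (dist_pos.1 (by rw [h2]; exact (h1 _ _).1)).symm⟩, (continuousOn_univ.1 (L.continuous_ray
      continuousOn_const (by fun_prop) (by fun_prop) fun q _ => ⟨ho, (hb _ (α _).2).1,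
        (hb _ (α _).2).2.1, (h1 _ _).1.le, by linarith [(h1 q.1 q.2).2]⟩)).subtype_mk _⟩
    have h3 : ∀ s, ∀ t ∈ Cube.boundary (Fin (k + 2)), H (s, t) = α t := fun s t ht => by
      refine Subtype.ext ?_
      change ray o (α t) (dist o (α t).1 + s * (r - dist o (α t).1)) = _
      have e : r = dist o (α t).1 := by
        rw [show α t = _ from α.2 t ht]
        exact hy.symm
      rw [sub_eq_zero.2 e, mul_zero, add_zero]
      exact ray_self (hb _ (α t).2).2.1
    refine ⟨⟨⟨fun t => H (1, t), by fun_prop⟩, fun t ht => (h3 1 t ht).trans (α.2 t ht)⟩,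
      (cls_eq.2 ⟨⟨⟨H, fun t => Subtype.ext ?_, fun t => rfl⟩, fun s t ht => h3 s t ht⟩⟩).symm,
      fun t => mem_sphere'.2 ((h2 1 t).trans (by simp))⟩
    change ray o (α t) (dist o (α t).1 + (0 : I) * _) = _
    rw [Icc.coe_zero, zero_mul, add_zero, ray_self (hb _ (α t).2).2.1]
    rfl
  have key : ∀ α : Ω^ (Fin (k + 2)) (closedBall o r \ {o} : Set X) ⟨y, hs (mem_sphere'.2 hy)⟩,
      Continuous (cn (fun x y s => kap o r (geo x y s)) α) ∧
      (∀ κ, cn (fun x y s => kap o r (geo x y s)) α κ ∈ closedBall o r) ∧ ∀ κ ∈ Cube.boundary _,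
        cn (fun x y s => kap o r (geo x y s)) α κ ∉ ({o} : Set X) := fun α => by
    have y1 := hs (mem_sphere'.2 hy)
    refine ⟨c.comp (continuous_subtype_val.comp (α.1.continuous.comp (by fun_prop)))
      continuous_const (by fun_prop) (fun _ => (α _).2.1) fun _ => y1.1,
      fun _ => c.mem _ (α _).2.1 _ y1.1 _, fun κ ⟨i, hi⟩ => ?_⟩
    generalize (fun x y (s : I) => kap o r (geo x y s)) = cv at c
    unfold cn
    rcases Fin.eq_castSucc_or_eq_last i with ⟨j, rfl⟩ | rfl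
    · rw [show α (Fin.init κ) = _ from α.2 _ ⟨j, hi⟩, c.self y1.1]
      exact y1.2
    · rcases hi with hi | hi <;> rw [hi]
      · rw [c.zero _ (α _).2.1 _ y1.1]
        exact (α _).2.2
      · rw [c.one _ (α _).2.1 _ y1.1]
        exact y1.2
  have sg : ∀ {A : Type} [CommRing A], -((-1 : ℤ) ^ k • -((-1 : ℤ) ^ k • (1 : A))) = 1 := by
    intro A _
    rw [smul_neg, neg_neg, smul_smul, ← mul_pow]
    simp
  exfalso
  rcases group_cases (G := PG k (closedBall o r \ {o} : Set X) ⟨y, hs (mem_sphere'.2 hy)⟩) with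
    ⟨χ, g, hg⟩ | ⟨N, hN, χ, g, hg, hg'⟩ <;> obtain ⟨α, hα⟩ := cls_surj (-((-1 : ℤ) ^ k • g))
  · exact L.no_thom hr hR hn hu (L.par_point hr hR) (by omega) (key α).1 (key α).2.1 (key α).2.2
      (ha.rs_cyc χ) fun e M he hM => by
        rw [ha.cone c sdiff_subset χ α e M he hM, hα, map_neg, map_zsmul, hg, sg]
  obtain ⟨ρ, h1, h2, D, Θ, d1, d2, d3, d4, d6, d5⟩ := L.exists_td hr hR isClosed_singleton
    (key α).1 (key α).2.1 (key α).2.2
  have hs' := closedBall_subset_closedBall (x := o) h2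
  have hk : ∀ x ∈ closedBall o ρ, ∀ κ, D (x, κ) ∈ ball o R := fun x hx κ =>
    cb (d4 x (hs' hx) κ).1 (by linarith)
  have sc1 : ∀ {a b : ℝ}, 0 < a → a ≤ r → 0 < b → b ≤ r → ∀ x ∈ closedBall o a,
      Geo o x (b / a) (geo o x (b / a)) ∧ geo o x (b / a) ∈ closedBall o b := fun {a b} a1 a2 b1 b2 x hx => by
    have e : b / a * dist o x ≤ b := by
      rw [div_mul_eq_mul_div, div_le_iff₀ a1]
      exact mul_le_mul_of_nonneg_left (mem_closedBall'.1 hx) b1.le
    have := L.geo_spec ho (cb hx (by linarith)) (by positivity) (e.trans (by linarith))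
    exact ⟨this, mem_closedBall'.2 (this.1.trans_le e)⟩
  have sc2 : ∀ {a b : ℝ}, 0 < a → a ≤ r → 0 < b → b ≤ r →
      ContinuousOn (fun x => geo o x (b / a)) (closedBall o a) := fun {a b} a1 a2 b1 b2 =>
    L.continuousOn_geo.comp (f := fun x => (o, x, b / a)) (by fun_prop) fun x hx =>
      ⟨ho, cb hx (by linarith), by positivity, by
        rw [← (sc1 a1 a2 b1 b2 x hx).1.1]
        linarith [mem_closedBall'.1 (sc1 a1 a2 b1 b2 x hx).2]⟩
  have sc3 : ∀ {a b : ℝ}, 0 < a → a ≤ r → 0 < b → b ≤ r → ∀ x ∈ closedBall o a, x ≠ o →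
      geo o x (b / a) ≠ o := fun {a b} a1 a2 b1 b2 x hx h => (dist_pos.1 (by
    rw [(sc1 a1 a2 b1 b2 x hx).1.1]
    exact mul_pos (by positivity) (dist_pos.2 h.symm))).symm
  refine ha.tors hN χ α (by rw [hα, smul_neg, smul_comm, hg', smul_zero, neg_zero])
    (Dd := fun x κ => kap o r (D (x, κ))) ⟨(L.kap_cont hr).comp
      (d1.mono (prod_mono hs' subset_rfl)) fun q hq => hk _ hq.1 _,
      fun x hx κ hκ => ⟨L.kap_mem hr (hk x hx κ), d5 x hx κ hκ⟩, ha.rs_cyc χ, fun e M he hM => by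
        simp only [d3, kap_of_le hr ((key α).2.1 _)]
        rw [ha.cone c sdiff_subset χ α e M he hM, hα, map_neg, map_zsmul, hg, sg]⟩
    (L.cv h1 (by linarith)) (mem_closedBall_self h1.le) c sdiff_subset
    (fun κ => by rw [d3, kap_of_le hr ((key α).2.1 _)]) (g := fun κ => kap o ρ (Θ (κ, o)))
    ((L.kap_cont h1).comp_continuous (d2.comp_continuous (by fun_prop) fun κ =>
      ⟨trivial, mem_closedBall_self (by linarith)⟩) d6) (fun κ => L.kap_mem h1 (d6 κ))
    (fun x hx κ h => ?_) (sc2 hr le_rfl h1 h2) (sc2 h1 h2 hr le_rfl)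
    (fun x hx => ⟨(sc1 hr le_rfl h1 h2 x hx).2, ?_⟩) (fun x hx => sc3 hr le_rfl h1 h2 x hx.1 hx.2)
    fun x hx h => ⟨(sc1 h1 h2 hr le_rfl x hx).2, sc3 h1 h2 hr le_rfl x hx h⟩
  · have e := (L.kap_spec hr (hk x hx κ)).1
    rw [show kap o r (D (x, κ)) = o from not_not.1 fun h' => h ⟨L.kap_mem hr (hk x hx κ), h'⟩,
      dist_self] at e
    rw [show Θ (κ, o) = x from (congrArg (fun w => Θ (κ, w)) (dist_eq_zero.1 ((min_eq_iff.1
      e.symm).elim (fun h => absurd h.1 hr.ne') And.left))).trans (d4 x (hs' hx) κ).2,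
      kap_of_le h1 hx]
  · have := (sc1 hr le_rfl h1 h2 x hx).1.inv (by positivity)
    rw [inv_div] at this
    exact L.geo_unique ho (cb (sc1 hr le_rfl h1 h2 x hx).2 (by linarith))
      (geo_of_exists ⟨_, this⟩) this

end Loc

end Pool.Agent.P.MP_07c576_gt
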