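import Pool.Agent.P.MP_07c576_gt.Low

/-! Maps from the four-cube can be pushed off a point. -/

set_option linter.unusedSectionVars false

namespace Pool.Agent.P.MP_07c576_gt

open Set Metric Topology Filter unitInterval Function

theorem cube_ext {Z : Type} [TopologicalSpace Z] {L M : ℕ} (hM : 0 < M) (Yc : Cell → Set Z)
    (hm : ∀ f c, Face f c → Yc f ⊆ Yc c) (F : (Fin L → I) → Z)
    (hF : ∀ c : Cell, c.length = L → Fill (Yc c) (dim c)) :
    ∃ F' : (Fin L → I) → Z, Continuous F' ∧ ∀ t, ∃ c u, sc 0 (List.replicate L M) L (par c u) = t ∧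
      (t ∈ Cube.boundary (Fin L) → OnB (List.replicate L M) c) ∧ F' t ∈ Yc c ∧
      ((∀ f, Face f c → Good (Yc f) (act f) ((F ∘ sc 0 (List.replicate L M) L) ∘ par f)) →
        F' t = F t) := by
  obtain ⟨Ψ, h1, h2⟩ := ext_grid (L := L) Yc hm (F ∘ sc 0 (List.replicate L M) L) (L + 1)
    fun c hc _ => hF c hc
  have h1' := fun (c : Cell) (hc : c.length = L) => h1 c hc (by have := dim_le c; omega)
  let p : (Fin L → I) → ℕ → ℝ := fun t i => if h : i < L then M * (t ⟨i, h⟩ : ℝ) else 0
  have hp : Continuous p := continuous_pi fun i => by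
    unfold p
    split_ifs <;> fun_prop
  have h0 : ∀ t i, L ≤ i → p t i = 0 := fun t i hi => dif_neg (not_lt.2 hi)
  have hM' : (M : ℝ) ≠ 0 := by exact_mod_cast hM.ne'
  have e : ∀ t, sc 0 (List.replicate L M) L (p t) = t := fun t => funext fun i => by
    simp only [sc, p, zero_add, i.2, dif_pos, List.getD_replicate _ i.2]
    rw [mul_div_cancel_left₀ _ hM', pI_val]
  refine ⟨Ψ ∘ p, continuousOn_univ.1 (glue_grid (S := univ) (fun c _ hc => (h1' c hc).cont)
    hp.continuousOn (fun t _ => h0 t) fun _ _ => trivial), fun t => ⟨cellOf L (p t), _,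
      (congrArg _ (par_cellOf (h0 t))).trans (e t), fun ⟨i, hi⟩ => ⟨by simp, i, by simp, ?_⟩, ?_,
      fun h => ?_⟩⟩
  · have := gd_cellOf i.2 (p t)
    rw [gd] at this
    rw [this, List.getD_replicate _ i.2]
    refine hi.imp (fun h => ?_) fun h => ?_ <;> simp [p, h]
  · have := (h1' (cellOf L (p t)) (by simp)).mem fun i => pI (Int.fract (p t i))
    rwa [comp_apply, par_cellOf (h0 t)] at this
  · have := congrFun (h2 _ (by simp) fun f hf _ => h f hf) fun i => pI (Int.fract (p t i))
    rwa [comp_apply, comp_apply, par_cellOf (h0 t), comp_apply, e] at this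

theorem exists_fine {δ : ℝ} (hδ : 0 < δ) (L : ℕ) : ∃ M > 0, ∀ (c : Cell) t t',
    dist (sc 0 (List.replicate L M) L (par c t)) (sc 0 (List.replicate L M) L (par c t')) < δ := by
  obtain ⟨M, hM⟩ := exists_nat_one_div_lt hδ
  exact ⟨M + 1, M.succ_pos, fun c t t' => (dist_sc (M := M + 1)
    (fun _ h => (List.eq_of_mem_replicate h).ge) M.succ_pos (by simp) c t t').trans_lt
    (by exact_mod_cast hM)⟩

theorem fill_union {Z : Type} [TopologicalSpace Z] {B : Set Z} {C : Bool → Set Z}
    (hC : ∀ b, IsClosed (C b)) {L : ℕ} (h1 : ∀ b j, Fill (B \ C b) j)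
    (h2 : ∀ j < L, Fill (B \ (C false ∪ C true)) j) : Fill (B \ (C false ∩ C true)) L := by
  classical
  intro F hF hY
  have hK := fun b => hF.preimage_isClosed_of_isClosed (isClosed_boundary L) (hC b)
  obtain ⟨δ, hδ, hd⟩ := Disjoint.exists_thickenings (s := Cube.boundary (Fin L) ∩ F ⁻¹' C false)
    (disjoint_left.2 fun t a b => (hY t a.1).2 ⟨a.2, b.2⟩) (hK false).isCompact (hK true)
  obtain ⟨M, hM, hs⟩ := exists_fine hδ L
  let q := fun c t => sc 0 (List.replicate L M) L (par c t)
  let s : Cell → Bool := fun c => decide (∃ t, q c t ∈ Cube.boundary (Fin L) ∩ F ⁻¹' C false)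
  have key : ∀ c t, q c t ∈ Cube.boundary (Fin L) → F (q c t) ∉ C (s c) := fun c t ht h => by
    by_cases e : ∃ t, q c t ∈ Cube.boundary (Fin L) ∩ F ⁻¹' C false
    · rw [show s c = true from decide_eq_true e] at h
      obtain ⟨t', ht'⟩ := e
      exact disjoint_left.1 hd (mem_thickening_iff.2 ⟨_, ht', hs c t t'⟩)
        (self_subset_thickening hδ _ ⟨ht, h⟩)
    · rw [show s c = false from decide_eq_false e] at h
      exact e ⟨t, ht, h⟩
  obtain ⟨F', f1, f2⟩ := cube_ext hM (fun c => {z | z ∈ B ∧ ∀ c', Face c c' → z ∉ C (s c')})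
    (fun f c hf z hz => ⟨hz.1, fun c' h => hz.2 c' (hf.trans h)⟩) F fun c hc => by
      by_cases e : ∀ c', Face c c' → s c' = s c
      · convert h1 (s c) (dim c) using 1
        exact Set.ext fun z => and_congr_right fun _ =>
          ⟨fun h => h c Face.rfl, fun h c' hc' => by rwa [e c' hc']⟩
      · push Not at e
        obtain ⟨c', h3, h4⟩ := e
        convert h2 (dim c) (lt_of_le_of_ne (hc ▸ dim_le c) fun h => h4 (by
          rw [h3.dim_le.2 (le_antisymm h3.dim_le.1 ((dim_le c').trans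
            (by rw [← h3.length_eq, hc, h])))])) using 1
        refine Set.ext fun z => and_congr_right fun _ => ⟨fun h => ?_, fun h c₂ _ h' => h ?_⟩
        · have a1 := h c Face.rfl
          have a2 := h c' h3
          rw [mem_union, not_or]
          revert h4 a1 a2
          cases s c <;> cases s c' <;> simp +contextual
        · revert h'
          cases s c₂
          exacts [Or.inl, Or.inr]
  refine ⟨F', f1, fun t => ?_, fun t ht => ?_⟩
  · obtain ⟨c, -, -, -, h, -⟩ := f2 t
    refine ⟨h.1, fun h' => h.2 c Face.rfl ?_⟩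
    cases s c
    exacts [h'.1, h'.2]
  · obtain ⟨c, -, -, h3, -, h⟩ := f2 t
    refine h fun f hf => ?_
    have hb : ∀ u, q f u ∈ Cube.boundary (Fin L) := fun u => OnB.sc
      (fun _ h => (List.eq_of_mem_replicate h).symm ▸ hM) ((h3 ht).face hf) [] (by simp) u
    refine good_par (hF.comp_continuous (f := q f) (by fun_prop) hb) fun u =>
      ⟨(hY _ (hb u)).1, fun c' hc' => ?_⟩
    obtain ⟨u', hu⟩ := hc'.par u
    have := hb u
    simp only [q, hu] at this
    rw [hu]
    exact key c' u' this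

variable {X : Type} [MetricSpace X]

theorem miss_cube {o : X} {r : ℝ} (hr : 0 < r) {L : ℕ} (h : ∀ j ≤ L, Fill (closedBall o r \ {o}) j)
    {F : (Fin L → I) → X} (hF : Continuous F) :
    ∃ F' : (Fin L → I) → X, Continuous F' ∧ ∀ t, dist (F' t) (F t) < 2 * r ∧ F' t ≠ o := by
  obtain ⟨δ, hδ, hd⟩ := Metric.uniformContinuous_iff.1
    (CompactSpace.uniformContinuous_of_continuous hF) _ (half_pos hr)
  obtain ⟨M, hM, hs⟩ := exists_fine hδ L
  obtain ⟨F', f1, f2⟩ := cube_ext hM (fun _ => closedBall o r \ {o}) (fun _ _ _ => subset_rfl) F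
    fun c hc => h _ (hc ▸ dim_le c)
  refine ⟨fun t => if dist (F t) o ≤ r / 2 then F' t else F t, continuous_if_le (by fun_prop)
    continuous_const f1.continuousOn hF.continuousOn fun t ht => ?_, fun t => ?_⟩
  · obtain ⟨c, u, h1, -, -, h2⟩ := f2 t
    refine h2 fun f hf => good_par (by fun_prop) fun u' => ?_
    obtain ⟨v, hv⟩ := hf.par u'
    have := hd (hs c v u)
    rw [h1, ← hv] at this
    refine ⟨mem_closedBall.2 ?_, fun e => ?_⟩
    · exact (dist_triangle _ (F t) o).trans (by rw [comp_apply]; linarith)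
    · rw [show F _ = o from e, dist_comm] at this
      linarith
  · obtain ⟨c, -, -, -, h1, -⟩ := f2 t
    beta_reduce
    split_ifs with e
    · exact ⟨by linarith [mem_closedBall.1 h1.1, dist_triangle_right (F' t) (F t) o], h1.2⟩
    · exact ⟨by simpa using hr, dist_pos.1 (by linarith)⟩

theorem hs_of_fill {o : X} (h : ∀ ξ > 0, ∃ r > 0, r ≤ ξ ∧ ∀ j ≤ 4, Fill (closedBall o r \ {o}) j) :
    HS o := by
  intro f hf ξ hξ
  obtain ⟨r, hr, h1, h2⟩ := h _ (half_pos hξ)
  obtain ⟨ι, i1, i2⟩ := exists_retr_Q4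
  obtain ⟨F, f1, f2⟩ := miss_cube hr h2 (F := fun t => f (ι fun i => 2 * (t i : ℝ) - 1)) (by fun_prop)
  have : ∀ i, Continuous fun z : Q4 => z.1 i := fun i =>
    (continuous_apply i).comp continuous_subtype_val
  refine ⟨fun z => F fun i => pI ((z.1 i + 1) / 2), f1.comp (continuous_pi fun i =>
    continuous_pI.comp (((this i).add continuous_const).div_const _)), fun z => ⟨?_, (f2 _).2⟩⟩
  have e : (fun i => 2 * (pI ((z.1 i + 1) / 2) : ℝ) - 1) = z.1 := funext fun i => by
    have := abs_le.1 (Q4_abs z i)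
    rw [pI_coe (by linarith) (by linarith)]
    ring
  have := (f2 fun i => pI ((z.1 i + 1) / 2)).1
  rw [e, i2] at this
  linarith

namespace Loc

variable [ProperSpace X] {o : X} {R : ℝ} (L : Loc o R) {r : ℝ}
include L

theorem of_kap (hr : 0 < r) (hR : 8 * r ≤ R) {b w : X} (hb : dist o b = 2 * r)
    (hw : w ∈ closedBall o (2 * r)) (h : dist o (kap o r w) + dist (kap o r w) b = 2 * r) :
    dist o w + dist w b = 2 * r := by
  obtain ⟨h1, h2⟩ := L.kap_spec hr (cb hw (by linarith))
  rw [mem_closedBall'] at hw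
  rcases le_total (dist o w) r with e | e
  · rwa [kap_of_le hr (mem_closedBall'.2 e)] at h
  rw [min_eq_left e] at h1
  rcases L.same_ray (dist_pos.1 (by linarith)) h2 (h.trans hb.symm) with h3 | h3 <;>
    linarith [dist_comm b w, dist_nonneg (x := b) (y := w)]

theorem fill_star (hr : 0 < r) (hR : 8 * r ≤ R) {b b' : X} (hb : dist o b = 2 * r)
    (hb' : dist o b' = 2 * r) (hd : dist b b' = 4 * r) (j : ℕ) :
    Fill (closedBall o r \ {w | dist o w + dist w b = 2 * r}) j := by
  obtain ⟨a, a1, a2⟩ := L.btw o b' hr.le (by linarith)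
  have a3 : dist a b = 3 * r := by
    linarith [dist_triangle_right b b' a, dist_triangle_left a b o, dist_comm a b, dist_comm a b']
  have ha : a ∈ closedBall o r := mem_closedBall'.2 a1.le
  refine (L.cv hr hR).fill sdiff_subset (a := a) ⟨ha, fun h => ?_⟩ (fun x hx s => ⟨(L.cv hr hR).mem
    _ ha _ hx.1 s, fun h => hx.2 ?_⟩) j
  · rw [mem_ofPred_eq] at h
    linarith
  have h1 := L.of_kap hr hR hb (L.geo_cb hr hR ha hx.1 s) h
  obtain ⟨g1, g2⟩ := L.geo_spec2 (cb ha (by linarith)) (cb hx.1 (by linarith)) s.2.1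
    (s.2.2.trans one_le_two)
  rw [abs_of_nonneg (sub_nonneg.2 s.2.2)] at g2
  generalize geo a x s = w at *
  have h2 := mem_closedBall'.1 hx.1
  have h3 := dist_triangle a w b
  have h4 := dist_triangle_left a w o
  have h5 := dist_triangle_left a x o
  rw [mem_ofPred_eq]
  rcases L.same_ray (x := a) (y := w) (p := x) (q := b)
    (dist_pos.1 (by linarith [dist_nonneg (x := o) (y := w)])) (by linarith [dist_comm w x])
    (by linarith) with h6 | h6
  · linarith [dist_triangle o w x, dist_triangle o x b]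
  · linarith [dist_nonneg (x := b) (y := x), dist_comm w x]

theorem par_line (hr : 0 < r) (hR : 8 * r ≤ R) {b b' : X} (hb : dist o b = 2 * r)
    (hb' : dist o b' = 2 * r) (hd : dist b b' = 4 * r) :
    Par o r ({w | dist o w + dist w b = 2 * r} ∪ {w | dist o w + dist w b' = 2 * r}) 1 := by
  have m1 : b ∈ ball o R := mem_ball'.2 (by linarith)
  have m2 : b' ∈ ball o R := mem_ball'.2 (by linarith)
  have m3 : b ≠ b' := dist_pos.1 (by linarith)
  have m4 : ∀ u, 0 ≤ 4 * r * cl u ∧ 4 * r * cl u ≤ 4 * r := fun u =>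
    ⟨mul_nonneg (by linarith) (cl_nonneg u), mul_le_of_le_one_right (by linarith) (cl_le_one u)⟩
  have m5 : ∀ w, dist b w + dist b' w = 4 * r → w = ray b b' (dist b w) := fun w h =>
    L.eq_ray m1 m2 m3 rfl (by
      rw [abs_of_nonneg (by linarith [dist_nonneg (x := b') (y := w)])]
      linarith)
  refine ⟨(isClosed_eq (by fun_prop) continuous_const).union
    (isClosed_eq (by fun_prop) continuous_const), fun u => ray b b' (4 * r * cl (u 0)),
    fun w _ => dist b w / (4 * r), continuousOn_univ.1 (L.continuous_ray continuousOn_const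
      continuousOn_const (by fun_prop) fun u _ => ⟨m1, m2, m3, (m4 _).1, by linarith [(m4 (u 0)).2]⟩),
    by fun_prop, fun u => ?_, fun w hw h => ?_⟩
  · rw [mem_closedBall, m5 o (by linarith [dist_comm o b, dist_comm o b']), dist_comm b o, hb,
      L.dist_ray m1 m2 m3 (m4 _).1 (by linarith [(m4 (u 0)).2]) (by linarith) (by linarith), abs_le]
    constructor <;> linarith [m4 (u 0)]
  · have e : dist b w + dist b' w = 4 * r := by
      have := dist_triangle_right b b' w
      rcases h with h | h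
      · linarith [L.of_kap hr hR hb hw h, dist_triangle_left b' w o, dist_comm b w]
      · linarith [L.of_kap hr hR hb' hw h, dist_triangle_left b w o, dist_comm b' w]
    beta_reduce
    rw [cl_of_mem (by positivity) ((div_le_one (by linarith)).2
      (by linarith [dist_nonneg (x := b') (y := w)])), mul_div_cancel₀ _ (by linarith), ← m5 w e]

theorem fill_all (hr : 0 < r) (hR : 8 * r ≤ R) {n : ℕ} (hn : Cd X n)
    (hu : ∀ ρ > 0, ¬Uns 5 (closedBall o ρ)) : ∀ j ≤ 4, Fill (closedBall o r \ {o}) j := by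
  have ho : o ∈ ball o R := mem_ball_self L.pos
  have f0 := fill_zero (L.nonempty hr hR hn hu (L.par_point hr hR) (by simp))
  have f1 := L.fill_one hr hR hn hu (L.par_point hr hR) (by simp)
  have f2 : Fill (closedBall o r \ {o}) 2 := by
    obtain ⟨y, hy⟩ := L.exists_sphere hr hR hn hu
    obtain ⟨b, hb⟩ : ∃ b, dist o b = 2 * r := ⟨_, (L.ray_spec ho (mem_ball'.2 (by linarith))
      (dist_pos.1 (hy ▸ hr)) (by linarith) (by linarith)).1⟩
    obtain ⟨b', g1, g2⟩ := L.exists_geo (x := b) (mem_ball'.2 (by linarith)) ho zero_le_two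
      (by rw [dist_comm]; linarith)
    rw [dist_comm b o, hb] at g1 g2
    norm_num at g2
    have P := L.par_line hr hR hb g2 (by linarith)
    convert fill_union (B := closedBall o r) (L := 2)
      (C := fun i => {w | dist o w + dist w (if i then b' else b) = 2 * r})
      (fun _ => isClosed_eq (by fun_prop) continuous_const) (fun i j => ?_) fun j hj => ?_ using 2
    · refine Set.ext fun w => ⟨by rintro rfl; simp [hb, g2], fun ⟨h1, h2⟩ => ?_⟩
      simp only [mem_ofPred_eq, if_true, Bool.false_eq_true, if_false] at h1 h2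
      exact dist_le_zero.1 (by linarith [dist_triangle_left b b' w, dist_comm o w])
    · cases i
      exacts [L.fill_star hr hR hb g2 (by linarith) j,
        L.fill_star hr hR g2 hb (by rw [dist_comm]; linarith) j]
    · interval_cases j
      exacts [fill_zero (L.nonempty hr hR hn hu P (by simp)), L.fill_one hr hR hn hu P (by simp)]
  have f3 := L.fill_succ hr hR hn hu (k := 0) (by simp) fun j hj => by
    interval_cases j
    exacts [f0, f1, f2]
  have f4 := L.fill_succ hr hR hn hu (k := 1) (by simp) fun j hj => by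
    interval_cases j
    exacts [f0, f1, f2, f3]
  intro j hj
  interval_cases j
  exacts [f0, f1, f2, f3, f4]

theorem uns_refl {j : ℕ} {z : X} (hz : z ∈ ball o R) {ρ : ℝ} (hρ : 0 < ρ)
    (h : Uns j (closedBall z ρ)) : ∃ ρ > 0, Uns j (closedBall o ρ) := by
  have ho : o ∈ ball o R := mem_ball_self L.pos
  obtain ⟨g1, g2⟩ := (L.geo_spec2 ho hz (s := 2⁻¹) (by norm_num) (by norm_num)).half
  generalize geo o z 2⁻¹ = m at g1 g2
  have hm : m ∈ ball o R := by
    have := g2.2
    norm_num at this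
    rw [mem_ball, this, g1]
    linarith [mem_ball'.1 hz, L.pos]
  have c : ContinuousOn (fun w => geo w m 2) (ball o R) := L.continuous_geo continuousOn_id
    continuousOn_const continuousOn_const fun w hw => ⟨hw, hm, zero_le_two, le_rfl⟩
  obtain ⟨ε, h1, h2⟩ := nhds_basis_closedBall.mem_iff.1 (isOpen_ball.mem_nhds hz)
  have e : geo o m 2 = z := L.geo_unique ho hm (geo_of_exists ⟨_, g2.two⟩) g2.two
  obtain ⟨η, h3, h4⟩ := nhds_basis_closedBall.mem_iff.1 (inter_mem (isOpen_ball.mem_nhds ho)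
    ((c.continuousAt (isOpen_ball.mem_nhds ho)).preimage_mem_nhds
      (closedBall_mem_nhds _ (lt_min hρ h1))))
  rw [e] at h4
  have s1 := closedBall_subset_closedBall (x := z) (min_le_left ρ ε)
  have s2 := (closedBall_subset_closedBall (x := z) (min_le_right ρ ε)).trans h2
  refine ⟨η, h3, (h.mono s1).transfer isClosed_closedBall (c.mono fun x hx => (h4 hx).1)
    (c.mono s2) (fun x hx => (h4 hx).2) fun x hx => ?_⟩
  have := (L.geo_spec2 (h4 hx).1 hm zero_le_two le_rfl).two
  exact L.geo_unique (s2 (h4 hx).2) hm (geo_of_exists ⟨_, this⟩) this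

end Loc

theorem not_uns [ProperSpace X] (hL : ∀ o : X, ∃ R, Loc o R) {n : ℕ} (h : ¬Cd X n) (o : X) :
    ∀ ρ > 0, ¬Uns (n + 1) (closedBall o ρ) := by
  intro ρ hρ hu
  let A := {x : X | ∃ ρ > 0, Uns (n + 1) (closedBall x ρ)}
  have hA : IsOpen A := Metric.isOpen_iff.2 fun x ⟨ρ, h1, h2⟩ => ⟨ρ / 2, half_pos h1, fun y hy =>
    ⟨ρ / 2, half_pos h1, h2.mono (closedBall_subset_closedBall' (by linarith [mem_ball.1 hy]))⟩⟩
  obtain ⟨y, h1, h2⟩ := hA.isClosed_compl.exists_infDist_eq_dist
    (not_forall.1 fun h' => h (cd_of_uns h')) o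
  obtain ⟨R, L⟩ := hL y
  have h3 : 0 < dist y o := dist_pos.2 fun e => h1 (e ▸ ⟨ρ, hρ, hu⟩)
  have h4 := L.pos
  obtain ⟨z, z1, z2⟩ := L.btw y o (t := min (dist y o) (R / 2)) (by positivity) (min_le_left _ _)
  obtain ⟨ρ', h5, h6⟩ : z ∈ A := not_not.1 (notMem_of_dist_lt_infDist (x := o) (by
    rw [h2, dist_comm o z, dist_comm o y, z2]
    linarith [lt_min h3 (half_pos h4)]))
  exact h1 (L.uns_refl (mem_ball'.2 (by linarith [min_le_right (dist y o) (R / 2)])) h5 h6)

theorem hs_of_dim [ProperSpace X] (hL : ∀ o : X, ∃ R, Loc o R) {n : ℕ} (hn : Cd X n) (h : ¬Cd X 4)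
    (o : X) : HS o := by
  obtain ⟨R, L⟩ := hL o
  have := L.pos
  exact hs_of_fill fun ξ hξ => ⟨min ξ (R / 8), by positivity, min_le_left _ _, L.fill_all
    (by positivity) (by linarith [min_le_right ξ (R / 8)]) hn (not_uns hL h o)⟩

end Pool.Agent.P.MP_07c576_gt
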