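import Pool.Agent.P.MP_07c576_gt.Cube

/-! Singular cubes and the obstruction cochain. -/

set_option linter.unusedSectionVars false

namespace Pool.Agent.P.MP_07c576_gt

open Set Metric Topology Filter unitInterval Function

variable {Z : Type} [TopologicalSpace Z] {Y : Set Z} {J : Finset ℕ}

/-- Projection to the coordinates in `J`. -/
def pj (J : Finset ℕ) (x : ℕ → I) : ℕ → I := fun i => if i ∈ J then x i else 0

/-- Projection to a face. -/
def up (i : ℕ) (b : Bool) (x : ℕ → I) : ℕ → I := update x i (bI b)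

@[fun_prop] theorem continuous_pj (J : Finset ℕ) : Continuous (pj J) :=
  continuous_pi fun i => by unfold pj; split_ifs <;> fun_prop

@[fun_prop] theorem continuous_up (i : ℕ) (b : Bool) : Continuous (up i b) := by
  unfold up; fun_prop

@[simp] theorem up_self (i : ℕ) (b : Bool) (x : ℕ → I) : up i b x i = bI b := update_self ..

theorem up_of_ne {i k : ℕ} (h : k ≠ i) (b : Bool) (x : ℕ → I) : up i b x k = x k :=
  update_of_ne h ..

theorem up_eq {i : ℕ} {b : Bool} {x : ℕ → I} (h : x i = bI b) : up i b x = x :=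
  update_eq_self_iff.2 h.symm

theorem up_comm {i k : ℕ} (h : i ≠ k) (b b' : Bool) : up i b ∘ up k b' = up k b' ∘ up i b :=
  funext fun x => update_comm h.symm _ _ x

theorem up_mem {i : ℕ} (hi : i ∈ J) (b : Bool) (x : ℕ → I) : up i b x ∈ bd J :=
  ⟨i, hi, b, up_self ..⟩

theorem pj_congr {x x' : ℕ → I} (h : ∀ i ∈ J, x i = x' i) : pj J x = pj J x' :=
  funext fun i => by unfold pj; split_ifs with h'; exacts [h i h', rfl]

theorem pj_mem {i : ℕ} (hi : i ∈ J) (x : ℕ → I) : pj J x i = x i := if_pos hi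

theorem bd_congr {x x' : ℕ → I} (h : ∀ i ∈ J, x i = x' i) (hx : x ∈ bd J) : x' ∈ bd J :=
  let ⟨i, hi, b, hb⟩ := hx
  ⟨i, hi, b, (h i hi).symm.trans hb⟩

/-- A cube in `Y` with directions `J`. -/
structure Good (Y : Set Z) (J : Finset ℕ) (T : (ℕ → I) → Z) : Prop where
  cont : Continuous T
  mem : ∀ x, T x ∈ Y
  dep : ∀ x x', (∀ i ∈ J, x i = x' i) → T x = T x'

theorem Good.face {T : (ℕ → I) → Z} (h : Good Y J T) (i : ℕ) (b : Bool) :
    Good Y (J.erase i) (T ∘ up i b) :=
  ⟨h.cont.comp (continuous_up i b), fun _ => h.mem _, fun x x' hx => h.dep _ _ fun k hk => by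
    by_cases e : k = i
    · simp [e]
    · rw [up_of_ne e, up_of_ne e, hx k (Finset.mem_erase.2 ⟨e, hk⟩)]⟩

theorem Good.mono {T : (ℕ → I) → Z} (h : Good Y J T) {Y' : Set Z} (hY : Y ⊆ Y') {J' : Finset ℕ}
    (hJ : J ⊆ J') : Good Y' J' T :=
  ⟨h.cont, fun x => hY (h.mem x), fun x x' hx => h.dep x x' fun i hi => hx i (hJ hi)⟩

theorem good_const {y : Z} (hy : y ∈ Y) : Good Y J fun _ => y :=
  ⟨continuous_const, fun _ => hy, fun _ _ _ => rfl⟩

/-- All faces of `T` are cubes in `Y`. -/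
def GB (Y : Set Z) (J : Finset ℕ) (T : (ℕ → I) → Z) : Prop :=
  ∀ i ∈ J, ∀ b, Good Y (J.erase i) (T ∘ up i b)

/-- The boundary of `T` can be filled. -/
def Fl (Y : Set Z) (J : Finset ℕ) (T : (ℕ → I) → Z) : Prop :=
  ∃ T', Good Y J T' ∧ ∀ x ∈ bd J, T' x = T x

/-- Maps from the boundary of the `j`-cube to `Y` extend to the cube. -/
def Fill (Y : Set Z) (j : ℕ) : Prop := ∀ F : (Fin j → I) → Z,
  ContinuousOn F (Cube.boundary (Fin j)) → (∀ t ∈ Cube.boundary (Fin j), F t ∈ Y) →
    ∃ F' : (Fin j → I) → Z, Continuous F' ∧ (∀ t, F' t ∈ Y) ∧ ∀ t ∈ Cube.boundary (Fin j), F' t = F t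

theorem Good.gb {T : (ℕ → I) → Z} (h : Good Y J T) : GB Y J T := fun i _ b => h.face i b

theorem GB.mem {T : (ℕ → I) → Z} (h : GB Y J T) {x : ℕ → I} (hx : x ∈ bd J) : T x ∈ Y := by
  obtain ⟨i, hi, b, hb⟩ := hx
  rw [← up_eq hb]
  exact (h i hi b).mem x

theorem GB.dep {T : (ℕ → I) → Z} (h : GB Y J T) {x x' : ℕ → I} (hx : x ∈ bd J)
    (e : ∀ i ∈ J, x i = x' i) : T x = T x' := by
  obtain ⟨i, hi, b, hb⟩ := hx
  rw [← up_eq hb, ← up_eq ((e i hi).symm.trans hb)]
  exact (h i hi b).dep _ _ fun k hk => e k (Finset.mem_erase.1 hk).2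

theorem glue_faces {P : Type} [TopologicalSpace P] (z₀ : Z) {f : ℕ → Bool → (ℕ → I) × P → Z}
    (hf : ∀ i ∈ J, ∀ b, Continuous (f i b))
    (h : ∀ i ∈ J, ∀ k ∈ J, i ≠ k → ∀ b b' x t, f i b (up k b' x, t) = f k b' (up i b x, t)) :
    ∃ F : (ℕ → I) × P → Z, ContinuousOn F {p | p.1 ∈ bd J} ∧
      ∀ i ∈ J, ∀ b p, p.1 i = bI b → F p = f i b p := by
  obtain ⟨F, hF, hF'⟩ := exists_glue z₀
    (fun i : J × Bool => {q : (ℕ → I) × P | q.1 i.1 = bI i.2})
    (fun i => isClosed_eq (by fun_prop) continuous_const) (fun i => f i.1 i.2)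
    (fun i => (hf _ i.1.2 _).continuousOn) (by
      rintro ⟨i, b⟩ ⟨k, b'⟩ ⟨x, t⟩ h1 h2
      by_cases e : i = k
      · subst e
        obtain rfl : b = b' := bI_inj (h1.symm.trans h2)
        rfl
      · have := h i i.2 k k.2 (fun e' => e (Subtype.ext e')) b b' x t
        rwa [up_eq h1, up_eq h2] at this)
  exact ⟨F, hF.mono fun q ⟨i, hi, b, hb⟩ => mem_iUnion.2 ⟨(⟨i, hi⟩, b), hb⟩,
    fun i hi b p hp => hF' (⟨i, hi⟩, b) p hp⟩

theorem GB.cont {T : (ℕ → I) → Z} (h : GB Y J T) : ContinuousOn T (bd J) := by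
  obtain ⟨F, hF, hF'⟩ := glue_faces (J := J) (P := Unit) (T 0) (f := fun i b p => T (up i b p.1))
    (fun i hi b => (h i hi b).cont.comp continuous_fst)
    fun i hi k hk e b b' x _ => congrArg T (congrFun (up_comm e b b') x)
  refine ContinuousOn.congr (f := fun x => F (x, ())) (hF.comp (by fun_prop) fun x hx => hx) ?_
  rintro x ⟨i, hi, b, hb⟩
  change T x = F (x, ())
  rw [hF' i hi b _ hb, up_eq hb]

theorem GB.fl {T : (ℕ → I) → Z} (h : GB Y J T) {T' : (ℕ → I) → Z} (hT : Continuous T')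
    (hY : ∀ x, T' x ∈ Y) (e : ∀ x ∈ bd J, T' (pj J x) = T (pj J x)) : Fl Y J T :=
  ⟨T' ∘ pj J, ⟨hT.comp (continuous_pj J), fun _ => hY _, fun _ _ hx => congrArg T' (pj_congr hx)⟩,
    fun x hx => (e x hx).trans (h.dep hx fun _ hi => (pj_mem hi x).symm).symm⟩

theorem pj_bd {x : ℕ → I} (hx : x ∈ bd J) : pj J x ∈ bd J :=
  bd_congr (fun _ hi => (pj_mem hi x).symm) hx

/-- Extension by zero along an enumeration. -/
noncomputable def ex {n : ℕ} (e : Fin n → ℕ) (t : Fin n → I) : ℕ → I := extend e t 0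

theorem ex_apply {n : ℕ} {e : Fin n → ℕ} (he : Injective e) (t : Fin n → I) (p : Fin n) :
    ex e t (e p) = t p := he.extend_apply ..

theorem ex_of_ne {n : ℕ} {e : Fin n → ℕ} (t : Fin n → I) {i : ℕ} (h : ∀ p, e p ≠ i) :
    ex e t i = 0 := extend_apply' _ _ _ fun ⟨p, hp⟩ => h p hp

@[fun_prop] theorem continuous_ex {n : ℕ} (e : Fin n → ℕ) : Continuous (ex e) :=
  continuous_pi fun i => by
    simp only [ex, extend_def]
    split_ifs <;> fun_prop

theorem exists_enum {n : ℕ} (h : J.card = n) {i : ℕ} (hi : i ∈ J) :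
    ∃ p, J.orderEmbOfFin h p = i := by
  have := J.range_orderEmbOfFin h
  exact (this.ge hi : i ∈ range _)

theorem ex_comp {n : ℕ} (h : J.card = n) (x : ℕ → I) :
    ex (J.orderEmbOfFin h) (x ∘ J.orderEmbOfFin h) = pj J x := by
  funext i
  by_cases hi : i ∈ J
  · obtain ⟨p, rfl⟩ := exists_enum h hi
    rw [ex_apply (J.orderEmbOfFin h).injective, pj_mem hi, comp_apply]
  · rw [ex_of_ne _ fun p hp => hi (by rw [← hp]; exact J.orderEmbOfFin_mem h p), pj, if_neg hi]

theorem ex_mem_bd {n : ℕ} (h : J.card = n) {t : Fin n → I} (ht : t ∈ Cube.boundary (Fin n)) :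
    ex (J.orderEmbOfFin h) t ∈ bd J := by
  obtain ⟨p, -, b, hb⟩ := (bd_univ (ι := Fin n)).ge ht
  exact ⟨_, J.orderEmbOfFin_mem h p, b, by rw [ex_apply (J.orderEmbOfFin h).injective, hb]⟩

theorem comp_mem_bd {n : ℕ} (h : J.card = n) {x : ℕ → I} (hx : x ∈ bd J) :
    x ∘ J.orderEmbOfFin h ∈ Cube.boundary (Fin n) := by
  obtain ⟨i, hi, b, hb⟩ := hx
  obtain ⟨p, rfl⟩ := exists_enum h hi
  exact ⟨p, by rw [comp_apply, hb]; exact bI_or b⟩

theorem Fill.ext (h : Fill Y J.card) {F : (ℕ → I) → Z} (hF : ContinuousOn F (bd J))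
    (hY : ∀ x ∈ bd J, F x ∈ Y) : ∃ T : (ℕ → I) → Z, Continuous T ∧ (∀ x, T x ∈ Y) ∧
      ∀ x ∈ bd J, T x = F (pj J x) := by
  obtain ⟨F', h1, h2, h3⟩ := h (F ∘ ex (J.orderEmbOfFin rfl))
    (hF.comp (continuous_ex _).continuousOn fun t ht => ex_mem_bd rfl ht)
    fun t ht => hY _ (ex_mem_bd rfl ht)
  exact ⟨fun x => F' (x ∘ J.orderEmbOfFin rfl), h1.comp (by fun_prop), fun _ => h2 _,
    fun x hx => by beta_reduce; rw [h3 _ (comp_mem_bd rfl hx), comp_apply, ex_comp]⟩

theorem Fill.fl (h : Fill Y J.card) {T : (ℕ → I) → Z} (hT : GB Y J T) : Fl Y J T := by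
  obtain ⟨T', h1, h2, h3⟩ := h.ext hT.cont fun x hx => hT.mem hx
  exact hT.fl h1 h2 fun x hx => by rw [h3 _ (pj_bd hx), pj_congr fun k hk => pj_mem hk _]

theorem fill_of_fl {j : ℕ} (h : ∀ T, GB Y (Finset.range j) T → Fl Y (Finset.range j) T) :
    Fill Y j := by
  intro F hF hY
  have hb : ∀ i ∈ Finset.range j, ∀ b x, (fun p : Fin j => up i b x p) ∈ Cube.boundary (Fin j) :=
    fun i hi b x => ⟨⟨i, Finset.mem_range.1 hi⟩, by simpa using bI_or b⟩
  obtain ⟨T, hT, hT'⟩ := h (fun x => F fun p : Fin j => x p)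
    fun i hi b => ⟨hF.comp_continuous (by fun_prop) (hb i hi b), fun x => hY _ (hb i hi b x),
      fun x x' hx => congrArg F (funext fun p => by
        by_cases e : (p : ℕ) = i
        · simp [e]
        · rw [up_of_ne e, up_of_ne e, hx p (by simp [e])])⟩
  refine ⟨T ∘ ex Fin.val, hT.cont.comp (continuous_ex _), fun _ => hT.mem _, fun t ht => ?_⟩
  obtain ⟨p, -, b, hb⟩ := (bd_univ (ι := Fin j)).ge ht
  rw [comp_apply, hT' _ ⟨p, by simp, b, by rw [ex_apply Fin.val_injective, hb]⟩]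
  exact congrArg F (funext fun q => ex_apply Fin.val_injective t q)

theorem Fill.prod (hF : Fill Y (J.card + 1)) {T₀ T₁ : (ℕ → I) → Z} (g₀ : Good Y J T₀)
    (g₁ : Good Y J T₁) {H : (ℕ → I) × I → Z} (hH : ContinuousOn H {p | p.1 ∈ bd J})
    (hY : ∀ p, p.1 ∈ bd J → H p ∈ Y) (h₀ : ∀ x ∈ bd J, H (x, 0) = T₀ x)
    (h₁ : ∀ x ∈ bd J, H (x, 1) = T₁ x)
    (hd : ∀ x ∈ bd J, ∀ x' t, (∀ i ∈ J, x i = x' i) → H (x, t) = H (x', t)) :
    ∃ K : (ℕ → I) × I → Z, Continuous K ∧ (∀ p, K p ∈ Y) ∧ (∀ x, K (x, 0) = T₀ x) ∧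
      (∀ p, p.1 ∈ bd J → K p = H p) ∧ ∀ x, K (x, 1) = T₁ x := by
  obtain ⟨k, hk⟩ := Infinite.exists_notMem_finset J
  obtain ⟨F, h1, h2⟩ := exists_glue (T₀ 0)
    (fun o : Option Bool => o.elim (bd J) fun b => {x | x k = bI b})
    (fun o => by
      cases o
      · exact isClosed_bd J
      · exact isClosed_eq (by fun_prop) continuous_const)
    (fun o x => o.elim (H (x, x k)) fun b => if b then T₁ x else T₀ x)
    (by
      rintro (_ | _ | _)
      · exact hH.comp (by fun_prop) fun x hx => hx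
      · exact g₀.cont.continuousOn
      · exact g₁.cont.continuousOn)
    (by
      rintro (_ | _ | _) (_ | _ | _) x e1 e2
      · rfl
      · exact (congrArg (fun s => H (x, s)) e2).trans (h₀ x e1)
      · exact (congrArg (fun s => H (x, s)) e2).trans (h₁ x e1)
      · exact ((congrArg (fun s => H (x, s)) e1).trans (h₀ x e2)).symm
      · rfl
      · exact absurd (bI_inj (e1.symm.trans e2)) (by simp)
      · exact ((congrArg (fun s => H (x, s)) e1).trans (h₁ x e2)).symm
      · exact absurd (bI_inj (e1.symm.trans e2)) (by simp)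
      · rfl)
  have hs : ∀ x ∈ bd (insert k J), x ∈ bd J ∨ ∃ b, x k = bI b := by
    rintro x ⟨i, hi, b, hb⟩
    rcases Finset.mem_insert.1 hi with rfl | hi
    · exact Or.inr ⟨b, hb⟩
    · exact Or.inl ⟨i, hi, b, hb⟩
  obtain ⟨T, t1, t2, t3⟩ := Fill.ext (J := insert k J) (by rwa [Finset.card_insert_of_notMem hk])
    (h1.mono fun x hx => (hs x hx).elim (fun h => mem_iUnion.2 ⟨none, h⟩)
      fun ⟨b, h⟩ => mem_iUnion.2 ⟨some b, h⟩) (fun x hx => by
      rcases hs x hx with h | ⟨b, h⟩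
      · rw [h2 none x h]; exact hY _ h
      · rw [h2 (some b) x h]
        cases b
        exacts [g₀.mem x, g₁.mem x])
  have e1 : ∀ x t, pj (insert k J) (update x k t) k = t := fun x t => by
    rw [pj_mem (Finset.mem_insert_self ..), update_self]
  have e2 : ∀ x t, ∀ i ∈ J, pj (insert k J) (update x k t) i = x i := fun x t i hi => by
    rw [pj_mem (Finset.mem_insert_of_mem hi), update_of_ne (by rintro rfl; exact hk hi)]
  refine ⟨fun p => T (update p.1 k p.2), t1.comp (by fun_prop), fun _ => t2 _, fun x => ?_,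
    fun p hp => ?_, fun x => ?_⟩
  · beta_reduce
    rw [t3 _ ⟨k, by simp, false, by simp⟩, h2 (some false) (pj _ (update x k 0)) (e1 x 0)]
    exact g₀.dep _ _ (e2 _ _)
  · have e3 := bd_congr (fun i hi => (e2 p.1 p.2 i hi).symm) hp
    obtain ⟨i, hi, b, hb⟩ := hp
    beta_reduce
    rw [t3 _ ⟨i, by simp [hi], b, by rwa [update_of_ne (by rintro rfl; exact hk hi)]⟩,
      h2 none _ e3]
    change H (_, _) = _
    rw [e1]
    exact hd _ e3 _ _ (e2 _ _)
  · beta_reduce
    rw [t3 _ ⟨k, by simp, true, by simp⟩, h2 (some true) (pj _ (update x k 1)) (e1 x 1)]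
    exact g₁.dep _ _ (e2 _ _)

/-- Homotopies that move the low-dimensional faces of all cubes to the base point. -/
structure NSpec (Y : Set Z) (y : Z) (m : ℕ) (H : ((ℕ → I) → Z) → Finset ℕ → (ℕ → I) × I → Z)
    (T : (ℕ → I) → Z) (J : Finset ℕ) (K : (ℕ → I) × I → Z) : Prop where
  cont : Continuous K
  mem : ∀ p, K p ∈ Y
  dep : ∀ x x' t, (∀ i ∈ J, x i = x' i) → K (x, t) = K (x', t)
  zero : ∀ x, K (x, 0) = T x
  one : J.card < m → ∀ x, K (x, 1) = y
  face : ∀ i ∈ J, ∀ b x t, K (up i b x, t) = H (T ∘ up i b) (J.erase i) (x, t)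
  stat : (∀ x, J.card < m ∨ x ∈ bd J → T x = y) → ∀ x t, K (x, t) = T x
  deg : ∀ i ∈ J, Good Y (J.erase i) T → K = H T (J.erase i)

theorem NSpec.glue {y : Z} {m : ℕ} {H : ((ℕ → I) → Z) → Finset ℕ → (ℕ → I) × I → Z}
    {T : (ℕ → I) → Z}
    (h : ∀ i ∈ J, ∀ b, NSpec Y y m H (T ∘ up i b) (J.erase i) (H (T ∘ up i b) (J.erase i))) :
    ∃ F : (ℕ → I) × I → Z, ContinuousOn F {p | p.1 ∈ bd J} ∧ (∀ p, p.1 ∈ bd J → F p ∈ Y) ∧
      (∀ x ∈ bd J, F (x, 0) = T x) ∧
      ∀ i ∈ J, ∀ b p, p.1 i = bI b → F p = H (T ∘ up i b) (J.erase i) p := by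
  obtain ⟨F, hF, hF'⟩ := glue_faces (J := J) y (fun i hi b => (h i hi b).cont)
    fun i hi k hk e b b' x t => by
      rw [(h i hi b).face k (Finset.mem_erase.2 ⟨e.symm, hk⟩),
        (h k hk b').face i (Finset.mem_erase.2 ⟨e, hi⟩), comp_assoc, up_comm e, comp_assoc,
        Finset.erase_right_comm]
  exact ⟨F, hF, fun p ⟨i, hi, b, hb⟩ => by rw [hF' i hi b p hb]; exact (h i hi b).mem _,
    fun x ⟨i, hi, b, hb⟩ => by rw [hF' i hi b _ hb, (h i hi b).zero, comp_apply, up_eq hb], hF'⟩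

theorem Good.up_deg {T : (ℕ → I) → Z} {i : ℕ} (h : Good Y (J.erase i) T) (b : Bool) :
    T ∘ up i b = T := funext fun _ => h.dep _ _ fun _ hk => up_of_ne (Finset.mem_erase.1 hk).1 _ _

theorem Good.deg_deg {T : (ℕ → I) → Z} {i k : ℕ} (h : Good Y (J.erase i) T)
    (h' : Good Y (J.erase k) T) : Good Y ((J.erase i).erase k) T := by
  have := h.face k false
  rwa [h'.up_deg] at this

theorem exists_norm {y : Z} (hy : y ∈ Y) {m : ℕ} (hC : ∀ j ≤ m, Fill Y j) (d : ℕ) (hd : d ≤ m + 1) :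
    ∃ H, ∀ T J, J.card < d → Good Y J T → NSpec Y y m H T J (H T J) := by
  induction d with
  | zero => exact ⟨fun _ _ _ => y, fun _ _ h => absurd h (by simp)⟩
  | succ d ih =>
    obtain ⟨H, hH⟩ := ih (by omega)
    have key : ∀ T J, J.card = d → Good Y J T → ∃ K, NSpec Y y m H T J K := by
      intro T J hJ hT
      have hf := fun i (hi : i ∈ J) b => hH _ _
        (by rw [← hJ]; exact Finset.card_erase_lt_of_mem hi) (hT.face i b)
      have hlt : ∀ i ∈ J, (J.erase i).card < m := fun i hi => by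
        have := Finset.card_erase_lt_of_mem hi
        omega
      by_cases hg : ∃ i ∈ J, Good Y (J.erase i) T
      · obtain ⟨i, hi, g⟩ := hg
        have s := hH _ _ (by rw [← hJ]; exact Finset.card_erase_lt_of_mem hi) g
        refine ⟨_, s.cont, s.mem, fun x x' t e => s.dep _ _ _ fun k hk =>
          e k (Finset.mem_erase.1 hk).2, s.zero, fun _ => s.one (hlt i hi), fun k hk b x t => ?_,
          fun hs => s.stat fun x _ => ?_, fun k hk g' => ?_⟩
        · by_cases e : k = i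
          · subst e
            rw [g.up_deg]
            exact s.dep _ _ _ fun l hl => up_of_ne (Finset.mem_erase.1 hl).1 _ _
          · rw [s.face k (Finset.mem_erase.2 ⟨e, hk⟩), (hf k hk b).deg i
              (Finset.mem_erase.2 ⟨Ne.symm e, hi⟩) (by
                rw [Finset.erase_right_comm]; exact g.face k b), Finset.erase_right_comm]
        · rw [← g.up_deg false]
          exact hs _ (Or.inr (up_mem hi _ x))
        · by_cases e : k = i
          · rw [e]
          · rw [s.deg k (Finset.mem_erase.2 ⟨e, hk⟩) (g.deg_deg g'),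
              (hH _ _ (by rw [← hJ]; exact Finset.card_erase_lt_of_mem hk) g').deg i
                (Finset.mem_erase.2 ⟨Ne.symm e, hi⟩) (g'.deg_deg g), Finset.erase_right_comm]
      by_cases hs : ∀ x, J.card < m ∨ x ∈ bd J → T x = y
      · exact ⟨fun p => T p.1, hT.cont.comp continuous_fst, fun _ => hT.mem _,
          fun x x' _ => hT.dep x x', fun _ => rfl, fun h x => hs x (Or.inl h),
          fun i hi b x t => ((hf i hi b).stat (fun x _ => hs _ (Or.inr (up_mem hi b x))) x t).symm,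
          fun _ _ _ => rfl, fun i hi g => absurd ⟨i, hi, g⟩ hg⟩
      obtain ⟨F, hF, hY, h0, hF'⟩ := NSpec.glue hf
      obtain ⟨K, k1, k2, k3, k4, k5⟩ : ∃ K : (ℕ → I) × I → Z, Continuous K ∧ (∀ p, K p ∈ Y) ∧
          (∀ x, K (x, 0) = T x) ∧ (∀ p, p.1 ∈ bd J → K p = F p) ∧
          (J.card < m → ∀ x, K (x, 1) = y) := by
        by_cases h : J.card < m
        · obtain ⟨K, k1, k2, k3, k4, k5⟩ := (hC _ h).prod hT (good_const hy) hF hY h0
            (fun x ⟨i, hi, b, hb⟩ => by rw [hF' i hi b _ hb, (hf i hi b).one (hlt i hi)])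
            fun x ⟨i, hi, b, hb⟩ x' t e => by
              rw [hF' i hi b _ hb, hF' i hi b (x', t) ((e i hi).symm.trans hb)]
              exact (hf i hi b).dep _ _ _ fun k hk => e k (Finset.mem_erase.1 hk).2
          exact ⟨K, k1, k2, k3, k4, fun _ => k5⟩
        · obtain ⟨K, k1, k2, k3, k4⟩ := hep J hT.cont hT.mem hF hY h0
          exact ⟨K, k1, k2, k3, k4, fun h' => absurd h' h⟩
      refine ⟨fun p => K (pj J p.1, p.2), k1.comp (by fun_prop), fun _ => k2 _,
        fun x x' t e => by simp only [pj_congr e],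
        fun x => (k3 _).trans (hT.dep _ _ fun i hi => pj_mem hi x), fun h x => k5 h _,
        fun i hi b x t => ?_, fun h => absurd h hs, fun i hi g => absurd ⟨i, hi, g⟩ hg⟩
      have e : pj J (up i b x) i = bI b := by rw [pj_mem hi, up_self]
      change K (pj J (up i b x), t) = _
      rw [k4 (_, t) ⟨i, hi, b, e⟩, hF' i hi b (_, t) e]
      exact (hf i hi b).dep _ _ _ fun k hk => by
        rw [pj_mem (Finset.mem_erase.1 hk).2, up_of_ne (Finset.mem_erase.1 hk).1]
    have : Nonempty Z := ⟨y⟩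
    choose! K hK using key
    refine ⟨fun T J => if J.card < d then H T J else K T J, fun T J hJ hT => ?_⟩
    have aux : ∀ L, NSpec Y y m H T J L →
        NSpec Y y m (fun T J => if J.card < d then H T J else K T J) T J L := fun L h =>
      ⟨h.cont, h.mem, h.dep, h.zero, h.one, fun i hi b x t => by
        have := Finset.card_erase_lt_of_mem hi
        rw [h.face i hi, if_pos (by omega)], h.stat, fun i hi g => by
        have := Finset.card_erase_lt_of_mem hi
        rw [h.deg i hi g, if_pos (by omega)]⟩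
    beta_reduce
    split_ifs with h
    · exact aux _ (hH T J h hT)
    · exact aux _ (hK T J (by omega) hT)

/-- The coboundary of a singular cochain. -/
def dS {A : Type} [AddCommGroup A] (a : ((ℕ → I) → Z) → Finset ℕ → A) (T : (ℕ → I) → Z)
    (J : Finset ℕ) : A :=
  ∑ i ∈ J, (-1 : ℤ) ^ (J.filter (· < i)).card •
    (a (T ∘ up i true) (J.erase i) - a (T ∘ up i false) (J.erase i))

theorem card_filter_enum {n : ℕ} (h : J.card = n) (p : Fin n) :
    (J.filter (· < J.orderEmbOfFin h p)).card = p := by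
  rw [← Fin.card_Iio p, ← Finset.card_image_of_injective _ (J.orderEmbOfFin h).injective]
  congr 1
  ext i
  simp only [Finset.mem_filter, Finset.mem_image, Finset.mem_Iio]
  constructor
  · rintro ⟨h1, h2⟩
    obtain ⟨r, rfl⟩ := exists_enum h h1
    exact ⟨r, (J.orderEmbOfFin h).lt_iff_lt.1 h2, rfl⟩
  · rintro ⟨r, h1, rfl⟩
    exact ⟨J.orderEmbOfFin_mem h r, (J.orderEmbOfFin h).lt_iff_lt.2 h1⟩

theorem dS_alt {A : Type} [AddCommGroup A] (a : ((ℕ → I) → Z) → Finset ℕ → A) (T : (ℕ → I) → Z)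
    {n : ℕ} (h : J.card = n) : dS a T J = alt fun p b =>
      a (T ∘ up (J.orderEmbOfFin h p) b) (J.erase (J.orderEmbOfFin h p)) := by
  symm
  refine Finset.sum_bij (fun p _ => J.orderEmbOfFin h p) (fun p _ => J.orderEmbOfFin_mem h p)
    (fun _ _ _ _ e => (J.orderEmbOfFin h).injective e) (fun i hi => ?_) fun p _ => ?_
  · obtain ⟨p, hp⟩ := exists_enum h hi
    exact ⟨p, Finset.mem_univ _, hp⟩
  · rw [card_filter_enum]

theorem card_erase_enum {n : ℕ} (h : J.card = n + 1) (p : Fin (n + 1)) :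
    (J.erase (J.orderEmbOfFin h p)).card = n := by
  rw [Finset.card_erase_of_mem (J.orderEmbOfFin_mem h p), h, Nat.add_sub_cancel]

theorem enum_erase {n : ℕ} (h : J.card = n + 1) (p : Fin (n + 1)) (r : Fin n) :
    (J.erase (J.orderEmbOfFin h p)).orderEmbOfFin (card_erase_enum h p) r =
      J.orderEmbOfFin h (p.succAbove r) :=
  (congrFun (Finset.orderEmbOfFin_unique (card_erase_enum h p)
    (f := fun r => J.orderEmbOfFin h (p.succAbove r))
    (fun r => Finset.mem_erase.2 ⟨fun e => p.succAbove_ne r ((J.orderEmbOfFin h).injective e),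
      J.orderEmbOfFin_mem h _⟩)
    ((J.orderEmbOfFin h).strictMono.comp (Fin.strictMono_succAbove p))) r).symm

theorem dS_card {A : Type} [AddCommGroup A] {a : ((ℕ → I) → Z) → Finset ℕ → A} {m : ℕ}
    (h : ∀ T J, J.card ≠ m → a T J = 0) (T : (ℕ → I) → Z) (J : Finset ℕ) (hJ : J.card ≠ m + 1) :
    dS a T J = 0 :=
  Finset.sum_eq_zero fun i hi => by
    have : (J.erase i).card ≠ m := by
      have := Finset.card_erase_add_one hi
      omega
    rw [h _ _ this, h _ _ this, sub_self, smul_zero]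

theorem dS_deg {A : Type} [AddCommGroup A] {a : ((ℕ → I) → Z) → Finset ℕ → A}
    (h : ∀ T J i, i ∈ J → Good univ (J.erase i) T → a T J = 0) (T : (ℕ → I) → Z) (J : Finset ℕ)
    (i : ℕ) (hi : i ∈ J) (g : Good univ (J.erase i) T) : dS a T J = 0 :=
  Finset.sum_eq_zero fun j _ => by
    by_cases e : i = j
    · rw [← e, g.up_deg, g.up_deg, sub_self, smul_zero]
    · have := fun b => h _ _ i (Finset.mem_erase.2 ⟨e, hi⟩) (by
        rw [Finset.erase_right_comm]; exact g.face j b)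
      rw [this, this, sub_self, smul_zero]

open scoped Topology.Homotopy in
/-- The obstruction cochain. -/
structure Obs (Y : Set Z) (y : Y) (k : ℕ) (a : ((ℕ → I) → Z) → Finset ℕ → PG k Y y) : Prop where
  card : ∀ T J, J.card ≠ k + 2 → a T J = 0
  deg : ∀ T J i, i ∈ J → Good Y (J.erase i) T → a T J = 0
  loop : ∀ (α : Ω^ (Fin (k + 2)) Y y) (J : Finset ℕ) (h : J.card = k + 2),
    a (fun x => α (x ∘ J.orderEmbOfFin h)) J = cls α
  cyc : ∀ T J, Good Y J T → dS a T J = 0
  fill : ∀ T J, J.card = k + 3 → GB Y J T → dS a T J = 0 → Fl Y J T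
  val : ∀ T J, J.card = k + 2 → Good Y J T → ∀ g, ∃ T', Good Y J T' ∧ (∀ x ∈ bd J, T' x = T x) ∧
    a T' J = g

open scoped Topology.Homotopy in
theorem exists_obs (y : Y) {k : ℕ} (hC : ∀ j ≤ k + 2, Fill Y j) : ∃ a, Obs Y y k a := by
  classical
  obtain ⟨H, hH⟩ := exists_norm y.2 hC (k + 3) le_rfl
  have h1 : ∀ T J, J.card = k + 2 → Good Y J T → ∀ x ∈ bd J, H T J (x, 1) = y := by
    rintro T J hJ hT x ⟨i, hi, b, hb⟩
    have := Finset.card_erase_add_one hi
    rw [← up_eq hb, (hH T J (by omega) hT).face i hi,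
      (hH _ _ (by omega) (hT.face i b)).one (by omega)]
  obtain ⟨lp, hlp⟩ : ∃ lp : ((ℕ → I) → Z) → Finset ℕ → Ω^ (Fin (k + 2)) Y y,
      ∀ T (J : Finset ℕ) (h : J.card = k + 2), Good Y J T → ∀ x, (lp T J (x ∘ J.orderEmbOfFin h) : Z) =
        H T J (x, 1) := by
    refine ⟨fun T J => if h : J.card = k + 2 ∧ Good Y J T then
      ⟨⟨fun t => ⟨H T J (ex (J.orderEmbOfFin h.1) t, 1), (hH T J (by omega) h.2).mem _⟩,
        ((hH T J (by omega) h.2).cont.comp (by fun_prop)).subtype_mk _⟩,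
        fun t ht => Subtype.ext (h1 T J h.1 h.2 _ (ex_mem_bd h.1 ht))⟩ else GenLoop.const,
      fun T J h g x => ?_⟩
    beta_reduce
    rw [dif_pos ⟨h, g⟩]
    change H T J (ex _ _, 1) = _
    rw [ex_comp]
    exact (hH T J (by omega) g).dep _ _ _ fun i hi => pj_mem hi x
  have hlp' : ∀ T (J : Finset ℕ) (h : J.card = k + 2), Good Y J T → ∀ t, (lp T J t : Z) =
      H T J (ex (J.orderEmbOfFin h) t, 1) := fun T J h g t => by
    rw [← hlp T J h g]
    congr 2
    funext p
    exact (ex_apply (J.orderEmbOfFin h).injective t p).symm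
  let a : ((ℕ → I) → Z) → Finset ℕ → PG k Y y := fun T J =>
    if J.card = k + 2 then cls (lp T J) else 0
  have hcard : ∀ T J, J.card ≠ k + 2 → a T J = 0 := fun T J h => if_neg h
  have hgl : ∀ (α : Ω^ (Fin (k + 2)) Y y) (J : Finset ℕ) (h : J.card = k + 2),
      Good Y J fun x => α (x ∘ J.orderEmbOfFin h) := fun α J h =>
    ⟨by fun_prop, fun _ => (α _).2, fun x x' e => by
      rw [show x ∘ J.orderEmbOfFin h = x' ∘ J.orderEmbOfFin h from
        funext fun p => e _ (J.orderEmbOfFin_mem h p)]⟩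
  have hloop : ∀ (α : Ω^ (Fin (k + 2)) Y y) (J : Finset ℕ) (h : J.card = k + 2),
      a (fun x => α (x ∘ J.orderEmbOfFin h)) J = cls α := by
    intro α J h
    simp only [a, if_pos h]
    congr 1
    ext t
    rw [hlp' _ J h (hgl α J h), (hH _ J (by omega) (hgl α J h)).stat fun x hx => by
      exact congrArg Subtype.val (α.2 _ (comp_mem_bd h (hx.resolve_left (by omega))))]
    congr 2
    funext p
    exact ex_apply (J.orderEmbOfFin h).injective t p
  have key : ∀ T (J : Finset ℕ) (h : J.card = k + 3), GB Y J T → ∃ F : (ℕ → I) × I → Z,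
      ContinuousOn F {p | p.1 ∈ bd J} ∧ (∀ p, p.1 ∈ bd J → F p ∈ Y) ∧
      (∀ x ∈ bd J, F (x, 0) = T x) ∧ ∀ p b x, x (J.orderEmbOfFin h p) = bI b → F (x, 1) =
        lp (T ∘ up (J.orderEmbOfFin h p) b) (J.erase (J.orderEmbOfFin h p))
          (rm p (x ∘ J.orderEmbOfFin h)) := by
    intro T J h hT
    obtain ⟨F, f1, f2, f3, f4⟩ := NSpec.glue (J := J) fun i hi b => hH _ _
      (by have := Finset.card_erase_add_one hi; omega) (hT i hi b)
    refine ⟨F, f1, f2, f3, fun p b x hx => ?_⟩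
    rw [f4 _ (J.orderEmbOfFin_mem h p) b _ hx,
      ← hlp _ _ (card_erase_enum h p) (hT _ (J.orderEmbOfFin_mem h p) b)]
    congr 2
    funext r
    simp only [comp_apply, rm, enum_erase]
  have hcyc : ∀ T J, Good Y J T → dS a T J = 0 := by
    intro T J hT
    by_cases h : J.card = k + 3
    swap
    · exact dS_card hcard T J h
    obtain ⟨F, f1, f2, f3, f4⟩ := key T J h hT.gb
    obtain ⟨K, k1, k2, -, k4⟩ := hep J hT.cont hT.mem f1 f2 f3
    rw [dS_alt a T h, ← hal]
    refine ⟨fun t => ⟨K (ex (J.orderEmbOfFin h) t, 1), k2 _⟩, fun p b =>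
      lp (T ∘ up (J.orderEmbOfFin h p) b) (J.erase (J.orderEmbOfFin h p)),
      ⟨(k1.comp (by fun_prop)).subtype_mk _, fun p b t ht => Subtype.ext ?_⟩,
      fun p b => (if_pos (card_erase_enum h p)).symm⟩
    have e : ex (J.orderEmbOfFin h) t (J.orderEmbOfFin h p) = bI b := by
      rw [ex_apply (J.orderEmbOfFin h).injective, ht]
    change K _ = _
    rw [k4 _ ⟨_, J.orderEmbOfFin_mem h p, b, e⟩, f4 p b _ e]
    congr 3
    funext r
    exact ex_apply (J.orderEmbOfFin h).injective t r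
  refine ⟨a, hcard, fun T J i hi g => ?_, hloop, hcyc, fun T J h hT h0 => ?_,
    fun T J h hT g => ?_⟩
  · by_cases h : J.card = k + 2
    swap
    · exact hcard T J h
    have g' := g.mono subset_rfl (J.erase_subset i)
    have := Finset.card_erase_add_one hi
    simp only [a, if_pos h]
    rw [← cls_const]
    congr 1
    ext t
    rw [hlp' T J h g', (hH T J (by omega) g').deg i hi g, (hH _ _ (by omega) g).one (by omega)]
    rfl
  · obtain ⟨F, f1, f2, f3, f4⟩ := key T J h hT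
    rw [dS_alt a T h, ← hal] at h0
    obtain ⟨Φ, hΦ, hf⟩ := h0.repl (fun p b =>
      lp (T ∘ up (J.orderEmbOfFin h p) b) (J.erase (J.orderEmbOfFin h p)))
      fun p b => (if_pos (card_erase_enum h p)).symm
    obtain ⟨K, k1, k2, -, k4⟩ := hep J (T := fun x => (Φ (x ∘ J.orderEmbOfFin h) : Z))
      (by fun_prop) (fun _ => (Φ _).2) (H := fun p => F (p.1, σ p.2))
      (f1.comp (by fun_prop) fun p hp => hp) (fun p hp => f2 _ hp) (by
        rintro x ⟨i, hi, b, hb⟩
        obtain ⟨p, rfl⟩ := exists_enum h hi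
        rw [symm_zero, f4 p b x hb, hf p b _ hb])
    exact hT.fl (T' := fun x => K (x, 1)) (by fun_prop) (fun _ => k2 _) fun x hx => by
      rw [k4 _ (pj_bd hx), symm_one, f3 _ (pj_bd hx)]
  · obtain ⟨β, rfl⟩ := cls_surj g
    have s := hH T J (by omega) hT
    obtain ⟨K, k1, k2, k3, k4⟩ := hep J (hgl β J h).cont (hgl β J h).mem
      (H := fun p => H T J (p.1, σ p.2)) (s.cont.comp (by fun_prop)).continuousOn
      (fun p _ => s.mem _) fun x hx => by
        rw [symm_zero, h1 T J h hT x hx]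
        exact (congrArg Subtype.val (β.2 _ (comp_mem_bd h hx))).symm
    obtain ⟨l, hl⟩ := Infinite.exists_notMem_finset J
    have aux : ∀ L : (ℕ → I) × I → Z, Continuous L → (∀ p, L p ∈ Y) →
        (-1 : ℤ) ^ ((insert l J).filter (· < l)).card •
          (a (fun x => L (pj J x, 1)) J - a (fun x => L (pj J x, 0)) J) +
        ∑ i ∈ J, (-1 : ℤ) ^ ((insert l J).filter (· < i)).card •
          (a (fun x => L (pj J (up i true x), up i true x l)) ((insert l J).erase i) -
            a (fun x => L (pj J (up i false x), up i false x l)) ((insert l J).erase i)) = 0 := by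
      intro L l1 l2
      have := hcyc (fun x => L (pj J x, x l)) (insert l J) ⟨by fun_prop, fun _ => l2 _,
        fun x x' e => by
          rw [pj_congr fun i hi => e i (Finset.mem_insert_of_mem hi), e l (by simp)]⟩
      rw [dS, Finset.sum_insert hl, Finset.erase_insert hl] at this
      have e : ∀ b, (fun x => L (pj J x, x l)) ∘ up l b = fun x => L (pj J x, bI b) :=
        fun b => funext fun x => by
          rw [comp_apply, up_self, pj_congr fun i hi => up_of_ne (by rintro rfl; exact hl hi) b x]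
      rw [e, e] at this
      exact this
    have a1 := aux K k1 k2
    have a2 := aux (fun p => H T J (p.1, σ p.2)) (s.cont.comp (by fun_prop)) fun _ => s.mem _
    have e1 : (fun x => K (pj J x, 0)) = fun x => (β (x ∘ J.orderEmbOfFin h) : Z) :=
      funext fun x => (k3 _).trans ((hgl β J h).dep _ _ fun i hi => pj_mem hi x)
    have e2 : (fun x => H T J (pj J x, σ 1)) = T := funext fun x => by
      rw [symm_one, s.zero]
      exact hT.dep _ _ fun i hi => pj_mem hi x
    have e3 : (fun x => H T J (pj J x, σ 0)) = fun x => (lp T J (x ∘ J.orderEmbOfFin h) : Z) :=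
      funext fun x => by
        rw [symm_zero, hlp T J h hT]
        exact s.dep _ _ _ fun i hi => pj_mem hi x
    rw [e1, hloop] at a1
    simp only [e2, e3, hloop] at a2
    rw [show a T J = cls (lp T J) from if_pos h, sub_self, smul_zero, zero_add] at a2
    rw [Finset.sum_congr rfl fun i hi => by
      rw [funext fun x => k4 (pj J (up i true x), _) (pj_bd (up_mem hi _ _)),
        funext fun x => k4 (pj J (up i false x), _) (pj_bd (up_mem hi _ _))], a2, add_zero] at a1
    refine ⟨fun x => K (pj J x, 1), ⟨by fun_prop, fun _ => k2 _, fun _ _ e => by rw [pj_congr e]⟩,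
      fun x hx => ?_, ?_⟩
    · beta_reduce
      rw [k4 _ (pj_bd hx)]
      exact congrFun e2 x
    · rcases neg_one_pow_eq_or ℤ ((insert l J).filter (· < l)).card with e | e
      · rwa [e, one_smul, sub_eq_zero] at a1
      · rwa [e, neg_one_smul, neg_eq_zero, sub_eq_zero] at a1

theorem Obs.fill_succ {y : Y} {k : ℕ} {a : ((ℕ → I) → Z) → Finset ℕ → PG k Y y} (h : Obs Y y k a)
    [Subsingleton (PG k Y y)] : Fill Y (k + 3) :=
  fill_of_fl fun T hT => h.fill T _ (Finset.card_range _) hT (Subsingleton.elim _ _)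

end Pool.Agent.P.MP_07c576_gt
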