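import Pool.Agent.P.MP_07c576_gt.Level

/-! Discs can be pushed off thin subsets of level sets. -/

set_option linter.unusedSectionVars false

namespace Pool.Agent.P.MP_07c576_gt

open Set Metric Topology Filter unitInterval

variable {X : Type} [MetricSpace X]

theorem Loc.geo_mem [ProperSpace X] {o p : X} {R ρ : ℝ} (L : Loc o R) (h : ball p ρ ⊆ ball o R)
    {a b : X} (ha : a ∈ ball p ρ) (hb : b ∈ ball p ρ) {s : ℝ} (hs : s ∈ Icc (0 : ℝ) 1) :
    geo a b s ∈ ball p (3 * ρ) := by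
  have := L.dist_geo_le (h ha) (h hb) hs
  rw [mem_ball] at ha hb ⊢
  linarith [dist_triangle (geo a b s) a p, dist_triangle_right a b p]

theorem Loc.fill [ProperSpace X] {o p : X} {R ρ : ℝ} (L : Loc o R) (hρ : 0 < ρ)
    (h : ball p (3 * ρ) ⊆ ball o R) {Lf Rt B Tp : ℝ → X} (c1 : Continuous Lf) (c2 : Continuous Rt)
    (c3 : Continuous B) (c4 : Continuous Tp)
    (m1 : ∀ t, Lf t ∈ ball p ρ) (m2 : ∀ t, Rt t ∈ ball p ρ) (m3 : ∀ t, B t ∈ ball p ρ)
    (m4 : ∀ t, Tp t ∈ ball p ρ) (e1 : Lf 0 = B 0) (e2 : Lf 1 = Tp 0) (e3 : Rt 0 = B 1)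
    (e4 : Rt 1 = Tp 1) :
    ∃ E : ℝ → ℝ → X, Continuous (fun q : ℝ × ℝ => E q.1 q.2) ∧ ∀ x y, E x y ∈ ball p (9 * ρ) ∧
      (x ≤ 1 / 6 → E x y = Lf (cl (3 * y - 1))) ∧ (5 / 6 ≤ x → E x y = Rt (cl (3 * y - 1))) ∧
      (y ≤ 1 / 6 → E x y = B (cl (3 * x - 1))) ∧ (5 / 6 ≤ y → E x y = Tp (cl (3 * x - 1))) := by
  have h' : ball p ρ ⊆ ball o R := (ball_subset_ball (by linarith)).trans h
  let E1 : ℝ → ℝ → X := fun x y => geo (Lf (cl (3 * y - 1))) (Rt (cl (3 * y - 1))) (cl (3 * x - 1))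
  let E2 : ℝ → ℝ → X := fun x y => geo (B (cl (3 * x - 1))) (Tp (cl (3 * x - 1))) (cl (3 * y - 1))
  have hE1 : ∀ x y, E1 x y ∈ ball p (3 * ρ) := fun x y => L.geo_mem h' (m1 _) (m2 _) (cl_mem _)
  have hE2 : ∀ x y, E2 x y ∈ ball p (3 * ρ) := fun x y => L.geo_mem h' (m3 _) (m4 _) (cl_mem _)
  have hc : ∀ t, cl t ≤ 2 := fun t => (cl_le_one t).trans one_le_two
  have k1 : Continuous fun q : ℝ × ℝ => E1 q.1 q.2 := continuousOn_univ.1 (L.continuous_geo
    (by fun_prop) (by fun_prop) (by fun_prop) fun q _ => ⟨h' (m1 _), h' (m2 _), cl_nonneg _, hc _⟩)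
  have k2 : Continuous fun q : ℝ × ℝ => E2 q.1 q.2 := continuousOn_univ.1 (L.continuous_geo
    (by fun_prop) (by fun_prop) (by fun_prop) fun q _ => ⟨h' (m3 _), h' (m4 _), cl_nonneg _, hc _⟩)
  have key : ∀ x y (A : ℝ → X) (s : ℝ), cl (3 * y - 1) = s → Lf s = A 0 → Rt s = A 1 →
      E2 x y = A (cl (3 * x - 1)) →
      geo (E1 x y) (E2 x y) (cl (6 * min x (1 - x) - 1)) = A (cl (3 * x - 1)) := by
    intro x y A s hs h1 h2 h3
    rw [h3]
    rcases le_total x (1 / 3) with hx | hx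
    · simp only [E1, hs, cl_of_le (by linarith : 3 * x - 1 ≤ 0), geo_zero, h1, geo_self]
    rcases le_total (2 / 3) x with hx' | hx'
    · simp only [E1, hs, cl_of_ge (by linarith : 1 ≤ 3 * x - 1), geo_one, h2, geo_self]
    · have : 1 / 3 ≤ min x (1 - x) := le_min hx (by linarith)
      rw [cl_of_ge (by linarith : 1 ≤ 6 * min x (1 - x) - 1), geo_one]
  refine ⟨fun x y => geo (E1 x y) (E2 x y) (cl (6 * min x (1 - x) - 1)),
    continuousOn_univ.1 (L.continuous_geo k1.continuousOn k2.continuousOn (by fun_prop)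
      fun q _ => ⟨h (hE1 _ _), h (hE2 _ _), cl_nonneg _, hc _⟩), fun x y =>
    ⟨?_, fun hx => ?_, fun hx => ?_, fun hy => ?_, fun hy => ?_⟩⟩
  · have := L.geo_mem h (hE1 x y) (hE2 x y) (cl_mem (6 * min x (1 - x) - 1))
    rwa [show 3 * (3 * ρ) = 9 * ρ by ring] at this
  · have := min_le_left x (1 - x)
    simp only [E1, cl_of_le (by linarith : 6 * min x (1 - x) - 1 ≤ 0),
      cl_of_le (by linarith : 3 * x - 1 ≤ 0), geo_zero]
  · have := min_le_right x (1 - x)
    simp only [E1, cl_of_le (by linarith : 6 * min x (1 - x) - 1 ≤ 0),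
      cl_of_ge (by linarith : 1 ≤ 3 * x - 1), geo_zero, geo_one]
  · have h0 := cl_of_le (by linarith : 3 * y - 1 ≤ 0)
    exact key x y B 0 h0 e1 e3 (by simp only [E2, h0, geo_zero])
  · have h0 := cl_of_ge (by linarith : 1 ≤ 3 * y - 1)
    exact key x y Tp 1 h0 e2 e4 (by simp only [E2, h0, geo_one])

/-- One side of the level set, without `T`. -/
def Side (v : X → ℝ) (T : Set X) (sg : ℝ) : Set X := {x | 0 < sg * v x ∨ (v x = 0 ∧ x ∉ T)}

/-- Points whose tracks miss `T`. -/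
def GoodP (h : ℝ → X → X) (T : Set X) (η sg : ℝ) : Set X :=
  {x | ∀ t ∈ Icc (0 : ℝ) η, h (sg * t) x ∉ T}

theorem side_nonneg {v : X → ℝ} {T : Set X} {sg : ℝ} {x : X} (h : x ∈ Side v T sg) :
    0 ≤ sg * v x := by
  rcases h with h | h
  · exact h.le
  · rw [h.1, mul_zero]

namespace Reg

variable [ProperSpace X] {o : X} {R μ t₀ : ℝ} {ι : Type} {h : ι → ℝ → X → X} {v : ι → X → ℝ}
  (G : Reg o μ t₀ h v) (L : Loc o R) (hS : HS o) (hμ : 16 * μ ≤ R) {i : ι} {T : Set X}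
  (hT : Thin o R μ T) (hT0 : ∀ x ∈ T, v i x = 0)
include G L hS hμ hT hT0

omit L hS hμ hT in
theorem side_good {η sg : ℝ} (hη : η ≤ t₀) (hsg : sg = 1 ∨ sg = -1) {x : X}
    (hx : x ∈ ball o (4 * μ)) (h1 : x ∈ Side (v i) T sg) : x ∈ GoodP (h i) T η sg := by
  intro t ht hmem
  have h2 := hT0 _ hmem
  rcases ht.1.eq_or_lt with h0 | h0
  · rw [← h0, mul_zero, G.h_zero i x hx] at hmem h2
    rcases h1 with h1 | h1
    · rw [h2, mul_zero] at h1; exact lt_irrefl _ h1
    · exact h1.2 hmem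
  · have := G.up i sg hsg x hx t h0 (ht.2.trans hη)
    rw [h2, mul_zero] at this
    linarith [side_nonneg h1]

omit L hS hμ hT0 in
theorem isOpen_good (η sg : ℝ) : IsOpen (GoodP (h i) T η sg ∩ ball o (4 * μ)) := by
  rw [isOpen_iff_mem_nhds]
  rintro x ⟨hx, hx'⟩
  refine Filter.inter_mem ?_ (isOpen_ball.mem_nhds hx')
  refine isCompact_Icc.eventually_forall_of_forall_eventually
    (P := fun x t => h i (sg * t) x ∉ T) fun t ht => ?_
  have h1 : ContinuousAt (fun q : X × ℝ => h i (sg * q.2) q.1) (x, t) :=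
    (G.continuous_h i (D := ball o (4 * μ) ×ˢ univ) (by fun_prop) continuousOn_fst
      fun q hq => hq.1).continuousAt ((isOpen_ball.prod isOpen_univ).mem_nhds ⟨hx', trivial⟩)
  exact h1.eventually (hT.1.isOpen_compl.mem_nhds (hx t ht))

theorem edge {η ρ : ℝ} (hη : η ≤ t₀) (hρ : 0 < ρ) (hρμ : ρ ≤ μ) :
    ∃ δ > 0, δ ≤ ρ ∧ ∀ p ∈ closedBall o (2 * μ), ∀ q ∈ closedBall o (2 * μ), dist p q < δ →
    (∃ sg, (sg = 1 ∨ sg = -1) ∧ p ∈ Side (v i) T sg ∧ q ∈ Side (v i) T sg) →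
    JoinedIn ({x | ∀ sg, sg = 1 ∨ sg = -1 → p ∈ Side (v i) T sg → q ∈ Side (v i) T sg →
      x ∈ GoodP (h i) T η sg} ∩ ball p ρ) p q := by
  have hμ0 := G.pos
  obtain ⟨δ₁, hδ₁, -, H₁⟩ := G.level_join L hS hμ hρ
  obtain ⟨η', hη', hη'', h1⟩ := G.m1 (ρ / 2) (by linarith)
  obtain ⟨c, hc, h2⟩ := G.m2 η' hη' hη''
  obtain ⟨ε', hε', h3⟩ := G.m3 c hc
  refine ⟨min δ₁ (min ε' (ρ / 2)), lt_min hδ₁ (lt_min hε' (by linarith)),
    ((min_le_right _ _).trans (min_le_right _ _)).trans (by linarith), ?_⟩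
  rintro p hp q hq hd ⟨sg, hsg, hps, hqs⟩
  rw [lt_min_iff, lt_min_iff] at hd
  have hV : ∀ x ∈ ball p ρ, x ∈ ball o (4 * μ) := fun x hx =>
    mem_b hp (mem_ball.1 hx).le (by linarith)
  have hsg0 : sg ≠ 0 := by rcases hsg with h | h <;> rw [h] <;> norm_num
  by_cases h0 : v i p = 0 ∧ v i q = 0
  · have hn : ∀ x ∈ Side (v i) T sg, v i x = 0 → x ∉ T := by
      rintro x (hx | hx) hx0
      · rw [hx0, mul_zero] at hx; exact absurd hx (lt_irrefl _)
      · exact hx.2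
    refine (H₁ i T hT p hp q hq h0.1 h0.2 (hn p hps h0.1) (hn q hqs h0.2) hd.1 _
      ((G.isOpen_good hT η 1).inter (G.isOpen_good hT η (-1))) fun x hx h4 h5 =>
      ⟨⟨G.side_good hT0 hη (Or.inl rfl) (hV x hx) (Or.inr ⟨h4, h5⟩), hV x hx⟩,
        G.side_good hT0 hη (Or.inr rfl) (hV x hx) (Or.inr ⟨h4, h5⟩), hV x hx⟩).mono ?_
    rintro x ⟨⟨h4, h5⟩, h6⟩
    refine ⟨fun sg' hsg' _ _ => ?_, h6⟩
    rcases hsg' with rfl | rfl
    · exact h4.1
    · exact h5.1
  · suffices hj : JoinedIn (Side (v i) T sg ∩ ball p ρ) p q by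
      refine hj.mono ?_
      rintro x ⟨h4, h5⟩
      refine ⟨fun sg' hsg' hp' hq' => ?_, h5⟩
      by_cases he : sg' = sg
      · rw [he]; exact G.side_good hT0 hη hsg (hV x h5) h4
      · exfalso
        have he' : sg' = -sg := by
          rcases hsg with rfl | rfl <;> rcases hsg' with rfl | rfl <;> simp_all
        have k : ∀ y, y ∈ Side (v i) T sg → y ∈ Side (v i) T sg' → v i y = 0 := by
          intro y hy hy'
          have h6 := side_nonneg hy
          have h7 := side_nonneg hy'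
          rw [he', neg_mul] at h7
          exact (mul_eq_zero.1 (le_antisymm (by linarith) h6)).resolve_left hsg0
        exact h0 ⟨k p hps hp', k q hqs hq'⟩
    have habs : ∀ t ∈ Icc (0 : ℝ) 1, |sg * (t * η')| ≤ η' := fun t ht => by
      have : |sg| = 1 := by rcases hsg with h | h <;> rw [h] <;> norm_num
      rw [abs_mul, this, one_mul, abs_of_nonneg (mul_nonneg ht.1 hη'.le)]
      exact mul_le_of_le_one_left hη'.le ht.2
    have hnear : ∀ y, dist y p < ρ / 2 → ∀ t ∈ Icc (0 : ℝ) 1,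
        h i (sg * (t * η')) y ∈ ball p ρ := fun y hy t ht => by
      have := h1 i y (mem_cb hp hy.le (by linarith)) _ (habs t ht)
      rw [mem_ball]
      linarith [dist_triangle (h i (sg * (t * η')) y) y p]
    have track : ∀ y, dist y p < ρ / 2 → y ∈ Side (v i) T sg →
        JoinedIn (Side (v i) T sg ∩ ball p ρ) y (h i (sg * η') y) := by
      intro y hy hys
      have hyV : y ∈ ball o (4 * μ) := mem_b hp hy.le (by linarith)
      refine JoinedIn.ofLine (f := fun t => h i (sg * (t * η')) y)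
        (G.continuous_h i (by fun_prop) continuousOn_const fun _ _ => hyV)
        (by simp only [zero_mul, mul_zero, G.h_zero i y hyV]) (by simp only [one_mul]) ?_
      rintro _ ⟨t, ht, rfl⟩
      refine ⟨?_, hnear y hy t ht⟩
      rcases ht.1.eq_or_lt with h4 | h4
      · simpa only [← h4, zero_mul, mul_zero, G.h_zero i y hyV] using hys
      · exact Or.inl ((side_nonneg hys).trans_lt (G.up i sg hsg y hyV _ (mul_pos h4 hη')
          ((mul_le_of_le_one_left hη'.le ht.2).trans hη'')))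
    have hpR : p ∈ ball o R := closedBall_subset_ball (by linarith) hp
    have hqR : q ∈ ball o R := closedBall_subset_ball (by linarith) hq
    have hg : ∀ s ∈ Icc (0 : ℝ) 1, dist (geo p q s) p ≤ dist p q := fun s hs =>
      L.dist_geo_le hpR hqR hs
    refine ((track p (by simpa using hρ) hps).trans ?_).trans
      (track q (by rw [dist_comm]; exact hd.2.2) hqs).symm
    refine JoinedIn.ofLine (f := fun s => h i (sg * η') (geo p q s))
      (G.continuous_h i continuousOn_const (L.continuous_geo continuousOn_const continuousOn_const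
        continuousOn_id fun s hs => ⟨hpR, hqR, hs.1, hs.2.trans one_le_two⟩)
        fun s hs => mem_b hp ((hg s hs).trans hd.2.2.le) (by linarith))
      (by simp only [geo_zero]) (by simp only [geo_one]) ?_
    rintro _ ⟨s, hs, rfl⟩
    have h4 : geo p q s ∈ closedBall o (3 * μ) := mem_cb hp ((hg s hs).trans hd.2.2.le) (by linarith)
    refine ⟨Or.inl ?_, by
      simpa only [one_mul] using hnear _ ((hg s hs).trans_lt hd.2.2) 1 ⟨zero_le_one, le_rfl⟩⟩
    have h5 := h2 i sg hsg _ h4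
    have h6 := abs_lt.1 (h3 i _ h4 p (closedBall_subset_closedBall (by linarith) hp)
      ((hg s hs).trans_lt hd.2.1))
    have h7 := side_nonneg hps
    rcases hsg with rfl | rfl <;> linarith

omit hT0 in
theorem vertex {δ : ℝ} (hδ : 0 < δ) (hδμ : δ ≤ μ) : ∃ θ > 0, ∀ x ∈ closedBall o μ, |v i x| ≤ θ →
    ∃ p, dist p x < δ ∧ v i p = 0 ∧ p ∉ T := by
  have hμ0 := G.pos
  obtain ⟨η, hη, hη', h1⟩ := G.m1 (δ / 2) (by linarith)
  obtain ⟨c, hc, h2⟩ := G.m2 η hη hη'
  refine ⟨c, hc, fun x hx hv => ?_⟩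
  have hx3 : x ∈ closedBall o (3 * μ) := closedBall_subset_closedBall (by linarith) hx
  have hnear : ∀ t ∈ Icc (-η) η, dist (h i t x) x < δ / 2 := fun t ht =>
    h1 i x hx3 t (abs_le.2 ht)
  have hcont : ContinuousOn (fun t => v i (h i t x)) (Icc (-η) η) :=
    (G.v_cont i).comp (G.continuous_h i continuousOn_id continuousOn_const
      fun _ _ => closedBall_subset_ball (by linarith) hx)
      fun t ht => mem_b hx (hnear t ht).le (by linarith)
  have h3 := h2 i 1 (Or.inl rfl) x hx3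
  have h4 := h2 i (-1) (Or.inr rfl) x hx3
  rw [neg_one_mul η] at h4
  rw [one_mul η] at h3
  obtain ⟨t, ht, h5⟩ := intermediate_value_Icc (by linarith) hcont
    (show (0 : ℝ) ∈ Icc _ _ from ⟨by linarith [abs_le.1 hv], by linarith [abs_le.1 hv]⟩)
  obtain ⟨p, h6, h7, h8⟩ := G.level_dense L hS hμ hT (mem_cb hx (hnear t ht).le (by linarith)) h5
    (by linarith : 0 < δ / 2)
  exact ⟨p, by linarith [dist_triangle p (h i t x) x, hnear t ht], h7, h8⟩

theorem push {D : ℝ × ℝ → X} (hD : UniformContinuous D) (hD' : ∀ z, D z ∈ closedBall o μ) {ε : ℝ}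
    (hε : 0 < ε) : ∃ D' : ℝ × ℝ → X, Continuous D' ∧ ∀ z, dist (D' z) (D z) < ε ∧ D' z ∉ T := by
  classical
  have hμ0 := G.pos
  obtain ⟨η, hη, hη', h1⟩ := G.m1 (ε / 2) (by linarith)
  obtain ⟨c, hc, h2⟩ := G.m2 η hη hη'
  obtain ⟨ε₁, hε₁, h3⟩ := G.m3 c hc
  obtain ⟨ρ, hρ, hρ1, hρ2, hρ3⟩ : ∃ ρ > 0, 18 * ρ ≤ ε₁ ∧ 40 * ρ ≤ ε ∧ 18 * ρ ≤ μ :=
    ⟨min (ε₁ / 18) (min (ε / 40) (μ / 18)), by positivity,
      by linarith [min_le_left (ε₁ / 18) (min (ε / 40) (μ / 18))],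
      by linarith [min_le_right (ε₁ / 18) (min (ε / 40) (μ / 18)), min_le_left (ε / 40) (μ / 18)],
      by linarith [min_le_right (ε₁ / 18) (min (ε / 40) (μ / 18)), min_le_right (ε / 40) (μ / 18)]⟩
  obtain ⟨δ, hδ, hδρ, hE⟩ := G.edge L hS hμ hT hT0 hη' hρ (by linarith)
  obtain ⟨θ, hθ, hV⟩ := G.vertex (i := i) L hS hμ hT (by linarith : 0 < δ / 3) (by linarith)
  obtain ⟨ε₂, hε₂, h4⟩ := G.m3 θ hθ
  obtain ⟨N, hN, hm⟩ := exists_mesh hD (lt_min (by linarith : 0 < δ / 3) hε₂)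
  have hN' : (0 : ℝ) < N := by exact_mod_cast hN
  have hD3 : ∀ z, D z ∈ closedBall o (3 * μ) := fun z =>
    closedBall_subset_closedBall (by linarith) (hD' z)
  have hp : ∀ z, ∃ p, dist p (D z) < δ / 3 ∧
      ∀ sg, sg = 1 ∨ sg = -1 → -θ ≤ sg * v i (D z) → p ∈ Side (v i) T sg := by
    intro z
    by_cases h5 : |v i (D z)| ≤ θ
    · obtain ⟨p, h6, h7⟩ := hV _ (hD' z) h5
      exact ⟨p, h6, fun _ _ _ => Or.inr h7⟩
    · refine ⟨D z, by simpa using hδ, fun sg hsg h6 => Or.inl ?_⟩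
      rw [abs_le, not_and_or, not_le, not_le] at h5
      rcases hsg with rfl | rfl <;> rcases h5 with h5 | h5 <;> linarith
  choose P hP hP' using hp
  let w : ℤ → ℤ → ℝ × ℝ := fun a b => (a / N, b / N)
  let p : ℤ → ℤ → X := fun a b => P (w a b)
  have hp2 : ∀ a b, p a b ∈ closedBall o (2 * μ) := fun a b =>
    mem_cb (hD' _) (hP _).le (by linarith)
  let sg : ℤ → ℤ → ℝ := fun a b => if 0 ≤ v i (D (w a b)) then 1 else -1
  have hsg : ∀ a b, sg a b = 1 ∨ sg a b = -1 := fun a b => by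
    simp only [sg]; split_ifs <;> simp
  have hside : ∀ a b z, dist (w a b) z ≤ 1 / N → P z ∈ Side (v i) T (sg a b) := by
    intro a b z hz
    refine hP' z _ (hsg a b) ?_
    have := abs_lt.1 (h4 i _ (hD3 _) _ (hD3 _) ((hm _ _ hz).trans_le (min_le_right _ _)))
    simp only [sg]
    split_ifs with h5 <;> linarith
  have hN0 : (0 : ℝ) ≤ 1 / N := by positivity
  have w00 : ∀ a b, dist (w a b) (w a b) ≤ 1 / N := fun a b => (dist_self _).trans_le hN0
  have w10 : ∀ a b, dist (w a b) (w (a + 1) b) ≤ 1 / N := fun a b =>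
    max_le (dist_succ hN' a) ((dist_self _).trans_le hN0)
  have w01 : ∀ a b, dist (w a b) (w a (b + 1)) ≤ 1 / N := fun a b =>
    max_le ((dist_self _).trans_le hN0) (dist_succ hN' b)
  have w11 : ∀ a b, dist (w a b) (w (a + 1) (b + 1)) ≤ 1 / N := fun a b =>
    max_le (dist_succ hN' a) (dist_succ hN' b)
  have hdist : ∀ z z', dist z z' ≤ 1 / N → dist (P z) (P z') < δ := fun z z' hz => by
    linarith [dist_triangle4 (P z) (D z) (D z') (P z'), hP z, hP z', dist_comm (D z') (P z'),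
      (hm _ _ hz).trans_le (min_le_left _ _)]
  have hedge : ∀ a b z, P z ∈ closedBall o (2 * μ) → dist (w a b) z ≤ 1 / N →
      ∃ e : ℝ → X, Continuous e ∧ e 0 = p a b ∧ e 1 = P z ∧ ∀ t, e t ∈ ball (p a b) ρ ∧
        ∀ s, s = 1 ∨ s = -1 → p a b ∈ Side (v i) T s → P z ∈ Side (v i) T s →
          e t ∈ GoodP (h i) T η s := by
    intro a b z hz hd
    have hj := hE _ (hp2 a b) _ hz (hdist _ _ hd) ⟨_, hsg a b, hside a b _ (w00 a b), hside a b _ hd⟩
    exact ⟨hj.somePath.extend, hj.somePath.continuous_extend, by simp, by simp,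
      fun t => ⟨(hj.somePath_mem _).2, (hj.somePath_mem _).1⟩⟩
  choose eh eh1 eh2 eh3 eh4 using fun a b => hedge a b _ (hp2 (a + 1) b) (w10 a b)
  choose ev ev1 ev2 ev3 ev4 using fun a b => hedge a b _ (hp2 a (b + 1)) (w01 a b)
  have hb1 : ∀ a b x, x ∈ ball (p a b) ρ → x ∈ ball (p a b) (2 * ρ) := fun a b x hx =>
    ball_subset_ball (by linarith) hx
  have hb2 : ∀ a b z x, dist (w a b) z ≤ 1 / N → x ∈ ball (P z) ρ → x ∈ ball (p a b) (2 * ρ) :=
    fun a b z x hz hx => by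
      rw [mem_ball] at hx ⊢
      linarith [dist_triangle x (P z) (p a b), hdist _ _ hz, dist_comm (P z) (p a b)]
  choose E hE1 hE2 using fun a b => L.fill (p := p a b) (ρ := 2 * ρ) (by linarith)
    (fun x hx => mem_b (hp2 a b) (mem_ball.1 hx).le (by linarith))
    (ev1 a b) (ev1 (a + 1) b) (eh1 a b) (eh1 a (b + 1))
    (fun t => hb1 _ _ _ (ev4 a b t).1) (fun t => hb2 _ _ _ _ (w10 a b) (ev4 (a + 1) b t).1)
    (fun t => hb1 _ _ _ (eh4 a b t).1) (fun t => hb2 _ _ _ _ (w01 a b) (eh4 a (b + 1) t).1)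
    (by rw [ev2, eh2]) (by rw [ev3, eh2]) (by rw [ev2, eh3]) (by rw [ev3, eh3])
  have hE3 : ∀ a b x y, E a b x y ∈ closedBall o (3 * μ) := fun a b x y =>
    mem_cb (hp2 a b) (mem_ball.1 (hE2 a b x y).1).le (by linarith)
  have hE4 : ∀ a b x y, E a b x y ∈ ball o (4 * μ) := fun a b x y =>
    closedBall_subset_ball (by linarith) (hE3 a b x y)
  let am : ℝ → ℝ → ℝ := fun x y => cl (6 * min (min x (1 - x)) (min y (1 - y))) * η
  have ham : ∀ x y, am x y ∈ Icc 0 η := fun x y =>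
    ⟨mul_nonneg (cl_nonneg _) hη.le, mul_le_of_le_one_left hη.le (cl_le_one _)⟩
  let C : ℤ → ℤ → ℝ → ℝ → X := fun a b x y => h i (sg a b * am x y) (E a b x y)
  have hC : ∀ a b, Continuous fun q : ℝ × ℝ => C a b q.1 q.2 := fun a b =>
    continuousOn_univ.1 (G.continuous_h i (by fun_prop) (hE1 a b).continuousOn
      fun q _ => hE4 a b _ _)
  have hC0 : ∀ a b x y, x = 0 ∨ x = 1 ∨ y = 0 ∨ y = 1 → C a b x y = E a b x y := by
    intro a b x y hxy
    have h5 := min_le_left (min x (1 - x)) (min y (1 - y))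
    have h6 := min_le_right (min x (1 - x)) (min y (1 - y))
    have : 6 * min (min x (1 - x)) (min y (1 - y)) ≤ 0 := by
      rcases hxy with h7 | h7 | h7 | h7 <;>
        linarith [min_le_left x (1 - x), min_le_right x (1 - x), min_le_left y (1 - y),
          min_le_right y (1 - y)]
    simp only [C, am, cl_of_le this, zero_mul, mul_zero, G.h_zero i _ (hE4 a b x y)]
  have hC1 : ∀ a, Continuous fun q : ℝ × ℝ => C a ⌊q.2⌋ q.1 (Int.fract q.2) := fun a =>
    continuous_glue (F := C a) (hC a) fun b x => by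
      rw [hC0 _ _ _ _ (by simp), hC0 _ _ _ _ (by simp), (hE2 a b x 1).2.2.2.2 (by norm_num),
        (hE2 a (b + 1) x 0).2.2.2.1 (by norm_num)]
  have hC2 := continuous_glue (F := fun a y x => C a ⌊y⌋ x (Int.fract y))
    (fun a => (hC1 a).comp continuous_swap) fun a y => by
      rw [hC0 _ _ _ _ (by simp), hC0 _ _ _ _ (by simp), (hE2 a _ 1 _).2.2.1 (by norm_num),
        (hE2 (a + 1) _ 0 _).2.1 (by norm_num)]
  have hCT : ∀ a b x y, C a b x y ∉ T := by
    intro a b x y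
    have s00 := hside a b _ (w00 a b)
    have s10 := hside a b _ (w10 a b)
    have s01 := hside a b _ (w01 a b)
    have s11 := hside a b _ (w11 a b)
    by_cases h5 : E a b x y ∈ GoodP (h i) T η (sg a b)
    · exact h5 _ (ham x y)
    have g1 : 1 / 6 < x := not_le.1 fun hx => h5 (by
      rw [(hE2 a b x y).2.1 hx]; exact (ev4 a b _).2 _ (hsg a b) s00 s01)
    have g2 : x < 5 / 6 := not_le.1 fun hx => h5 (by
      rw [(hE2 a b x y).2.2.1 hx]; exact (ev4 (a + 1) b _).2 _ (hsg a b) s10 s11)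
    have g3 : 1 / 6 < y := not_le.1 fun hx => h5 (by
      rw [(hE2 a b x y).2.2.2.1 hx]; exact (eh4 a b _).2 _ (hsg a b) s00 s10)
    have g4 : y < 5 / 6 := not_le.1 fun hx => h5 (by
      rw [(hE2 a b x y).2.2.2.2 hx]; exact (eh4 a (b + 1) _).2 _ (hsg a b) s01 s11)
    have g5 : 1 / 6 ≤ min (min x (1 - x)) (min y (1 - y)) :=
      le_min (le_min g1.le (by linarith)) (le_min g3.le (by linarith))
    intro hmem
    have h6 := hT0 _ hmem
    simp only [C, am, cl_of_ge (by linarith : 1 ≤ 6 * min (min x (1 - x)) (min y (1 - y))),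
      one_mul] at h6
    have h7 := h2 i _ (hsg a b) _ (hE3 a b x y)
    have h8 := abs_lt.1 (h3 i _ (hE3 a b x y) _
      (closedBall_subset_closedBall (by linarith) (hp2 a b))
      ((mem_ball.1 (hE2 a b x y).1).trans_le (by linarith)))
    have h9 : 0 ≤ sg a b * v i (p a b) := side_nonneg s00
    rw [h6] at h7
    rcases hsg a b with h10 | h10 <;> rw [h10] at h7 h9 <;> linarith
  refine ⟨fun z => C ⌊N * z.1⌋ ⌊N * z.2⌋ (Int.fract (N * z.1)) (Int.fract (N * z.2)),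
    hC2.comp (f := fun z : ℝ × ℝ => (N * z.2, N * z.1)) (by fun_prop), fun z => ⟨?_, hCT _ _ _ _⟩⟩
  set a := ⌊N * z.1⌋
  set b := ⌊N * z.2⌋
  set x := Int.fract (N * z.1)
  set y := Int.fract (N * z.2)
  have h5 : dist (C a b x y) (E a b x y) < ε / 2 := h1 i _ (hE3 a b x y) _ (by
    have : |sg a b| = 1 := by rcases hsg a b with h | h <;> rw [h] <;> norm_num
    rw [abs_mul, this, one_mul, abs_of_nonneg (ham x y).1]
    exact (ham x y).2)
  have h6 := mem_ball.1 (hE2 a b x y).1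
  have h7 : dist (p a b) (D (w a b)) < δ / 3 := hP _
  have h8 := (hm (w a b) z (max_le (dist_floor hN' _) (dist_floor hN' _))).trans_le
    (min_le_left _ _)
  linarith [dist_triangle4 (C a b x y) (E a b x y) (p a b) (D z),
    dist_triangle (p a b) (D (w a b)) (D z)]

end Reg

end Pool.Agent.P.MP_07c576_gt
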