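import Pool.Agent.P.MP_07c576_gt.Push
import Pool.Agent.P.MP_07c576_gt.Arc

/-! The local product structure and the arcs that discs can be pushed off. -/

set_option linter.unusedSectionVars false

namespace Pool.Agent.P.MP_07c576_gt

open Set Metric Topology Filter unitInterval

variable {X : Type} [MetricSpace X]

/-- Local product structure with projection `π`, height `w` and lift `ψ`. -/
structure Box (o : X) (μ : ℝ) (π : X → X) (w : X → ℝ) (ψ : X → ℝ → X) : Prop where
  pos : 0 < μ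
  pi_cont : ContinuousOn π (ball o (4 * μ))
  w_cont : Continuous w
  psi_cont : ContinuousOn (fun q : X × ℝ => ψ q.1 q.2) (ball o (4 * μ) ×ˢ ball (w o) (4 * μ))
  psi_spec : ∀ y ∈ ball o (4 * μ), ∀ t ∈ ball (w o) (4 * μ),
    dist (ψ y t) y = |w y - t| ∧ π (ψ y t) = π y ∧ w (ψ y t) = t
  w_lip : ∀ y y', dist (w y) (w y') ≤ dist y y'
  pi_mem : ∀ y ∈ ball o μ, π y ∈ ball o (2 * μ)
  psi_pi : ∀ y ∈ ball o μ, ψ (π y) (w y) = y
  arc : ∀ ε > 0, ∃ δ > 0, ∀ y ∈ ball o μ, ∀ y' ∈ ball o μ, dist y y' < δ →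
    ∃ A : Set X, IsCompact A ∧ JoinedIn (A ∩ ball (π y) ε) (π y) (π y') ∧ (∀ x ∈ A, π x = x) ∧
      ∀ D : ℝ × ℝ → X, UniformContinuous D → (∀ z, D z ∈ closedBall o μ) → ∀ ξ > 0,
        ∃ D' : ℝ × ℝ → X, Continuous D' ∧ ∀ z, dist (D' z) (D z) < ξ ∧ π (D' z) ∉ A

theorem isOpen_NC : IsOpen {q : X × X × X | Loc.NC q.1 q.2.1 q.2.2} := by
  unfold Loc.NC
  refine IsOpen.and ?_ (IsOpen.and ?_ ?_) <;> exact isOpen_lt (by fun_prop) (by fun_prop)

/-- Truncation to `[-c, c]`. -/
noncomputable def ct (c t : ℝ) : ℝ := max (-c) (min c t)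

@[fun_prop] theorem continuous_ct (c : ℝ) : Continuous (ct c) := by unfold ct; fun_prop

theorem abs_ct {c : ℝ} (hc : 0 ≤ c) (t : ℝ) : |ct c t| ≤ c :=
  abs_le.2 ⟨le_max_left _ _, max_le (by linarith) (min_le_left _ _)⟩

theorem ct_of_le {c t : ℝ} (h : |t| ≤ c) : ct c t = t := by
  rw [ct, min_eq_right (abs_le.1 h).2, max_eq_right (abs_le.1 h).1]

namespace Loc

variable [ProperSpace X] {o : X} {R : ℝ} (L : Loc o R)
include L

theorem exists_apex (hS : HS o) : ∃ a, dist a o = R / 2 := by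
  have hR := L.pos
  obtain ⟨f, -, h⟩ := hS (fun _ => o) continuous_const R hR
  obtain ⟨h1, h2⟩ := h ⟨0, mem_closedBall_self zero_le_one⟩
  exact ⟨ray o (f ⟨0, mem_closedBall_self zero_le_one⟩) (R / 2), by
    rw [dist_comm]
    exact (L.ray_spec (mem_ball_self hR) h1 h2.symm (by linarith) (by linarith)).1⟩

variable {a : X} (ha : dist a o = R / 2)
include ha

theorem apex_mem : a ∈ ball o R := mem_ball.2 (by linarith [L.pos])

theorem abs_apex (y : X) : |dist a y - R / 2| ≤ dist y o := by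
  rw [← ha, dist_comm a y, dist_comm a o]; exact abs_dist_sub_le y o a

theorem apex_ne {y : X} (hy : y ∈ ball o (R / 4)) : a ≠ y := by
  have := abs_le.1 (L.abs_apex ha y)
  exact dist_pos.1 (by linarith [mem_ball.1 hy, L.pos])

theorem lift_spec {y : X} (hy : y ∈ ball o (R / 4)) {t : ℝ} (ht : |t - R / 2| ≤ R / 4) :
    dist a (ray a y t) = t ∧ dist y (ray a y t) = |dist a y - t| :=
  L.ray_spec (L.apex_mem ha) (ball_subset_ball (by linarith [L.pos]) hy) (L.apex_ne ha hy)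
    (by linarith [abs_le.1 ht, L.pos]) (by linarith [abs_le.1 ht, L.pos])

theorem lift_lift {y : X} (hy : y ∈ ball o (R / 4)) {t t' : ℝ} (ht : |t - R / 2| ≤ R / 4)
    (ht' : |t' - R / 2| ≤ R / 4) : ray a (ray a y t) t' = ray a y t' := by
  have hR := L.pos
  have h1 := abs_le.1 ht
  have h2 := abs_le.1 ht'
  refine L.ray_ray (L.apex_mem ha) (ball_subset_ball (by linarith) hy) (L.apex_ne ha hy)
    (by linarith) (by linarith) (by linarith) (by linarith) ?_
  have h3 := (L.lift_spec ha hy ht).2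
  have h4 := abs_le.1 (L.abs_apex ha y)
  have h5 := mem_ball.1 hy
  have h6 : |dist a y - t| ≤ R / 2 := abs_le.2 ⟨by linarith, by linarith⟩
  rw [mem_ball]
  linarith [dist_triangle_left (ray a y t) o y]

theorem continuous_lift {P : Type*} [TopologicalSpace P] {g : P → X} {t : P → ℝ} {D : Set P}
    (hg : ContinuousOn g D) (ht : ContinuousOn t D)
    (h : ∀ p ∈ D, g p ∈ ball o (R / 4) ∧ |t p - R / 2| ≤ R / 4) :
    ContinuousOn (fun p => ray a (g p) (t p)) D :=
  L.continuous_ray continuousOn_const hg ht fun p hp =>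
    ⟨L.apex_mem ha, ball_subset_ball (by linarith [L.pos]) (h p hp).1, L.apex_ne ha (h p hp).1,
      by linarith [abs_le.1 (h p hp).2, L.pos], by linarith [abs_le.1 (h p hp).2, L.pos]⟩

theorem half : |R / 2 - R / 2| ≤ R / 4 := by rw [sub_self, abs_zero]; linarith [L.pos]

theorem dist_pi {y : X} (hy : y ∈ ball o (R / 4)) : dist (ray a y (R / 2)) o ≤ 2 * dist y o := by
  linarith [(L.lift_spec ha hy (L.half ha)).2, L.abs_apex ha y,
    dist_triangle_left (ray a y (R / 2)) o y]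

theorem lift_pi {y : X} (hy : y ∈ ball o (R / 4)) : ray a (ray a y (R / 2)) (dist a y) = y := by
  rw [L.lift_lift ha hy (L.half ha) ((L.abs_apex ha y).trans (mem_ball.1 hy).le),
    ray_self (L.apex_ne ha hy)]

theorem exists_bis (hS : HS o) : ∃ B : Set X, IsCompact B ∧ (∀ b ∈ B, b ∈ ball o R ∧ NC a b o) ∧
    ∀ᶠ q in 𝓝 (o, o), ∃ b ∈ B, dist b q.1 = dist b q.2 := by
  have hR := L.pos
  have ho : o ∈ ball o R := mem_ball_self hR
  have hb8 : ∀ {x}, x ∈ ball o (R / 8) → x ∈ ball o R := fun h => ball_subset_ball (by linarith) h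
  let O : Set X := {b | b ∈ ball o (R / 8) ∧ NC a b o}
  have hO : IsOpen O := isOpen_ball.inter
    (isOpen_NC.preimage (f := fun b => (a, b, o)) (by fun_prop))
  have hoo : o ∈ ball o (R / 4) := mem_ball_self (by linarith)
  have hct : ∀ t, |R / 2 + ct (R / 8) (t - R / 2) - R / 2| ≤ R / 8 := fun t => by
    rw [add_sub_cancel_left]; exact abs_ct (by linarith) _
  have hsub : ∀ x ∈ ball o (R / 8), ray a x (R / 2) ≠ o → x ∈ O := by
    intro x hx hne
    have hx4 : x ∈ ball o (R / 4) := ball_subset_ball (by linarith) hx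
    have key : dist x o ≠ |dist a x - R / 2| := fun h =>
      hne (L.eq_ray (L.apex_mem ha) (hb8 hx) (L.apex_ne ha hx4) ha h).symm
    have h1 := abs_lt.1 (lt_of_le_of_ne (L.abs_apex ha x) key.symm)
    have h2 := mem_ball.1 hx
    exact ⟨hx, by linarith [dist_comm o x], by linarith,
      by linarith [dist_nonneg (x := x) (y := a)]⟩
  have key : ∀ (H : Q4 → X), Continuous H → (∀ z, H z ∈ ball o (R / 8)) → ∀ ξ > 0,
      ∃ (z₀ z₁ : Q4) (x₀ x₁ : X), z₀.1 3 = -1 ∧ z₁.1 3 = 1 ∧ dist x₀ (H z₀) < ξ ∧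
        dist x₁ (H z₁) < ξ ∧ JoinedIn O x₀ x₁ := by
    intro H hH hH' ξ hξ
    obtain ⟨z₀, z₁, x₀, x₁, h1, h2, h3, h4, -, -, -, h5⟩ := L.pm hS
      (T := {x | ray a x (R / 2) = o}) (W := ball o (R / 8)) (τ := fun x => (0, dist a x))
      (α := fun s => ray a o (R / 2 + ct (R / 8) (s.2 - R / 2))) isOpen_ball
      (ball_subset_ball (by linarith)) (by fun_prop)
      (continuousOn_univ.1 (L.continuous_lift ha continuousOn_const (by fun_prop)
        fun s _ => ⟨hoo, (hct _).trans (by linarith)⟩))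
      (fun s => by
        rw [mem_ball', (L.lift_spec ha hoo ((hct _).trans (by linarith))).2, ha, abs_sub_comm]
        exact (hct _).trans_lt (by linarith))
      (fun x hx hx' => by
        have h1 : ray a x (R / 2) = o := hx
        simp only
        rw [ct_of_le ((L.abs_apex ha x).trans (mem_ball.1 hx').le), add_sub_cancel, ← h1]
        exact L.lift_pi ha (ball_subset_ball (by linarith) hx'))
      hH hH' (G := fun q => q.1.1 1)
      (((continuous_apply 1).comp continuous_subtype_val).comp continuous_fst).continuousOn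
      (fun z hz => by simp only [hz]; norm_num) (fun z hz => by simp only [hz]; norm_num)
      hO hξ fun z x _ hx _ hT => hsub x hx hT
    exact ⟨z₀, z₁, x₀, x₁, h1, h2, h3, h4, h5⟩
  obtain ⟨_, _, b₀, _, _, _, hp0, _, hj⟩ := key (fun _ => o) continuous_const
    (fun _ => mem_ball_self (by linarith)) (R / 32) (by linarith)
  have hO0 : b₀ ∈ O := hj.source_mem
  have hR0 := hb8 hO0.1
  have hrefl : ∀ y ∈ ball o R, dist b₀ (geo b₀ y 2) = 2 * dist b₀ y ∧
      dist y (geo b₀ y 2) = dist b₀ y := fun y hy => by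
    have := L.geo_spec2 hR0 hy (s := 2) (by norm_num) le_rfl
    exact ⟨this.1, by rw [this.2]; norm_num⟩
  let b₁ := geo b₀ o 2
  have hq0 := hrefl o ho
  have hq1 : b₁ ∈ ball o (R / 8) := mem_ball'.2 (by rw [hq0.2]; linarith)
  have hO1 : b₁ ∈ O := by
    have hpos : 0 < dist b₀ o := by
      linarith [hO0.2.1, dist_comm o b₀, dist_triangle a o b₀, hO0.2.2.1, dist_triangle a b₀ o]
    have := L.gain (L.apex_mem ha) hR0 (hb8 hq1) hO0.2 hpos.ne' (by rw [hq0.1]; ring)
      (by rw [hq0.2, abs_of_pos hpos])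
    rw [abs_of_pos hpos, abs_lt] at this
    exact ⟨hq1, by linarith [hq0.2], by linarith [hq0.2, dist_comm b₁ o],
      by linarith [mem_ball.1 hq1, dist_nonneg (x := b₁) (y := a)]⟩
  have hs : ∀ z : Q4, (z.1 3 + 1) / 2 ∈ Icc (0 : ℝ) 1 := fun z => by
    have := abs_le.1 (Q4_abs z 3)
    constructor <;> linarith
  obtain ⟨ξ, hξ, h1⟩ := Metric.eventually_nhds_iff.1 (L.eventually_joinedIn hR0
    (hO.mem_nhds hO0))
  obtain ⟨ξ', hξ', h2⟩ := Metric.eventually_nhds_iff.1 (L.eventually_joinedIn (hb8 hq1)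
    (hO.mem_nhds hO1))
  obtain ⟨z₀, z₁, x₀, x₁, e0, e1, d0, d1, hj'⟩ := key (fun z => geo b₀ b₁ ((z.1 3 + 1) / 2))
    (continuousOn_univ.1 (L.continuous_geo continuousOn_const continuousOn_const
      ((((continuous_apply 3).comp continuous_subtype_val).add continuous_const).div_const
        2).continuousOn fun z _ => ⟨hR0, hb8 hq1, (hs z).1, by linarith [(hs z).2]⟩))
    (fun z => mem_ball.2 (by
      linarith [L.dist_geo_le hR0 (hb8 hq1) (hs z), hq0.1,
        dist_triangle (geo b₀ b₁ ((z.1 3 + 1) / 2)) b₀ o])) _ (lt_min hξ hξ')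
  simp only [e0, e1] at d0 d1
  norm_num [geo_zero, geo_one] at d0 d1
  have hj2 : JoinedIn O b₀ b₁ := ((h1 d0.1).trans hj').trans (h2 d1.2).symm
  obtain ⟨ρ, hρ, hρ'⟩ := Metric.nhds_basis_closedBall.mem_iff.1 (hO.mem_nhds hO1)
  let B := range hj2.somePath ∪ closedBall b₁ ρ
  have hBO : B ⊆ O := union_subset (by rintro _ ⟨t, rfl⟩; exact hj2.somePath_mem t) hρ'
  have : PathConnectedSpace I := isPathConnected_iff_pathConnectedSpace.1
    ((convex_Icc (0 : ℝ) 1).isPathConnected ⟨0, by simp⟩)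
  have hB : IsPathConnected B := ⟨b₁, Or.inr (mem_closedBall_self hρ.le), by
    rintro b (hb | hb)
    · exact ((isPathConnected_range hj2.somePath.continuous).joinedIn _ ⟨1, by simp⟩ _ hb).mono
        subset_union_left
    · exact L.joinedIn_of_dist (hb8 hq1) (hb8 (hρ' hb).1)
        ((closedBall_subset_closedBall (mem_closedBall'.1 hb)).trans subset_union_right)⟩
  refine ⟨B, (isCompact_range hj2.somePath.continuous).union (isCompact_closedBall _ _),
    fun b hb => ⟨hb8 (hBO hb).1, (hBO hb).2⟩, ?_⟩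
  have hev : ∀ᶠ y in 𝓝 o, y ∈ ball o R ∧ geo b₀ y 2 ∈ B := by
    have h3 : ContinuousAt (fun y => geo b₀ y 2) o :=
      (L.continuous_geo (D := ball o R) continuousOn_const continuousOn_id continuousOn_const
        fun y hy => ⟨hR0, hy, by norm_num, le_rfl⟩).continuousAt (isOpen_ball.mem_nhds ho)
    filter_upwards [isOpen_ball.mem_nhds ho, h3.eventually (closedBall_mem_nhds b₁ hρ)]
      with y h4 h5 using ⟨h4, Or.inr h5⟩
  filter_upwards [continuousAt_fst.eventually hev, continuousAt_snd.eventually hev] with q h3 h4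
  have hB0 : b₀ ∈ B := Or.inl ⟨0, by simp⟩
  have hiv : ∀ b ∈ B, ∀ b' ∈ B, dist b q.1 ≤ dist b q.2 → dist b' q.2 ≤ dist b' q.1 →
      ∃ b ∈ B, dist b q.1 = dist b q.2 := fun b hb b' hb' h5 h6 =>
    hB.isConnected.isPreconnected.intermediate_value₂ hb hb' (by fun_prop) (by fun_prop) h5 h6
  have h5 := hrefl _ h3.1
  have h6 := hrefl _ h4.1
  rcases le_total (dist b₀ q.1) (dist b₀ q.2) with h | h
  · refine hiv _ hB0 _ h4.2 h ?_
    linarith [dist_triangle_right b₀ (geo b₀ q.2 2) q.1, dist_comm q.2 (geo b₀ q.2 2)]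
  · refine hiv _ h3.2 _ hB0 ?_ h
    linarith [dist_triangle_right b₀ (geo b₀ q.1 2) q.2, dist_comm q.1 (geo b₀ q.1 2)]

theorem reg {B : Set X} (hB : IsCompact B) {μ : ℝ} (hμ0 : 0 < μ) (hμ : 100 * μ ≤ R)
    (hN : ∀ b ∈ B, b ∈ ball o R ∧ ∀ y ∈ ball o (9 * μ), NC a b y) :
    Reg o μ μ (fun (i : B × ℝ) t y =>
        ray a (ray i.1.1 (ray a y (R / 2)) (dist i.1.1 (ray a y (R / 2)) + ct μ t)) (dist a y))
      fun (i : B × ℝ) y => dist i.1.1 (ray a y (R / 2)) - i.2 := by
  have hR := L.pos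
  have : CompactSpace B := isCompact_iff_compactSpace.1 hB
  let π : X → X := fun y => ray a y (R / 2)
  let W : B → ℝ → X → X := fun b t y => ray b.1 (π y) (dist b.1 (π y) + ct μ t)
  let h : B → ℝ → X → X := fun b t y => ray a (W b t y) (dist a y)
  have hb4 : ∀ {c x}, c ≤ 25 → x ∈ ball o (c * μ) → x ∈ ball o (R / 4) := fun hc hx =>
    ball_subset_ball (by nlinarith) hx
  have hbR : ∀ {x}, x ∈ ball o (R / 4) → x ∈ ball o R := fun h => ball_subset_ball (by linarith) h
  have hπc : ContinuousOn π (ball o (R / 4)) :=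
    L.continuous_lift ha continuousOn_id continuousOn_const fun y hy => ⟨hy, L.half ha⟩
  have hπ8 : ∀ y ∈ ball o (4 * μ), π y ∈ ball o (8 * μ) := fun y hy =>
    mem_ball.2 (by linarith [L.dist_pi ha (hb4 (by norm_num) hy), mem_ball.1 hy])
  have hfar : ∀ b : B, ∀ y ∈ ball o (4 * μ), μ < dist b.1 (π y) := by
    intro b y hy
    have h1 : b.1 ∉ ball o (9 * μ) := fun h => by simpa using ((hN b b.2).2 b h).1
    rw [mem_ball, not_lt] at h1
    linarith [dist_triangle b.1 (π y) o, mem_ball.1 (hπ8 y hy)]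
  have hok : ∀ (b : B) t, ∀ y ∈ ball o (4 * μ), b.1 ∈ ball o R ∧ π y ∈ ball o R ∧ b.1 ≠ π y ∧
      0 ≤ dist b.1 (π y) + ct μ t ∧ dist b.1 (π y) + ct μ t ≤ 4 * R := by
    intro b t y hy
    have h1 := hbR (hb4 (by norm_num) (hπ8 y hy))
    have h2 := abs_le.1 (abs_ct hμ0.le t)
    exact ⟨(hN b b.2).1, h1, dist_pos.1 (hμ0.trans (hfar b y hy)), by linarith [hfar b y hy],
      by linarith [L.dist_lt (hN b b.2).1 h1]⟩
  have hW : ∀ (b : B) t, ∀ y ∈ ball o (4 * μ), dist b.1 (W b t y) = dist b.1 (π y) + ct μ t ∧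
      dist (π y) (W b t y) = |ct μ t| := by
    intro b t y hy
    obtain ⟨h1, h2, h3, h4, h5⟩ := hok b t y hy
    have := L.ray_spec h1 h2 h3 h4 h5
    exact ⟨this.1, by rw [this.2, sub_add_cancel_left, abs_neg]⟩
  have hW9 : ∀ (b : B) t, ∀ y ∈ ball o (4 * μ), W b t y ∈ ball o (9 * μ) := fun b t y hy =>
    mem_ball.2 (by linarith [(hW b t y hy).2, abs_ct hμ0.le t, mem_ball.1 (hπ8 y hy),
      dist_triangle_left (W b t y) o (π y)])
  have hay : ∀ y ∈ ball o (4 * μ), |dist a y - R / 2| ≤ R / 4 := fun y hy =>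
    (L.abs_apex ha y).trans (mem_ball.1 (hb4 (by norm_num) hy)).le
  have hπh : ∀ (b : B) t, ∀ y ∈ ball o (4 * μ), π (h b t y) = π (W b t y) := fun b t y hy =>
    L.lift_lift ha (hb4 (by norm_num) (hW9 b t y hy)) (hay y hy) (L.half ha)
  let U : Set (ℝ × B × X) := {q | q.2.2 ∈ ball o (4 * μ)}
  have hU : IsOpen U := isOpen_ball.preimage (by fun_prop)
  have hπU : ContinuousOn (fun q : ℝ × B × X => π q.2.2) U :=
    hπc.comp (by fun_prop) fun q hq => hb4 (by norm_num) hq
  have hWc : ContinuousOn (fun q : ℝ × B × X => W q.2.1 q.1 q.2.2) U :=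
    L.continuous_ray (by fun_prop) hπU
      ((continuous_dist.comp_continuousOn (ContinuousOn.prodMk (by fun_prop) hπU)).add
        (by fun_prop)) fun q hq => hok _ _ _ hq
  have hhc : ContinuousOn (fun q : ℝ × B × X => h q.2.1 q.1 q.2.2) U :=
    L.continuous_lift ha hWc (by fun_prop) fun q hq =>
      ⟨hb4 (by norm_num) (hW9 _ _ _ hq), hay _ hq⟩
  have hzero : ∀ (b : B), ∀ y ∈ ball o (4 * μ), h b 0 y = y := by
    intro b y hy
    simp only [h, W]
    rw [ct_of_le (by simpa using hμ0.le), add_zero, ray_self (hok b 0 y hy).2.2.1]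
    exact L.lift_pi ha (hb4 (by norm_num) hy)
  have hup : ∀ (b : B) sg, sg = 1 ∨ sg = -1 → ∀ y ∈ ball o (4 * μ), ∀ t, 0 < t → t ≤ μ →
      sg * dist b.1 (π y) < sg * dist b.1 (π (W b (sg * t) y)) := by
    intro b sg hsg y hy t ht ht'
    have h1 : |sg * t| = t := by rcases hsg with h | h <;> simp [h, abs_of_pos ht]
    have h2 := hW b (sg * t) y hy
    rw [ct_of_le (h1.trans_le ht')] at h2
    have h3 := hb4 (by norm_num) (hW9 b (sg * t) y hy)
    have h4 := L.gain (L.apex_mem ha) (hN b b.2).1 (hbR h3)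
      ((hN b b.2).2 _ (ball_subset_ball (by linarith) (hπ8 y hy)))
      (abs_pos.1 (h1.symm ▸ ht)) h2.1 h2.2
    rw [(L.lift_spec ha (hb4 (by norm_num) hy) (L.half ha)).1,
      ← (L.lift_spec ha h3 (L.half ha)).2, h1] at h4
    have h5 := dist_triangle b.1 (W b (sg * t) y) (π (W b (sg * t) y))
    have h6 := dist_triangle_right b.1 (W b (sg * t) y) (π (W b (sg * t) y))
    have h7 := h2.1
    rcases hsg with rfl | rfl <;> linarith
  have hC : ∀ y ∈ closedBall o (3 * μ), y ∈ ball o (4 * μ) := fun y hy =>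
    closedBall_subset_ball (by linarith) hy
  have hK : IsCompact ((univ : Set B) ×ˢ closedBall o (3 * μ)) :=
    isCompact_univ.prod (isCompact_closedBall _ _)
  refine ⟨hμ0, fun i => hhc.comp (f := fun q : ℝ × X => (q.1, i.1, q.2)) (by fun_prop)
      fun q hq => hq.2, fun i => ?_, fun i => hzero i.1, fun i sg hsg y hy t ht ht' => ?_,
    fun ε hε => ?_, fun η hη hη' => ?_, fun c hc => ?_⟩
  · exact (continuous_dist.comp_continuousOn (continuousOn_const.prodMk
      (hπc.mono fun y hy => hb4 (by norm_num) hy))).sub continuousOn_const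
  · have := hup i.1 sg hsg y hy t ht ht'
    rw [← hπh _ _ _ hy] at this
    simp only [mul_sub]
    linarith
  · obtain ⟨η, hη, h1⟩ := Metric.eventually_nhds_iff.1 (hK.eventually_forall_of_forall_eventually
      (x₀ := (0 : ℝ)) (P := fun t q => dist (h q.1 t q.2) q.2 < ε) fun q hq =>
      ((hhc.continuousAt (hU.mem_nhds (hC _ hq.2))).dist
        (continuous_snd.comp continuous_snd).continuousAt).eventually
        (gt_mem_nhds (by
          change dist (h q.1 0 q.2) q.2 < ε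
          rw [hzero _ _ (hC _ hq.2), dist_self]; exact hε)))
    exact ⟨min (η / 2) μ, lt_min (by linarith) hμ0, min_le_right _ _, fun i y hy t ht =>
      h1 (by rw [Real.dist_eq, sub_zero]; linarith [ht.trans (min_le_left _ _)]) (i.1, y)
        ⟨trivial, hy⟩⟩
  · have key : ∀ sg, sg = 1 ∨ sg = -1 → ∃ c > 0, ∀ q ∈ (univ : Set B) ×ˢ closedBall o (3 * μ),
        c ≤ sg * dist q.1.1 (π (W q.1 (sg * η) q.2)) - sg * dist q.1.1 (π q.2) := by
      intro sg hsg
      refine hK.exists_forall_le' ?_ fun q hq => sub_pos.2 (hup _ sg hsg _ (hC _ hq.2) η hη hη')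
      have h1 : ContinuousOn (fun q : B × X => π (W q.1 (sg * η) q.2))
          ((univ : Set B) ×ˢ closedBall o (3 * μ)) :=
        hπc.comp (hWc.comp (f := fun q : B × X => (sg * η, q)) (by fun_prop) fun q hq => hC _ hq.2)
          fun q hq => hb4 (by norm_num) (hW9 _ _ _ (hC _ hq.2))
      have h2 : ContinuousOn (fun q : B × X => π q.2) ((univ : Set B) ×ˢ closedBall o (3 * μ)) :=
        hπc.comp continuousOn_snd fun q hq => hb4 (by norm_num) (hC _ hq.2)
      exact (continuousOn_const.mul (continuous_dist.comp_continuousOn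
        (ContinuousOn.prodMk (by fun_prop) h1))).sub (continuousOn_const.mul
        (continuous_dist.comp_continuousOn (ContinuousOn.prodMk (by fun_prop) h2)))
    obtain ⟨c₁, hc₁, h1⟩ := key 1 (Or.inl rfl)
    obtain ⟨c₂, hc₂, h2⟩ := key (-1) (Or.inr rfl)
    refine ⟨min c₁ c₂, lt_min hc₁ hc₂, fun i sg hsg y hy => ?_⟩
    have h3 : min c₁ c₂ ≤ sg * dist i.1.1 (π (W i.1 (sg * η) y)) - sg * dist i.1.1 (π y) := by
      rcases hsg with rfl | rfl
      · exact (min_le_left _ _).trans (h1 (i.1, y) ⟨trivial, hy⟩)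
      · exact (min_le_right _ _).trans (h2 (i.1, y) ⟨trivial, hy⟩)
    rw [← hπh _ _ _ (hC y hy)] at h3
    simp only [mul_sub]
    linarith
  · obtain ⟨ε, hε, h1⟩ := Metric.uniformContinuousOn_iff.1
      ((isCompact_closedBall o (3 * μ)).uniformContinuousOn_of_continuous
        (hπc.mono fun y hy => hb4 (by norm_num) (hC y hy))) c hc
    refine ⟨ε, hε, fun i y hy y' hy' hd => lt_of_le_of_lt ?_ (h1 y hy y' hy' hd)⟩
    rw [sub_sub_sub_cancel_right, dist_comm _ (ray a y _), dist_comm _ (ray a y' _)]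
    exact abs_dist_sub_le _ _ _

omit ha in
theorem exists_box (hS : HS o) : ∃ μ π w ψ, 100 * μ ≤ R ∧ Box o μ π w ψ := by
  have hR := L.pos
  obtain ⟨a, ha⟩ := L.exists_apex hS
  obtain ⟨B, hB, hB1, hB2⟩ := L.exists_bis ha hS
  obtain ⟨ν, hν, h1⟩ := Metric.eventually_nhds_iff.1 (hB.eventually_forall_of_forall_eventually
    (x₀ := o) (P := fun y b => NC a b y) fun b hb =>
    (isOpen_NC.preimage (f := fun q : X × X => (a, q.2, q.1)) (by fun_prop)).mem_nhds
      (hB1 b hb).2)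
  obtain ⟨ν', hν', h2⟩ := Metric.eventually_nhds_iff.1 hB2
  obtain ⟨μ, hμ0, hμ1, hμ2, hμ3⟩ : ∃ μ > 0, 100 * μ ≤ R ∧ 9 * μ ≤ ν ∧ 2 * μ ≤ ν' :=
    ⟨min (R / 100) (min (ν / 9) (ν' / 2)), by positivity,
      by linarith [min_le_left (R / 100) (min (ν / 9) (ν' / 2))],
      by linarith [min_le_right (R / 100) (min (ν / 9) (ν' / 2)), min_le_left (ν / 9) (ν' / 2)],
      by linarith [min_le_right (R / 100) (min (ν / 9) (ν' / 2)), min_le_right (ν / 9) (ν' / 2)]⟩
  have G := L.reg ha hB hμ0 hμ1 fun b hb =>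
    ⟨(hB1 b hb).1, fun y hy => h1 ((mem_ball.1 hy).trans_le hμ2) b hb⟩
  let π : X → X := fun y => ray a y (R / 2)
  have hb4 : ∀ {c x}, c ≤ 25 → x ∈ ball o (c * μ) → x ∈ ball o (R / 4) := fun hc hx =>
    ball_subset_ball (by nlinarith) hx
  have hb1 : ∀ {x}, x ∈ ball o μ → x ∈ ball o (R / 4) := fun hx =>
    ball_subset_ball (by linarith) hx
  have hπc : ContinuousOn π (ball o (R / 4)) :=
    L.continuous_lift ha continuousOn_id continuousOn_const fun y hy => ⟨hy, L.half ha⟩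
  have hπ2 : ∀ y ∈ ball o μ, π y ∈ ball o (2 * μ) := fun y hy =>
    mem_ball.2 (by linarith [L.dist_pi ha (hb1 hy), mem_ball.1 hy])
  have ht : ∀ t ∈ ball (dist a o) (4 * μ), |t - R / 2| ≤ R / 4 := fun t ht => by
    rw [mem_ball, Real.dist_eq, ha] at ht; linarith
  refine ⟨μ, π, fun y => dist a y, ray a, hμ1, hμ0, hπc.mono fun y hy => hb4 (by norm_num) hy,
    by fun_prop, L.continuous_lift ha continuousOn_fst continuousOn_snd
      fun q hq => ⟨hb4 (by norm_num) hq.1, ht _ hq.2⟩, fun y hy t ht' => ?_,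
    fun y y' => dist_dist_dist_le_right a y y', hπ2,
    fun y hy => L.lift_pi ha (hb1 hy), fun ε hε => ?_⟩
  · have := L.lift_spec ha (hb4 (by norm_num) hy) (ht t ht')
    exact ⟨by rw [dist_comm, this.2], L.lift_lift ha (hb4 (by norm_num) hy) (ht t ht') (L.half ha),
      this.1⟩
  have hC : closedBall o (4 * μ) ⊆ ball o (R / 4) := closedBall_subset_ball (by linarith)
  obtain ⟨ε', hε', h3⟩ := Metric.uniformContinuousOn_iff.1
    ((isCompact_closedBall o (4 * μ)).uniformContinuousOn_of_continuous (hπc.mono hC)) ε hε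
  obtain ⟨δ, hδ, h4⟩ := G.level_path L hS (by linarith) (lt_min hε' hμ0)
  refine ⟨δ, hδ, fun y hy y' hy' hd => ?_⟩
  obtain ⟨b, hb, hbe⟩ := h2 (y := (π y, π y')) (max_lt ((mem_ball.1 (hπ2 y hy)).trans_le hμ3)
    ((mem_ball.1 (hπ2 y' hy')).trans_le hμ3))
  let i : B × ℝ := (⟨b, hb⟩, dist b (π y))
  obtain ⟨γ, g0, g1, hγ⟩ := h4 i y (ball_subset_closedBall hy) y' (ball_subset_closedBall hy')
    (sub_self _) (sub_eq_zero.2 hbe.symm) hd
  have hγ2 : ∀ t, γ t ∈ ball o (2 * μ) := fun t => by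
    have := (mem_ball.1 (hγ t).2).trans_le (min_le_right _ _)
    rw [mem_ball] at hy ⊢
    linarith [dist_triangle (γ t) y o]
  obtain ⟨α, τ, hα, hτ, a0, a1, hr, hcomp, hατ⟩ := exists_arc (γ := fun t => π (γ (pI t)))
    (hπc.comp_continuous (γ.continuous.comp uc_pI.continuous) fun t => hb4 (by norm_num) (hγ2 _))
  have hr' : ∀ t, ∃ s, α t = π (γ s) := fun t => by
    obtain ⟨s, -, hs⟩ := hr t
    exact ⟨_, hs.symm⟩
  have hα4 : ∀ t, α t ∈ ball o (4 * μ) := fun t => by
    obtain ⟨s, hs⟩ := hr' t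
    rw [hs, mem_ball]
    linarith [L.dist_pi ha (hb4 (by norm_num) (hγ2 s)), mem_ball.1 (hγ2 s)]
  have hct : ∀ t, |R / 2 + ct (4 * μ) (t - R / 2) - R / 2| ≤ 4 * μ := fun t => by
    rw [add_sub_cancel_left]; exact abs_ct (by linarith) _
  have hαa : ∀ t, dist a (α t) = R / 2 := fun t => by
    obtain ⟨s, hs⟩ := hr' t
    rw [hs]
    exact (L.lift_spec ha (hb4 (by norm_num) (hγ2 s)) (L.half ha)).1
  have hT : Thin o R μ (closedBall o (4 * μ) ∩ π ⁻¹' range α) := by
    refine ⟨(hπc.mono hC).preimage_isClosed_of_isClosed isClosed_closedBall hcomp.isClosed,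
      fun x => (τ (π x), dist a x), fun s => ray a (α s.1) (R / 2 + ct (4 * μ) (s.2 - R / 2)),
      (hτ.comp_continuousOn (hπc.mono fun y hy => hb4 (by norm_num) hy)).prodMk (by fun_prop),
      continuousOn_univ.1 (L.continuous_lift ha (by fun_prop) (by fun_prop)
        fun s _ => ⟨hb4 (by norm_num) (hα4 _), (hct _).trans (by linarith)⟩), fun s => ?_, ?_⟩
    · have h5 := (L.lift_spec ha (hb4 (by norm_num) (hα4 s.1)) ((hct s.2).trans (by linarith))).2
      rw [hαa, abs_sub_comm] at h5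
      rw [mem_ball]
      linarith [dist_triangle_left (ray a (α s.1) (R / 2 + ct (4 * μ) (s.2 - R / 2))) o (α s.1),
        hct s.2, mem_ball.1 (hα4 s.1)]
    · rintro x ⟨-, t, hx⟩ hx'
      simp only
      rw [← hx, hατ, hx, ct_of_le ((L.abs_apex ha x).trans (mem_ball.1 hx').le), add_sub_cancel]
      exact L.lift_pi ha (hb4 (by norm_num) hx')
  refine ⟨range α, hcomp, ?_, ?_, fun D hD hD' ξ hξ => ?_⟩
  · have p0 : pI 0 = 0 := pI_val 0
    have p1 : pI 1 = 1 := pI_val 1
    refine JoinedIn.ofLine (f := α) hα.continuousOn (by simp only [a0, p0, g0])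
      (by simp only [a1, p1, g1]) ?_
    rintro _ ⟨t, -, rfl⟩
    refine ⟨⟨t, rfl⟩, ?_⟩
    obtain ⟨s, hs⟩ := hr' t
    rw [hs]
    exact h3 _ (ball_subset_closedBall (ball_subset_ball (by linarith) (hγ2 s))) _
      (ball_subset_closedBall (ball_subset_ball (by linarith) hy))
      ((mem_ball.1 (hγ s).2).trans_le (min_le_left _ _))
  · rintro _ ⟨t, rfl⟩
    change ray a (α t) (R / 2) = α t
    rw [← hαa t]
    exact ray_self (L.apex_ne ha (hb4 (by norm_num) (hα4 t)))
  · obtain ⟨D', h5, h6⟩ := G.push L hS (by linarith) (i := i) hT (by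
      rintro x ⟨-, t, hx⟩
      obtain ⟨s, hs⟩ := hr' t
      have := (hγ s).1
      change dist b (π x) - _ = 0
      rw [← hx, hs]
      exact this) hD hD' (lt_min hξ hμ0)
    exact ⟨D', h5, fun z => ⟨(h6 z).1.trans_le (min_le_left _ _), fun h => (h6 z).2
      ⟨mem_cb (hD' z) ((h6 z).1.le.trans (min_le_right _ _)) (by linarith), h⟩⟩⟩

end Loc

end Pool.Agent.P.MP_07c576_gt
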