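import Pool.Agent.P.MP_07c576_gt.Dim

/-! The Thom class argument with integer coefficients. -/

set_option linter.unusedSectionVars false

namespace Pool.Agent.P.MP_07c576_gt

open Set Metric Topology Filter unitInterval Function

variable {X : Type} [MetricSpace X]

/-- A continuous choice of short paths in `B`. -/
structure Cv (B : Set X) (cv : X → X → I → X) : Prop where
  cont : ContinuousOn (fun q : X × X × I => cv q.1 q.2.1 q.2.2) (B ×ˢ B ×ˢ univ)
  mem : ∀ x ∈ B, ∀ y ∈ B, ∀ s, cv x y s ∈ B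
  zero : ∀ x ∈ B, ∀ y ∈ B, cv x y 0 = x
  one : ∀ x ∈ B, ∀ y ∈ B, cv x y 1 = y
  dist : ∀ x ∈ B, ∀ y ∈ B, ∀ s, dist (cv x y s) x ≤ 2 * dist x y

variable {B Y : Set X} {cv : X → X → I → X}

theorem Cv.comp (h : Cv B cv) {P : Type} [TopologicalSpace P] {f g : P → X} {s : P → I}
    (hf : Continuous f) (hg : Continuous g) (hs : Continuous s) (h1 : ∀ p, f p ∈ B)
    (h2 : ∀ p, g p ∈ B) : Continuous fun p => cv (f p) (g p) (s p) :=
  h.cont.comp_continuous (hf.prodMk (hg.prodMk hs)) fun p => ⟨h1 p, h2 p, trivial⟩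

theorem Cv.self (h : Cv B cv) {x : X} (hx : x ∈ B) (s : I) : cv x x s = x := by
  simpa using h.dist x hx x hx s

/-- Interpolation of the labels `v` of the vertices of the grid. -/
noncomputable def lam (cv : X → X → I → X) (v : (ℕ → ℤ) → X) : ℕ → (ℕ → ℝ) → (ℕ → ℤ) → X
  | 0, _, w => v w
  | N + 1, x, w => cv (lam cv v N x (update w N ⌊x N⌋)) (lam cv v N x (update w N (⌊x N⌋ + 1)))
      (pI (Int.fract (x N)))

theorem Cv.lam_mem (h : Cv B cv) {v : (ℕ → ℤ) → X} (hv : ∀ w, v w ∈ B) (N : ℕ) (x : ℕ → ℝ)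
    (w : ℕ → ℤ) : lam cv v N x w ∈ B := by
  induction N generalizing w with
  | zero => exact hv w
  | succ N ih => exact h.mem _ (ih _) _ (ih _) _

theorem Cv.lam_cont (h : Cv B cv) {v : (ℕ → ℤ) → X} (hv : ∀ w, v w ∈ B) (N : ℕ) (w : ℕ → ℤ) :
    Continuous fun x => lam cv v N x w := by
  induction N generalizing w with
  | zero => exact continuous_const
  | succ N ih =>
    have m := h.lam_mem hv N
    exact (continuous_glue (P := ℕ → ℝ) (F := fun i x s => cv (lam cv v N x (update w N i))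
      (lam cv v N x (update w N (i + 1))) (pI s)) (fun i => h.comp ((ih _).comp continuous_fst)
        ((ih _).comp continuous_fst) (by fun_prop) (fun _ => m _ _) fun _ => m _ _) fun i x => by
      rw [pI_of_ge le_rfl, pI_of_le le_rfl, h.one _ (m _ _) _ (m _ _),
        h.zero _ (m _ _) _ (m _ _)]).comp (f := fun x => (x, x N)) (by fun_prop)

theorem lam_shift {v v' : (ℕ → ℤ) → X} {N : ℕ} {x x' : ℕ → ℝ} {w w' : ℕ → ℤ}
    (h1 : ∀ i < N, Int.fract (x i) = Int.fract (x' i))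
    (h2 : ∀ u u' : ℕ → ℤ, (∀ i < N, u i - ⌊x i⌋ = u' i - ⌊x' i⌋ ∧ u' i - ⌊x' i⌋ ∈ Icc 0 1) →
      (∀ i, N ≤ i → u i = w i ∧ u' i = w' i) → v u = v' u') :
    lam cv v N x w = lam cv v' N x' w' := by
  induction N generalizing w w' with
  | zero => exact h2 _ _ (by simp) (by simp)
  | succ N ih =>
    have key : ∀ b : ℤ, b ∈ Icc 0 1 → lam cv v N x (update w N (⌊x N⌋ + b)) =
        lam cv v' N x' (update w' N (⌊x' N⌋ + b)) := fun b hb =>
      ih (fun i hi => h1 i (by omega)) fun u u' e1 e2 => h2 u u' (fun i hi => by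
        rcases (Nat.lt_succ_iff.1 hi).eq_or_lt with rfl | hi
        · simpa [e2 i le_rfl] using hb
        · exact e1 i hi) fun i hi => by
        simpa [update_of_ne (show i ≠ N by omega)] using e2 i (by omega)
    have k0 := key 0 (by simp)
    simp only [add_zero] at k0
    simp only [lam, k0, key 1 (by simp), h1 N (by simp)]

theorem lam_dep (v : (ℕ → ℤ) → X) {N : ℕ} {x x' : ℕ → ℝ} (h : ∀ i < N, x i = x' i) (w : ℕ → ℤ) :
    lam cv v N x w = lam cv v N x' w :=
  lam_shift (fun i hi => by rw [h i hi]) fun u u' e1 e2 => congrArg v (funext fun i => by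
    rcases lt_or_ge i N with hi | hi
    · simpa [h i hi] using (e1 i hi).1
    · rw [(e2 i hi).1, (e2 i hi).2])

theorem Cv.lam_dist (h : Cv B cv) {v : (ℕ → ℤ) → X} (hv : ∀ w, v w ∈ B) {N : ℕ} {x : ℕ → ℝ}
    {w : ℕ → ℤ} {x₀ : X} {η : ℝ} (hd : ∀ u : ℕ → ℤ, (∀ i < N, |u i - x i| < 1) →
      (∀ i, N ≤ i → u i = w i) → Dist.dist (v u) x₀ ≤ η) :
    Dist.dist (lam cv v N x w) x₀ ≤ 5 ^ dim (cellOf N x) * η := by
  induction N generalizing w with
  | zero => simpa [cellOf, lam] using hd w (by simp) (by simp)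
  | succ N ih =>
    have m := h.lam_mem hv N x
    have key : ∀ z : ℤ, |z - x N| < 1 →
        Dist.dist (lam cv v N x (update w N z)) x₀ ≤ 5 ^ dim (cellOf N x) * η := fun z hz =>
      ih fun u e1 e2 => hd u (fun i hi => by
        rcases (Nat.lt_succ_iff.1 hi).eq_or_lt with rfl | hi
        · simpa [e2 i le_rfl] using hz
        · exact e1 i hi) fun i hi => by
        simpa [update_of_ne (show i ≠ N by omega)] using e2 i (by omega)
    have k0 := key ⌊x N⌋ (abs_lt.2 ⟨by linarith [Int.lt_floor_add_one (x N)],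
      by linarith [Int.floor_le (x N)]⟩)
    have e : cellOf (N + 1) x = cellOf N x ++ [(⌊x N⌋, decide (Int.fract (x N) ≠ 0))] := by
      simp [cellOf, List.range_succ]
    rw [e, lam]
    by_cases h0 : Int.fract (x N) = 0
    · rw [h0, pI_of_le le_rfl, h.zero _ (m _) _ (m _)]
      simpa using k0
    · have k1 := key (⌊x N⌋ + 1) (abs_lt.2 ⟨by push_cast; linarith [Int.lt_floor_add_one (x N)], by
        push_cast
        linarith [Int.floor_add_fract (x N), lt_of_le_of_ne (Int.fract_nonneg (x N)) (Ne.symm h0)]⟩)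
      have := h.dist _ (m (update w N ⌊x N⌋)) _ (m (update w N (⌊x N⌋ + 1))) (pI (Int.fract (x N)))
      simp only [h0, ne_eq, not_false_eq_true, decide_true, dim_append, dim_true, dim_nil, zero_add,
        pow_succ]
      linarith [dist_triangle (cv (lam cv v N x (update w N ⌊x N⌋))
        (lam cv v N x (update w N (⌊x N⌋ + 1))) (pI (Int.fract (x N))))
        (lam cv v N x (update w N ⌊x N⌋)) x₀, dist_triangle_right (lam cv v N x (update w N ⌊x N⌋))
        (lam cv v N x (update w N (⌊x N⌋ + 1))) x₀]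

theorem good_faces {Z : Type} [TopologicalSpace Z] {W : Set Z} {Γ Γ' : (ℕ → ℝ) → Z} {c : Cell}
    (h : ∀ t, Γ (par c t) = Γ' (par c t) ∧ Γ' (par c t) ∈ W) (hc : Continuous Γ') (f : Cell)
    (hf : Face f c) : Good W (act f) (Γ ∘ par f) := by
  rw [comp_face (Ψ := Γ') hf (funext fun t => (h t).1)]
  refine good_par (hc.comp (continuous_par f)) fun t => ?_
  obtain ⟨t', e⟩ := hf.par t
  rw [e]
  exact (h t').2

variable {A : Type} [CommRing A] {d : ℕ} {Dd : X → (Fin d → I) → X} {o : X}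
  {a : ((ℕ → I) → X) → Finset ℕ → A}

/-- Data of a Thom class. -/
structure TD (B Y : Set X) (o : X) (d : ℕ) (Dd : X → (Fin d → I) → X)
    (a : ((ℕ → I) → X) → Finset ℕ → A) : Prop where
  cont : ContinuousOn (fun q : X × (Fin d → I) => Dd q.1 q.2) (B ×ˢ univ)
  bdry : ∀ x ∈ B, ∀ κ ∈ Cube.boundary (Fin d), Dd x κ ∈ Y
  cyc : ∀ T J, Good Y J T → dS a T J = 0
  tot : ∀ (e : Cell) (M : ℕ), dim e = 0 → 0 < M → (bsum (List.replicate d M) fun κ =>
    pb (dS a) (fun p => Dd o (sc e.length (List.replicate d M) d p)) (e ++ κ)) = 1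

theorem TD.comp (D : TD B Y o d Dd a) {P : Type} [TopologicalSpace P] {f : P → X}
    {g : P → Fin d → I} (hf : Continuous f) (hg : Continuous g) (h : ∀ p, f p ∈ B) :
    Continuous fun p => Dd (f p) (g p) :=
  D.cont.comp_continuous (hf.prodMk hg) fun p => ⟨h p, trivial⟩

theorem TD.thom (D : TD B Y o d Dd a) (h : Cv B cv) (ho : o ∈ B) {H : Type} [AddCommGroup H]
    [Module A H] {Z z : Cell → H} {N n M : ℕ} (hM : 0 < M) {Λ : (ℕ → ℝ) → X} (l1 : Continuous Λ)
    (l2 : ∀ p, Λ p ∈ B) (l3 : ∀ p p', (∀ i < N, p i = p' i) → Λ p = Λ p') (hZ : ∀ c, dl Z c = 0)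
    (h1 : ∀ e κ, e.length = N → κ.length = d → Z (e ++ κ ++ [(1, false)]) = 0)
    (h0 : ∀ e κ, e.length = N → κ.length = d →
      Z (e ++ κ ++ [(0, false)]) = if dim κ = 0 then z e else 0)
    (hz : ∀ e, dim e < n → z e = 0) {e : Cell} (he : e.length = N) (hn : dim e = n) :
    dl (thc Z (pb (dS a) fun p => Dd (Λ p) (sc N (List.replicate d M) d p))
      (List.replicate d M)) e = z e := by
  have hp : ∀ M' ∈ List.replicate d M, 0 < M' := fun _ h => List.eq_of_mem_replicate h ▸ hM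
  refine thomA hZ (fun c => by rw [← dl_pb, dl_dl]) (fun e κ he hκ => D.cyc _ _ (good_par
    ((D.comp l1 (by fun_prop) l2).comp (continuous_par _)) fun t =>
      D.bdry _ (l2 _) _ (he ▸ hκ.sc hp e (by simp) t)))
    (by simpa using h1) (by simpa using h0) hz (fun e he hd => ?_) he hn
  subst he
  have e1 := pb_prism (a := dS a) (Ms := List.replicate d M) hd
    (Δ := fun s p => Dd (cv o (Λ (par e 0)) s) (sc e.length (List.replicate d M) d p))
    (fun z κ hκ => D.cyc _ _ (good_par (Continuous.comp (D.comp (h.comp continuous_const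
      continuous_const (by fun_prop) (fun _ => ho) fun _ => l2 _) (by fun_prop)
        fun _ => h.mem _ ho _ (l2 _) _) (continuous_par _)) fun t => by
      rw [pr_par _ (by simp [hκ.1])]
      exact D.bdry _ (h.mem _ ho _ (l2 _) _) _ (hκ.sc hp e (by simp) t)))
    fun κ _ => by rw [← dl_pb, ← dl_pb, dl_dl]
  simp only [h.one _ ho _ (l2 _), h.zero _ ho _ (l2 _)] at e1
  rw [← D.tot e M hd hM, ← e1]
  refine bsum_congr fun κ _ => congrArg (dS a · _) (funext fun t => ?_)
  simp only [comp_apply]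
  rw [l3 _ (par e 0) fun i hi => by
    rw [par_left _ _ hi, par_congr (t' := 0) (by simp [Finset.card_eq_zero.1 ((card_act e).trans hd)])]]

theorem act_left (e κ : Cell) : act e ⊆ act (e ++ κ) := fun i hi => by
  rw [mem_act, gd_left _ (lt_of_act hi)]
  exact mem_act.1 hi

theorem trunc_par (e κ : Cell) (t : ℕ → I) :
    (fun i => if i < e.length then par (e ++ κ) t i else 0) = par e t := funext fun i => by
  split_ifs with h
  exacts [par_left _ _ h, (par_of_le (not_lt.1 h) _).symm]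

theorem par_last {c : Cell} {L : ℕ} (h : c.length = L) (z : ℤ) (t : ℕ → I) :
    par (c ++ [(z, false)]) t L = z := by
  subst h
  simp [par, show gd (c ++ [(z, false)]) c.length = (z, false) from gd_right c _ 0]

theorem TD.uns {a : ((ℕ → I) → X) → Finset ℕ → ℤ} (D : TD B Y o d Dd a) (h : Cv B cv) (ho : o ∈ B)
    (hB : IsCompact B) {k : ℕ} (hθ : ∀ φ : X → Fin (k + 3) → ℝ, Continuous φ → ∀ δ > 0,
      ∃ θ : X × (Fin d → I) → Fin (k + 3) → ℝ, ContinuousOn θ (B ×ˢ univ) ∧ ∀ x ∈ B, ∀ κ,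
        θ (x, κ) ≠ 0 ∧ (Dd x κ ∉ Y → Dist.dist (θ (x, κ)) (φ x) < δ))
    (hU : Uns (k + 4) B) : Uns (k + 3) B := by
  classical
  intro φ hφ δ hδ
  obtain ⟨ε, rfl⟩ : ∃ ε, δ = 4 * ε := ⟨δ / 4, by ring⟩
  have hε : 0 < ε := by linarith
  obtain ⟨b, hb⟩ := exists_obs (Y := ({0}ᶜ : Set (Fin (k + 3) → ℝ))) ⟨1, one_ne_zero⟩ (k := k)
    fun j hj => fill_punct (by omega)
  obtain ⟨θ, t1, t2⟩ := hθ φ hφ _ (half_pos hε)
  obtain ⟨η, hη, u1⟩ := Metric.uniformContinuousOn_iff_le.1
    ((hB.prod isCompact_univ).uniformContinuousOn_of_continuous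
      (t1.prodMk (hφ.comp continuous_fst).continuousOn)) _ (half_pos hε)
  obtain ⟨M, hM⟩ := exists_nat_one_div_lt hη
  obtain ⟨N, p, v, p1, p2, p3, v1, v2⟩ := hU.emap hB ho (η := η / 2 / 5 ^ (k + 3)) (by positivity)
  let Λ : (ℕ → ℝ) → X := fun q => lam cv v N q 0
  have l1 : Continuous Λ := h.lam_cont v1 N 0
  have l2 : ∀ q, Λ q ∈ B := fun q => h.lam_mem v1 N q 0
  have l3 : ∀ q q', (∀ i < N, q i = q' i) → Λ q = Λ q' := fun q q' e => lam_dep v e 0
  have uφ : ∀ x ∈ B, ∀ x' ∈ B, Dist.dist x x' ≤ η → Dist.dist (φ x) (φ x') ≤ ε / 2 :=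
    fun x hx x' hx' e => (le_max_right _ _).trans
      (u1 (x, 0) ⟨hx, trivial⟩ (x', 0) ⟨hx', trivial⟩ (by simpa [Prod.dist_eq] using e))
  let safe : Cell → Prop := fun e => e.length = N ∧ ∃ x ∈ B, 3 * ε ≤ ‖φ x‖ ∧
    ∀ t, Dist.dist (Λ (par e t)) x ≤ η / 2
  have sf : ∀ {f e}, Face f e → safe e → safe f := fun hf ⟨h1, x, hx, h2, h3⟩ =>
    ⟨hf.length_eq.trans h1, x, hx, h2, fun t => by obtain ⟨t', e⟩ := hf.par t; rw [e]; exact h3 _⟩
  have nz : ∀ {x : X} {w : Fin (k + 3) → ℝ}, 3 * ε ≤ ‖φ x‖ → Dist.dist w (φ x) ≤ 2 * ε → w ≠ 0 :=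
    fun h1 h2 e => by
      rw [e, dist_zero_left] at h2
      linarith
  obtain ⟨S, s1, s2⟩ := ext_grid (L := N) (fun _ => ({0}ᶜ : Set (Fin (k + 3) → ℝ)))
    (fun _ _ _ => subset_rfl) (φ ∘ Λ) (k + 3) fun _ _ => fill_punct
  have g3 : ∀ e, safe e → ∀ f, Face f e → Good {0}ᶜ (act f) ((φ ∘ Λ) ∘ par f) :=
    fun e ⟨_, x, hx, h2, h3⟩ => good_faces (fun t => ⟨rfl, nz h2
      ((uφ _ (l2 (par e t)) x hx (by linarith [h3 t])).trans (by linarith))⟩) (hφ.comp l1)
  have s3 : ∀ e, safe e → S ∘ par e = (φ ∘ Λ) ∘ par e := fun e he =>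
    s2 e he.1 fun f hf _ => g3 e he f hf
  let Ms := List.replicate d (M + 1)
  let Θ : (ℕ → ℝ) → Fin (k + 3) → ℝ := fun q => θ (Λ q, sc N Ms d q)
  have hΘ : Continuous Θ := t1.comp_continuous (by fun_prop) fun q => ⟨l2 q, trivial⟩
  let Γ' : (ℕ → ℝ) → Fin (k + 3) → ℝ := fun q =>
    φ (Λ q) + (pI (q (N + d)) : ℝ) • (Θ q - φ (Λ q))
  let Γ : (ℕ → ℝ) → Fin (k + 3) → ℝ := fun q =>
    if q (N + d) ≤ 0 then S fun i => if i < N then q i else 0 else Γ' q
  obtain ⟨Ψ, q1, q2⟩ := ext_grid (L := N + d + 1) (fun _ => ({0}ᶜ : Set (Fin (k + 3) → ℝ)))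
    (fun _ _ _ => subset_rfl) Γ (k + 3) fun _ _ => fill_punct
  have G0 : ∀ e κ : Cell, e.length = N → ∀ t, par (e ++ κ) t (N + d) ≤ 0 →
      Γ (par (e ++ κ) t) = S (par e t) := fun e κ he t h0 => by
    simp only [Γ, if_pos h0]
    rw [← he, trunc_par]
  let c := thc (pb (dS b) Ψ) (pb (dS a) fun p => Dd (Λ p) (sc N Ms d p)) Ms
  have c1 : ∀ e, e.length = N → dim e = k + 3 → dl c e = pb (dS b) S e := by
    refine fun e => D.thom (z := pb (dS b) S) h ho M.succ_pos l1 l2 l3 (fun c => by rw [← dl_pb, dl_dl])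
      (fun e κ he hκ => ?_) (fun e κ he hκ => ?_) fun e he =>
        dS_card hb.card _ _ (by rw [card_act]; omega)
    · have := good_faces (W := {0}ᶜ) (Γ := Γ) (c := e ++ κ ++ [(1, false)]) (fun t => ⟨by
        simp only [Γ, Γ', par_last (show (e ++ κ).length = N + d by simp [he, hκ])]
        simp [pI_of_ge],
        (t2 _ (l2 _) _).1⟩) hΘ
      rw [pb, q2 _ (by simp [he, hκ, add_assoc]) fun f hf _ => this f hf]
      exact hb.cyc _ _ (this _ Face.rfl)
    · have h5 := fun t => (par_last (show (e ++ κ).length = N + d by simp [he, hκ]) 0 t).le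
      rw [pb, q2 _ (by simp [he, hκ, add_assoc]) fun f hf h3 => ?_]
      · rw [show Γ ∘ par (e ++ κ ++ [(0, false)]) = S ∘ par e from funext fun t => by
          have := h5 t
          rw [List.append_assoc] at this ⊢
          exact G0 _ _ he t (by simpa using this), act_vertex (κ := [(0, false)]) _ rfl]
        split_ifs with h4
        · rw [act_vertex _ h4]
          rfl
        · rcases lt_or_ge (dim e) (k + 3) with h6 | h6
          · exact hb.cyc _ _ ((s1 e he h6).mono subset_rfl (act_left _ _))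
          · exact dS_card hb.card _ _ (by rw [card_act, dim_append]; omega)
      · rw [List.append_assoc] at hf h5
        obtain ⟨f₁, f₂, rfl, e1, -⟩ := hf.split
        rw [show Γ ∘ par (f₁ ++ f₂) = S ∘ par f₁ from funext fun t => by
          obtain ⟨t', e2⟩ := hf.par t
          exact G0 _ _ (e1.length_eq.trans he) t (by rw [e2]; simpa using h5 t')]
        exact (s1 f₁ (e1.length_eq.trans he) (by rw [dim_append] at h3; omega)).mono subset_rfl
          (act_left _ _)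
  have c2 : ∀ e, safe e → c e = 0 := fun e he => thc_zero fun κ hκ => by
    by_cases hY : ∀ t, Dd (Λ (par (e ++ κ) t)) (sc N Ms d (par (e ++ κ) t)) ∈ Y
    · exact Or.inr fun f hf => D.cyc _ _ (good_faces (fun t => ⟨rfl, hY t⟩)
        (D.comp l1 (by fun_prop) l2) f hf)
    obtain ⟨t₀, hY⟩ := not_forall.1 hY
    obtain ⟨h1, x, hx, h2, h3⟩ := id he
    have hl : (e ++ κ).length = N + d := by simp [h1, hκ.length_eq, Ms]
    have e1 : ∀ (κ : Cell) t, Λ (par (e ++ κ) t) = Λ (par e t) := fun κ t =>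
      l3 _ _ fun i hi => par_left _ _ (h1 ▸ hi)
    have := good_faces (W := {0}ᶜ) (Γ := Γ) (Γ' := Γ') (c := e ++ κ ++ [(0, true)]) (fun t => ⟨by
      by_cases h0 : par (e ++ κ ++ [(0, true)]) t (N + d) ≤ 0
      · simp only [Γ', pI_of_le h0]
        rw [List.append_assoc] at h0 ⊢
        rw [G0 _ _ h1 _ h0, e1]
        simpa using congrFun (s3 e he) t
      · exact if_neg h0, nz h2 (by
      have e2 : sc N Ms d (par (e ++ κ ++ [(0, true)]) t) = sc N Ms d (par (e ++ κ) t) :=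
        funext fun i => by simp only [sc]; rw [par_left _ _ (by rw [hl]; omega)]
      have a1 := (t2 _ (l2 _) _).2 hY
      have a2 := u1 (Λ (par e t), sc N Ms d (par (e ++ κ) t)) ⟨l2 _, trivial⟩
        (Λ (par e t₀), sc N Ms d (par (e ++ κ) t₀)) ⟨l2 _, trivial⟩ (max_le
          (by linarith [dist_triangle_right (Λ (par e t)) (Λ (par e t₀)) x, h3 t, h3 t₀])
          ((dist_sc (M := M + 1) (fun _ h => (List.eq_of_mem_replicate h).ge) M.succ_pos
            (by simp) _ _ _).trans (by exact_mod_cast hM.le)))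
      have a3 := uφ _ (l2 (par e t)) x hx (by linarith [h3 t])
      simp only [Γ', Θ, e2]
      simp only [List.append_assoc, e1] at a1 ⊢
      have a4 := (le_max_left _ _).trans a2
      have a5 := (le_max_right _ _).trans a2
      simp only [comp_apply] at a4 a5
      refine (dist_triangle _ (φ (Λ (par e t))) _).trans ?_
      rw [dist_self_add_left, norm_smul, ← dist_eq_norm, Real.norm_eq_abs,
        abs_of_nonneg (pI _).2.1]
      have a6 := dist_triangle4 (θ (Λ (par e t), sc N Ms d (par (e ++ κ) t)))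
        (θ (Λ (par e t₀), sc N Ms d (par (e ++ κ) t₀))) (φ (Λ (par e t₀))) (φ (Λ (par e t)))
      rw [dist_comm (φ (Λ (par e t₀)))] at a6
      linarith [mul_le_of_le_one_left (dist_nonneg (x := θ (Λ (par e t),
        sc N Ms d (par (e ++ κ) t))) (y := φ (Λ (par e t))))
        (pI (par (e ++ (κ ++ [(0, true)])) t (N + d))).2.2])⟩) (by fun_prop)
    refine Or.inl fun f hf => ?_
    have hf' := hf.append (Face.rfl (c := [(0, true)]))
    rw [pb, q2 _ (by simp [hf.length_eq, hl]) fun g hg _ => this g (hg.trans hf')]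
    exact hb.cyc _ _ (this _ hf')
  choose! T T1 T2 T3 using fun (e : Cell) (he : e.length = N ∧ dim e = k + 2 ∧ c e ≠ 0) =>
    hb.val _ _ ((card_act e).trans he.2.1) (s1 e he.1 (by omega)) (pb b S e - c e)
  obtain ⟨S₁, r1, r2⟩ := step (L := N) (d := k + 2) S {e | e.length = N ∧ dim e = k + 2 ∧ c e ≠ 0} T
    fun e he => ⟨he.1, he.2.1, (T1 e he).dep, T2 e he⟩
  have r3 : ∀ e : Cell, e.length = N → dim e < k + 3 → Good {0}ᶜ (act e) (S₁ ∘ par e) ∧
      (dim e = k + 2 → pb b S₁ e = pb b S e - c e) := fun e h1 h2 => by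
    by_cases he : e.length = N ∧ dim e = k + 2 ∧ c e ≠ 0
    · rw [pb, r1 e he]
      exact ⟨T1 e he, fun _ => T3 e he⟩
    · rw [pb, r2 e h1 fun f hf hS => he (by
        rwa [← hf.dim_le.2 (by have := hf.dim_le.1; have := hS.2.1; omega)])]
      exact ⟨s1 e h1 h2, fun h3 => by rw [not_not.1 fun h4 => he ⟨h1, h3, h4⟩, sub_zero, pb]⟩
  choose! T' T1' T2' using fun (e : Cell)
    (he : e.length = N ∧ dim e = k + 3 ∧ ¬Good {0}ᶜ (act e) (S₁ ∘ par e)) =>
    hb.fill _ _ ((card_act e).trans he.2.1) (gb_par fun f hf h1 =>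
      (r3 f (hf.length_eq.trans he.1) (by omega)).1) (by
      change pb (dS b) S₁ e = 0
      rw [← dl_pb, dl_congr (v := fun f => pb b S f - c f) fun f hf h1 =>
        (r3 f (hf.length_eq.trans he.1) (by omega)).2 (by omega), dl_sub, c1 e he.1 he.2.1, dl_pb,
        sub_self])
  obtain ⟨S₂, w1, w2⟩ := step (L := N) (d := k + 3) S₁
    {e | e.length = N ∧ dim e = k + 3 ∧ ¬Good {0}ᶜ (act e) (S₁ ∘ par e)} T'
    fun e he => ⟨he.1, he.2.1, (T1' e he).dep, T2' e he⟩
  have w3 : ∀ e : Cell, e.length = N → dim e ≤ k + 3 → Good {0}ᶜ (act e) (S₂ ∘ par e) :=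
    fun e h1 h2 => by
    by_cases he : e.length = N ∧ dim e = k + 3 ∧ ¬Good {0}ᶜ (act e) (S₁ ∘ par e)
    · rw [w1 e he]
      exact T1' e he
    · rw [w2 e h1 fun f hf hS => he (by
        rwa [← hf.dim_le.2 (by have := hf.dim_le.1; have := hS.2.1; omega)])]
      by_contra g
      exact he ⟨h1, by_contra fun e' => g (r3 e h1 (by omega)).1, g⟩
  have w4 : ∀ e, safe e → S₂ ∘ par e = (φ ∘ Λ) ∘ par e := fun e he => by
    have e1 := (r2 e he.1 fun f hf hS => hS.2.2 (c2 f (sf hf he))).trans (s3 e he)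
    rw [w2 e he.1 fun f hf hS => hS.2.2 (by rw [comp_face hf e1]; exact g3 e he f hf), e1]
  have hc := glue_grid (Ψ := S₂) (S := {e | dim e ≤ k + 3}) (fun e h1 h2 => (w3 e h2 h1).cont)
    p1.continuousOn (fun x _ => p2 x) p3
  have hn : ∀ x ∈ B, S₂ (p x) ≠ 0 := fun x hx => by
    rw [← par_cellOf (p2 x)]
    exact (w3 _ (by simp) (p3 x hx)).mem _
  refine ⟨fun x => φ x + (3 * ε / ‖S₂ (p x)‖) • S₂ (p x), hφ.continuousOn.add
    ((continuousOn_const.div hc.norm fun x hx => norm_ne_zero_iff.2 (hn x hx)).smul hc),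
    fun x hx => ?_⟩
  have n0 := norm_pos_iff.2 (hn x hx)
  have n1 : ‖(3 * ε / ‖S₂ (p x)‖) • S₂ (p x)‖ = 3 * ε := by
    rw [norm_smul, Real.norm_eq_abs, abs_of_pos (by positivity), div_mul_cancel₀ _ n0.ne']
  refine ⟨fun h0 => ?_, by rw [dist_self_add_left, n1]; linarith⟩
  have e0 := eq_neg_of_add_eq_zero_left h0
  have hd : ∀ t, Dist.dist (Λ (par (cellOf N (p x)) t)) x ≤ η / 2 := fun t => by
    refine (h.lam_dist v1 fun u h1 _ => v2 x hx u fun i hi => ?_).trans ?_
    · have b1 := par_mem (cellOf N (p x)) t i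
      rw [gd_cellOf hi] at b1
      have b2 := abs_lt.1 (h1 i hi)
      exact abs_lt.2 ⟨by linarith [b1.1, Int.lt_floor_add_one (p x i)],
        by linarith [b1.2, Int.floor_le (p x i)]⟩
    · have b1 := (cellOf_face (cellOf N (p x)) t).dim_le.1.trans (p3 x hx)
      rw [length_cellOf] at b1
      rw [← le_div_iff₀ (by positivity), div_div_cancel₀ (by positivity)]
      exact pow_le_pow_right₀ (by norm_num) b1
  have b1 := congrFun (w4 _ ⟨by simp, x, hx, by rw [e0, norm_neg, n1], hd⟩)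
    fun i => pI (Int.fract (p x i))
  have b2 := uφ _ (l2 _) x hx ((hd fun i => pI (Int.fract (p x i))).trans (half_le_self hη.le))
  simp only [comp_apply, par_cellOf (p2 x)] at b1 b2
  rw [← b1, e0, dist_eq_norm, sub_neg_eq_add, show S₂ (p x) + (3 * ε / ‖S₂ (p x)‖) • S₂ (p x) =
    (1 + 3 * ε / ‖S₂ (p x)‖) • S₂ (p x) by rw [add_smul, one_smul], norm_smul,
    Real.norm_eq_abs, abs_of_pos (by positivity), add_mul, div_mul_cancel₀ _ n0.ne'] at b2
  linarith

end Pool.Agent.P.MP_07c576_gt
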