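import Pool.Agent.Lib.helper5.DegreeB

/-! General topological tools. -/

namespace Pool.Agent.P.MP_07c576_gt

open Set Metric Topology Filter unitInterval

/-- The cube `[-1, 1] ^ 4`. -/
abbrev Q4 : Type := closedBall (0 : Fin 4 → ℝ) 1

theorem Q4_abs (z : Q4) (i : Fin 4) : |z.1 i| ≤ 1 :=
  (norm_le_pi_norm z.1 i).trans (mem_closedBall_zero_iff.1 z.2)

/-- Truncation to `[0, 1]`. -/
noncomputable def cl (t : ℝ) : ℝ := max 0 (min 1 t)

@[fun_prop] theorem continuous_cl : Continuous cl := by unfold cl; fun_prop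

theorem cl_nonneg (t : ℝ) : 0 ≤ cl t := le_max_left _ _

theorem cl_le_one (t : ℝ) : cl t ≤ 1 := max_le zero_le_one (min_le_left _ _)

theorem cl_mem (t : ℝ) : cl t ∈ Icc (0 : ℝ) 1 := ⟨cl_nonneg t, cl_le_one t⟩

theorem cl_of_le {t : ℝ} (h : t ≤ 0) : cl t = 0 := max_eq_left ((min_le_right _ _).trans h)

theorem cl_of_ge {t : ℝ} (h : 1 ≤ t) : cl t = 1 := by
  rw [cl, min_eq_left h, max_eq_right zero_le_one]

theorem cl_of_mem {t : ℝ} (h0 : 0 ≤ t) (h1 : t ≤ 1) : cl t = t := by
  rw [cl, min_eq_right h1, max_eq_right h0]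

theorem cl_pos {t : ℝ} (h : 0 < t) : 0 < cl t := lt_max_of_lt_right (lt_min one_pos h)

theorem exists_retr_Q4 : ∃ r : (Fin 4 → ℝ) → Q4, Continuous r ∧ ∀ z : Q4, r z.1 = z := by
  refine ⟨fun z => ⟨fun i => max (-1) (min 1 (z i)), ?_⟩, ?_, fun z => Subtype.ext ?_⟩
  · rw [mem_closedBall_zero_iff, pi_norm_le_iff_of_nonneg zero_le_one]
    intro i
    rw [Real.norm_eq_abs, abs_le]
    exact ⟨le_max_left _ _, max_le (by norm_num) (min_le_left _ _)⟩
  · fun_prop
  · funext i
    have := abs_le.1 (Q4_abs z i)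
    simp only
    rw [min_eq_right this.2, max_eq_right this.1]

/-- The Poincare-Miranda theorem. -/
theorem miranda {F : Q4 → Fin 4 → ℝ} (hF : Continuous F)
    (hp : ∀ z i, z.1 i = 1 → 0 < F z i) (hm : ∀ z i, z.1 i = -1 → F z i < 0) : ∃ z, F z = 0 := by
  obtain ⟨r, hr, hr'⟩ := exists_retr_Q4
  have h1 := Pool.Agent.Lib.helper5.deg_id_pos (E := Fin 4 → ℝ) (U := ball 0 1) isOpen_ball
    isBounded_ball (mem_ball_self one_pos)
  have h2 := Pool.Agent.Lib.helper5.deg_homotopy (E := Fin 4 → ℝ) (F := fun t => t - 0)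
    (G := F ∘ r) (U := ball 0 1) (by fun_prop) (hF.comp hr) isOpen_ball isBounded_ball (by
      intro t ht τ hτ h0
      rw [frontier_ball _ one_ne_zero, mem_sphere_zero_iff_norm] at ht
      let z : Q4 := ⟨t, mem_closedBall_zero_iff.2 ht.le⟩
      obtain ⟨i, hi⟩ : ∃ i, |t i| = 1 := by
        by_contra h
        push Not at h
        have : ‖t‖ < 1 := (pi_norm_lt_iff one_pos).2 fun i =>
          lt_of_le_of_ne (Q4_abs z i) (h i)
        linarith
      have h3 := congrFun h0 i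
      have h4 : r t = z := hr' z
      simp only [sub_zero, Function.comp_apply, h4, Pi.add_apply, Pi.smul_apply, smul_eq_mul,
        Pi.zero_apply] at h3
      rcases abs_eq (zero_le_one) |>.1 hi with h | h
      · have := hp z i h
        rw [h] at h3
        rcases hτ.1.eq_or_lt with h5 | h5
        · rw [← h5] at h3; norm_num at h3
        · nlinarith [mul_pos h5 this, hτ.2]
      · have := hm z i h
        rw [h] at h3
        rcases hτ.1.eq_or_lt with h5 | h5
        · rw [← h5] at h3; norm_num at h3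
        · nlinarith [mul_pos h5 (neg_pos.2 this), hτ.2])
  obtain ⟨t, -, ht⟩ := Pool.Agent.Lib.helper5.exists_zero_of_deg_ne_zero (hF.comp hr) isOpen_ball
    isBounded_ball (h2 ▸ h1.ne')
  exact ⟨r t, ht⟩

/-- Gluing along the integers. -/
theorem continuous_glue {P X : Type*} [TopologicalSpace P] [TopologicalSpace X]
    {F : ℤ → P → ℝ → X} (hF : ∀ i, Continuous fun q : P × ℝ => F i q.1 q.2)
    (h : ∀ i p, F i p 1 = F (i + 1) p 0) :
    Continuous fun q : P × ℝ => F ⌊q.2⌋ q.1 (Int.fract q.2) := by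
  refine LocallyFinite.continuous (f := fun i : ℤ => {q : P × ℝ | q.2 ∈ Icc (i : ℝ) (i + 1)})
    (fun q => ?_) ?_ (fun i => isClosed_Icc.preimage continuous_snd) (fun i => ?_)
  · refine ⟨{q' | q'.2 ∈ Ioo (q.2 - 1) (q.2 + 1)},
      (isOpen_Ioo.preimage continuous_snd).mem_nhds ⟨by linarith, by linarith⟩, ?_⟩
    refine (Set.finite_Icc (⌊q.2⌋ - 2) (⌊q.2⌋ + 2)).subset ?_
    rintro i ⟨q', h1, h2⟩
    have h3 := Int.floor_le q.2
    have h4 := Int.lt_floor_add_one q.2
    constructor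
    · have : ((⌊q.2⌋ - 2 : ℤ) : ℝ) ≤ i := by push_cast; linarith [h1.2, h2.1]
      exact_mod_cast this
    · have : (i : ℝ) ≤ ((⌊q.2⌋ + 2 : ℤ) : ℝ) := by push_cast; linarith [h1.1, h2.2]
      exact_mod_cast this
  · refine eq_univ_of_forall fun q => mem_iUnion.2 ⟨⌊q.2⌋, Int.floor_le _, ?_⟩
    exact (Int.lt_floor_add_one _).le
  · refine ContinuousOn.congr (f := fun q : P × ℝ => F i q.1 (q.2 - i))
      ((hF i).comp (f := fun q : P × ℝ => (q.1, q.2 - i)) (by fun_prop)).continuousOn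
      fun q hq => ?_
    rcases hq.2.eq_or_lt with h1 | h1
    · have h2 : q.2 = ((i + 1 : ℤ) : ℝ) := by rw [h1]; push_cast; rfl
      simp only
      rw [h2, Int.floor_intCast, Int.fract_intCast, ← h]
      congr 1
      push_cast; ring
    · have h2 : ⌊q.2⌋ = i := Int.floor_eq_iff.2 ⟨hq.1, h1⟩
      simp only [Int.fract, h2]

/-- Tube lemma along a graph. -/
theorem tube {P X : Type*} [PseudoMetricSpace P] [CompactSpace P] [PseudoMetricSpace X]
    {f : P → X} (hf : Continuous f) {N : Set (P × X)} (hN : ∀ z, N ∈ 𝓝 (z, f z)) :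
    ∃ ζ > 0, ∀ z x, dist x (f z) < ζ → (z, x) ∈ N := by
  have hc : IsCompact (range fun z => (z, f z)) := isCompact_range (by fun_prop)
  obtain ⟨ζ, hζ, h⟩ := hc.exists_thickening_subset_open isOpen_interior (t := interior N) (by
    rintro _ ⟨z, rfl⟩
    exact mem_interior_iff_mem_nhds.2 (hN z))
  refine ⟨ζ, hζ, fun z x hx => interior_subset (h ?_)⟩
  rw [mem_thickening_iff]
  exact ⟨_, ⟨z, rfl⟩, by simpa [Prod.dist_eq, hζ] using hx⟩

/-- Uniform continuity of a function along a graph. -/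
theorem tube_dist {P X Y : Type*} [PseudoMetricSpace P] [CompactSpace P] [PseudoMetricSpace X]
    [PseudoMetricSpace Y] {f : P → X} (hf : Continuous f) {Φ : P × X → Y}
    (hΦ : ∀ z, ContinuousAt Φ (z, f z)) {ξ : ℝ} (hξ : 0 < ξ) :
    ∃ ζ > 0, ∀ z x, dist x (f z) < ζ → dist (Φ (z, x)) (Φ (z, f z)) < ξ := by
  refine tube hf (N := {q | dist (Φ q) (Φ (q.1, f q.1)) < ξ}) fun z => ?_
  have h1 : ContinuousAt (fun q : P × X => Φ (q.1, f q.1)) (z, f z) :=
    ContinuousAt.comp (f := fun q : P × X => (q.1, f q.1)) (hΦ z) (by fun_prop)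
  have h2 := (hΦ z).dist h1
  exact h2.eventually (gt_mem_nhds (by simpa using hξ))

/-- A function with closed graph and values in a compact set is continuous. -/
theorem continuousOn_of_closed {P X : Type*} [TopologicalSpace P] [TopologicalSpace X]
    {D : Set P} {K : Set X} (hK : IsCompact K) {R : Set (P × X)} (hR : IsClosed R) {g : P → X}
    (hg : ∀ w ∈ D, g w ∈ K ∧ (w, g w) ∈ R) (hu : ∀ w ∈ D, ∀ x, (w, x) ∈ R → x = g w) :
    ContinuousOn g D := by
  intro w hw
  refine hK.tendsto_nhds_of_unique_mapClusterPt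
    (eventually_mem_nhdsWithin.mono fun w' hw' => (hg w' hw').1) fun x _ hx => hu w hw x ?_
  obtain ⟨U, hU, hU'⟩ := mapClusterPt_iff_ultrafilter.1 hx
  refine hR.mem_of_tendsto (f := fun w' => (w', g w')) (b := (U : Filter P))
    (Tendsto.prodMk_nhds (hU.trans nhdsWithin_le_nhds) hU') ?_
  exact hU (eventually_mem_nhdsWithin.mono fun w' hw' => (hg w' hw').2)

/-- Finitely many open sets that are dense in an open set have a common point there. -/
theorem exists_mem_all {M ι : Type*} [TopologicalSpace M] (s : Finset ι) (O : ι → Set M)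
    (hO : ∀ i ∈ s, IsOpen (O i)) {N : Set M} (hN : IsOpen N) (hne : N.Nonempty)
    (hd : ∀ i ∈ s, N ⊆ closure (O i)) : ∃ x ∈ N, ∀ i ∈ s, x ∈ O i := by
  induction s using Finset.cons_induction generalizing N with
  | empty => obtain ⟨x, hx⟩ := hne; exact ⟨x, hx, by simp⟩
  | cons a s ha ih =>
    obtain ⟨x, hx⟩ := hne
    obtain ⟨y, hy, h⟩ := ih (fun i hi => hO i (Finset.mem_cons_of_mem hi))
      (hN.inter (hO a (Finset.mem_cons_self _ _)))
      (mem_closure_iff.1 (hd a (Finset.mem_cons_self _ _) hx) N hN hx)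
      (fun i hi => inter_subset_left.trans (hd i (Finset.mem_cons_of_mem hi)))
    exact ⟨y, hy.1, Finset.forall_mem_cons _ _ |>.2 ⟨hy.2, h⟩⟩

end Pool.Agent.P.MP_07c576_gt
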