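import Pool.Agent.P.MP_07c576_gt.Thom

/-! Torsion and finite generation. -/

set_option linter.unusedSectionVars false

namespace Pool.Agent.P.MP_07c576_gt

open Set Metric Topology Filter unitInterval Function
open scoped Topology.Homotopy

variable {X : Type} [MetricSpace X] {B B' Y : Set X} {cv cv' : X → X → I → X} {y : Y} {k : ℕ}
  {a : ((ℕ → I) → X) → Finset ℕ → PG k Y y} {A : Type} [CommRing A] {o : X}

open Classical in
/-- The obstruction cochain with new coefficients, extended by zero. -/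
noncomputable def rs (χ : PG k Y y →+ A) (a : ((ℕ → I) → X) → Finset ℕ → PG k Y y)
    (T : (ℕ → I) → X) (J : Finset ℕ) : A := if ∀ t, T t ∈ Y then χ (a T J) else 0

theorem Obs.rs_cyc (h : Obs Y y k a) (χ : PG k Y y →+ A) (T : (ℕ → I) → X) (J : Finset ℕ)
    (g : Good Y J T) : dS (rs χ a) T J = 0 := by
  have := congrArg χ (h.cyc T J g)
  rw [map_zero] at this
  rw [← this, dS, dS, map_sum]
  refine Finset.sum_congr rfl fun i _ => ?_
  rw [rs, rs, if_pos (g.face i true).mem, if_pos (g.face i false).mem, map_zsmul, map_sub]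

theorem Obs.rs_const (h : Obs Y y k a) (χ : PG k Y y →+ A) {T : (ℕ → I) → X} (hT : ∀ t, T t = y)
    (J : Finset ℕ) : rs χ a T J = 0 := by
  simp [rs, h.const hT]

theorem dl_vertex {H : Type} [AddCommGroup H] (u : Cell → H) {e : Cell} (he : dim e = 0) (κ : Cell) :
    dl u (e ++ κ) = dl (fun κ => u (e ++ κ)) κ := by
  rw [dl_append, dl_of_dim he, he, pow_zero, one_smul, zero_add]

/-- The cone over a loop. -/
def cn (cv : X → X → I → X) (α : Ω^ (Fin (k + 2)) Y y) (κ : Fin (k + 3) → I) : X :=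
  cv (α (Fin.init κ)) y (κ (Fin.last _))

theorem Obs.cone (h : Obs Y y k a) (c : Cv B' cv') (hY : Y ⊆ B') (χ : PG k Y y →+ A)
    (α : Ω^ (Fin (k + 2)) Y y) (e : Cell) (M : ℕ) (he : dim e = 0) (hM : 0 < M) :
    (bsum (List.replicate (k + 3) M) fun κ => pb (dS (rs χ a))
      (fun p => cn cv' α (sc e.length (List.replicate (k + 3) M) (k + 3) p)) (e ++ κ)) =
      -((-1 : ℤ) ^ k • χ (cls α)) := by
  have hp : ∀ M' ∈ List.replicate (k + 2) M, 0 < M' := fun _ h => List.eq_of_mem_replicate h ▸ hM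
  have e1 : ∀ p, cn cv' α (sc e.length (List.replicate (k + 3) M) (k + 3) p) =
      cv' (α (sc e.length (List.replicate (k + 2) M) (k + 2) p)) y
        (pI (p (e.length + (k + 2)) / M)) := fun p => by
    unfold cn
    congr 3
    · funext i
      simp only [Fin.init, sc, Fin.val_castSucc]
      rw [List.getD_replicate _ i.2, List.getD_replicate _ (by omega)]
    · simp only [sc, Fin.val_last]
      rw [List.getD_replicate _ (by omega)]
  have e2 : ∀ (κ : Cell) (z : ℤ) t, InB (List.replicate (k + 2) M) κ →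
      par (e ++ (κ ++ [(z, false)])) t (e.length + (k + 2)) = z := fun κ z t hκ => by
    rw [← List.append_assoc, par_last (by simp [hκ.length_eq])]
  simp only [e1, ← dl_pb, dl_vertex _ he]
  generalize hΦ : (fun p => cv' (α (sc e.length (List.replicate (k + 2) M) (k + 2) p)) y
    (pI (p (e.length + (k + 2)) / M))) = Φ
  have b1 : ∀ z κ, OnB (List.replicate (k + 2) M) κ →
      pb (rs χ a) Φ (e ++ (κ ++ [(z, true)])) = 0 := fun z κ hκ => h.rs_const χ (fun t => by
    have := hκ.sc hp e (d := k + 2) (by simp) t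
    rw [← hΦ, comp_apply, show sc e.length (List.replicate (k + 2) M) (k + 2)
      (par (e ++ (κ ++ [(z, true)])) t) = sc e.length (List.replicate (k + 2) M) (k + 2)
        (par (e ++ κ) t) from funext fun i => by
      simp only [sc]
      rw [← List.append_assoc, par_left _ _ (by simp [hκ.1])],
      show α _ = y from α.2 _ this, c.self (hY y.2)]) _
  have b2 : ∀ κ, InB (List.replicate (k + 2) M) κ →
      pb (rs χ a) Φ (e ++ (κ ++ [((M : ℤ), false)])) = 0 := fun κ hκ => h.rs_const χ (fun t => by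
    rw [← hΦ, comp_apply, e2 _ _ _ hκ, pI_of_ge (by
      rw [Int.cast_natCast, div_self (by exact_mod_cast hM.ne')]),
      c.one _ (hY (α _).2) _ (hY y.2)]) _
  have b3 : ∀ κ, InB (List.replicate (k + 2) M) κ → pb (rs χ a) Φ (e ++ (κ ++ [(0, false)])) =
      χ (pb a (fun p => α (sc e.length (List.replicate (k + 2) M) (k + 2) p)) (e ++ κ)) := by
    intro κ hκ
    have : Φ ∘ par (e ++ (κ ++ [(0, false)])) =
        (fun p => (α (sc e.length (List.replicate (k + 2) M) (k + 2) p) : X)) ∘ par (e ++ κ) := by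
      funext t
      rw [← hΦ, comp_apply, e2 _ _ _ hκ, pI_of_le (by simp), c.zero _ (hY (α _).2) _ (hY y.2),
        comp_apply]
      congr 2
      funext i
      simp only [sc]
      rw [← List.append_assoc, par_left _ _ (by simp [hκ.length_eq])]
    rw [pb, this, rs, if_pos (by intro t; exact Subtype.property _), ← List.append_assoc,
      act_vertex (κ := [(0, false)]) _ rfl, pb]
  rw [List.replicate_succ' (n := k + 2), stokes_last M b1, bsum_zero b2, bsum_congr b3, bsum_hom,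
    h.subdiv α he hp (by simp)]
  simp [pow_add]

/-- The periodic repetition of a loop. -/
noncomputable def per (α : Ω^ (Fin (k + 2)) Y y) (u : ℝ) (w : Fin (k + 2) → I) : Y :=
  α (update w 0 (pI (Int.fract u)))

theorem per_int (α : Ω^ (Fin (k + 2)) Y y) (z : ℤ) (s : I) (w : Fin (k + 2) → I) :
    per α (z + s) w = α (update w 0 s) := by
  rcases s.2.2.eq_or_lt with h | h
  · rw [per, h, show α (update w 0 s) = y from α.2 _ ⟨0, Or.inr (by simpa using h)⟩]
    exact α.2 _ ⟨0, Or.inl (by simp [pI_of_le])⟩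
  · rw [per, Int.fract_intCast_add, Int.fract_eq_self.2 ⟨s.2.1, h⟩, pI_val]

theorem continuous_per (α : Ω^ (Fin (k + 2)) Y y) :
    Continuous fun q : (Fin (k + 2) → I) × ℝ => per α q.2 q.1 :=
  continuous_glue (F := fun _ w s => α (update w 0 (pI s))) (fun _ => by fun_prop) fun _ w =>
    (α.2 _ ⟨0, Or.inr (by simp [pI_of_ge])⟩).trans (α.2 _ ⟨0, Or.inl (by simp [pI_of_le])⟩).symm

theorem act_congr {c c' : Cell} (h : ∀ i, (gd c i).2 = (gd c' i).2) : act c = act c' := by
  ext i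
  rw [mem_act, mem_act, h]

theorem Obs.exists_nu (h : Obs Y y k a) (α : Ω^ (Fin (k + 2)) Y y) {N : ℕ} (hN : 0 < N)
    (h0 : N • cls α = 0) : ∃ ν : (Fin (k + 3) → I) → Y, Continuous ν ∧
      (∀ x, x 0 = 0 → ν x = per α (N * x 1) (Fin.tail x)) ∧
      ∀ x i b, x i = bI b → i ≠ 0 ∨ b = true → ν x = y := by
  let β : Ω^ (Fin (k + 2)) Y y := ⟨⟨fun w => per α (N * w 0) w,
    (continuous_per α).comp (f := fun w : Fin (k + 2) → I => (w, (N : ℝ) * w 0)) (by fun_prop)⟩, by
      rintro w ⟨i, hi⟩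
      by_cases e : i = 0
      · subst e
        exact α.2 _ ⟨0, Or.inl (by rcases hi with hi | hi <;> simp [hi, pI_of_le])⟩
      · exact α.2 _ ⟨i, by rwa [update_of_ne e]⟩⟩
  have hβ : cls β = 0 := by
    rw [← h0, ← h.subdiv β (e := []) rfl (Ms := N :: List.replicate (k + 1) 1) (by simp [hN])
      (by simp), ← h.subdiv α (e := []) rfl (Ms := 1 :: List.replicate (k + 1) 1) (by simp) (by simp)]
    simp only [bsum, Finset.sum_range_one, List.nil_append]
    rw [← Finset.card_range N, ← Finset.sum_const, Finset.card_range]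
    refine Finset.sum_congr rfl fun z hz => congrArg _ (funext fun κ => ?_)
    rw [pb, pb, act_congr (c' := (((0 : ℕ) : ℤ), true) :: κ) fun i => by cases i <;> rfl]
    congr 1
    funext t
    have hz' : (z : ℝ) + 1 ≤ N := by exact_mod_cast Finset.mem_range.1 hz
    have hN' : (0 : ℝ) < N := by exact_mod_cast hN
    have e : (N : ℝ) * sc 0 (N :: List.replicate (k + 1) 1) (k + 2) (par ((z, true) :: κ) t) 0 =
        (z : ℤ) + t 0 := by
      simp only [sc, par, Fin.val_zero, add_zero, gd_zero, if_true, List.getD_cons_zero]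
      have e0 : (((z : ℕ) : ℤ) : ℝ) = z := Int.cast_natCast z
      have e1 : (0 : ℝ) ≤ z := Nat.cast_nonneg z
      rw [pI_coe (div_nonneg (by linarith [(t 0).2.1]) hN'.le)
        ((div_le_one hN').2 (by linarith [(t 0).2.2])), mul_div_cancel₀ _ hN'.ne']
    change ((per α (N * sc 0 _ _ _ 0) _ : Y) : X) = _
    rw [e, per_int]
    congr 2
    funext i
    refine Fin.cases ?_ (fun i => ?_) i
    · simp [sc, par]
    · simp [sc, par]
  obtain ⟨Φ, h1, h2⟩ := (hal.2 (show alt (fun (_ : Fin (k + 3)) _ => (0 : PG k Y y)) = 0 by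
    simp [alt])).repl (fun p b => if p = 0 ∧ b = false then β else GenLoop.const) fun p b => by
      split_ifs
      exacts [hβ, rfl]
  refine ⟨Φ, h1, fun x hx => (h2 0 false x hx).trans (by simp; rfl), fun x i b hx hi => ?_⟩
  rw [h2 i b x hx]
  beta_reduce
  rw [if_neg (by rcases hi with hi | hi <;> simp [hi])]
  rfl

theorem good_deg {Φ : (ℕ → ℝ) → X} (h : Continuous Φ) {i : ℕ}
    (h' : ∀ p p', (∀ j, j ≠ i → p j = p' j) → Φ p = Φ p') (c : Cell) :
    Good univ ((act c).erase i) (Φ ∘ par c) :=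
  ⟨h.comp (continuous_par c), fun _ => trivial, fun t t' e => h' _ _ fun j hj => by
    unfold par
    split_ifs with h1
    · rw [e j (Finset.mem_erase.2 ⟨hj, mem_act.2 h1⟩)]
    · rfl⟩

theorem pb_shift {H : Type} [AddCommGroup H] (u : ((ℕ → I) → X) → Finset ℕ → H) {Φ : (ℕ → ℝ) → X}
    {M P : ℕ} (h : ∀ p p' : ℕ → ℝ, p 0 = 0 → 0 ≤ p 1 → p' 1 = p 1 + M → p' 1 ≤ P →
      (∀ i, i ≠ 1 → p' i = p i) → Φ p' = Φ p) {z : ℤ} {b : Bool} (h0 : 0 ≤ z)
    (h1 : z + M + (if b then 1 else 0) ≤ P) (c : Cell) :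
    pb u Φ ((0, false) :: (z + M, b) :: c) = pb u Φ ((0, false) :: (z, b) :: c) := by
  rw [pb, pb, act_congr (c' := (0, false) :: (z, b) :: c) fun i => by
    rcases i with _ | _ | i <;> rfl]
  congr 1
  funext t
  refine h _ _ (by simp [par]) ((by exact_mod_cast h0 : (0 : ℝ) ≤ z).trans
    (par_mem ((0, false) :: (z, b) :: c) t 1).1) ?_ ?_ fun i hi => ?_
  · cases b
    · simp [par]
    · simp [par]
      ring
  · have : (z : ℝ) + M + (if b then 1 else 0) ≤ P := by exact_mod_cast h1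
    cases b
    · simpa [par] using this
    · simp only [par, gd_succ, gd_zero, if_true] at this ⊢
      push_cast
      linarith [(t (0 + 1)).2.2]
  · rcases i with _ | _ | i
    · rfl
    · exact absurd rfl hi
    · rfl

theorem Obs.tors (h : Obs Y y k a) {N : ℕ} (hN : 1 < N) (χ : PG k Y y →+ ZMod N)
    (α : Ω^ (Fin (k + 2)) Y y) (h0 : N • cls α = 0) {Dd : X → (Fin (k + 3) → I) → X}
    (D : TD B Y o (k + 3) Dd (rs χ a)) (c : Cv B cv) (ho : o ∈ B) (c' : Cv B' cv') (hY : Y ⊆ B')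
    (hD : ∀ κ, Dd o κ = cn cv' α κ) {g : (Fin (k + 3) → I) → X} (g1 : Continuous g)
    (g2 : ∀ κ, g κ ∈ B) (g3 : ∀ x ∈ B, ∀ κ, Dd x κ ∉ Y → g κ = x) {s s' : X → X}
    (s1 : ContinuousOn s B') (s2 : ContinuousOn s' B) (s3 : ∀ x ∈ B', s x ∈ B ∧ s' (s x) = x)
    (s4 : ∀ x ∈ Y, s x ≠ o) (s5 : ∀ x ∈ B, x ≠ o → s' x ∈ Y) : False := by
  have : NeZero N := ⟨by omega⟩
  have : Fact (1 < N) := ⟨hN⟩
  let v : ((ℕ → I) → X) → Finset ℕ → ℤ := fun T J => (dS (rs χ a) T J).val
  let ζ : ((ℕ → I) → X) → Finset ℕ → ℤ := fun T J => dS v T J / N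
  let ζ' : ((ℕ → I) → X) → Finset ℕ → ZMod N := fun T J => ζ T J
  have v1 : ∀ Φ c, ((pb v Φ c : ℤ) : ZMod N) = pb (dS (rs χ a)) Φ c := fun Φ c => by simp [pb, v]
  have z0 : ∀ Φ c, N * pb ζ Φ c = dl (pb v Φ) c := fun Φ c => by
    have e : ((dl (pb v Φ) c : ℤ) : ZMod N) = 0 := by
      have := dl_hom (Int.castAddHom (ZMod N)) (pb v Φ) c
      simp only [Int.coe_castAddHom, v1, ← dl_pb] at this
      exact this.symm.trans (dl_dl _ _)
    rw [dl_pb] at e ⊢
    exact Int.mul_ediv_cancel' ((ZMod.intCast_zmod_eq_zero_iff_dvd _ _).1 e)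
  have z1 : ∀ Φ c, dl (pb ζ' Φ) c = 0 := fun Φ c => by
    have e : (N : ℤ) * dl (pb ζ Φ) c = 0 := by
      rw [← dl_dl (pb v Φ) c, ← funext (z0 Φ)]
      exact (dl_hom (AddMonoidHom.mulLeft (N : ℤ)) _ c).symm
    refine (dl_hom (Int.castAddHom (ZMod N)) (pb ζ Φ) c).trans ?_
    rw [(mul_eq_zero.1 e).resolve_left (by exact_mod_cast NeZero.ne N), map_zero]
  have v2 : ∀ T J, Good Y J T → v T J = 0 := fun T J g => by simp [v, h.rs_cyc χ T J g]
  have z2 : ∀ T J, Good Y J T → ζ' T J = 0 := fun T J g => by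
    simp [ζ', ζ, dS, v2 _ _ (g.face _ _)]
  have z3 : ∀ T J i, i ∈ J → Good univ (J.erase i) T → ζ' T J = 0 := fun T J i hi g => by
    simp only [ζ', ζ]
    rw [dS_deg (fun T J i hi g => by
      simp only [v]
      rw [dS_deg (fun T J i hi g => by
        unfold rs
        split_ifs with h1
        · rw [h.deg T J i hi ⟨g.cont, h1, g.dep⟩, map_zero]
        · rfl) T J i hi g]
      simp) T J i hi g]
    simp
  have z4 : ∀ T J, J.card ≠ k + 4 → ζ' T J = 0 := fun T J hJ => by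
    simp only [ζ', ζ]
    rw [dS_card (m := k + 3) (fun T J hJ => by
      simp only [v]
      rw [dS_card (m := k + 2) (fun T J hJ => by simp [rs, h.card T J hJ]) T J hJ]
      simp) T J hJ]
    simp
  obtain ⟨ν, n1, n2, n3⟩ := h.exists_nu α (by omega : 0 < N) h0
  let Λ₀ : (Fin (k + 4) → I) → X := fun x => cv' (ν (Fin.init x)) y (x (Fin.last _))
  have m1 : Continuous Λ₀ := c'.comp (continuous_subtype_val.comp (n1.comp (by fun_prop)))
    continuous_const (by fun_prop) (fun _ => hY (Subtype.property _)) fun _ => hY y.2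
  have m2 : ∀ x, Λ₀ x ∈ B' := fun _ => c'.mem _ (hY (Subtype.property _)) _ (hY y.2) _
  have m3 : ∀ x i b, x i = bI b → i ≠ 0 ∨ b = true → ∃ x', Λ₀ x = ν x' := fun x i b hx hi => by
    have e := n3 1 0 true rfl (Or.inr rfl)
    rcases Fin.eq_castSucc_or_eq_last i with ⟨j, rfl⟩ | rfl
    · exact ⟨1, by simp only [Λ₀]; rw [n3 _ j b hx (by simpa using hi), c'.self (hY y.2), e]⟩
    · cases b
      · exact ⟨_, by simp only [Λ₀]; rw [hx]; exact c'.zero _ (hY (Subtype.property _)) _ (hY y.2)⟩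
      · exact ⟨1, by
          simp only [Λ₀]; rw [hx, e]; exact c'.one _ (hY (Subtype.property _)) _ (hY y.2)⟩
  obtain ⟨δ, hδ, hδ'⟩ := isCompact_univ.exists_forall_le' (a := 0) (f := fun x => dist (s (ν x)) o)
    ((s1.comp_continuous (continuous_subtype_val.comp n1) fun x => hY (ν x).2).dist
      continuous_const).continuousOn fun x _ => dist_pos.2 (s4 _ (ν x).2)
  have m4 : Continuous fun x => s (Λ₀ x) := s1.comp_continuous m1 m2
  obtain ⟨M, hM, hM'⟩ := exists_mesh (CompactSpace.uniformContinuous_of_continuous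
    ((m4.comp continuous_fst).prodMk (g1.comp continuous_snd))) (by positivity : 0 < δ / 5)
  have hM0 : (0 : ℝ) < M := by exact_mod_cast hM
  have hN0 : (0 : ℝ) < N := by positivity
  let Ks := N * M :: List.replicate (k + 2) M
  let Qs := List.replicate (k + 3) M
  have hK : ∀ M' ∈ Ks, M ≤ M' := by
    simp only [Ks, List.mem_cons]
    rintro _ (rfl | h1)
    exacts [Nat.le_mul_of_pos_left _ (by omega), (List.eq_of_mem_replicate h1).ge]
  let Φ : (ℕ → ℝ) → X := fun p => Λ₀ (sc 0 (M :: Ks) (k + 4) p)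
  have f1 : Continuous Φ := m1.comp (by fun_prop)
  have f2 : ∀ p p', (∀ i < k + 4, p i = p' i) → Φ p = Φ p' := fun p p' e =>
    congrArg Λ₀ (funext fun i => by simp only [sc]; rw [e _ (by omega)])
  have f3 : ∀ p : ℕ → ℝ, p 0 = 0 → 0 ≤ p 1 → p 1 ≤ (N * M : ℕ) → Φ p = cv' (per α (p 1 / M)
      fun i => pI (p (i + 1) / M)) y (pI (p (k + 3) / M)) := fun p e0 e1 e2 => by
    simp only [Φ, Λ₀]
    rw [n2 _ (by simp [Fin.init, sc, e0, pI_of_le])]
    congr 2
    · have : (N : ℝ) * Fin.init (sc 0 (M :: Ks) (k + 4) p) 1 = p 1 / M := by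
        change (N : ℝ) * pI (p 1 / (N * M : ℕ)) = _
        rw [pI_coe (by positivity) ((div_le_one (by positivity)).2 e2)]
        push_cast
        field_simp
      rw [this, per, per]
      congr 1
      funext i
      refine Fin.cases (by simp) (fun i => ?_) i
      simp [Fin.tail, Fin.init, sc, Ks]
    · simp [sc, Ks]
  have f4 : ∀ p p' : ℕ → ℝ, p 0 = 0 → 0 ≤ p 1 → p' 1 = p 1 + M → p' 1 ≤ (N * M : ℕ) →
      (∀ i, i ≠ 1 → p' i = p i) → Φ p' = Φ p := fun p p' e0 e1 e2 e3 e4 => by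
    rw [f3 p e0 e1 (by linarith), f3 p' ((e4 0 (by simp)).trans e0) (by linarith) e3, e2,
      e4 (k + 3) (by omega), add_div, div_self hM0.ne', per, per, Int.fract_add_one]
    congr 3
    funext i
    refine Fin.cases (by simp) (fun i => ?_) i
    simp [e4]
  have f5 : ∀ e : Cell, ((∃ κ, e = ((M : ℤ), false) :: κ) ∨ ∃ z κ, e = (z, true) :: κ ∧ OnB Ks κ) →
      ∀ t, ∃ x', Φ (par e t) = ν x' := by
    rintro _ (⟨κ, rfl⟩ | ⟨z, κ, rfl, hκ⟩) t
    · exact m3 _ 0 true (pI_of_ge (by simp [par, hM0.ne'])) (Or.inr rfl)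
    · obtain ⟨i, -, b, hb⟩ := (bd_univ (ι := Fin (k + 3))).ge
        (hκ.sc (fun M' h => hM.trans_le (hK M' h)) [(z, true)] (by simp [Ks]) t)
      exact m3 _ i.succ b (by simpa [sc, add_comm] using hb) (Or.inl i.succ_ne_zero)
  have per' : ∀ {H : Type} [AddCommGroup H] {u : Cell → H}, (∀ z : ℕ, z + M < N * M → ∀ κ,
      u ((0, false) :: (z + M, true) :: κ) = u ((0, false) :: (z, true) :: κ)) →
      (∀ e, ((∃ κ, e = ((M : ℤ), false) :: κ) ∨ ∃ z κ, e = (z, true) :: κ ∧ OnB Ks κ) →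
        e.length = k + 4 → u e = 0) →
      bsum (M :: Ks) (dl u) = -(N • bsum Qs fun κ => u ((0, false) :: κ)) := fun h1 h2 => by
    rw [stokes_first M fun z κ hκ => h2 _ (Or.inr ⟨z, κ, rfl, hκ⟩) (by simp [hκ.1, Ks]),
      bsum_zero fun κ hκ => h2 _ (Or.inl ⟨κ, rfl⟩) (by simp [hκ.length_eq, Ks]), zero_sub]
    exact congrArg _ (sum_periodic _ M N fun z hz => by push_cast; simp only [h1 z hz])
  have k1 := per' (u := pb v Φ) (fun z hz κ => pb_shift _ f4 (by simp) (by
    simp only [if_true]; exact_mod_cast hz) κ) fun e he _ => v2 _ _ (good_par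
      (f1.comp (continuous_par _)) fun t => by obtain ⟨x', e⟩ := f5 e he t; rw [e]; exact (ν _).2)
  rw [← funext (z0 Φ), show bsum (M :: Ks) (fun c => N * pb ζ Φ c) = N * bsum (M :: Ks) (pb ζ Φ) from
    bsum_hom (AddMonoidHom.mulLeft (N : ℤ)) _ _, nsmul_eq_mul,
    ← mul_neg, mul_right_inj' (by exact_mod_cast NeZero.ne N)] at k1
  have k2 : bsum (M :: Ks) (pb ζ' Φ) = -1 := by
    refine (bsum_hom (Int.castAddHom (ZMod N)) _ (pb ζ Φ)).trans ?_
    rw [k1, map_neg, ← bsum_hom, ← D.tot [(0, false)] M rfl hM]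
    refine congrArg _ (bsum_congr fun κ hκ => (v1 _ _).trans (congrArg (dS _ · _) (funext fun t => ?_)))
    obtain ⟨⟨z, b⟩, κ', ⟨-, b1, b2⟩, -, rfl⟩ := List.forall₂_cons_right_iff.1 hκ
    have b3 := par_mem ((0, false) :: (z, b) :: κ') t 1
    have b4 : (0 : ℝ) ≤ z := by exact_mod_cast b1
    have b5 : (z : ℝ) + 1 ≤ M := by exact_mod_cast b2
    simp only [gd_succ, gd_zero] at b3
    have b6 : (M : ℝ) ≤ (N * M : ℕ) := by exact_mod_cast Nat.le_mul_of_pos_left _ (by omega)
    rw [comp_apply, f3 _ (by simp [par]) (by linarith [b3.1]) (by linarith [b3.2]), comp_apply, hD]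
    have b7 := per_int α 0 (pI (par ((0, false) :: (z, b) :: κ') t 1 / M))
    rw [pI_coe (div_nonneg (by linarith [b3.1]) hM0.le) ((div_le_one hM0).2 (by linarith [b3.2])),
      Int.cast_zero, zero_add] at b7
    rw [b7, cn]
    have b8 : ∀ i : Fin (k + 3), (List.replicate (k + 3) M).getD i 0 = M := fun i =>
      List.getD_replicate _ i.2
    congr 2
    · congr 1
      funext i
      simp only [Fin.init, sc, b8]
      refine Fin.cases ?_ (fun i => ?_) i <;> simp [add_comm]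
    · simp only [b8]
      simp [show 1 + (k + 2) = k + 3 by ring]
  let Λ : (ℕ → ℝ) → X := fun p => s (Φ p)
  have l2 : ∀ p, Λ p ∈ B := fun p => (s3 _ (m2 _)).1
  have l1 : Continuous Λ := m4.comp (by fun_prop)
  let Δ : I → (ℕ → ℝ) → X := fun r p => s' (cv (Λ p) (g (sc (k + 4) Qs (k + 3) p)) r)
  have d1 : Continuous (pr (k + 4 + (k + 3)) Δ) := s2.comp_continuous (c.comp (l1.comp (by fun_prop))
    (g1.comp (by fun_prop)) (by fun_prop) (fun _ => l2 _) fun _ => g2 _)
    fun _ => c.mem _ (l2 _) _ (g2 _) _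
  let w := thc (pb ζ' (pr (k + 4 + (k + 3)) Δ))
    (pb (dS (rs χ a)) fun p => Dd (Λ p) (sc (k + 4) Qs (k + 3) p)) Qs
  have k3 : ∀ e, e.length = k + 4 → dim e = k + 4 → dl w e = pb ζ' Φ e := by
    refine fun e => D.thom (z := pb ζ' Φ) c ho hM l1 l2 (fun p p' e => congrArg s (f2 p p' e))
      (z1 _) (fun e κ he hκ => ?_) (fun e κ he hκ => ?_) fun e he =>
        z4 _ _ (by rw [card_act]; omega)
    · rw [pb, pr_one _ (by simp [he, hκ]), act_vertex (κ := [(1, false)]) _ rfl]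
      rcases (act e).eq_empty_or_nonempty with h1 | ⟨i, hi⟩
      · refine z4 _ _ ?_
        have := dim_le κ
        rw [card_act, dim_append, ← card_act, h1, Finset.card_empty]
        omega
      · rw [show Δ 1 = fun p => s' (g (sc (k + 4) Qs (k + 3) p)) from funext fun p =>
          congrArg s' (c.one _ (l2 _) _ (g2 _))]
        refine z3 _ _ i (act_left _ _ hi) (good_deg (s2.comp_continuous (g1.comp (by fun_prop))
          fun _ => g2 _) (fun p p' e => congrArg (s' ∘ g) (funext fun j => ?_)) _)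
        have := lt_of_act hi
        simp only [sc]
        rw [e _ (by omega)]
    · rw [pb, pr_zero _ (by simp [he, hκ]), act_vertex (κ := [(0, false)]) _ rfl,
        show Δ 0 = Φ from funext fun p =>
          (congrArg s' (c.zero _ (l2 _) _ (g2 _))).trans (s3 _ (m2 _)).2]
      split_ifs with h1
      · rw [act_vertex _ h1, pb]
        exact congrArg (ζ' · _) (funext fun t => f2 _ _ fun i hi => par_left _ _ (he ▸ hi))
      · obtain ⟨j, hj⟩ := Finset.card_ne_zero.1 ((card_act κ).trans_ne h1)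
        exact z3 _ _ (e.length + j) (mem_act.2 (by rw [gd_right]; exact mem_act.1 hj))
          (good_deg f1 (fun p p' e => f2 _ _ fun i hi => e i (by omega)) _)
  have sh : ∀ p p' : ℕ → ℝ, (∀ i, i ≠ 1 → p' i = p i) →
      sc (k + 4) Qs (k + 3) p' = sc (k + 4) Qs (k + 3) p := fun p p' e =>
    funext fun i => by simp only [sc]; rw [e _ (by omega)]
  have sh1 := fun (z : ℤ) (b : Bool) => pb_shift (M := M) (P := N * M) (z := z) (b := b) ζ'
    (Φ := pr (k + 4 + (k + 3)) Δ) fun p p' e0 e1 e2 e3 e4 => by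
      simp only [pr, Δ, Λ]
      rw [e4 _ (by omega), f4 (update p (k + 4 + (k + 3)) 0) (update p' (k + 4 + (k + 3)) 0)
        (by rwa [update_of_ne (by omega)]) (by rwa [update_of_ne (by omega)])
        (by rwa [update_of_ne (by omega), update_of_ne (by omega)])
        (by rwa [update_of_ne (by omega)])
        fun i hi => by simp [update_apply, e4 i hi],
        sh (update p (k + 4 + (k + 3)) 0) _ fun i hi => by simp [update_apply, e4 i hi]]
  have sh2 := fun (z : ℤ) (b : Bool) => pb_shift (M := M) (P := N * M) (z := z) (b := b)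
    (dS (rs χ a)) (Φ := fun p => Dd (Λ p) (sc (k + 4) Qs (k + 3) p)) fun p p' e0 e1 e2 e3 e4 => by
      simp only [Λ]
      rw [f4 p p' e0 e1 e2 e3 e4, sh p p' e4]
  have k4 := per' (u := w) (fun z hz κ => by
    have hz' : (z : ℤ) + M + 1 ≤ (N * M : ℕ) := by exact_mod_cast hz
    exact thc_shift _ _ _ (fun b => sh1 z b (by simp) (by split_ifs <;> omega))
      (sh2 z true (by simp) (by simpa using hz')) (by
        rw [add_right_comm]
        exact sh2 (z + 1) false (by omega) (by simp only [Bool.false_eq_true, if_false]; omega))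
      rfl) fun e he hl => thc_zero fun κ hκ => by
    by_cases hy : ∀ t, Dd (Λ (par (e ++ κ) t)) (sc (k + 4) Qs (k + 3) (par (e ++ κ) t)) ∈ Y
    · exact Or.inr fun f hf => D.cyc _ _ (good_faces (fun t => ⟨rfl, hy t⟩)
        (D.comp l1 (by fun_prop) l2) f hf)
    obtain ⟨t₀, hy⟩ := not_forall.1 hy
    refine Or.inl fun f hf => z2 _ _ (good_faces (c := e ++ κ ++ [(0, true)]) (fun t => ⟨rfl, ?_⟩)
      d1 _ (hf.append Face.rfl))
    rw [pr_par _ (by simp [hl, hκ.length_eq, Qs])]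
    refine s5 _ (c.mem _ (l2 _) _ (g2 _) _) fun e0 => ?_
    have a1 := c.dist _ (l2 (par (e ++ κ) t)) _ (g2 (sc (k + 4) Qs (k + 3) (par (e ++ κ) t)))
    have a2 := hM' (sc 0 (M :: Ks) (k + 4) (par (e ++ κ) t), sc (k + 4) Qs (k + 3) (par (e ++ κ) t))
      (sc 0 (M :: Ks) (k + 4) (par (e ++ κ) t₀), sc (k + 4) Qs (k + 3) (par (e ++ κ) t₀)) (max_le
        (dist_sc (by simpa using hK) hM (by simp [Ks]) _ _ _)
        (dist_sc (fun _ h => (List.eq_of_mem_replicate h).ge) hM (by simp) _ _ _))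
    have a3 : dist (Λ (par (e ++ κ) t)) (Λ (par (e ++ κ) t₀)) < δ / 5 :=
      (le_max_left _ _).trans_lt a2
    have a4 : dist (g (sc (k + 4) Qs (k + 3) (par (e ++ κ) t))) (g (sc (k + 4) Qs (k + 3)
      (par (e ++ κ) t₀))) < δ / 5 := (le_max_right _ _).trans_lt a2
    rw [g3 _ (l2 _) _ hy] at a4
    obtain ⟨x', a5⟩ := f5 e he t
    have a6 : Λ (par (e ++ κ) t) = s (ν x') :=
      congrArg s ((f2 _ _ fun i hi => par_left _ _ (hl ▸ hi)).trans a5)
    have a7 := a1 (pI ((0 : ℤ) + if true = true then (t (k + 4 + (k + 3)) : ℝ) else 0))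
    rw [e0, dist_comm, a6] at a7
    rw [a6] at a3
    linarith [hδ' x' trivial, dist_triangle_right (s (ν x'))
      (g (sc (k + 4) Qs (k + 3) (par (e ++ κ) t))) (Λ (par (e ++ κ) t₀))]
  rw [bsum_congr fun κ hκ => k3 κ (by simp [hκ.length_eq, Ks]) (by simp [hκ.dim, Ks]), k2,
    nsmul_eq_mul, ZMod.natCast_self, zero_mul, neg_inj] at k4
  exact one_ne_zero k4

theorem Obs.fg (h : Obs Y y k a) (c : Cv B cv) (hY : Y ⊆ B) {S : Set X} (hS : IsCompact S)
    (hS' : S ⊆ Y) (hy : y.1 ∈ S) {η : ℝ} (hη : 0 < η)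
    (h1 : ∀ x ∈ S, ∀ w ∈ B, dist w x ≤ η → w ∈ Y)
    (h2 : ∀ g, ∃ α : Ω^ (Fin (k + 2)) Y y, cls α = g ∧ ∀ t, (α t).1 ∈ S) :
    AddGroup.FG (PG k Y y) := by
  classical
  obtain ⟨ε, hε, rfl⟩ : ∃ ε > 0, η = 2 * (5 ^ (k + 2) * (2 * ε)) :=
    ⟨η / (4 * 5 ^ (k + 2)), by positivity, by field_simp; ring⟩
  obtain ⟨T, t0, t1, t2⟩ := finite_cover_balls_of_compact hS hε
  have := (t1.insert y.1).to_subtype
  have hT : ∀ x : ↥(insert y.1 T), x.1 ∈ B := fun x =>
    hY (hS' (x.2.elim (fun e => by rw [e]; exact hy) fun e => t0 e))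
  obtain ⟨l, l1, l2⟩ : ∃ l : X → ↥(insert y.1 T), (l y).1 = y ∧ ∀ x ∈ S, dist (l x).1 x ≤ ε := by
    have : ∀ x : X, ∃ w : ↥(insert y.1 T), (x = y → w.1 = y) ∧ (x ∈ S → dist w.1 x ≤ ε) := fun x => by
      by_cases e : x = y
      · exact ⟨⟨y, Or.inl rfl⟩, fun _ => rfl, fun _ => by simp [e, hε.le]⟩
      by_cases e' : x ∈ S
      · obtain ⟨w, w1, w2⟩ := mem_iUnion₂.1 (t2 e')
        exact ⟨⟨w, Or.inr w1⟩, fun h => absurd h e, fun _ => (mem_ball'.1 w2).le⟩
      · exact ⟨⟨y, Or.inl rfl⟩, fun _ => rfl, fun h => absurd h e'⟩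
    choose l l1 l2 using this
    exact ⟨l, l1 y rfl, l2⟩
  let F := Fintype.piFinset fun _ : Fin (k + 2) => Finset.Icc (0 : ℤ) 2
  let G : (F → ↥(insert y.1 T)) → PG k Y y := fun u => pb a (fun p => lam cv
    (fun w => if h : (fun i : Fin (k + 2) => w i) ∈ F then (u ⟨_, h⟩).1 else y) (k + 2) p 0)
    (List.replicate (k + 2) (0, true))
  refine (AddGroup.fg_iff.2 ⟨range G, eq_top_iff.2 fun g _ => ?_, finite_range G⟩)
  obtain ⟨α, rfl, hα⟩ := h2 g
  have hc : Continuous fun t => (α t).1 := continuous_subtype_val.comp α.1.continuous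
  obtain ⟨M, hM, hM'⟩ := exists_mesh (CompactSpace.uniformContinuous_of_continuous hc) hε
  have hM0 : (0 : ℝ) < M := by exact_mod_cast hM
  let Ms := List.replicate (k + 2) M
  have hp : ∀ M' ∈ Ms, 0 < M' := fun _ h => List.eq_of_mem_replicate h ▸ hM
  have b8 : ∀ i : Fin (k + 2), Ms.getD i 0 = M := fun i => List.getD_replicate _ i.2
  let v : (ℕ → ℤ) → X := fun w => l (α (sc 0 Ms (k + 2) fun i => w i))
  have v1 : ∀ w, v w ∈ B := fun w => hT _
  have d1 : ∀ p, dist (lam cv v (k + 2) p 0) (α (sc 0 Ms (k + 2) p)) ≤ 5 ^ (k + 2) * (2 * ε) :=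
    fun p => by
    refine (c.lam_dist v1 (η := 2 * ε) fun w w1 _ => ?_).trans (mul_le_mul_of_nonneg_right
      (pow_le_pow_right₀ (by norm_num) (by simpa using dim_le (cellOf (k + 2) p))) (by positivity))
    have := hM' (sc 0 Ms (k + 2) fun i => w i) (sc 0 Ms (k + 2) p)
      ((dist_pi_le_iff (by positivity)).2 fun i => by
        refine ((LipschitzWith.projIcc (zero_le_one (α := ℝ))).dist_le_mul _ _).trans ?_
        rw [NNReal.coe_one, one_mul, Real.dist_eq, ← sub_div, abs_div, b8, Nat.abs_cast, zero_add]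
        exact div_le_div_of_nonneg_right (w1 i i.2).le hM0.le)
    linarith [l2 _ (hα (sc 0 Ms (k + 2) fun i => w i)),
      dist_triangle (v w) (α (sc 0 Ms (k + 2) fun i => w i)) (α (sc 0 Ms (k + 2) p))]
  let Δ : I → (ℕ → ℝ) → X := fun s p => cv (α (sc 0 Ms (k + 2) p)) (lam cv v (k + 2) p 0) s
  have m1 := fun t => hY (α t).2
  have m2 := fun p => c.lam_mem v1 (k + 2) p 0
  have m3 : ∀ L, Continuous (pr L Δ) := fun L => c.comp
    (f := fun p => α (sc 0 Ms (k + 2) (update p L 0)))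
    (g := fun p => lam cv v (k + 2) (update p L 0) 0) (hc.comp (by fun_prop))
    ((c.lam_cont v1 (k + 2) 0).comp (f := fun p : ℕ → ℝ => update p L 0)
      (by fun_prop)) (by fun_prop) (fun _ => m1 _) fun _ => m2 _
  have e := pb_prism (a := a) (Ms := Ms) (e := []) rfl (Δ := Δ)
    (fun z κ hκ => h.const (fun t => by
      rw [comp_apply, pr_par _ (by simp [hκ.1])]
      have e1 : α (sc 0 Ms (k + 2) (par ([] ++ κ) t)) = y := α.2 _ (hκ.sc hp [] (by simp [Ms]) t)
      obtain ⟨i, hi, h3⟩ := hκ.par [] t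
      have hi' : i < k + 2 := by simpa [Ms] using hi
      have e2 := c.lam_dist v1 (N := k + 2) (x := par ([] ++ κ) t) (w := 0) (x₀ := y) (η := 0)
        fun w w1 _ => by
          have w2 := abs_lt.1 (w1 i hi')
          rw [List.length_nil, zero_add, b8 ⟨i, hi'⟩] at h3
          have : α (sc 0 Ms (k + 2) fun i => w i) = y := α.2 _ ⟨⟨i, hi'⟩, h3.imp
            (fun h3 => pI_of_le (div_nonpos_of_nonpos_of_nonneg (by
              have : w i < 1 := by exact_mod_cast (by linarith : (w i : ℝ) < 1)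
              change ((w (0 + i) : ℤ) : ℝ) ≤ 0
              rw [zero_add]
              exact_mod_cast (by omega : w i ≤ 0)) (Nat.cast_nonneg _)))
            fun h3 => pI_of_ge (by
              have : (M : ℤ) - 1 < w i := by exact_mod_cast (by linarith : (M : ℝ) - 1 < w i)
              rw [b8, one_le_div hM0]
              change _ ≤ ((w (0 + i) : ℤ) : ℝ)
              rw [zero_add]
              exact_mod_cast (by omega : (M : ℤ) ≤ w i))⟩
          simp [v, this, l1]
      simp only [Δ]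
      rw [mul_zero, dist_le_zero] at e2
      rw [e1, e2, c.self (hY y.2)]) _)
    fun κ _ => h.cyc _ _ (good_par ((m3 _).comp (continuous_par _)) fun t => h1 _ (hα _) _ (c.mem _ (m1 _) _ (m2 _) _)
        ((c.dist _ (m1 _) _ (m2 _) _).trans (by rw [dist_comm]; linarith [d1 (update
          (par ([] ++ κ ++ [(0, true)]) t) (([] : Cell).length + Ms.length) 0)])))
  rw [show Δ 0 = _ from funext fun p => c.zero _ (m1 _) _ (m2 _),
    show Δ 1 = _ from funext fun p => c.one _ (m1 _) _ (m2 _)] at e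
  rw [← h.subdiv α (e := []) rfl hp (by simp [Ms])]
  refine e ▸ bsum_mem fun κ hκ => AddSubgroup.subset_closure
    ⟨fun j => l (α (sc 0 Ms (k + 2) fun i => ((gd κ i).1 + if h : i < k + 2 then j.1 ⟨i, h⟩ else 0 :
      ℤ))), ?_⟩
  have g1 : ∀ i < k + 2, gd (List.replicate (k + 2) (0, true)) i = (0, true) := fun i hi =>
    List.getD_replicate _ hi
  have g2 : ∀ i < k + 2, (gd κ i).2 = true := fun i hi => by
    have := (List.forall₂_iff_get.1 hκ).2 i (by simpa [hκ.length_eq, Ms] using hi)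
      (by simpa [Ms] using hi)
    rw [gd, List.getD_eq_getElem _ _ (by simpa [hκ.length_eq, Ms] using hi)]
    exact this.1
  simp only [G, pb, List.nil_append]
  rw [act_congr (c' := κ) fun i => by
    rcases lt_or_ge i (k + 2) with hi | hi
    · rw [g1 i hi, g2 i hi]
    · rw [gd_of_le (by simpa using hi), gd_of_le (by simpa [hκ.length_eq, Ms] using hi)]]
  congr 1
  funext t
  refine (lam_shift (fun i hi => by simp [par, g1 i hi, g2 i hi]) fun u u' e1 _ => ?_).symm
  have e2 : ∀ i < k + 2, u i = (gd κ i).1 + u' i ∧ u' i ∈ Icc 0 2 := fun i hi => by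
    have := e1 i hi
    simp only [par, g1 i hi, g2 i hi, if_true, Int.floor_intCast_add, Int.cast_zero, zero_add,
      mem_Icc] at this ⊢
    have h3 : 0 ≤ ⌊(t i : ℝ)⌋ := Int.floor_nonneg.2 (t i).2.1
    have h4 : ⌊(t i : ℝ)⌋ ≤ 1 := by simpa using Int.floor_le_floor (t i).2.2
    omega
  rw [dif_pos (by simpa [F] using fun i : Fin (k + 2) => (e2 i i.2).2)]
  simp only [v]
  congr 4
  funext i
  simp only [sc, zero_add, dif_pos i.2, (e2 i i.2).1]

end Pool.Agent.P.MP_07c576_gt
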